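import Pool.Agent.P.MP_5c499f_an.GLift
import Pool.Agent.P.MP_5c499f_an.Top
import Pool.Agent.P.MP_5c499f_an.GDefs

-- part Pool.Agent.P.MP_5c499f_an.XAmb
section

/-! Internal interfaces. -/

set_option autoImplicit false

namespace Pool.Agent.P.MP_5c499f_an

open Filter Topology Metric MeasureTheory Matrix

/-- Parameter space of discs. -/
abbrev XX (u : ℕ) : Type := Fin u → ℝ

/-- Ambient space. -/
abbrev VV (N : ℕ) : Type := EuclideanSpace ℝ (Fin N)

/-- The standard basis of the parameter space. -/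
def bas (u : ℕ) (j : Fin u) : XX u := Pi.single j 1

/-- The determinant of covectors evaluated on vectors. -/
noncomputable def dt {W : Type*} [NormedAddCommGroup W] [NormedSpace ℝ W] {k : ℕ}
    (ξ : Fin k → W →L[ℝ] ℝ) (w : Fin k → W) : ℝ := (Matrix.of fun i j => ξ i (w j)).det

/-- The `p`-th coordinate of the ambient space. -/
noncomputable def crd {N : ℕ} (p : Fin N) : VV N →L[ℝ] ℝ := EuclideanSpace.proj p

/-- The `p`-th basis vector of the ambient space. -/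
noncomputable def evec {N : ℕ} (p : Fin N) : VV N := EuclideanSpace.single p 1

section Analysis

variable {u : ℕ}

/-- Upper bound for the volume of the seminorm family `Nn` on `K`. -/
def VolLe (K : Set (XX u)) (Nn : XX u → XX u → ℝ) (W : ℝ) : Prop :=
  ∀ ξ : XX u → Fin u → XX u →L[ℝ] ℝ, (∀ b ∈ K, ∀ i v, |ξ b i v| ≤ Nn b v) →
    ∫⁻ b in K, ENNReal.ofReal |dt (ξ b) (bas u)| ≤ ENNReal.ofReal W

/-- The weighted Jacobian integral. -/
noncomputable def Jac (K : Set (XX u)) (χ φ : XX u → ℝ) (g : Fin u → XX u → ℝ) : ℝ :=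
  ∫ b in K, χ b * φ (fun i => g i b) * dt (fun i => fderiv ℝ (g i) b) (bas u)

/-- A cut-off function vanishing outside the compact subset `K` of the open set `B`. -/
structure Cut (B K : Set (XX u)) (χ : XX u → ℝ) : Prop where
  op : IsOpen B
  cpt : IsCompact K
  sub : K ⊆ B
  c1 : ContDiff ℝ 1 χ
  zero : ∀ b, b ∉ K → χ b = 0

/-- A one parameter group of matrices, block diagonal for the weights `ρ`. -/
structure Wt {d : ℕ} (L : ℤ → Matrix (Fin d) (Fin d) ℝ) (ρ : Fin d → ℝ) : Prop where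
  pos : ∀ k, 0 < ρ k
  zero : L 0 = 1
  add : ∀ m n, L (m + n) = L m * L n
  blk : ∀ n k j, ρ j ≠ ρ k → L n k j = 0
  bd : ∀ θ, 0 < θ → ∃ C, ∀ (n : ℤ) k j, |L n k j| ≤ C * ρ k ^ n * (1 + θ) ^ n.natAbs

/-- The data on a disc. -/
structure DD {d : ℕ} (B K : Set (XX u)) (χ : XX u → ℝ) (Nn : ℕ → XX u → XX u → ℝ)
    (L : ℤ → Matrix (Fin d) (Fin d) ℝ) (ρ : Fin d → ℝ) (j : ℕ → XX u → Fin d → ℝ)
    (G : XX u → Fin d → ℝ) (H lam C : ℝ) : Prop where
  cut : Cut B K χ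
  wt : Wt L ρ
  H_pos : 0 < H
  lam_pos : 0 < lam
  lam_lt : lam < 1
  C_pos : 0 < C
  vol : ∀ n, VolLe K (Nn n) (C * H ^ n)
  expd : ∀ n, ∀ b ∈ K, ∀ v, ‖v‖ ≤ C * lam ^ n * Nn n b v
  c1 : ∀ n k, ContDiffOn ℝ 1 (fun b => j n b k) B
  der : ∀ n k, ∀ b ∈ K, ∀ v, |fderiv ℝ (fun b => j n b k) b v| ≤ C * Nn n b v
  der' : ∀ n k, ∀ b ∈ K, ∀ v, |fderiv ℝ (fun b => j (n + 1) b k) b v| ≤ C * Nn n b v
  step : ∀ n, ∀ b ∈ K, ‖j (n + 1) b - L 1 *ᵥ j n b‖ ≤ C
  lim : ∀ k, 1 < ρ k →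
    TendstoUniformlyOn (fun (n : ℕ) b => (L (-(n : ℤ)) *ᵥ j n b) k) (fun b => G b k) atTop K

/-- The image of `K` under `G` has a small covering rate. -/
def Thin {d : ℕ} (K : Set (XX u)) (L : ℤ → Matrix (Fin d) (Fin d) ℝ) (G : XX u → Fin d → ℝ)
    (H : ℝ) : Prop :=
  ∃ (q C : ℝ) (l : ℕ), 0 < q ∧ q < 1 ∧ 0 < l ∧ ∀ t : ℕ, ∃ E : Finset (Fin d → ℝ),
    (E.card : ℝ) ≤ C * (q * H) ^ (t * l) ∧
      ∀ b ∈ K, ∃ z ∈ E, ∃ w, ‖w‖ ≤ C ∧ G b = z + L (-((t * l : ℕ) : ℤ)) *ᵥ w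

end Analysis

section Ambient

variable {M : Type*} [MetricSpace M] {N u : ℕ}

/-- The ambient derivative of the `n`-th iterate. -/
noncomputable def Dn (e : M → VV N) (r : VV N → M) (g : M → M) (n : ℕ) (y : VV N) :
    VV N →L[ℝ] VV N := fderiv ℝ (e ∘ g^[n] ∘ r) y

/-- The ambient differential of a function on `M`. -/
noncomputable def Dm {W : Type*} [NormedAddCommGroup W] [NormedSpace ℝ W] (e : M → VV N)
    (r : VV N → M) (a : M → W) (x : M) : VV N →L[ℝ] W := fderiv ℝ (a ∘ r) (e x)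

/-- An Anosov map read in an ambient Euclidean space through a retraction. -/
structure Amb (e : M → VV N) (r : VV N → M) (U : Set (VV N)) (g : Equiv.Perm M)
    (Pr : M → VV N →L[ℝ] XX u) (Io : M → XX u →L[ℝ] VV N) (C₀ a : ℝ) : Prop where
  iso : ∀ x y, dist x y = ‖e x - e y‖
  op : IsOpen U
  sub : ∀ x, e x ∈ U
  ret : ∀ x, r (e x) = x
  c1 : ContDiffOn ℝ 1 (e ∘ r) U
  cg : ContDiffOn ℝ 1 (e ∘ g ∘ r) U
  cg' : ContDiffOn ℝ 1 (e ∘ (g⁻¹ : Equiv.Perm M) ∘ r) U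
  one_le : 1 ≤ C₀
  a_pos : 0 < a
  a_le : 10 * C₀ ^ 2 * a ≤ 1
  cont : Continuous fun x => Io x ∘L Pr x
  pr_io : ∀ x b, Pr x (Io x b) = b
  n_pr : ∀ x v, ‖Pr x v‖ ≤ C₀ * ‖v‖
  n_io : ∀ x b, ‖Io x b‖ ≤ C₀ * ‖b‖
  tan : ∀ x b, Dm e r e x (Io x b) = Io x b
  comm : ∀ x v, Io (g x) (Pr (g x) (Dm e r (e ∘ g) x v)) = Dm e r (e ∘ g) x (Io x (Pr x v))
  st : ∀ x v, Pr x v = 0 → ‖Dm e r (e ∘ g) x v‖ ≤ a * ‖v‖
  un : ∀ x b, ‖Io x b‖ ≤ a * ‖Dm e r (e ∘ g) x (Io x b)‖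

/-- Spanning and separated sets grow exactly like `H ^ n`. -/
structure Ent (g : M → M) (H ε δ : ℝ) : Prop where
  one_le : 1 ≤ H
  δ_pos : 0 < δ
  up : ∃ C, ∀ x (n : ℕ), ∃ E : Finset M, (E.card : ℝ) ≤ C * H ^ n ∧
    ∀ y, dist y x ≤ δ → ∃ z ∈ E, ∀ k ≤ n, dist (g^[k] y) (g^[k] z) ≤ ε
  low : ∃ η, 0 < η ∧ ∀ ρ, 0 < ρ → ∃ c, 0 < c ∧ ∀ x (n : ℕ), ∃ E : Finset M,
    c * H ^ n ≤ E.card ∧ (∀ z ∈ E, dist z x ≤ ρ) ∧
      (E : Set M).Pairwise fun z z' => ∃ k ≤ n, η < dist (g^[k] z) (g^[k] z')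

variable (e : M → VV N) (r : VV N → M) (U : Set (VV N)) (g : M → M)
  (Pr : M → VV N →L[ℝ] XX u) (Io : M → XX u →L[ℝ] VV N)

/-- Pointwise cone estimates near the manifold. -/
structure TanE (a σ C : ℝ) : Prop where
  sub : ∀ x y, ‖y - e x‖ ≤ σ → y ∈ U
  cone : ∀ x y (n : ℕ) b, ‖y - e x‖ ≤ σ →
    ‖Dn e r g n y (Io x b) - Io (g^[n] (r y)) (Pr (g^[n] (r y)) (Dn e r g n y (Io x b)))‖ ≤
      a ^ n * ‖Io (g^[n] (r y)) (Pr (g^[n] (r y)) (Dn e r g n y (Io x b)))‖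
  expd : ∀ x y (n : ℕ) b, ‖y - e x‖ ≤ σ → ‖b‖ ≤ C * a ^ n * ‖Dn e r g n y (Io x b)‖
  dec : ∀ x y, ‖y - e x‖ ≤ σ → ∃ β : VV N →L[ℝ] XX u, (∀ w, ‖β w‖ ≤ C * ‖w‖) ∧
    ∀ (n : ℕ) w, ‖Dn e r g n y w - Dn e r g n y (Io x (β w))‖ ≤ C * a ^ n * ‖w‖

/-- `j` is at most the volume element of `T`. -/
def Below {W : Type*} [NormedAddCommGroup W] [NormedSpace ℝ W] (T : XX u →L[ℝ] W) (j : ℝ) : Prop :=
  ∀ S : XX u →L[ℝ] XX u, (∀ v, ‖T v‖ ≤ ‖S v‖) → j ≤ |S.det|

/-- `j` is at least the volume element of `T`. -/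
def Above {W : Type*} [NormedAddCommGroup W] [NormedSpace ℝ W] (T : XX u →L[ℝ] W) (j : ℝ) : Prop :=
  ∀ S : XX u →L[ℝ] XX u, (∀ v, ‖S v‖ ≤ ‖T v‖) → |S.det| ≤ j

/-- Upper bound for the volume of iterated discs. -/
def UpE (H s C : ℝ) : Prop :=
  ∀ x y₀ (n : ℕ) (j : XX u → ℝ), ‖y₀ - e x‖ ≤ s →
    (∀ b ∈ closedBall (0 : XX u) s, Below (Dn e r g n (y₀ + Io x b) ∘L Io x) (j b)) →
    ∫⁻ b in closedBall (0 : XX u) s, ENNReal.ofReal (j b) ≤ ENNReal.ofReal (C * H ^ n)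

/-- Lower bound for the volume of iterated discs. -/
def LowE (H s : ℝ) : Prop :=
  ∀ s', 0 < s' → s' ≤ s → ∃ c, 0 < c ∧ ∀ x y₀ (n : ℕ) (j : XX u → ℝ), ‖y₀ - e x‖ ≤ s →
    (∀ b ∈ closedBall (0 : XX u) s', Above (Dn e r g n (y₀ + Io x b) ∘L Io x) (j b)) →
    ENNReal.ofReal (c * H ^ n) ≤ ∫⁻ b in closedBall (0 : XX u) s', ENNReal.ofReal (j b)

/-- All disc estimates. -/
structure DV (C₀ a H s C : ℝ) : Prop where
  s_pos : 0 < s
  C_pos : 0 < C
  H_pos : 0 < H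
  tan : TanE e r U g Pr Io a ((1 + C₀) * s) C
  up : UpE e r g Io H s C
  low : LowE e r g Io H s

/-- Upper bound for ambient averages of the volume element. -/
def UpA (H s C : ℝ) : Prop :=
  ∀ x (n : ℕ) (j : VV N → ℝ), ContinuousOn j (closedBall (e x) s) →
    (∀ y ∈ closedBall (e x) s, Below (Dn e r g n y ∘L Io x) (j y)) →
    ∫⁻ y in closedBall (e x) s, ENNReal.ofReal (j y) ≤ ENNReal.ofReal (C * H ^ n)

/-- Lower bound for ambient averages of the volume element. -/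
def LowA (H s : ℝ) : Prop :=
  ∀ s', 0 < s' → s' ≤ s → ∃ c, 0 < c ∧ ∀ x (n : ℕ) (j : VV N → ℝ),
    ContinuousOn j (closedBall (e x) s') →
    (∀ y ∈ closedBall (e x) s', Above (Dn e r g n y ∘L Io x) (j y)) →
    ENNReal.ofReal (c * H ^ n) ≤ ∫⁻ y in closedBall (e x) s', ENNReal.ofReal (j y)

/-- The normalised coefficients of the pulled back form. -/
noncomputable def cf (H : ℝ) {m : ℕ} (c : Fin m → M → ℝ) (f : Fin m → Fin u → M → ℝ) (n : ℕ)
    (I : Fin u → Fin N) (y : VV N) : ℝ :=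
  (H ^ n)⁻¹ * ∑ t, c t (g^[n] (r y)) *
    dt (fun i => fderiv ℝ (f t i ∘ g^[n] ∘ r) y) fun j => evec (I j)

/-- A smoothing kernel `ρ` of radius `s` and a compact neighbourhood `K` of the manifold. -/
structure Ker (s : ℝ) (ρ : VV N → ℝ) (K : Set (VV N)) : Prop where
  pos : 0 < s
  smooth : ContDiff ℝ (⊤ : ℕ∞) ρ
  nonneg : ∀ y, 0 ≤ ρ y
  one : ∀ y, ‖y‖ ≤ s / 2 → ρ y = 1
  zero : ∀ y, s ≤ ‖y‖ → ρ y = 0
  cpt : IsCompact K
  mem : ∀ y, y ∈ K ↔ ∃ x, ‖y - e x‖ ≤ s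

/-- An ambient `u`-form along `M`. -/
structure UF (Ψ : M → (XX u →L[ℝ] VV N) → ℝ) : Prop where
  cont : Continuous fun p : M × (XX u →L[ℝ] VV N) => Ψ p.1 p.2
  comp : ∀ x T (S : XX u →L[ℝ] XX u), Ψ x (T ∘L S) = S.det * Ψ x T

/-- The form dominates the volume element in a cone. -/
def Pos (Ψ : M → (XX u →L[ℝ] VV N) → ℝ) : Prop :=
  ∃ κ c, 0 < κ ∧ 0 < c ∧ ∀ x (T : XX u →L[ℝ] VV N),
    (∀ v, ‖T v - Io x (Pr x (T v))‖ ≤ κ * ‖Io x (Pr x (T v))‖) → Above T (c * |Ψ x T|)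

/-- The ambient form with coefficient functions `w`. -/
noncomputable def PsiW (w : (Fin u → Fin N) → VV N → ℝ) (x : M) (T : XX u →L[ℝ] VV N) : ℝ :=
  ∑ I, w I (e x) * dt (fun i => crd (I i)) fun j => T (bas u j)

/-- The ambient form with coefficient functions `w` is closed along `M`. -/
def ClosedW (w : (Fin u → Fin N) → VV N → ℝ) : Prop :=
  ∀ (x : M) (v : Fin (u + 1) → VV N),
    ∑ I, dt (Fin.cons (fderiv ℝ (w I) (e x)) fun i => crd (I i) : Fin (u + 1) → VV N →L[ℝ] ℝ) v = 0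

/-- The ambient form `∑ c da₁ ∧ … ∧ da_u`. -/
noncomputable def PsiF {m : ℕ} (c : Fin m → M → ℝ) (a : Fin m → Fin u → M → ℝ) (x : M)
    (T : XX u →L[ℝ] VV N) : ℝ :=
  ∑ t, c t x * dt (fun i => Dm e r (a t i) x) fun j => T (bas u j)

/-- Ambient version of generation by angle forms. -/
def CupAmb (u : ℕ) : Prop :=
  ∀ w : (Fin u → Fin N) → VV N → ℝ, (∀ I, ContDiff ℝ (⊤ : ℕ∞) (w I)) → ClosedW e w →
    ∃ (m : ℕ) (c : Fin m → ℝ) (θ : Fin m → Fin u → M → ℂ),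
      (∀ t i, ContDiffOn ℝ 1 (θ t i ∘ r) U ∧ ∀ x, θ t i x ≠ 0) ∧
      ∀ x (T : XX u →L[ℝ] VV N), (∀ v, Dm e r e x (T v) = T v) → PsiW e w x T =
        ∑ t, c t * (Matrix.of fun i j => (Dm e r (θ t i) x (T (bas u j)) / θ t i x).im).det

/-- Functions on the cover which are differentiable along discs, with controlled derivative. -/
def Ctl {Y : Type*} [TopologicalSpace Y] (ep : Y → VV N) (u : ℕ) (h : Y → ℝ) : Prop :=
  Continuous h ∧ ∃ K, ∀ (τ : XX u → Y) (B : Set (XX u)), IsOpen B → ContinuousOn τ B →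
    ContDiffOn ℝ 1 (ep ∘ τ) B → ContDiffOn ℝ 1 (h ∘ τ) B ∧
      ∀ b ∈ B, ∀ v, |fderiv ℝ (h ∘ τ) b v| ≤ K * ‖fderiv ℝ (ep ∘ τ) b v‖

end Ambient

section Dynamics

variable {Y Γ : Type*} [MetricSpace Y]

/-- The shadowing property. -/
def Shad (g : Equiv.Perm Y) : Prop :=
  ∀ ε, 0 < ε → ∃ η, 0 < η ∧ ∀ p : ℤ → Y, (∀ k, dist (g (p k)) (p (k + 1)) ≤ η) →
    ∃ z, ∀ k, dist ((g ^ k) z) (p k) ≤ ε

/-- Small unstable sets become uniformly dense. -/
def MixM (g : Equiv.Perm Y) : Prop :=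
  ∀ ρ η, 0 < ρ → 0 < η → ∃ L₀ : ℕ, ∀ L : ℕ, L₀ ≤ L → ∀ x x', ∃ w, Un g 0 ρ w x ∧
    dist ((g ^ (L : ℤ)) w) x' ≤ η

/-- The points of `E` are separated at some time at most `n`. -/
def Sep (F : Equiv.Perm Y) (n : ℤ) (η : ℝ) (E : Finset Y) : Prop :=
  (E : Set Y).Pairwise fun y y' => ¬ Un F n η y y'

/-- Separated subsets of unstable sets grow exactly like `H ^ n`. -/
structure Cnt (F : Equiv.Perm Y) (ε H : ℝ) : Prop where
  one_le : 1 ≤ H
  up : ∀ η, 0 < η → ∃ C, ∀ x (n : ℕ) (E : Finset Y), (∀ y ∈ E, Un F 0 (4 * ε) y x) →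
    Sep F n η E → (E.card : ℝ) ≤ C * H ^ n
  low : ∀ ρ, 0 < ρ → ∃ c, 0 < c ∧ ∀ x (n : ℕ), ∃ E : Finset Y, (∀ y ∈ E, Un F 0 ρ y x) ∧
    Sep F n ε E ∧ c * H ^ n ≤ E.card

variable [Group Γ] [MulAction Γ Y]

/-- A mixing hyperbolic system on a cocompact cover. -/
structure Hs (F : Equiv.Perm Y) (Φ : MulAut Γ) (ε δ C a b : ℝ) : Prop where
  lh : LH F ε δ C a b
  uc : UniformContinuous F
  uc' : UniformContinuous (F⁻¹ : Equiv.Perm Y)
  iso : ∀ (g : Γ) (x y : Y), dist (g • x) (g • y) = dist x y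
  eqv : ∀ (g : Γ) x, F (g • x) = Φ g • F x
  disc : ∀ (g : Γ) (x : Y), dist (g • x) x ≤ 10 * ε → g = 1
  cpt : ∃ K : Set Y, IsCompact K ∧ ∀ y, ∃ g : Γ, g⁻¹ • y ∈ K
  mix : ∀ ρ η, 0 < ρ → 0 < η → ∃ L₀ : ℕ, ∀ L : ℕ, L₀ ≤ L → ∀ x x', ∃ w, ∃ g : Γ,
    Un F 0 ρ w x ∧ dist ((F ^ (L : ℤ)) w) (g • x') ≤ η

variable {d : ℕ}

/-- An equivariant map to a vector space. -/
structure Ab (Φ : MulAut Γ) (J : Y → Fin d → ℝ) (A : Γ → Fin d → ℝ)
    (L : ℤ → Matrix (Fin d) (Fin d) ℝ) (ρ : Fin d → ℝ) : Prop where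
  wt : Wt L ρ
  cont : Continuous J
  eqv : ∀ (g : Γ) y, J (g • y) = J y + A g
  phi : ∀ g, A (Φ g) = L 1 *ᵥ A g
  cnt : ∃ (C : ℝ) (D : ℕ), ∀ R, 0 ≤ R → ∀ s : Finset (Fin d → ℝ),
    (∀ z ∈ s, z ∈ Set.range A ∧ ‖z‖ ≤ R) → (s.card : ℝ) ≤ C * (1 + R) ^ D

/-- The expanding part of the equivariant map. -/
structure GG (F : Equiv.Perm Y) (ε : ℝ) (J : Y → Fin d → ℝ) (A : Γ → Fin d → ℝ)
    (L : ℤ → Matrix (Fin d) (Fin d) ℝ) (ρ : Fin d → ℝ) (G : Y → Fin d → ℝ) : Prop where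
  cont : Continuous G
  bd : ∃ C, ∀ y, ‖J (F y) - L 1 *ᵥ J y‖ ≤ C
  lim : ∀ k, 1 < ρ k → TendstoUniformly
    (fun (n : ℕ) y => (L (-(n : ℤ)) *ᵥ J ((F ^ (n : ℤ)) y)) k) (fun y => G y k) atTop
  step : ∀ (n : ℤ) y, G ((F ^ n) y) = L n *ᵥ G y
  tr : ∀ (g : Γ) y y', G (g • y) - G (g • y') = G y - G y'
  ker : ∀ (g : Γ) y, A g = 0 → G (g • y) = G y
  st : ∀ y y', Asym F y y' → G y = G y'
  osc : ∃ C, ∀ y y', dist y y' ≤ 4 * ε → ‖G y - G y'‖ ≤ C
  ctl : ∀ θ, 0 < θ → ∃ C, ∀ (n : ℕ) y y', dist ((F ^ (-(n : ℤ))) y) ((F ^ (-(n : ℤ))) y') ≤ 4 * ε →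
    ‖J y - J y'‖ ≤ ‖G y - G y'‖ + C * (1 + θ) ^ n

/-- In the quotient by the kernel of `A` an unstable leaf meets a stable leaf at most once. -/
def Once (F : Equiv.Perm Y) (A : Γ → Fin d → ℝ) : Prop :=
  ∀ y y' (g : Γ), A g = 0 → Asym (F⁻¹ : Equiv.Perm Y) y' y → Asym F (g • y') y → y' = y

variable (Γ) in
/-- Points near an orbit have a twin far from it on the same unstable leaf. -/
def Dup (F : Equiv.Perm Y) (ε : ℝ) (G : Y → Fin d → ℝ) : Prop :=
  ∃ (o : Y) (ρ : ℝ) (T : ℕ), 0 < ρ ∧ ∀ y, (∃ g : Γ, dist y (g • o) ≤ 2 * ρ) →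
    ∃ y', G y' = G y ∧ Un F (-T) ε y' y ∧ ∀ g : Γ, 2 * ρ < dist y' (g • o)

/-- The fibres of `G` through an unstable set have a small covering rate. -/
def ThinY (F : Equiv.Perm Y) (ε H : ℝ) (G : Y → Fin d → ℝ) : Prop :=
  ∃ (q C : ℝ) (l : ℕ), 0 < q ∧ q < 1 ∧ 0 < l ∧ ∀ x (t : ℕ), ∃ E : Finset Y,
    (E.card : ℝ) ≤ C * (q * H) ^ (t * l) ∧ ∀ y, Un F 0 ε y x → ∃ y', ∃ z ∈ E, G y' = G y ∧
      dist ((F ^ ((t * l : ℕ) : ℤ)) y') ((F ^ ((t * l : ℕ) : ℤ)) z) ≤ 4 * ε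

/-- Uniform lightness of `G` on unstable leaves. -/
def ULight (F : Equiv.Perm Y) (ε : ℝ) (G : Y → Fin d → ℝ) : Prop :=
  ∀ R : ℝ, ∃ S : ℕ, ∀ (Z : Set Y) (y : Y), (∀ c ∈ Z, ‖G c - G y‖ ≤ R) →
    ∀ c, Relation.ReflTransGen (fun p q => q ∈ Z ∧ Un F 0 ε q p) y c → Un F (-S) ε c y

end Dynamics

end Pool.Agent.P.MP_5c499f_an
end

-- part Pool.Agent.P.MP_5c499f_an.XBasA
section

/-! Basic facts on the ambient package and on determinants. -/

set_option autoImplicit false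

namespace Pool.Agent.P.MP_5c499f_an

open Filter Topology Metric MeasureTheory Matrix

namespace XBasAX

lemma expand {u : ℕ} (v : XX u) : v = ∑ k, v k • bas u k := by
  ext i
  simp [bas, Finset.sum_apply, Pi.single_apply]

lemma apply_expand {u : ℕ} (ξ : XX u →L[ℝ] ℝ) (v : XX u) : ξ v = ∑ k, ξ (bas u k) * v k := by
  conv_lhs => rw [expand v]
  rw [map_sum]
  exact Finset.sum_congr rfl fun k _ => by rw [map_smul, smul_eq_mul, mul_comm]

lemma det_eq {u : ℕ} (S : XX u →L[ℝ] XX u) :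
    S.det = (Matrix.of fun i j => S (bas u j) i).det := by
  rw [ContinuousLinearMap.det, ← LinearMap.det_toMatrix']
  rfl

lemma norm_bas {u : ℕ} (j : Fin u) : ‖bas u j‖ = 1 := by
  simp [bas, Pi.norm_single]

end XBasAX

lemma dt_comp {u : ℕ} (ξ : Fin u → XX u →L[ℝ] ℝ) (S : XX u →L[ℝ] XX u) :
    dt ξ (fun j => S (bas u j)) = S.det * dt ξ (bas u) := by
  rw [XBasAX.det_eq, dt, dt, mul_comm, ← Matrix.det_mul]
  refine congrArg Matrix.det ?_
  ext i j
  rw [Matrix.mul_apply]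
  exact XBasAX.apply_expand _ _

lemma det_eq_dt {u : ℕ} (S : XX u →L[ℝ] XX u) :
    S.det = dt (fun i => ContinuousLinearMap.proj i ∘L S) (bas u) := by
  rw [XBasAX.det_eq, dt]
  rfl

lemma dt_le {u : ℕ} {S : XX u →L[ℝ] XX u} {ξ : Fin u → XX u →L[ℝ] ℝ} {K : ℝ} (hK : 0 ≤ K)
    (h : ∀ i v, |ξ i v| ≤ K * ‖S v‖) : |dt ξ (bas u)| ≤ u.factorial * K ^ u * |S.det| := by
  by_cases hS : S.det = 0
  · have h0 : dt ξ (bas u) = 0 := by
      rw [XBasAX.det_eq] at hS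
      obtain ⟨v, hv, hv0⟩ := Matrix.exists_mulVec_eq_zero_iff.2 hS
      have hSv : S v = 0 := by
        ext i
        have h1 := XBasAX.apply_expand (ContinuousLinearMap.proj i ∘L S) v
        have h2 := congrFun hv0 i
        exact h1.trans h2
      refine Matrix.exists_mulVec_eq_zero_iff.1 ⟨v, hv, ?_⟩
      ext i
      have h1 := h i v
      rw [hSv, norm_zero, mul_zero] at h1
      have h2 : ξ i v = 0 := abs_nonpos_iff.1 h1
      exact (XBasAX.apply_expand (ξ i) v).symm.trans h2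
    rw [h0, abs_zero]
    positivity
  · obtain ⟨T, hT1, hT2⟩ : ∃ T : XX u →L[ℝ] XX u, (∀ v, S (T v) = v) ∧ ∀ v, T (S v) = v :=
      ⟨(S.toContinuousLinearEquivOfDetNeZero hS).symm,
        fun v => (S.toContinuousLinearEquivOfDetNeZero hS).apply_symm_apply v,
        fun v => (S.toContinuousLinearEquivOfDetNeZero hS).symm_apply_apply v⟩
    have h1 : dt ξ (bas u) = S.det * dt (fun i => ξ i ∘L T) (bas u) := by
      rw [← dt_comp, dt, dt]
      refine congrArg Matrix.det ?_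
      ext i j
      simp only [Matrix.of_apply, ContinuousLinearMap.comp_apply, hT2]
    have h2 : |dt (fun i => ξ i ∘L T) (bas u)| ≤ u.factorial * K ^ u := by
      have h3 := Matrix.det_le (A := Matrix.of fun i j => (ξ i ∘L T) (bas u j))
        (abv := AbsoluteValue.abs) (x := K) (fun i j => by
          have h4 := h i (T (bas u j))
          rw [hT1, XBasAX.norm_bas, mul_one] at h4
          exact h4)
      rw [Fintype.card_fin, nsmul_eq_mul] at h3
      exact h3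
    rw [h1, abs_mul, mul_comm]
    exact mul_le_mul_of_nonneg_right h2 (abs_nonneg _)

lemma det_le_det {u : ℕ} {S S' : XX u →L[ℝ] XX u} {K : ℝ} (hK : 0 ≤ K)
    (h : ∀ v, ‖S' v‖ ≤ K * ‖S v‖) : |S'.det| ≤ u.factorial * K ^ u * |S.det| := by
  rw [det_eq_dt S']
  refine dt_le hK fun i v => le_trans ?_ (h v)
  exact norm_le_pi_norm (S' v) i

lemma continuousOn_dt {Z W : Type*} [TopologicalSpace Z] [NormedAddCommGroup W] [NormedSpace ℝ W]
    {k : ℕ} {ξ : Z → Fin k → W →L[ℝ] ℝ} {w : Z → Fin k → W} {s : Set Z}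
    (h1 : ∀ i, ContinuousOn (fun z => ξ z i) s) (h2 : ∀ i, ContinuousOn (fun z => w z i) s) :
    ContinuousOn (fun z => dt (ξ z) (w z)) s := by
  have h3 : Continuous fun A : Matrix (Fin k) (Fin k) ℝ => A.det := continuous_id.matrix_det
  have h4 : ContinuousOn (fun z => (Matrix.of fun i j => ξ z i (w z j) :
      Matrix (Fin k) (Fin k) ℝ)) s :=
    continuousOn_pi.2 fun i => continuousOn_pi.2 fun j => (h1 i).clm_apply (h2 j)
  exact h3.comp_continuousOn h4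

variable {M : Type*} [MetricSpace M] [CompactSpace M] {N u : ℕ} {e : M → VV N} {r : VV N → M}
  {U : Set (VV N)} {g : Equiv.Perm M} {Pr : M → VV N →L[ℝ] XX u} {Io : M → XX u →L[ℝ] VV N}
  {C₀ a : ℝ}
  {W : Type*} [NormedAddCommGroup W] [NormedSpace ℝ W]

namespace XBasAX

variable (A : Amb e r U g Pr Io C₀ a)
include A

omit [CompactSpace M] in
lemma isometry : Isometry e := Isometry.of_dist_eq fun x y => by rw [A.iso, dist_eq_norm]

/-- Uniform continuity near the manifold. -/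
lemma uc_near {Z : Type*} [PseudoMetricSpace Z] {f : VV N → Z} (hf : ContinuousOn f U) {θ : ℝ}
    (hθ : 0 < θ) : ∃ s, 0 < s ∧ ∀ x y, ‖y - e x‖ ≤ s → y ∈ U ∧ dist (f y) (f (e x)) ≤ θ := by
  have hc : IsCompact (Set.range e) := isCompact_range (isometry A).continuous
  obtain ⟨δ, hδ, hsub⟩ := hc.exists_cthickening_subset_open A.op
    (by rintro _ ⟨x, rfl⟩; exact A.sub x)
  have hK : IsCompact (cthickening δ (Set.range e)) := hc.cthickening
  have huc := hK.uniformContinuousOn_of_continuous (hf.mono hsub)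
  obtain ⟨η, hη, h⟩ := Metric.uniformContinuousOn_iff_le.1 huc θ hθ
  refine ⟨min δ η, lt_min hδ hη, fun x y hy => ?_⟩
  have hd : dist y (e x) ≤ min δ η := by rw [dist_eq_norm]; exact hy
  have hyK : y ∈ cthickening δ (Set.range e) :=
    mem_cthickening_of_dist_le y (e x) δ _ ⟨x, rfl⟩ (hd.trans (min_le_left _ _))
  exact ⟨hsub hyK, h y hyK (e x) (self_subset_cthickening _ ⟨x, rfl⟩)
    (hd.trans (min_le_right _ _))⟩

omit [CompactSpace M] in
lemma diffAt {φ : VV N → W} (hφ : ContDiffOn ℝ 1 φ U) {y : VV N} (hy : y ∈ U) :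
    DifferentiableAt ℝ φ y :=
  (hφ.differentiableOn one_ne_zero).differentiableAt (A.op.mem_nhds hy)

end XBasAX

namespace Amb

variable (A : Amb e r U g Pr Io C₀ a)
include A

omit [CompactSpace M] in
lemma cont_e : Continuous e := (XBasAX.isometry A).continuous

omit [CompactSpace M] in
lemma cont_r : ContinuousOn r U :=
  (XBasAX.isometry A).isEmbedding.isInducing.continuousOn_iff.2 A.c1.continuousOn

omit [CompactSpace M] in
lemma cont_φ {φ : M → W} (hφ : ContDiffOn ℝ 1 (φ ∘ r) U) : Continuous φ := by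
  have h : φ = (φ ∘ r) ∘ e := funext fun x => by simp only [Function.comp_apply, A.ret]
  rw [h]
  exact hφ.continuousOn.comp_continuous A.cont_e A.sub

omit [CompactSpace M] in
lemma cont_Dm {φ : M → W} (hφ : ContDiffOn ℝ 1 (φ ∘ r) U) : Continuous (Dm e r φ) :=
  (hφ.continuousOn_fderiv_of_isOpen A.op le_rfl).comp_continuous A.cont_e A.sub

omit [CompactSpace M] in
lemma cont_g : Continuous g :=
  (XBasAX.isometry A).isEmbedding.isInducing.continuous_iff.2 (A.cont_φ (φ := e ∘ g) A.cg)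

lemma unif {φ : VV N → W} (hφ : ContDiffOn ℝ 1 φ U) {θ : ℝ} (hθ : 0 < θ) :
    ∃ s, 0 < s ∧ ∀ x y, ‖y - e x‖ ≤ s → y ∈ U ∧ ‖fderiv ℝ φ y - fderiv ℝ φ (e x)‖ ≤ θ ∧
      ∀ y', ‖y' - e x‖ ≤ s → ‖φ y - φ y' - fderiv ℝ φ (e x) (y - y')‖ ≤ θ * ‖y - y'‖ := by
  obtain ⟨s, hs, h⟩ := XBasAX.uc_near A (hφ.continuousOn_fderiv_of_isOpen A.op le_rfl) hθ
  refine ⟨s, hs, fun x y hy => ⟨(h x y hy).1, ?_, fun y' hy' => ?_⟩⟩
  · rw [← dist_eq_norm]; exact (h x y hy).2
  · refine Convex.norm_image_sub_le_of_norm_hasFDerivWithin_le' (f' := fderiv ℝ φ)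
      (s := closedBall (e x) s) (fun z hz => ?_) (fun z hz => ?_) (convex_closedBall _ _)
      (mem_closedBall_iff_norm.2 hy') (mem_closedBall_iff_norm.2 hy)
    · exact (XBasAX.diffAt A hφ (h x z (mem_closedBall_iff_norm.1 hz)).1).hasFDerivAt.hasFDerivWithinAt
    · rw [← dist_eq_norm]; exact (h x z (mem_closedBall_iff_norm.1 hz)).2

lemma near {η : ℝ} (hη : 0 < η) :
    ∃ s, 0 < s ∧ ∀ x y, ‖y - e x‖ ≤ s → y ∈ U ∧ dist (r y) x ≤ η := by
  obtain ⟨s, hs, h⟩ := XBasAX.uc_near A A.cont_r hη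
  refine ⟨s, hs, fun x y hy => ?_⟩
  have h1 := h x y hy
  rw [A.ret] at h1
  exact h1

lemma bdd {φ : M → W} (hφ : ContDiffOn ℝ 1 (φ ∘ r) U) :
    ∃ K, 0 < K ∧ ∀ x, ‖φ x‖ ≤ K ∧ ∀ v, ‖Dm e r φ x v‖ ≤ K * ‖v‖ := by
  obtain ⟨K₁, h₁⟩ := isCompact_univ.exists_bound_of_continuousOn (A.cont_φ hφ).continuousOn
  obtain ⟨K₂, h₂⟩ := isCompact_univ.exists_bound_of_continuousOn (A.cont_Dm hφ).continuousOn
  refine ⟨max 1 (max K₁ K₂), lt_max_of_lt_left one_pos, fun x => ⟨?_, fun v => ?_⟩⟩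
  · exact (h₁ x (Set.mem_univ x)).trans ((le_max_left _ _).trans (le_max_right _ _))
  · exact (Dm e r φ x).le_of_opNorm_le
      ((h₂ x (Set.mem_univ x)).trans ((le_max_right _ _).trans (le_max_right _ _))) v

lemma ucQ {κ : ℝ} (hκ : 0 < κ) : ∃ η, 0 < η ∧ ∀ x y, dist x y ≤ η → ∀ v,
    ‖Io x (Pr x v) - Io y (Pr y v)‖ ≤ κ * ‖v‖ := by
  obtain ⟨η, hη, h⟩ :=
    Metric.uniformContinuous_iff_le.1 (CompactSpace.uniformContinuous_of_continuous A.cont) κ hκ
  refine ⟨η, hη, fun x y hxy v => ?_⟩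
  have h1 := h hxy
  rw [dist_eq_norm] at h1
  exact (Io x ∘L Pr x - Io y ∘L Pr y).le_of_opNorm_le h1 v

omit [CompactSpace M] in
lemma c1_iter {φ : M → W} (hφ : ContDiffOn ℝ 1 (φ ∘ r) U) (n : ℕ) :
    ContDiffOn ℝ 1 (φ ∘ g^[n] ∘ r) U := by
  induction n with
  | zero => exact hφ
  | succ n ih =>
    have h : φ ∘ g^[n + 1] ∘ r = (φ ∘ g^[n] ∘ r) ∘ (e ∘ g ∘ r) := funext fun y => by
      simp only [Function.comp_apply, A.ret, Function.iterate_succ_apply]
    rw [h]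
    exact ih.comp A.cg fun y _ => A.sub _

omit [CompactSpace M] in
lemma fderiv_iter {φ : M → W} (hφ : ContDiffOn ℝ 1 (φ ∘ r) U) (n : ℕ) {y : VV N} (hy : y ∈ U) :
    fderiv ℝ (φ ∘ g^[n] ∘ r) y = Dm e r φ (g^[n] (r y)) ∘L Dn e r g n y := by
  have h : φ ∘ g^[n] ∘ r = (φ ∘ r) ∘ (e ∘ g^[n] ∘ r) := funext fun y => by
    simp only [Function.comp_apply, A.ret]
  rw [h]
  exact fderiv_comp y (XBasAX.diffAt A hφ (A.sub _)) (XBasAX.diffAt A (A.c1_iter A.c1 n) hy)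

omit [CompactSpace M] in
lemma Dn_succ (n : ℕ) {y : VV N} (hy : y ∈ U) :
    Dn e r g (n + 1) y = Dm e r (e ∘ g) (g^[n] (r y)) ∘L Dn e r g n y := by
  rw [← A.fderiv_iter (φ := e ∘ g) A.cg n hy, Dn, Function.iterate_succ']
  rfl

omit [CompactSpace M] in
lemma cont_Dn (n : ℕ) : ContinuousOn (Dn e r g n) U :=
  (A.c1_iter A.c1 n).continuousOn_fderiv_of_isOpen A.op le_rfl

omit [CompactSpace M] in
lemma hasFDerivAt_disc (x : M) (y₀ : VV N) (n : ℕ) {b : XX u} (hb : y₀ + Io x b ∈ U) :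
    HasFDerivAt (fun b => e (g^[n] (r (y₀ + Io x b)))) (Dn e r g n (y₀ + Io x b) ∘L Io x) b := by
  have h1 : HasFDerivAt (fun b => y₀ + Io x b) (Io x) b := (Io x).hasFDerivAt.const_add y₀
  exact (XBasAX.diffAt A (A.c1_iter A.c1 n) hb).hasFDerivAt.comp b h1

end Amb


end Pool.Agent.P.MP_5c499f_an
end

-- part Pool.Agent.P.MP_5c499f_an.XLA
section

/-! Two determinant lemmas. -/

set_option autoImplicit false

namespace Pool.Agent.P.MP_5c499f_an

open Filter Topology Metric MeasureTheory Matrix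

namespace XLAX

lemma block_le {u k : ℕ} {K : ℝ} {A : Matrix (Fin u) (Fin u) ℝ} {B : Matrix (Fin u) (Fin k) ℝ}
    {C : Matrix (Fin k) (Fin u) ℝ} {D : Matrix (Fin k) (Fin k) ℝ} (h1 : ∀ i j, |A i j| ≤ K)
    (h2 : ∀ i j, |B i j| ≤ K) (h3 : ∀ i j, |C i j| ≤ K) (h4 : ∀ i j, |D i j| ≤ K) :
    |(fromBlocks A B C D).det| ≤ (u + k).factorial * K ^ (u + k) := by
  have := Matrix.det_le (A := fromBlocks A B C D) (abv := AbsoluteValue.abs) (x := K) (by
    rintro (i | i) (j | j)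
    exacts [h1 i j, h2 i j, h3 i j, h4 i j])
  simpa using this

lemma block_scale {u k : ℕ} (μ : ℝ) (A : Matrix (Fin u) (Fin u) ℝ) (B : Matrix (Fin u) (Fin k) ℝ)
    (C : Matrix (Fin k) (Fin u) ℝ) (D : Matrix (Fin k) (Fin k) ℝ) :
    μ ^ u * (fromBlocks A B C (μ • D)).det = (fromBlocks (μ • A) B C D).det * μ ^ k := by
  have e : fromBlocks (μ • (1 : Matrix (Fin u) (Fin u) ℝ)) 0 0 (1 : Matrix (Fin k) (Fin k) ℝ) *
      fromBlocks A B C (μ • D) = fromBlocks (μ • A) B C D *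
      fromBlocks (1 : Matrix (Fin u) (Fin u) ℝ) 0 0 (μ • (1 : Matrix (Fin k) (Fin k) ℝ)) := by
    simp [fromBlocks_multiply]
  have := congrArg Matrix.det e
  simpa [det_mul, det_fromBlocks_zero₂₁] using this

lemma gain {u k : ℕ} {K μ : ℝ} (hK : 1 ≤ K) (h0 : 0 ≤ μ) (h1 : μ ≤ 1) (hμ : u < k → 0 < μ)
    {P Q : Matrix (Fin u) (Fin u) ℝ} (hPQ : P * Q = 1) {V : Matrix (Fin u) (Fin k) ℝ}
    {η : Matrix (Fin k) (Fin u) ℝ} {τ : Matrix (Fin k) (Fin k) ℝ} (hQ : ∀ i j, |Q i j| ≤ μ)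
    (hV : ∀ i j, |V i j| ≤ K) (hη : ∀ i j, |η i j| ≤ K) (hτ : ∀ i j, |τ i j| ≤ K * μ) :
    |(η * P * V + τ).det| ≤ (u + k).factorial * K ^ (u + k) * μ ^ (k - u) * |P.det| := by
  let _ : Invertible Q := invertibleOfLeftInverse Q P hPQ
  have e1 : (fromBlocks Q (-V) η τ).det = Q.det * (η * P * V + τ).det := by
    rw [det_fromBlocks₁₁, show ⅟Q = P from rfl, Matrix.mul_neg, sub_neg_eq_add, add_comm]
  have e2 : (η * P * V + τ).det = (fromBlocks Q (-V) η τ).det * P.det := by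
    rw [e1, mul_right_comm, mul_comm Q.det, ← det_mul, hPQ, det_one, one_mul]
  have hV' : ∀ i j, |(-V) i j| ≤ K := fun i j => by rw [neg_apply, abs_neg]; exact hV i j
  rw [e2, abs_mul]
  refine mul_le_mul_of_nonneg_right ?_ (abs_nonneg _)
  rcases le_or_gt k u with hk | hk
  · rw [Nat.sub_eq_zero_of_le hk, pow_zero, mul_one]
    exact block_le (fun i j => (hQ i j).trans (h1.trans hK)) hV' hη
      fun i j => (hτ i j).trans (by nlinarith)
  · have hp := hμ hk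
    have e3 := block_scale μ Q (-V) η (μ⁻¹ • τ)
    rw [smul_smul, mul_inv_cancel₀ hp.ne', one_smul] at e3
    have e4 : (fromBlocks Q (-V) η τ).det =
        (fromBlocks (μ • Q) (-V) η (μ⁻¹ • τ)).det * μ ^ (k - u) := by
      refine mul_left_cancel₀ (pow_pos hp u).ne' ?_
      rw [e3, mul_left_comm, ← pow_add, Nat.add_sub_cancel' hk.le]
    rw [e4, abs_mul, abs_of_nonneg (pow_nonneg h0 _)]
    refine mul_le_mul_of_nonneg_right (block_le (fun i j => ?_) hV' hη fun i j => ?_)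
      (pow_nonneg h0 _)
    · rw [Matrix.smul_apply, smul_eq_mul, abs_mul, abs_of_nonneg h0]
      nlinarith [hQ i j, abs_nonneg (Q i j)]
    · rw [Matrix.smul_apply, smul_eq_mul, abs_mul, abs_of_nonneg (inv_nonneg.2 h0), inv_mul_le_iff₀ hp,
        mul_comm]
      exact hτ i j

lemma binet {u N : ℕ} (X : Matrix (Fin u) (Fin N) ℝ) (W : Matrix (Fin N) (Fin u) ℝ) :
    ∑ I : Fin u → Fin N, (X.submatrix id I).det * (W.submatrix I id).det =
      u.factorial * (X * W).det := by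
  have e1 : (X * W).det = ∑ I : Fin u → Fin N, (X.submatrix id I).det * ∏ i, W (I i) i := by
    simp only [det_apply', mul_apply, Finset.prod_univ_sum, Finset.mul_sum, Fintype.piFinset_univ,
      Finset.sum_mul, submatrix_apply, id, Finset.prod_mul_distrib, mul_assoc]
    exact Finset.sum_comm
  have e2 : ∀ σ : Equiv.Perm (Fin u), ∑ I : Fin u → Fin N, (X.submatrix id I).det *
      ((Equiv.Perm.sign σ : ℤ) * ∏ i, W (I (σ i)) i) = (X * W).det := by
    intro σ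
    rw [e1]
    refine Fintype.sum_equiv (Equiv.arrowCongr σ.symm (Equiv.refl _)) _ _ fun I => ?_
    have e3 : X.submatrix id (Equiv.arrowCongr σ.symm (Equiv.refl _) I) =
        (X.submatrix id I).submatrix id σ := rfl
    rw [e3, det_permute']
    simp only [Equiv.arrowCongr_apply, Equiv.symm_symm, Equiv.coe_refl, Function.comp, id]
    ring
  calc ∑ I : Fin u → Fin N, (X.submatrix id I).det * (W.submatrix I id).det
      = ∑ I : Fin u → Fin N, ∑ σ : Equiv.Perm (Fin u), (X.submatrix id I).det *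
          ((Equiv.Perm.sign σ : ℤ) * ∏ i, W (I (σ i)) i) :=
        Finset.sum_congr rfl fun I _ => by
          rw [det_apply' (W.submatrix I id), Finset.mul_sum]
          rfl
    _ = ∑ _σ : Equiv.Perm (Fin u), (X * W).det := by
        rw [Finset.sum_comm]
        exact Finset.sum_congr rfl fun σ _ => e2 σ
    _ = _ := by simp [Fintype.card_perm]

lemma dt_cons {W : Type*} [NormedAddCommGroup W] [NormedSpace ℝ W] {u : ℕ} (ζ : W →L[ℝ] ℝ)
    (ξ : Fin u → W →L[ℝ] ℝ) (w : Fin (u + 1) → W) :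
    dt (Fin.cons ζ ξ : Fin (u + 1) → W →L[ℝ] ℝ) w =
      ∑ j : Fin (u + 1), (-1) ^ (j : ℕ) * ζ (w j) * dt ξ fun l => w (j.succAbove l) := by
  unfold dt
  rw [det_succ_row_zero]
  rfl

end XLAX

theorem det_gain (u k : ℕ) (K : ℝ) : ∃ C, 0 < C ∧ ∀ (S : XX u →L[ℝ] XX u) (μ : ℝ)
    (ζ : Fin k → XX u →L[ℝ] ℝ) (v : Fin k → XX u) (τ : Fin k → Fin k → ℝ), 0 ≤ μ → μ ≤ 1 →
    (∀ x, ‖x‖ ≤ μ * ‖S x‖) → (∀ i x, |ζ i x| ≤ K * ‖S x‖) → (∀ j, ‖v j‖ ≤ K) →
    (∀ i j, |τ i j| ≤ K * μ) →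
    |(Matrix.of fun i j => ζ i (v j) + τ i j).det| ≤ C * μ ^ (k - u) * |S.det| := by
  have hK : 1 ≤ max K 1 := le_max_right _ _
  have hK' : K ≤ max K 1 := le_max_left _ _
  refine ⟨(u + k).factorial * max K 1 ^ (u + k), by positivity,
    fun S μ ζ v τ h0 h1 hS hζ hv hτ => ?_⟩
  by_cases hμ : u < k → 0 < μ
  swap
  · obtain ⟨a1, a2⟩ := Classical.not_imp.1 hμ
    obtain rfl : μ = 0 := le_antisymm (not_lt.1 a2) h0
    have : Nonempty (Fin k) := ⟨⟨u, a1⟩⟩
    have e : (Matrix.of fun i j => ζ i (v j) + τ i j) = 0 := by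
      ext i j
      have b1 : v j = 0 := by simpa using hS (v j)
      have b2 : τ i j = 0 := by simpa using hτ i j
      simp [b1, b2]
    rw [e, det_zero, abs_zero]
    positivity
  have hinj : Function.Injective (S : XX u →ₗ[ℝ] XX u) := by
    refine (injective_iff_map_eq_zero _).2 fun x hx => ?_
    have a1 := hS x
    rw [show S x = 0 from hx, norm_zero, mul_zero] at a1
    exact norm_le_zero_iff.1 a1
  choose x hx using fun l => LinearMap.injective_iff_surjective.1 hinj (bas u l)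
  have hx' : ∀ l, S (x l) = bas u l := hx
  have hb : ∀ l, ‖bas u l‖ = 1 := fun l => by simp [bas, Pi.norm_single]
  have hP : ∀ y, LinearMap.toMatrix' (S : XX u →ₗ[ℝ] XX u) *ᵥ y = S y := fun y =>
    LinearMap.toMatrix'_mulVec _ y
  have hdec : ∀ y, y = ∑ l, S y l • x l := by
    intro y
    refine hinj ?_
    show S y = S _
    rw [map_sum]
    ext p
    simp [hx', bas, Pi.single_apply]
  have key := XLAX.gain (P := LinearMap.toMatrix' (S : XX u →ₗ[ℝ] XX u))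
    (Q := Matrix.of fun i l => x l i) (V := Matrix.of fun i j => v j i)
    (η := Matrix.of fun i l => ζ i (x l)) (τ := Matrix.of τ) hK h0 h1 hμ ?_ ?_ ?_ ?_ ?_
  · rw [LinearMap.det_toMatrix'] at key
    have e : (Matrix.of fun i j => ζ i (v j) + τ i j) = (Matrix.of fun i l => ζ i (x l)) *
        LinearMap.toMatrix' (S : XX u →ₗ[ℝ] XX u) * (Matrix.of fun i j => v j i) +
        Matrix.of τ := by
      ext i j
      rw [Matrix.mul_assoc, Matrix.add_apply, mul_apply, of_apply, of_apply, hdec (v j), map_sum]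
      congr 1
      refine Finset.sum_congr rfl fun l _ => ?_
      rw [map_smul, smul_eq_mul, mul_comm, ← hP]
      rfl
    rw [e]
    exact key
  · ext i l
    have := congrFun (hP (x l)) i
    rw [hx', bas, Pi.single_apply] at this
    rw [one_apply]
    exact this
  · intro i l
    have := hS (x l)
    rw [hx', hb, mul_one] at this
    exact (norm_le_pi_norm (x l) i).trans this
  · exact fun i j => (norm_le_pi_norm (v j) i).trans ((hv j).trans hK')
  · intro i l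
    have := hζ i (x l)
    rw [hx', hb, mul_one] at this
    exact this.trans hK'
  · exact fun i j => (hτ i j).trans (mul_le_mul_of_nonneg_right hK' h0)

theorem binet {N u : ℕ} (ξ : Fin u → VV N →L[ℝ] ℝ) (w : Fin u → VV N) :
    ∑ I : Fin u → Fin N, dt ξ (fun j => evec (I j)) * dt (fun i => crd (I i)) w =
      u.factorial * dt ξ w := by
  have e : (Matrix.of fun i j => ξ i (w j)) =
      (Matrix.of fun i p => ξ i (evec p)) * Matrix.of fun p j => crd p (w j) := by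
    ext i j
    have e1 : w j = ∑ p, crd p (w j) • evec p := by
      ext q
      simp [crd, evec, Pi.single_apply]
    refine (congrArg (ξ i) e1).trans ?_
    rw [mul_apply, map_sum]
    exact Finset.sum_congr rfl fun p _ => by rw [map_smul, smul_eq_mul, mul_comm]; rfl
  have := XLAX.binet (Matrix.of fun i p => ξ i (evec p)) (Matrix.of fun p j => crd p (w j))
  rw [← e] at this
  exact this

theorem binet_cons {N u : ℕ} (ζ : VV N →L[ℝ] ℝ) (ξ : Fin u → VV N →L[ℝ] ℝ)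
    (w : Fin (u + 1) → VV N) :
    ∑ I : Fin u → Fin N, dt ξ (fun j => evec (I j)) *
      dt (Fin.cons ζ fun i => crd (I i) : Fin (u + 1) → VV N →L[ℝ] ℝ) w =
      u.factorial * dt (Fin.cons ζ ξ : Fin (u + 1) → VV N →L[ℝ] ℝ) w := by
  simp only [XLAX.dt_cons, Finset.mul_sum]
  rw [Finset.sum_comm]
  refine Finset.sum_congr rfl fun j _ => ?_
  rw [mul_left_comm, ← binet, Finset.mul_sum]
  exact Finset.sum_congr rfl fun I _ => by ring

/-- Expansion along the first row. -/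
theorem dt_cons {W : Type*} [NormedAddCommGroup W] [NormedSpace ℝ W] {u : ℕ}
    (ξ : Fin u → W →L[ℝ] ℝ) (w : Fin (u + 1) → W) : ∃ c : Fin (u + 1) → ℝ, ∀ ζ : W →L[ℝ] ℝ,
      dt (Fin.cons ζ ξ : Fin (u + 1) → W →L[ℝ] ℝ) w = ∑ j, c j * ζ (w j) :=
  ⟨fun j => (-1) ^ (j : ℕ) * dt ξ fun l => w (j.succAbove l), fun ζ => by
    rw [XLAX.dt_cons]
    exact Finset.sum_congr rfl fun j _ => by ring⟩


end Pool.Agent.P.MP_5c499f_an
end

-- part Pool.Agent.P.MP_5c499f_an.XAvg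
section

/-! Averaging over parallel discs. -/

set_option autoImplicit false

namespace Pool.Agent.P.MP_5c499f_an

open Filter Topology Metric MeasureTheory Matrix

namespace XAvgX

variable {N u : ℕ}

theorem swap {f : VV N → ENNReal} (hf : Measurable f) (T : XX u →L[ℝ] VV N) (B : Set (XX u)) :
    (∫⁻ y, f y) * volume B = ∫⁻ y, ∫⁻ b in B, f (y + T b) := by
  have h1 : Measurable (Function.uncurry fun (y : VV N) (b : XX u) => f (y + T b)) :=
    hf.comp (continuous_fst.add (T.continuous.comp continuous_snd)).measurable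
  rw [lintegral_lintegral_swap h1.aemeasurable]
  simp only [lintegral_add_right_eq_self]
  rw [setLIntegral_const]

theorem meas {K : Set (VV N)} (hK : MeasurableSet K) {j : VV N → ℝ} (hj : ContinuousOn j K) :
    Measurable fun y => ENNReal.ofReal (K.indicator j y) := by
  classical
  have h : Measurable (K.piecewise j 0) :=
    hj.measurable_piecewise continuousOn_const hK
  rw [Set.piecewise_eq_indicator] at h
  exact h.ennreal_ofReal

theorem int_eq {K : Set (VV N)} (hK : MeasurableSet K) (j : VV N → ℝ) :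
    ∫⁻ y in K, ENNReal.ofReal (j y) = ∫⁻ y, ENNReal.ofReal (K.indicator j y) := by
  rw [← lintegral_indicator hK]
  congr 1
  funext y
  by_cases h : y ∈ K <;> simp [h]

theorem volV (t : ℝ) (ht : 0 < t) : ∃ v : ℝ, 0 < v ∧ ∀ z : VV N,
    volume (closedBall z t) = ENNReal.ofReal v := by
  have h1 : volume (closedBall (0 : VV N) t) ≠ ⊤ := measure_closedBall_lt_top.ne
  have h2 : volume (closedBall (0 : VV N) t) ≠ 0 := (measure_closedBall_pos _ _ ht).ne'
  refine ⟨(volume (closedBall (0 : VV N) t)).toReal, ENNReal.toReal_pos h2 h1, fun z => ?_⟩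
  rw [ENNReal.ofReal_toReal h1, Measure.addHaar_closedBall_center]

theorem volX (t : ℝ) (ht : 0 < t) : ∃ v : ℝ, 0 < v ∧
    volume (closedBall (0 : XX u) t) = ENNReal.ofReal v := by
  have h1 : volume (closedBall (0 : XX u) t) ≠ ⊤ := measure_closedBall_lt_top.ne
  have h2 : volume (closedBall (0 : XX u) t) ≠ 0 := (measure_closedBall_pos _ _ ht).ne'
  exact ⟨_, ENNReal.toReal_pos h2 h1, (ENNReal.ofReal_toReal h1).symm⟩

end XAvgX

variable {M : Type*} [MetricSpace M] [CompactSpace M] {N u : ℕ} {e : M → VV N} {r : VV N → M}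
  {U : Set (VV N)} {g : Equiv.Perm M} {Pr : M → VV N →L[ℝ] XX u} {Io : M → XX u →L[ℝ] VV N}
  {C₀ a : ℝ}

theorem DV.avg (A : Amb e r U g Pr Io C₀ a) {H s C : ℝ} (D : DV e r U g Pr Io C₀ a H s C) :
    (∃ C', 0 < C' ∧ UpA e r g Io H (s / 2) C') ∧ LowA e r g Io H (s / 2) := by
  have hs := D.s_pos
  have hC := D.C_pos
  have hH := D.H_pos
  have h1 := A.one_le
  have hio : ∀ (t : ℝ) x (b : XX u), b ∈ closedBall (0 : XX u) (t / (2 * C₀)) →
      ‖Io x b‖ ≤ t / 2 := by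
    intro t x b hb
    rw [mem_closedBall_zero_iff] at hb
    refine (A.n_io x b).trans ((mul_le_mul_of_nonneg_left hb (by linarith)).trans_eq ?_)
    field_simp
  have hle : ∀ t : ℝ, 0 < t → t / (2 * C₀) ≤ t := fun t ht =>
    div_le_self ht.le (by linarith)
  constructor
  · obtain ⟨v, hv, hV⟩ := XAvgX.volV (N := N) s hs
    obtain ⟨w, hw, hW⟩ := XAvgX.volX (u := u) (s / (2 * C₀)) (by positivity)
    refine ⟨C * v / w, by positivity, fun x n j hj hb => ?_⟩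
    have hK : MeasurableSet (closedBall (e x) (s / 2)) := measurableSet_closedBall
    have h2 := XAvgX.swap (XAvgX.meas hK hj) (Io x) (closedBall (0 : XX u) (s / (2 * C₀)))
    have h3 : ∀ y, ∫⁻ b in closedBall (0 : XX u) (s / (2 * C₀)),
        ENNReal.ofReal ((closedBall (e x) (s / 2)).indicator j (y + Io x b)) ≤
        (closedBall (e x) s).indicator (fun _ => ENNReal.ofReal (C * H ^ n)) y := by
      intro y
      by_cases hy : y ∈ closedBall (e x) s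
      · rw [Set.indicator_of_mem hy]
        refine (lintegral_mono_set (closedBall_subset_closedBall (hle s hs))).trans ?_
        refine D.up x y n _ (mem_closedBall_iff_norm.1 hy) fun b _ => ?_
        by_cases h : y + Io x b ∈ closedBall (e x) (s / 2)
        · rw [Set.indicator_of_mem h]; exact hb _ h
        · rw [Set.indicator_of_notMem h]; exact fun S _ => abs_nonneg _
      · rw [Set.indicator_of_notMem hy]
        refine le_of_eq (setLIntegral_eq_zero measurableSet_closedBall fun b hb' => ?_)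
        have h : y + Io x b ∉ closedBall (e x) (s / 2) := by
          intro h
          apply hy
          rw [mem_closedBall_iff_norm] at h ⊢
          have h4 : y - e x = (y + Io x b - e x) - Io x b := by abel
          rw [h4]
          exact (norm_sub_le _ _).trans (by linarith [hio s x b hb'])
        simp [Set.indicator_of_notMem h]
    have h4 := h2.le.trans (lintegral_mono h3)
    rw [lintegral_indicator measurableSet_closedBall, setLIntegral_const, hV, hW,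
      ← XAvgX.int_eq hK] at h4
    have h5 : ENNReal.ofReal (C * H ^ n) * ENNReal.ofReal v =
        ENNReal.ofReal (C * v / w * H ^ n) * ENNReal.ofReal w := by
      rw [← ENNReal.ofReal_mul (by positivity), ← ENNReal.ofReal_mul (by positivity)]
      congr 1
      field_simp
    rw [h5] at h4
    exact (ENNReal.mul_le_mul_iff_left (by simpa using hw) ENNReal.ofReal_ne_top).1 h4
  · intro t ht hts
    obtain ⟨v, hv, hV⟩ := XAvgX.volV (N := N) (t / 2) (by positivity)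
    obtain ⟨w, hw, hW⟩ := XAvgX.volX (u := u) (t / (2 * C₀)) (by positivity)
    obtain ⟨c, hc, hL⟩ := D.low (t / (2 * C₀)) (by positivity) ((hle t ht).trans (by linarith))
    refine ⟨c * v / w, by positivity, fun x n j hj hb => ?_⟩
    have hK : MeasurableSet (closedBall (e x) t) := measurableSet_closedBall
    have h2 := XAvgX.swap (XAvgX.meas hK hj) (Io x) (closedBall (0 : XX u) (t / (2 * C₀)))
    have h3 : ∀ y, (closedBall (e x) (t / 2)).indicator (fun _ => ENNReal.ofReal (c * H ^ n)) y ≤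
        ∫⁻ b in closedBall (0 : XX u) (t / (2 * C₀)),
          ENNReal.ofReal ((closedBall (e x) t).indicator j (y + Io x b)) := by
      intro y
      by_cases hy : y ∈ closedBall (e x) (t / 2)
      · rw [Set.indicator_of_mem hy]
        rw [mem_closedBall_iff_norm] at hy
        refine hL x y n _ (by linarith) fun b hb' => ?_
        have h : y + Io x b ∈ closedBall (e x) t := by
          rw [mem_closedBall_iff_norm]
          have h4 : y + Io x b - e x = (y - e x) + Io x b := by abel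
          rw [h4]
          exact (norm_add_le _ _).trans (by linarith [hio t x b hb'])
        rw [Set.indicator_of_mem h]
        exact hb _ h
      · rw [Set.indicator_of_notMem hy]
        exact zero_le
    have h4 := (lintegral_mono h3).trans h2.ge
    rw [lintegral_indicator measurableSet_closedBall, setLIntegral_const, hV, hW,
      ← XAvgX.int_eq hK] at h4
    have h5 : ENNReal.ofReal (c * H ^ n) * ENNReal.ofReal v =
        ENNReal.ofReal (c * v / w * H ^ n) * ENNReal.ofReal w := by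
      rw [← ENNReal.ofReal_mul (by positivity), ← ENNReal.ofReal_mul (by positivity)]
      congr 1
      field_simp
    rw [h5] at h4
    exact (ENNReal.mul_le_mul_iff_left (by simpa using hw) ENNReal.ofReal_ne_top).1 h4

end Pool.Agent.P.MP_5c499f_an
end
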