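import Pool.Agent.K.MP_5c499f_an.C0
import Mathlib

-- part Pool.Agent.P.MP_5c499f_an.XOmA
section

/-! Integral bounds for pulled back forms. -/

set_option autoImplicit false

namespace Pool.Agent.P.MP_5c499f_an

open Filter Topology Metric MeasureTheory Matrix

variable {M : Type*} [MetricSpace M] [CompactSpace M] {N u : ℕ} {e : M → VV N} {r : VV N → M}
  {U : Set (VV N)} {g : Equiv.Perm M} {Pr : M → VV N →L[ℝ] XX u} {Io : M → XX u →L[ℝ] VV N}
  {C₀ a : ℝ}
  {H s C : ℝ} {m : ℕ} {c : Fin m → M → ℝ} {f : Fin m → Fin u → M → ℝ} {ρ : VV N → ℝ}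
  {K : Set (VV N)}

omit [CompactSpace M] in
lemma XOmAX.cont_dt (A : Amb e r U g Pr Io C₀ a) {k : ℕ} {φ : Fin k → M → ℝ}
    (hφ : ∀ i, ContDiffOn ℝ 1 (φ i ∘ r) U) (w : Fin k → VV N) (n : ℕ) :
    ContinuousOn (fun y => dt (fun i => fderiv ℝ (φ i ∘ g^[n] ∘ r) y) w) U :=
  continuousOn_dt (fun i => (A.c1_iter (hφ i) n).continuousOn_fderiv_of_isOpen A.op le_rfl)
    fun _ => continuousOn_const

theorem DV.minor (A : Amb e r U g Pr Io C₀ a) (D : DV e r U g Pr Io C₀ a H s C) {k : ℕ}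
    {φ : Fin k → M → ℝ} (hφ : ∀ i, ContDiffOn ℝ 1 (φ i ∘ r) U) (w : Fin k → VV N) :
    ∃ C', ∀ᶠ n in atTop, ∀ x, ∫ y in closedBall (e x) (s / 2),
      |dt (fun i => fderiv ℝ (φ i ∘ g^[n] ∘ r) y) w| ≤ C' * (a ^ n) ^ (k - u) * H ^ n := by
  have hs := D.s_pos
  have hC := D.C_pos
  have hH := D.H_pos
  have ha := A.a_pos
  have h1 := A.one_le
  have ha1 : a < 1 := by nlinarith [A.a_le, mul_le_mul_of_nonneg_right (one_le_pow₀ (n := 2) h1) ha.le]
  choose Kφ hK0 hK using fun i => A.bdd (hφ i)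
  obtain ⟨K₁, hK₁, hK₁'⟩ : ∃ K₁, 0 ≤ K₁ ∧ ∀ i x v, |Dm e r (φ i) x v| ≤ K₁ * ‖v‖ :=
    ⟨∑ i, Kφ i, Finset.sum_nonneg fun i _ => (hK0 i).le, fun i x v => ((hK i x).2 v).trans
      (mul_le_mul_of_nonneg_right (Finset.single_le_sum (fun i _ => (hK0 i).le)
        (Finset.mem_univ i)) (norm_nonneg _))⟩
  obtain ⟨C₁, hC₁, hg⟩ := det_gain u k (K₁ + C * ‖w‖ + K₁ * ‖w‖)
  obtain ⟨C₂, hC₂, hup⟩ := (D.avg A).1
  refine ⟨C₁ * C ^ (k - u) * C₂, ?_⟩
  have hlim : Tendsto (fun n : ℕ => C * a ^ n) atTop (𝓝 (C * 0)) :=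
    (tendsto_pow_atTop_nhds_zero_of_lt_one ha.le ha1).const_mul C
  filter_upwards [hlim.eventually_le_const (show C * 0 < 1 by simp)] with n hn x
  have hball : ∀ y ∈ closedBall (e x) (s / 2), ‖y - e x‖ ≤ (1 + C₀) * s := fun y hy =>
    (mem_closedBall_iff_norm.1 hy).trans (by nlinarith)
  have hc := ((XOmAX.cont_dt A hφ w n).mono fun y hy => D.tan.sub x y (hball y hy)).abs
  have hμ : 0 < C₁ * (C * a ^ n) ^ (k - u) := by positivity
  have hpt : ∀ y ∈ closedBall (e x) (s / 2), ∀ S : XX u →L[ℝ] XX u,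
      (∀ v, ‖(Dn e r g n y ∘L Io x) v‖ ≤ ‖S v‖) →
      |dt (fun i => fderiv ℝ (φ i ∘ g^[n] ∘ r) y) w| ≤ C₁ * (C * a ^ n) ^ (k - u) * |S.det| := by
    intro y hy S hS
    obtain ⟨β, hβ, hβ'⟩ := D.tan.dec x y (hball y hy)
    have t0 : 0 ≤ C * ‖w‖ := by positivity
    have t1 : 0 ≤ K₁ * ‖w‖ := by positivity
    have t2 : 0 ≤ C * a ^ n := by positivity
    have t3 : 0 ≤ (K₁ + C * ‖w‖) * (C * a ^ n) := by positivity
    have hS' : ∀ v, ‖Dn e r g n y (Io x v)‖ ≤ ‖S v‖ := hS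
    refine le_of_eq_of_le ?_ (hg S (C * a ^ n)
      (fun i => Dm e r (φ i) (g^[n] (r y)) ∘L (Dn e r g n y ∘L Io x))
      (fun j => β (w j)) (fun i j => Dm e r (φ i) (g^[n] (r y))
        (Dn e r g n y (w j) - Dn e r g n y (Io x (β (w j))))) t2 hn (fun b => ?_) (fun i b => ?_)
      (fun j => ?_) fun i j => ?_)
    · simp only [dt, A.fderiv_iter (hφ _) n (D.tan.sub x y (hball y hy)),
        ContinuousLinearMap.comp_apply, map_sub, add_sub_cancel]
    · exact (D.tan.expd x y n b (hball y hy)).trans (mul_le_mul_of_nonneg_left (hS' b) t2)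
    · exact (hK₁' i _ (Dn e r g n y (Io x b))).trans
        (mul_le_mul (by linarith) (hS' b) (norm_nonneg _) (by linarith))
    · have := mul_le_mul_of_nonneg_left (norm_le_pi_norm w j) hC.le
      linarith [hβ (w j)]
    · have := mul_le_mul_of_nonneg_left ((hβ' n (w j)).trans
        (mul_le_mul_of_nonneg_left (norm_le_pi_norm w j) t2)) hK₁
      refine (hK₁' i _ _).trans (this.trans ?_)
      linarith
  have key := hup x n (fun y => |dt (fun i => fderiv ℝ (φ i ∘ g^[n] ∘ r) y) w| /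
    (C₁ * (C * a ^ n) ^ (k - u))) (hc.div_const _) fun y hy S hS => by
      rw [div_le_iff₀ hμ, mul_comm]
      exact hpt y hy S hS
  have h2 := ENNReal.toReal_le_of_le_ofReal (by positivity) key
  rw [← integral_eq_lintegral_of_nonneg_ae (Eventually.of_forall fun y => by positivity)
    ((hc.div_const _).aestronglyMeasurable measurableSet_closedBall), integral_div,
    div_le_iff₀ hμ] at h2
  refine h2.trans_eq ?_
  rw [mul_pow]
  ring

theorem cf_cont (A : Amb e r U g Pr Io C₀ a) (hc : ∀ t, ContDiffOn ℝ 1 (c t ∘ r) U)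
    (hf : ∀ t i, ContDiffOn ℝ 1 (f t i ∘ r) U) (n : ℕ) (I : Fin u → Fin N) :
    ContinuousOn (cf r g H c f n I) U := by
  refine continuousOn_const.mul (continuousOn_finsetSum _ fun t _ =>
    ContinuousOn.mul (A.c1_iter (hc t) n).continuousOn ?_)
  exact XOmAX.cont_dt A (hf t) _ n

theorem cf_bdd (A : Amb e r U g Pr Io C₀ a) (D : DV e r U g Pr Io C₀ a H s C)
    (hc : ∀ t, ContDiffOn ℝ 1 (c t ∘ r) U) (hf : ∀ t i, ContDiffOn ℝ 1 (f t i ∘ r) U)
    (k : Ker e (s / 4) ρ K) :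
    K ⊆ U ∧ ∃ C', ∀ᶠ n in atTop, ∀ I, ∫ z in K, |cf r g H c f n I z| ≤ C' := by
  have hs := D.s_pos
  have hH := D.H_pos
  have h1 := A.one_le
  have hKU : K ⊆ U := fun y hy => by
    obtain ⟨x, hx⟩ := (k.mem y).1 hy
    exact D.tan.sub x y (hx.trans (by nlinarith))
  have hBU : ∀ x, closedBall (e x) (s / 2) ⊆ U := fun x y hy =>
    D.tan.sub x y ((mem_closedBall_iff_norm.1 hy).trans (by nlinarith))
  refine ⟨hKU, ?_⟩
  obtain ⟨P, -, hP⟩ := isCompact_univ.elim_nhds_subcover (fun x : M => ball x (s / 4))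
    fun x _ => ball_mem_nhds x (by positivity)
  have hcov : ∀ y ∈ K, ∃ x ∈ P, y ∈ closedBall (e x) (s / 2) := fun y hy => by
    obtain ⟨x, hx⟩ := (k.mem y).1 hy
    obtain ⟨x', h2, h3⟩ := Set.mem_iUnion₂.1 (hP (Set.mem_univ x))
    refine ⟨x', h2, mem_closedBall_iff_norm.2 ?_⟩
    rw [mem_ball, A.iso] at h3
    linarith [norm_sub_le_norm_sub_add_norm_sub y (e x) (e x')]
  choose Kc hK0 hK using fun t => A.bdd (hc t)
  choose C' hC' using fun (I : Fin u → Fin N) t => D.minor A (hf t) fun j => evec (I j)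
  refine ⟨∑ I, |∑ _x ∈ P, ∑ t, Kc t * C' I t|, ?_⟩
  filter_upwards [eventually_all.2 fun I => eventually_all.2 fun t => hC' I t] with n hn I
  refine le_trans ?_ ((le_abs_self _).trans (Finset.single_le_sum
    (f := fun I => |∑ _x ∈ P, ∑ t, Kc t * C' I t|) (fun _ _ => abs_nonneg _) (Finset.mem_univ I)))
  have hcf := (cf_cont (H := H) A hc hf n I).abs
  have i1 : ∀ x, IntegrableOn (fun z => |cf r g H c f n I z|) (closedBall (e x) (s / 2)) := fun x =>
    (hcf.mono (hBU x)).integrableOn_compact (isCompact_closedBall _ _)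
  have i2 := fun x => (integrable_indicator_iff measurableSet_closedBall).2 (i1 x)
  calc ∫ z in K, |cf r g H c f n I z|
      ≤ ∫ z, ∑ x ∈ P, (closedBall (e x) (s / 2)).indicator (fun z => |cf r g H c f n I z|) z := by
        rw [← integral_indicator k.cpt.measurableSet]
        refine integral_mono ((integrable_indicator_iff k.cpt.measurableSet).2
          ((hcf.mono hKU).integrableOn_compact k.cpt)) (integrable_finsetSum _ fun x _ => i2 x)
          fun y => ?_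
        have h0 : ∀ x ∈ P, 0 ≤ (closedBall (e x) (s / 2)).indicator
            (fun z => |cf r g H c f n I z|) y := fun x _ =>
          Set.indicator_nonneg (fun _ _ => abs_nonneg _) y
        by_cases hy : y ∈ K
        · obtain ⟨x, h2, h3⟩ := hcov y hy
          refine le_trans ?_ (Finset.single_le_sum h0 h2)
          rw [Set.indicator_of_mem hy, Set.indicator_of_mem h3]
        · rw [Set.indicator_of_notMem hy]
          exact Finset.sum_nonneg h0
    _ = ∑ x ∈ P, ∫ z in closedBall (e x) (s / 2), |cf r g H c f n I z| := by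
        rw [integral_finsetSum _ fun x _ => i2 x]
        exact Finset.sum_congr rfl fun x _ => integral_indicator measurableSet_closedBall
    _ ≤ _ := by
        refine Finset.sum_le_sum fun x _ => ?_
        have i3 : ∀ t, IntegrableOn (fun y => (H ^ n)⁻¹ * (Kc t *
            |dt (fun i => fderiv ℝ (f t i ∘ g^[n] ∘ r) y) fun j => evec (I j)|))
            (closedBall (e x) (s / 2)) := fun t => by
          have i4 := ((XOmAX.cont_dt A (hf t) (fun j => evec (I j)) n).abs.mono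
            (hBU x)).integrableOn_compact (μ := volume) (isCompact_closedBall _ _)
          exact (i4.const_mul _).const_mul _
        refine (integral_mono (i1 x) (integrable_finsetSum Finset.univ fun t _ => i3 t)
          fun y => ?_).trans ?_
        · simp only [cf, ← Finset.mul_sum]
          rw [abs_mul, abs_of_pos (by positivity)]
          refine mul_le_mul_of_nonneg_left ((Finset.abs_sum_le_sum_abs _ _).trans
            (Finset.sum_le_sum fun t _ => ?_)) (by positivity)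
          rw [abs_mul]
          exact mul_le_mul_of_nonneg_right (hK t _).1 (abs_nonneg _)
        · rw [integral_finsetSum _ fun t _ => i3 t]
          refine Finset.sum_le_sum fun t _ => ?_
          rw [integral_const_mul, integral_const_mul, inv_mul_le_iff₀ (by positivity)]
          have := mul_le_mul_of_nonneg_left (hn I t x) (hK0 t).le
          rw [Nat.sub_self, pow_zero, mul_one] at this
          linarith


end Pool.Agent.P.MP_5c499f_an
end

-- part Pool.Agent.P.MP_5c499f_an.XTan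
section

/-! Cone estimates. -/

set_option autoImplicit false

namespace Pool.Agent.P.MP_5c499f_an

open Filter Topology Metric MeasureTheory Matrix

variable {M : Type*} [MetricSpace M] [CompactSpace M] {N u : ℕ} {e : M → VV N} {r : VV N → M}
  {U : Set (VV N)} {g : Equiv.Perm M} {Pr : M → VV N →L[ℝ] XX u} {Io : M → XX u →L[ℝ] VV N}
  {C₀ a : ℝ}

namespace XTanX

omit [CompactSpace M] in
lemma a_le_one (A : Amb e r U g Pr Io C₀ a) : a ≤ 1 := by
  have h1 := A.one_le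
  have h2 := A.a_le
  have h3 := A.a_pos
  have h4 : 1 ≤ C₀ ^ 2 := one_le_pow₀ h1
  nlinarith

omit [CompactSpace M] in
lemma nQ (A : Amb e r U g Pr Io C₀ a) (x : M) (v : VV N) : ‖Io x (Pr x v)‖ ≤ C₀ ^ 2 * ‖v‖ := by
  have h0 : 0 ≤ C₀ := le_trans zero_le_one A.one_le
  calc ‖Io x (Pr x v)‖ ≤ C₀ * ‖Pr x v‖ := A.n_io _ _
    _ ≤ C₀ * (C₀ * ‖v‖) := mul_le_mul_of_nonneg_left (A.n_pr _ _) h0
    _ = C₀ ^ 2 * ‖v‖ := by ring

omit [CompactSpace M] in
lemma iter (A : Amb e r U g Pr Io C₀ a) {y : VV N} (hy : y ∈ U) (w : VV N) (n : ℕ) :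
    ‖Dn e r g n y w - Io (g^[n] (r y)) (Pr (g^[n] (r y)) (Dn e r g n y w))‖ ≤
        a ^ n * ‖Dn e r g 0 y w - Io (r y) (Pr (r y) (Dn e r g 0 y w))‖ ∧
      ‖Io (r y) (Pr (r y) (Dn e r g 0 y w))‖ ≤
        a ^ n * ‖Io (g^[n] (r y)) (Pr (g^[n] (r y)) (Dn e r g n y w))‖ ∧
      (Pr (r y) (Dn e r g 0 y w) = 0 →
        Io (g^[n] (r y)) (Pr (g^[n] (r y)) (Dn e r g n y w)) = 0) := by
  have ha := A.a_pos
  induction n with
  | zero =>
    refine ⟨by simp, by simp, fun h => ?_⟩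
    simp only [Function.iterate_zero, id_eq, h, map_zero]
  | succ n ih =>
    obtain ⟨h1, h2, h3⟩ := ih
    rw [A.Dn_succ n hy, Function.iterate_succ_apply', ContinuousLinearMap.comp_apply, A.comm]
    generalize g^[n] (r y) = z at h1 h2 h3 ⊢
    generalize Dn e r g n y w = v at h1 h2 h3 ⊢
    refine ⟨?_, ?_, fun h => ?_⟩
    · rw [← map_sub]
      have h4 : Pr z (v - Io z (Pr z v)) = 0 := by rw [map_sub, A.pr_io, sub_self]
      calc _ ≤ a * ‖v - Io z (Pr z v)‖ := A.st _ _ h4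
        _ ≤ a * (a ^ n * ‖Dn e r g 0 y w - Io (r y) (Pr (r y) (Dn e r g 0 y w))‖) :=
          mul_le_mul_of_nonneg_left h1 ha.le
        _ = _ := by ring
    · calc _ ≤ a ^ n * ‖Io z (Pr z v)‖ := h2
        _ ≤ a ^ n * (a * ‖Dm e r (e ∘ g) z (Io z (Pr z v))‖) :=
          mul_le_mul_of_nonneg_left (A.un _ _) (pow_pos ha n).le
        _ = _ := by ring
    · rw [h3 h, map_zero]

lemma start (A : Amb e r U g Pr Io C₀ a) : ∃ σ K, 0 < σ ∧ 0 < K ∧ ∀ x y, ‖y - e x‖ ≤ σ →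
    y ∈ U ∧ (∀ w, ‖Dn e r g 0 y w‖ ≤ K * ‖w‖) ∧ ∀ b,
      ‖Dn e r g 0 y (Io x b) - Io (r y) (Pr (r y) (Dn e r g 0 y (Io x b)))‖ ≤
        ‖Io (r y) (Pr (r y) (Dn e r g 0 y (Io x b)))‖ ∧
      ‖b‖ ≤ 2 * C₀ * ‖Io (r y) (Pr (r y) (Dn e r g 0 y (Io x b)))‖ := by
  have h1 := A.one_le
  have hC : 0 < C₀ := lt_of_lt_of_le zero_lt_one h1
  have h4 : 1 ≤ C₀ ^ 2 := one_le_pow₀ h1
  have hθ : 0 < 1 / (10 * C₀ ^ 2) := by positivity
  have hθ1 : 1 / (10 * C₀ ^ 2) ≤ 1 / 10 :=
    one_div_le_one_div_of_le (by norm_num) (by linarith)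
  obtain ⟨s, hs, hu⟩ := A.unif A.c1 hθ
  obtain ⟨η, hη, hq⟩ := A.ucQ (κ := 1 / 10) (by norm_num)
  obtain ⟨s', hs', hn⟩ := A.near hη
  obtain ⟨K, hK, hb⟩ := A.bdd (φ := e) A.c1
  refine ⟨min s s', K + 1, lt_min hs hs', by linarith, fun x y hy => ?_⟩
  obtain ⟨hyU, hd, -⟩ := hu x y (hy.trans (min_le_left _ _))
  obtain ⟨-, hnear⟩ := hn x y (hy.trans (min_le_right _ _))
  have hR : ∀ w, ‖Dn e r g 0 y w - Dm e r e x w‖ ≤ 1 / (10 * C₀ ^ 2) * ‖w‖ := fun w =>
    ((fderiv ℝ (e ∘ r) y - fderiv ℝ (e ∘ r) (e x)).le_opNorm w).trans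
      (mul_le_mul_of_nonneg_right hd (norm_nonneg _))
  refine ⟨hyU, fun w => ?_, fun b => ?_⟩
  · have h5 := hR w
    have h6 := (hb x).2 w
    have h7 := norm_sub_norm_le (Dn e r g 0 y w) (Dm e r e x w)
    have h8 : 1 / (10 * C₀ ^ 2) * ‖w‖ ≤ 1 / 10 * ‖w‖ :=
      mul_le_mul_of_nonneg_right hθ1 (norm_nonneg _)
    have h9 := norm_nonneg w
    nlinarith
  · have h5 := hR (Io x b)
    rw [A.tan] at h5
    have h6 := hq (r y) x hnear (Io x b)
    rw [A.pr_io] at h6
    have h7 : ‖b‖ ≤ C₀ * ‖Io x b‖ := by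
      have := A.n_pr x (Io x b)
      rwa [A.pr_io] at this
    generalize Io x b = w at h5 h6 h7
    generalize Dn e r g 0 y w = v at h5 ⊢
    have h8 := nQ A (r y) (v - w)
    have h9 : C₀ ^ 2 * ‖v - w‖ ≤ 1 / 10 * ‖w‖ := by
      calc C₀ ^ 2 * ‖v - w‖ ≤ C₀ ^ 2 * (1 / (10 * C₀ ^ 2) * ‖w‖) :=
            mul_le_mul_of_nonneg_left h5 (by positivity)
        _ = 1 / 10 * ‖w‖ := by field_simp
    have h10 : ‖v - w‖ ≤ 1 / 10 * ‖w‖ :=
      h5.trans (mul_le_mul_of_nonneg_right hθ1 (norm_nonneg _))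
    rw [map_sub, map_sub] at h8
    have h11 : ‖Io (r y) (Pr (r y) v) - w‖ ≤ 1 / 5 * ‖w‖ := by
      have := norm_sub_le_norm_sub_add_norm_sub (Io (r y) (Pr (r y) v)) (Io (r y) (Pr (r y) w)) w
      linarith
    have h12 := norm_sub_norm_le w (Io (r y) (Pr (r y) v))
    rw [norm_sub_rev] at h12
    have h13 := norm_sub_le_norm_sub_add_norm_sub v w (Io (r y) (Pr (r y) v))
    rw [norm_sub_rev w] at h13
    have h14 := norm_nonneg w
    refine ⟨by linarith, h7.trans ?_⟩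
    rw [mul_comm 2 C₀, mul_assoc]
    exact mul_le_mul_of_nonneg_left (by linarith) hC.le

lemma exists_inv {S : XX u →L[ℝ] XX u} (h : Function.Injective S) :
    ∃ S' : XX u →L[ℝ] XX u, (∀ v, S (S' v) = v) ∧ ∀ v, S' (S v) = v := by
  have hs : Function.Surjective (S : XX u →ₗ[ℝ] XX u) :=
    LinearMap.injective_iff_surjective.1 h
  let E := LinearEquiv.ofBijective (S : XX u →ₗ[ℝ] XX u) ⟨h, hs⟩
  refine ⟨LinearMap.toContinuousLinearMap (E.symm : XX u →ₗ[ℝ] XX u), fun v => ?_, fun v => ?_⟩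
  · exact E.apply_symm_apply v
  · exact E.symm_apply_apply v

lemma inj_of_le {W : Type*} [NormedAddCommGroup W] [NormedSpace ℝ W] {S : XX u →L[ℝ] W} {K : ℝ}
    (h : ∀ v, ‖v‖ ≤ K * ‖S v‖) : Function.Injective S := by
  refine (injective_iff_map_eq_zero S).2 fun v hv => ?_
  have := h v
  rw [hv, norm_zero, mul_zero] at this
  exact norm_le_zero_iff.1 this

lemma det_ne_zero_iff {S : XX u →L[ℝ] XX u} : S.det ≠ 0 ↔ Function.Injective S := by
  have h := LinearMap.det_eq_zero_iff_ker_ne_bot (f := (S : XX u →ₗ[ℝ] XX u))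
  rw [ContinuousLinearMap.det, Ne, h, not_not, LinearMap.ker_eq_bot]
  rfl

lemma dt_comp' (ξ : Fin u → VV N →L[ℝ] ℝ) (T : XX u →L[ℝ] VV N) (S : XX u →L[ℝ] XX u) :
    dt ξ (fun j => (T ∘L S) (bas u j)) = S.det * dt ξ (fun j => T (bas u j)) :=
  dt_comp (fun i => ξ i ∘L T) S

end XTanX

open XTanX

theorem Amb.tanE (A : Amb e r U g Pr Io C₀ a) : ∃ σ C, 0 < σ ∧ 0 < C ∧ TanE e r U g Pr Io a σ C := by
  obtain ⟨σ, K, hσ, hK, h⟩ := start A
  have h1 := A.one_le
  have hC : 0 < C₀ := lt_of_lt_of_le zero_lt_one h1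
  have ha := A.a_pos
  have ha1 := a_le_one A
  have p1 : 0 < 2 * C₀ ^ 3 := by positivity
  have p2 : 0 < 2 * C₀ ^ 3 * K := by positivity
  have p3 : 0 < K * (1 + C₀ * (2 * C₀ ^ 3 * K)) := by positivity
  refine ⟨σ, 2 * C₀ ^ 3 + 2 * C₀ ^ 3 * K + K * (1 + C₀ * (2 * C₀ ^ 3 * K)), hσ, by positivity,
    fun x y hy => (h x y hy).1, fun x y n b hy => ?_, fun x y n b hy => ?_, fun x y hy => ?_⟩
  · obtain ⟨hU, -, hb⟩ := h x y hy
    obtain ⟨i1, i2, -⟩ := iter A hU (Io x b) n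
    have han : a ^ n ≤ 1 := pow_le_one₀ ha.le ha1
    refine i1.trans (mul_le_mul_of_nonneg_left ((hb b).1.trans (i2.trans ?_)) (pow_pos ha n).le)
    exact mul_le_of_le_one_left (norm_nonneg _) han
  · obtain ⟨hU, -, hb⟩ := h x y hy
    obtain ⟨-, i2, -⟩ := iter A hU (Io x b) n
    have han := pow_pos ha n
    calc ‖b‖ ≤ _ := (hb b).2
      _ ≤ 2 * C₀ * (a ^ n * (C₀ ^ 2 * ‖Dn e r g n y (Io x b)‖)) :=
        mul_le_mul_of_nonneg_left (i2.trans (mul_le_mul_of_nonneg_left (nQ A _ _) han.le))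
          (by positivity)
      _ = 2 * C₀ ^ 3 * a ^ n * ‖Dn e r g n y (Io x b)‖ := by ring
      _ ≤ _ := by gcongr; linarith
  · obtain ⟨hU, hR, hb⟩ := h x y hy
    have hS : ∀ b, ‖b‖ ≤ 2 * C₀ ^ 2 * ‖(Pr (r y) ∘L Dn e r g 0 y ∘L Io x) b‖ := fun b => by
      calc ‖b‖ ≤ _ := (hb b).2
        _ ≤ 2 * C₀ * (C₀ * ‖Pr (r y) (Dn e r g 0 y (Io x b))‖) :=
          mul_le_mul_of_nonneg_left (A.n_io _ _) (by positivity)
        _ = _ := by
          simp only [ContinuousLinearMap.comp_apply]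
          ring
    obtain ⟨S', hS1, -⟩ := exists_inv (inj_of_le hS)
    have hβ : ∀ w, ‖S' (Pr (r y) (Dn e r g 0 y w))‖ ≤ 2 * C₀ ^ 3 * K * ‖w‖ := fun w => by
      calc _ ≤ _ := hS _
        _ = 2 * C₀ ^ 2 * ‖Pr (r y) (Dn e r g 0 y w)‖ := by rw [hS1]
        _ ≤ 2 * C₀ ^ 2 * (C₀ * (K * ‖w‖)) :=
          mul_le_mul_of_nonneg_left ((A.n_pr _ _).trans (mul_le_mul_of_nonneg_left (hR w) hC.le))
            (by positivity)
        _ = _ := by ring
    refine ⟨S' ∘L Pr (r y) ∘L Dn e r g 0 y, fun w => (hβ w).trans ?_, fun n w => ?_⟩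
    · gcongr
      linarith
    · simp only [ContinuousLinearMap.comp_apply]
      have hβw := hβ w
      have h0 := hS1 (Pr (r y) (Dn e r g 0 y w))
      simp only [ContinuousLinearMap.comp_apply] at h0
      generalize S' (Pr (r y) (Dn e r g 0 y w)) = b at hβw h0 ⊢
      have h2 : Pr (r y) (Dn e r g 0 y (w - Io x b)) = 0 := by
        rw [map_sub, map_sub, h0, sub_self]
      obtain ⟨i1, -, i3⟩ := iter A hU (w - Io x b) n
      rw [i3 h2, h2, map_zero, sub_zero, sub_zero] at i1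
      rw [← map_sub]
      have han := pow_pos ha n
      have h3 : ‖w - Io x b‖ ≤ (1 + C₀ * (2 * C₀ ^ 3 * K)) * ‖w‖ := by
        have h4 := norm_sub_le w (Io x b)
        have h5 := A.n_io x b
        have h6 := mul_le_mul_of_nonneg_left hβw hC.le
        nlinarith
      calc _ ≤ _ := i1
        _ ≤ a ^ n * (K * ((1 + C₀ * (2 * C₀ ^ 3 * K)) * ‖w‖)) :=
          mul_le_mul_of_nonneg_left ((hR _).trans (mul_le_mul_of_nonneg_left h3 hK.le)) han.le
        _ = K * (1 + C₀ * (2 * C₀ ^ 3 * K)) * a ^ n * ‖w‖ := by ring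
        _ ≤ _ := by gcongr; linarith

theorem pos_of_ne (A : Amb e r U g Pr Io C₀ a) {Ψ : M → (XX u →L[ℝ] VV N) → ℝ} (h : UF Ψ)
    (h0 : ∀ x, Ψ x (Io x) ≠ 0) : Pos Pr Io Ψ := by
  have h1 := A.one_le
  have hC : 0 < C₀ := lt_of_lt_of_le zero_lt_one h1
  let Z : Set (M × (XX u →L[ℝ] VV N)) :=
    (Set.univ ×ˢ closedBall 0 C₀) ∩
      ({p | (Io p.1 ∘L Pr p.1) ∘L p.2 = p.2} ∩ ⋂ b, {p | ‖b‖ ≤ C₀ * ‖p.2 b‖})
  have hZ : IsCompact Z := by
    refine (isCompact_univ.prod (isCompact_closedBall 0 C₀)).inter_right (IsClosed.inter ?_ ?_)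
    · exact isClosed_eq ((A.cont.comp continuous_fst).clm_comp continuous_snd) continuous_snd
    · refine isClosed_iInter fun b => isClosed_le continuous_const ?_
      exact continuous_const.mul (continuous_snd.clm_apply continuous_const).norm
  have hmem : ∀ x, (x, Io x) ∈ Z := fun x => by
    refine ⟨⟨trivial, ?_⟩, ?_, Set.mem_iInter.2 fun b => ?_⟩
    · exact mem_closedBall_zero_iff.2
        (ContinuousLinearMap.opNorm_le_bound _ hC.le (A.n_io x))
    · refine ContinuousLinearMap.ext fun b => ?_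
      simp only [ContinuousLinearMap.comp_apply, A.pr_io]
    · have := A.n_pr x (Io x b)
      rwa [A.pr_io] at this
  have hsub : Z ⊆ {p | Ψ p.1 p.2 ≠ 0} := by
    rintro ⟨x, T⟩ ⟨-, h2, h3⟩
    have h4 : Io x ∘L (Pr x ∘L T) = T := h2
    have h5 : ∀ b, ‖b‖ ≤ C₀ * ‖T b‖ := fun b => Set.mem_iInter.1 h3 b
    have h6 : Function.Injective (Pr x ∘L T) := by
      intro b b' hb
      refine inj_of_le h5 ?_
      rw [← h4, ContinuousLinearMap.comp_apply, hb]
      rfl
    show Ψ x T ≠ 0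
    rw [← h4, h.comp]
    exact mul_ne_zero (det_ne_zero_iff.2 h6) (h0 x)
  obtain ⟨δ, hδ, hth⟩ := hZ.exists_cthickening_subset_open
    (isOpen_ne_fun h.cont continuous_const) hsub
  obtain ⟨c, hc, hlow⟩ := (hZ.cthickening (r := δ)).exists_forall_le'
    (f := fun p => |Ψ p.1 p.2|) (a := 0) h.cont.abs.continuousOn
    fun p hp => abs_pos.2 (show Ψ p.1 p.2 ≠ 0 from hth hp)
  have hf : (0 : ℝ) < u.factorial * (2 * C₀) ^ u := by positivity
  refine ⟨min 1 (δ / C₀), u.factorial * (2 * C₀) ^ u / c, lt_min one_pos (div_pos hδ hC),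
    div_pos hf hc, fun x T hT S hS => ?_⟩
  have h2 : ∀ v, ‖S v‖ ≤ 2 * C₀ * ‖(Pr x ∘L T) v‖ := fun v => by
    have h3 := (hT v).trans (mul_le_mul_of_nonneg_right (min_le_left _ _) (norm_nonneg _))
    have h4 := norm_sub_norm_le (T v) (Io x (Pr x (T v)))
    have h5 := A.n_io x (Pr x (T v))
    have h6 := hS v
    rw [ContinuousLinearMap.comp_apply]
    linarith
  have h3 := det_le_det (by positivity) h2
  by_cases hd : (Pr x ∘L T).det = 0
  · rw [hd, abs_zero, mul_zero] at h3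
    exact h3.trans (by positivity)
  · obtain ⟨S', hS1, hS2⟩ := exists_inv (det_ne_zero_iff.1 hd)
    have h4 : (T ∘L S') ∘L (Pr x ∘L T) = T := by
      refine ContinuousLinearMap.ext fun v => ?_
      rw [ContinuousLinearMap.comp_apply, ContinuousLinearMap.comp_apply, hS2]
    have h5 : ‖T ∘L S' - Io x‖ ≤ δ := by
      refine ContinuousLinearMap.opNorm_le_bound _ hδ.le fun v => ?_
      have h6 := (hT (S' v)).trans (mul_le_mul_of_nonneg_right (min_le_right _ _) (norm_nonneg _))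
      have h7 : Pr x (T (S' v)) = v := hS1 v
      rw [h7] at h6
      calc _ ≤ _ := h6
        _ ≤ δ / C₀ * (C₀ * ‖v‖) := mul_le_mul_of_nonneg_left (A.n_io x v) (div_pos hδ hC).le
        _ = δ * ‖v‖ := by field_simp
    have h6 : c ≤ |Ψ x (T ∘L S')| := by
      refine hlow (x, T ∘L S') (mem_cthickening_of_dist_le _ (x, Io x) _ _ (hmem x) ?_)
      rw [Prod.dist_eq, dist_self, dist_eq_norm]
      exact max_le hδ.le h5
    have h7 : |Ψ x T| = |(Pr x ∘L T).det| * |Ψ x (T ∘L S')| := by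
      rw [← abs_mul, ← h.comp, h4]
    rw [h7]
    calc _ ≤ _ := h3
      _ = u.factorial * (2 * C₀) ^ u / c * (|(Pr x ∘L T).det| * c) := by field_simp
      _ ≤ _ := by gcongr

theorem uf_psiW (A : Amb e r U g Pr Io C₀ a) {w : (Fin u → Fin N) → VV N → ℝ}
    (hw : ∀ I, Continuous (w I)) : UF (PsiW e w) := by
  refine ⟨continuous_finsetSum _ fun I _ => ?_, fun x T S => ?_⟩
  · refine ((hw I).comp (A.cont_e.comp continuous_fst)).mul ?_
    refine continuousOn_univ.1 (continuousOn_dt (fun i => continuousOn_const) fun j => ?_)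
    exact (continuous_snd.clm_apply continuous_const).continuousOn
  · simp only [PsiW, dt_comp', Finset.mul_sum]
    exact Finset.sum_congr rfl fun I _ => by ring

theorem uf_psiF (A : Amb e r U g Pr Io C₀ a) {m : ℕ} {c : Fin m → M → ℝ}
    {f : Fin m → Fin u → M → ℝ} (hc : ∀ t, ContDiffOn ℝ 1 (c t ∘ r) U)
    (hf : ∀ t i, ContDiffOn ℝ 1 (f t i ∘ r) U) : UF (PsiF e r c f) := by
  refine ⟨continuous_finsetSum _ fun t _ => ?_, fun x T S => ?_⟩
  · refine ((A.cont_φ (hc t)).comp continuous_fst).mul ?_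
    refine continuousOn_univ.1 (continuousOn_dt (fun i => ?_) fun j => ?_)
    · exact ((A.cont_Dm (hf t i)).comp continuous_fst).continuousOn
    · exact (continuous_snd.clm_apply continuous_const).continuousOn
  · simp only [PsiF, dt_comp', Finset.mul_sum]
    exact Finset.sum_congr rfl fun I _ => by ring

/-- For large `n` a positive form dominates the volume element of the iterated discs and does not
vanish. -/
theorem TanE.dom {σ C : ℝ} (T : TanE e r U g Pr Io a σ C) (hC : 0 < C) (h1 : 0 < a) (h2 : a < 1)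
    {Ψ : M → (XX u →L[ℝ] VV N) → ℝ} (h : Pos Pr Io Ψ) : ∃ c, 0 < c ∧ ∀ᶠ n in atTop, ∀ x y,
      ‖y - e x‖ ≤ σ → Ψ (g^[n] (r y)) (Dn e r g n y ∘L Io x) ≠ 0 ∧
        Above (Dn e r g n y ∘L Io x) (c * |Ψ (g^[n] (r y)) (Dn e r g n y ∘L Io x)|) := by
  obtain ⟨κ, c, hκ, hc, hp⟩ := h
  refine ⟨c, hc, ?_⟩
  have he : ∀ᶠ n : ℕ in atTop, a ^ n ≤ κ :=
    (tendsto_pow_atTop_nhds_zero_of_lt_one h1.le h2).eventually (ge_mem_nhds hκ)
  filter_upwards [he] with n hn x y hy
  have hab := hp (g^[n] (r y)) (Dn e r g n y ∘L Io x) fun v =>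
    (T.cone x y n v hy).trans (mul_le_mul_of_nonneg_right hn (norm_nonneg _))
  refine ⟨fun h0 => ?_, hab⟩
  have hq : 0 < C * a ^ n := by positivity
  have h3 := hab ((C * a ^ n)⁻¹ • ContinuousLinearMap.id ℝ (XX u)) fun v => by
    rw [_root_.smul_apply, ContinuousLinearMap.id_apply, norm_smul, norm_inv,
      Real.norm_of_nonneg hq.le, inv_mul_le_iff₀ hq]
    exact T.expd x y n v hy
  rw [h0, abs_zero, mul_zero, abs_nonpos_iff] at h3
  refine det_ne_zero_iff.2 (inj_of_le (K := C * a ^ n) fun v => ?_) h3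
  rw [_root_.smul_apply, ContinuousLinearMap.id_apply, norm_smul, norm_inv,
    Real.norm_of_nonneg hq.le, ← mul_assoc, mul_inv_cancel₀ hq.ne', one_mul]


end Pool.Agent.P.MP_5c499f_an
end

-- part Pool.Agent.P.MP_5c499f_an.XOmP
section

/-! Positivity of the limit form. -/

set_option autoImplicit false

namespace Pool.Agent.P.MP_5c499f_an

open Filter Topology Metric MeasureTheory Matrix

variable {M : Type*} [MetricSpace M] [CompactSpace M] {N u : ℕ} {e : M → VV N} {r : VV N → M}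
  {U : Set (VV N)} {g : Equiv.Perm M} {Pr : M → VV N →L[ℝ] XX u} {Io : M → XX u →L[ℝ] VV N}
  {C₀ a : ℝ}
  {H s C : ℝ} {m : ℕ} {c : Fin m → M → ℝ} {f : Fin m → Fin u → M → ℝ} {ρ : VV N → ℝ}
  {K : Set (VV N)}

namespace XOmPX

omit [CompactSpace M] in
lemma sum_cf (A : Amb e r U g Pr Io C₀ a) (hf : ∀ t i, ContDiffOn ℝ 1 (f t i ∘ r) U) (n : ℕ)
    (x : M) {z : VV N} (hz : z ∈ U) :
    ∑ I, cf r g H c f n I z * dt (fun i => crd (I i)) (fun j => Io x (bas u j)) =
      (H ^ n)⁻¹ * u.factorial * PsiF e r c f (g^[n] (r z)) (Dn e r g n z ∘L Io x) := by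
  have h1 : ∀ t, ∑ I : Fin u → Fin N,
      dt (fun i => fderiv ℝ (f t i ∘ g^[n] ∘ r) z) (fun j => evec (I j)) *
        dt (fun i => crd (I i)) (fun j => Io x (bas u j)) = u.factorial *
      dt (fun i => Dm e r (f t i) (g^[n] (r z))) fun j => (Dn e r g n z ∘L Io x) (bas u j) := by
    intro t
    rw [binet]
    simp only [A.fderiv_iter (hf t _) n hz]
    rfl
  simp only [cf, PsiF, Finset.mul_sum, Finset.sum_mul]
  rw [Finset.sum_comm]
  refine Finset.sum_congr rfl fun t _ => ?_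
  have h2 := congrArg (fun y => (H ^ n)⁻¹ * c t (g^[n] (r z)) * y) (h1 t)
  simp only [Finset.mul_sum] at h2
  refine Eq.trans (Finset.sum_congr rfl fun I _ => by ring) (h2.trans (by ring))

lemma sign {B : Set (VV N)} (hB : IsPreconnected B) {P : VV N → ℝ} (hP : ContinuousOn P B)
    (h0 : ∀ z ∈ B, P z ≠ 0) : ∃ σ : ℝ, |σ| = 1 ∧ ∀ z ∈ B, P z = σ * |P z| := by
  by_cases h : ∀ z ∈ B, 0 < P z
  · exact ⟨1, abs_one, fun z hz => by rw [one_mul, abs_of_pos (h z hz)]⟩
  · push Not at h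
    obtain ⟨y, hy, hy0⟩ := h
    refine ⟨-1, by simp, fun z hz => ?_⟩
    have : P z ≤ 0 := by
      by_contra hz0
      obtain ⟨w, hw, hw0⟩ := hB.intermediate_value hy hz hP ⟨hy0, (not_le.1 hz0).le⟩
      exact h0 w hw hw0
    rw [abs_of_nonpos this]; ring

/-- Lower bound for the weighted integral of a function of constant sign. -/
lemma low {p : VV N} {t : ℝ} (ht : 0 < t) {P κ : VV N → ℝ} (hκ : Continuous κ)
    (hκ0 : ∀ z, 0 ≤ κ z) (hκ1 : ∀ z ∈ closedBall p (t / 2), κ z = 1)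
    (hP : ContinuousOn P (closedBall p t)) (h0 : ∀ z ∈ closedBall p t, P z ≠ 0) :
    ∫ z in closedBall p (t / 2), |P z| ≤ |∫ z in closedBall p t, κ z * P z| := by
  obtain ⟨σ, hσ, hs⟩ := sign (convex_closedBall p t).isPreconnected hP h0
  have e1 : ∫ z in closedBall p t, κ z * P z = σ * ∫ z in closedBall p t, κ z * |P z| := by
    rw [← integral_const_mul]
    refine setIntegral_congr_fun measurableSet_closedBall fun z hz => ?_
    have := hs z hz
    show κ z * P z = σ * (κ z * |P z|)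
    linear_combination κ z * this
  have e2 : ∫ z in closedBall p (t / 2), |P z| = ∫ z in closedBall p (t / 2), κ z * |P z| :=
    setIntegral_congr_fun measurableSet_closedBall fun z hz => by
      show |P z| = κ z * |P z|
      rw [hκ1 z hz, one_mul]
  rw [e1, abs_mul, hσ, one_mul, e2]
  refine le_trans ?_ (le_abs_self _)
  refine setIntegral_mono_set
    ((hκ.continuousOn.mul hP.abs).integrableOn_compact (isCompact_closedBall p t))
    (Eventually.of_forall fun z => mul_nonneg (hκ0 z) (abs_nonneg _)) ?_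
  exact (closedBall_subset_closedBall (by linarith)).eventuallyLE

end XOmPX

theorem cf_pos (A : Amb e r U g Pr Io C₀ a) (D : DV e r U g Pr Io C₀ a H s C)
    (hc : ∀ t, ContDiffOn ℝ 1 (c t ∘ r) U) (hf : ∀ t i, ContDiffOn ℝ 1 (f t i ∘ r) U)
    (k : Ker e (s / 4) ρ K) (nz : ∀ x, PsiF e r c f x (Io x) ≠ 0) :
    ∃ c₀, 0 < c₀ ∧ ∀ᶠ n in atTop, ∀ x, c₀ ≤ |∑ I, (∫ z in K, ρ (e x - z) * cf r g H c f n I z) *
      dt (fun i => crd (I i)) fun j => Io x (bas u j)| := by
  have hs := D.s_pos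
  have hH := D.H_pos
  have hC1 := A.one_le
  have ha1 : a < 1 := by
    have h2 := A.a_pos
    have h3 := A.a_le
    have h4 : 1 ≤ C₀ ^ 2 := one_le_pow₀ hC1
    nlinarith
  have hU := uf_psiF A hc hf
  obtain ⟨c₁, hc₁, hdom⟩ := D.tan.dom D.C_pos A.a_pos ha1 (pos_of_ne A hU nz)
  obtain ⟨c₂, hc₂, hlow⟩ := (D.avg A).2 (s / 4 / 2) (by positivity) (by linarith)
  have hKU := (cf_bdd A D hc hf k).1
  refine ⟨c₂ / c₁, by positivity, hdom.mono fun n hn x => ?_⟩
  obtain ⟨P, hP⟩ : ∃ P : VV N → ℝ,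
      P = fun z => PsiF e r c f (g^[n] (r z)) (Dn e r g n z ∘L Io x) := ⟨_, rfl⟩
  have hκ : Continuous fun z => ρ (e x - z) :=
    k.smooth.continuous.comp (continuous_const.sub continuous_id)
  have hBK : closedBall (e x) (s / 4) ⊆ K := fun z hz =>
    (k.mem z).2 ⟨x, mem_closedBall_iff_norm.1 hz⟩
  have hσ : ∀ z ∈ closedBall (e x) (s / 4), ‖z - e x‖ ≤ (1 + C₀) * s := fun z hz =>
    (mem_closedBall_iff_norm.1 hz).trans (by nlinarith)
  have hPc : ContinuousOn P U := by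
    rw [hP]
    exact hU.cont.comp_continuousOn
      (((A.cont_g.iterate n).comp_continuousOn A.cont_r).prodMk
        ((A.cont_Dn n).clm_comp continuousOn_const))
  have hint : ∀ I, IntegrableOn (fun z => ρ (e x - z) * cf r g H c f n I z) K := fun I =>
    (hκ.continuousOn.mul ((cf_cont A hc hf n I).mono hKU)).integrableOn_compact k.cpt
  have e1 : ∑ I, (∫ z in K, ρ (e x - z) * cf r g H c f n I z) *
      dt (fun i => crd (I i)) (fun j => Io x (bas u j)) =
      (H ^ n)⁻¹ * u.factorial * ∫ z in closedBall (e x) (s / 4), ρ (e x - z) * P z := by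
    simp only [← integral_mul_const]
    rw [← integral_finsetSum _ fun I _ => (hint I).mul_const _,
      ← setIntegral_eq_of_subset_of_forall_sdiff_eq_zero k.cpt.measurableSet hBK,
      ← integral_const_mul]
    · refine setIntegral_congr_fun k.cpt.measurableSet fun z hz => ?_
      have h := XOmPX.sum_cf (H := H) (c := c) A hf n x (hKU hz)
      have h2 := congrArg (fun y => ρ (e x - z) * y) h
      simp only [Finset.mul_sum] at h2
      simp only [hP]
      exact Eq.trans (Finset.sum_congr rfl fun I _ => by ring) (h2.trans (by ring))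
    · intro z hz
      have h := hz.2
      rw [mem_closedBall_iff_norm', not_le] at h
      rw [k.zero _ h.le, zero_mul]
  have e2 := XOmPX.low (p := e x) (t := s / 4) (by positivity) hκ (fun z => k.nonneg _)
    (fun z hz => k.one _ (mem_closedBall_iff_norm'.1 hz)) (hPc.mono (hBK.trans hKU))
    (fun z hz => by rw [hP]; exact (hn x z (hσ z hz)).1)
  have hsub : closedBall (e x) (s / 4 / 2) ⊆ closedBall (e x) (s / 4) :=
    closedBall_subset_closedBall (by linarith)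
  have hj : ContinuousOn (fun z => c₁ * |P z|) (closedBall (e x) (s / 4 / 2)) :=
    continuousOn_const.mul (hPc.mono (hsub.trans (hBK.trans hKU))).abs
  have e3 := hlow x n (fun z => c₁ * |P z|) hj
    (fun z hz => by rw [hP]; exact (hn x z (hσ z (hsub hz))).2)
  rw [← ofReal_integral_eq_lintegral_ofReal (hj.integrableOn_compact (isCompact_closedBall _ _))
    (Eventually.of_forall fun z => mul_nonneg hc₁.le (abs_nonneg _)),
    ENNReal.ofReal_le_ofReal_iff (integral_nonneg fun z => mul_nonneg hc₁.le (abs_nonneg _)),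
    integral_const_mul] at e3
  have hHn : 0 < H ^ n := pow_pos hH n
  have hfa : (1 : ℝ) ≤ u.factorial := Nat.one_le_cast.2 u.factorial_pos
  rw [e1, abs_mul, abs_of_pos (by positivity : (0 : ℝ) < (H ^ n)⁻¹ * u.factorial),
    div_le_iff₀ hc₁]
  obtain ⟨J, hJ⟩ : ∃ J, J = |∫ z in closedBall (e x) (s / 4), ρ (e x - z) * P z| := ⟨_, rfl⟩
  rw [← hJ] at e2 ⊢
  have hJ0 : 0 ≤ J := hJ ▸ abs_nonneg _
  have e4 : c₂ * H ^ n ≤ c₁ * J := e3.trans (mul_le_mul_of_nonneg_left e2 hc₁.le)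
  calc c₂ = (H ^ n)⁻¹ * (c₂ * H ^ n) := by field_simp
    _ ≤ (H ^ n)⁻¹ * (u.factorial * (c₁ * J)) :=
      mul_le_mul_of_nonneg_left (e4.trans (le_mul_of_one_le_left (by positivity) hfa))
        (by positivity)
    _ = _ := by ring


end Pool.Agent.P.MP_5c499f_an
end

-- part Pool.Agent.P.MP_5c499f_an.XWStk
section

set_option autoImplicit false

noncomputable section

open MeasureTheory Set Module Filter Topology

namespace Pool.Agent.P.MP_5c499f_an.Wn

namespace Stk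

theorem integral_fderiv_zero {X 𝕜 : Type} [NormedAddCommGroup X] [NormedSpace ℝ X]
    [FiniteDimensional ℝ X] [MeasurableSpace X] [BorelSpace X] (μ : Measure X)
    [μ.IsAddHaarMeasure] [RCLike 𝕜] {f : X → 𝕜} (hf : ContDiff ℝ 1 f) (hc : HasCompactSupport f)
    (v : X) : Integrable (fun x => fderiv ℝ f x v) μ ∧ ∫ x, fderiv ℝ f x v ∂μ = 0 := by
  have hi : Integrable (fun x => fderiv ℝ f x v) μ := by
    have h1 : Continuous (fun x => fderiv ℝ f x v) :=
      (hf.continuous_fderiv one_ne_zero).clm_apply continuous_const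
    exact h1.integrable_of_hasCompactSupport (hc.fderiv_apply ℝ v)
  refine ⟨hi, ?_⟩
  have := integral_mul_fderiv_eq_neg_fderiv_mul_of_integrable (μ := μ) (f := fun _ : X => (1 : 𝕜))
    (g := f) (v := v) (by simp) (by simpa using hi)
    (by simpa using hf.continuous.integrable_of_hasCompactSupport hc)
    (fun x _ => differentiableAt_const _) (fun x _ => hf.differentiable one_ne_zero x)
  simpa using this

/-- the algebraic cancellation -/
theorem piola {ρ R : Type} [Fintype ρ] [DecidableEq ρ] [CommRing R] [NoZeroDivisors R]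
    [CharZero R] (M : ρ → ρ → R) (S : ρ → ρ → R) (hS : ∀ b c, S b c = S c b) {a₀ a₁ : ρ}
    (h : a₁ ≠ a₀) :
    ∑ σ : Equiv.Perm ρ, ((Equiv.Perm.sign σ : ℤ) : R) *
      ((∏ a ∈ (Finset.univ.erase a₀).erase a₁, M a (σ a)) * S (σ a₀) (σ a₁)) = 0 := by
  set t : Equiv.Perm ρ → R := fun σ => ((Equiv.Perm.sign σ : ℤ) : R) *
      ((∏ a ∈ (Finset.univ.erase a₀).erase a₁, M a (σ a)) * S (σ a₀) (σ a₁)) with ht
  have h1 : ∀ σ, t (σ * Equiv.swap a₀ a₁) = - t σ := by
    intro σ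
    have hp : ∏ a ∈ (Finset.univ.erase a₀).erase a₁, M a ((σ * Equiv.swap a₀ a₁) a) =
        ∏ a ∈ (Finset.univ.erase a₀).erase a₁, M a (σ a) := by
      refine Finset.prod_congr rfl fun a ha => ?_
      simp only [Finset.mem_erase] at ha
      rw [Equiv.Perm.mul_apply, Equiv.swap_apply_of_ne_of_ne ha.2.1 ha.1]
    simp only [ht]
    rw [hp]
    simp only [Equiv.Perm.sign_mul, Equiv.Perm.sign_swap h.symm, Equiv.Perm.mul_apply,
      Equiv.swap_apply_left, Equiv.swap_apply_right]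
    rw [hS (σ a₁) (σ a₀)]
    simp
  have h2 : ∑ σ, t σ = ∑ σ, t (σ * Equiv.swap a₀ a₁) :=
    (Equiv.sum_comp (Equiv.mulRight (Equiv.swap a₀ a₁)) t).symm
  simp only [h1, Finset.sum_neg_distrib] at h2
  have h3 : (2 : R) * ∑ σ, t σ = 0 := by linear_combination h2
  exact (mul_eq_zero.1 h3).resolve_left two_ne_zero

theorem exists_cutoff {X : Type} [NormedAddCommGroup X] [NormedSpace ℝ X]
    [FiniteDimensional ℝ X] {K O : Set X} (hK : IsCompact K) (hO : IsOpen O) (hKO : K ⊆ O) :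
    ∃ χ : X → ℝ, ContDiff ℝ 2 χ ∧ IsCompact (tsupport χ) ∧ tsupport χ ⊆ O ∧
      (∀ᶠ x in 𝓝ˢ K, χ x = 1) ∧ ∀ x, χ x ∈ Icc (0 : ℝ) 1 := by
  obtain ⟨L, hL, hKL, hLO⟩ := exists_compact_between hK hO hKO
  obtain ⟨f, h1, h0, h01⟩ := exists_contMDiffMap_one_nhds_of_subset_interior (n := 2)
    (modelWithCornersSelf ℝ X) hK.isClosed hKL
  have hs : tsupport f ⊆ L :=
    closure_minimal (s := Function.support f) (fun x hx => by_contra fun h => hx (h0 x h))
      hL.isClosed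
  exact ⟨f, f.contMDiff.contDiff, hL.of_isClosed_subset (isClosed_tsupport _) hs, hs.trans hLO,
    h1, h01⟩

theorem det_rows {X ρ : Type} [NormedAddCommGroup X] [NormedSpace ℝ X] [Fintype ρ]
    [DecidableEq ρ] (ε : Basis ρ ℝ X) (r : ρ → X →L[ℝ] ℝ) :
    (∑ a, (r a).smulRight (ε a)).det = (Matrix.of fun a b => r a (ε b)).det := by
  rw [ContinuousLinearMap.det, ← LinearMap.det_toMatrix ε]
  congr 1
  ext a b
  simp [LinearMap.toMatrix_apply, Finsupp.single_apply]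

end Stk

open Stk in
/-- null Lagrangian with values in `ℝ` or `ℂ` -/
theorem integral_det_eq_zero' {X ρ 𝕜 : Type} [NormedAddCommGroup X] [NormedSpace ℝ X]
    [FiniteDimensional ℝ X] [MeasurableSpace X] [BorelSpace X] (μ : Measure X)
    [μ.IsAddHaarMeasure] [Fintype ρ] [DecidableEq ρ] [RCLike 𝕜] (ε : ρ → X) {U : Set X}
    (hU : IsOpen U) (g : ρ → X → 𝕜) (hg : ∀ a, ContDiffOn ℝ 2 (g a) U) (a₀ : ρ) {K : Set X}
    (hK : IsCompact K) (hKU : K ⊆ U) (h0 : ∀ x ∈ U \ K, g a₀ x = 0) :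
    IntegrableOn (fun x => (Matrix.of fun a b => fderiv ℝ (g a) x (ε b)).det) U μ ∧
    ∫ x in U, (Matrix.of fun a b => fderiv ℝ (g a) x (ε b)).det ∂μ = 0 := by
  classical
  have hga : ∀ a, ∀ x ∈ U, ContDiffAt ℝ 2 (g a) x := fun a x hx =>
    (hg a x hx).contDiffAt (hU.mem_nhds hx)
  have hd : ∀ a (v : X), ∀ x ∈ U, ContDiffAt ℝ 1 (fun y => fderiv ℝ (g a) y v) x :=
    fun a v x hx => ((hga a x hx).fderiv_right (m := 1) (by norm_num)).clm_apply contDiffAt_const
  let p : Equiv.Perm ρ → X → 𝕜 := fun σ x =>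
    g a₀ x * ∏ a ∈ Finset.univ.erase a₀, fderiv ℝ (g a) x (ε (σ a))
  let f : Equiv.Perm ρ → X → 𝕜 := fun σ => U.indicator (p σ)
  have hfU : ∀ σ, ∀ x ∈ U, f σ =ᶠ[𝓝 x] p σ := fun σ x hx => by
    filter_upwards [hU.mem_nhds hx] with y hy using indicator_of_mem hy _
  have hf0 : ∀ σ, ∀ x ∉ K, f σ x = 0 := fun σ x hx => by
    by_cases hxU : x ∈ U
    · simp [f, p, indicator_of_mem hxU, h0 x ⟨hxU, hx⟩]
    · simp [f, indicator_of_notMem hxU]
  have hfK : ∀ σ, ∀ x ∉ K, f σ =ᶠ[𝓝 x] fun _ => 0 := fun σ x hx => by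
    filter_upwards [hK.isClosed.isOpen_compl.mem_nhds hx] with y hy using hf0 σ y hy
  have hfc : ∀ σ, ContDiff ℝ 1 (f σ) := fun σ => by
    rw [contDiff_iff_contDiffAt]
    intro x
    by_cases hx : x ∈ U
    · refine ContDiffAt.congr_of_eventuallyEq ?_ (hfU σ x hx)
      exact ((hga a₀ x hx).of_le (by norm_num)).mul (contDiffAt_prod fun a _ => hd a _ x hx)
    · exact contDiffAt_const.congr_of_eventuallyEq (hfK σ x fun h => hx (hKU h))
  have hfs : ∀ σ, HasCompactSupport (f σ) := fun σ => HasCompactSupport.intro hK (hf0 σ)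
  have key : ∀ x ∈ U, (Matrix.of fun a b => fderiv ℝ (g a) x (ε b)).det =
      ∑ σ : Equiv.Perm ρ, ((Equiv.Perm.sign σ : ℤ) : 𝕜) * fderiv ℝ (f σ) x (ε (σ a₀)) := by
    intro x hx
    have hD : ∀ a (v w : X), fderiv ℝ (fun y => fderiv ℝ (g a) y v) x w =
        fderiv ℝ (fderiv ℝ (g a)) x w v := by
      intro a v w
      have h1 : DifferentiableAt ℝ (fderiv ℝ (g a)) x :=
        ((hga a x hx).fderiv_right (m := 1) (by norm_num)).differentiableAt one_ne_zero
      rw [fderiv_clm_apply h1 (differentiableAt_const v)]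
      simp
    have hp : ∀ σ : Equiv.Perm ρ, fderiv ℝ (f σ) x (ε (σ a₀)) =
        (∏ a, fderiv ℝ (g a) x (ε (σ a))) + g a₀ x * ∑ a₁ ∈ Finset.univ.erase a₀,
          (∏ a ∈ (Finset.univ.erase a₀).erase a₁, fderiv ℝ (g a) x (ε (σ a))) *
            fderiv ℝ (fderiv ℝ (g a₁)) x (ε (σ a₀)) (ε (σ a₁)) := by
      intro σ
      rw [(hfU σ x hx).fderiv_eq]
      have h1 := HasFDerivAt.finsetProd (u := Finset.univ.erase a₀)
        (g := fun a y => fderiv ℝ (g a) y (ε (σ a)))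
        (fun a _ => ((hd a (ε (σ a)) x hx).differentiableAt one_ne_zero).hasFDerivAt)
      have h2 := (((hga a₀ x hx).differentiableAt two_ne_zero).hasFDerivAt).mul h1
      have h3 : p σ = g a₀ * fun y => ∏ a ∈ Finset.univ.erase a₀, fderiv ℝ (g a) y (ε (σ a)) :=
        rfl
      rw [h3, h2.fderiv, ← Finset.mul_prod_erase Finset.univ _ (Finset.mem_univ a₀)]
      simp only [add_apply, smul_apply, smul_eq_mul, sum_apply, hD]
      ring
    simp only [hp, mul_add, Finset.sum_add_distrib]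
    have h4 : ∑ σ : Equiv.Perm ρ, ((Equiv.Perm.sign σ : ℤ) : 𝕜) * (g a₀ x *
        ∑ a₁ ∈ Finset.univ.erase a₀,
          (∏ a ∈ (Finset.univ.erase a₀).erase a₁, fderiv ℝ (g a) x (ε (σ a))) *
            fderiv ℝ (fderiv ℝ (g a₁)) x (ε (σ a₀)) (ε (σ a₁))) = 0 := by
      simp only [mul_left_comm _ (g a₀ x), ← Finset.mul_sum]
      simp only [Finset.mul_sum (s := Finset.univ.erase a₀)]
      rw [Finset.sum_comm, Finset.sum_eq_zero, mul_zero]
      intro a₁ ha₁
      exact piola (fun a b => fderiv ℝ (g a) x (ε b))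
        (fun b c => fderiv ℝ (fderiv ℝ (g a₁)) x (ε b) (ε c))
        (fun b c => (hga a₁ x hx).isSymmSndFDerivAt (by simp) _ _) (Finset.ne_of_mem_erase ha₁)
    rw [h4, add_zero, ← Matrix.det_transpose, Matrix.det_apply']
    rfl
  have hI := fun σ => integral_fderiv_zero μ (hfc σ) (hfs σ) (ε (σ a₀))
  have hint : Integrable (fun x => ∑ σ : Equiv.Perm ρ,
      ((Equiv.Perm.sign σ : ℤ) : 𝕜) * fderiv ℝ (f σ) x (ε (σ a₀))) μ :=
    integrable_finsetSum _ fun σ _ => (hI σ).1.const_mul _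
  refine ⟨hint.integrableOn.congr_fun (fun x hx => (key x hx).symm) hU.measurableSet, ?_⟩
  rw [setIntegral_congr_fun hU.measurableSet key,
    setIntegral_eq_integral_of_forall_compl_eq_zero, integral_finsetSum _
      fun σ _ => (hI σ).1.const_mul _]
  · simp only [integral_const_mul, (hI _).2, mul_zero, Finset.sum_const_zero]
  · intro x hx
    refine Finset.sum_eq_zero fun σ _ => ?_
    rw [(hfK σ x fun h => hx (hKU h)).fderiv_eq]
    simp

/-- null Lagrangian: `∫ det (dh, dg_2, …, dg_n) = 0` for `h` compactly supported in the open set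
`U` on which everything is smooth -/
theorem integral_det_eq_zero {X ρ : Type} [NormedAddCommGroup X] [NormedSpace ℝ X]
    [FiniteDimensional ℝ X] [MeasurableSpace X] [BorelSpace X] (μ : Measure X)
    [μ.IsAddHaarMeasure] [Fintype ρ] [DecidableEq ρ] (ε : Basis ρ ℝ X) {U : Set X} (hU : IsOpen U)
    (g : ρ → X → ℝ) (hg : ∀ a, ContDiffOn ℝ 2 (g a) U) (a₀ : ρ) {K : Set X} (hK : IsCompact K)
    (hKU : K ⊆ U) (h0 : ∀ x ∈ U \ K, g a₀ x = 0) :
    ∫ x in U, (Matrix.of fun a b => fderiv ℝ (g a) x (ε b)).det ∂μ = 0 :=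
  (integral_det_eq_zero' μ ε hU g hg a₀ hK hKU h0).2

end Pool.Agent.P.MP_5c499f_an.Wn
end
end
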