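import Pool.Agent.K.MP_5c499f_an.C0
import Pool.Agent.K.MP_5c499f_an.C1
import Pool.Agent.Lib.Flow.Nemytskii

-- part Pool.Agent.P.MP_5c499f_an.XNull
section

/-! The determinant is a null Lagrangian for `C¹` maps. -/

set_option autoImplicit false

namespace Pool.Agent.P.MP_5c499f_an

open Filter Topology Metric MeasureTheory Matrix
open scoped Convolution

namespace XNullX

variable {X : Type} [NormedAddCommGroup X] [NormedSpace ℝ X] [FiniteDimensional ℝ X]
  [MeasurableSpace X] [BorelSpace X] (μ : Measure X) [μ.IsAddHaarMeasure]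

/-- Bump functions with radii tending to zero. -/
noncomputable def bump (n : ℕ) : ContDiffBump (0 : X) :=
  ⟨1 / ((n : ℝ) + 1) / 2, 1 / ((n : ℝ) + 1), by positivity, half_lt_self (by positivity)⟩

/-- The mollified function. -/
noncomputable def mol (n : ℕ) (g : X → ℝ) : X → ℝ :=
  (bump n : ContDiffBump (0 : X)).normed μ ⋆[ContinuousLinearMap.lsmul ℝ ℝ, μ] g

lemma mol_smooth (n : ℕ) {g : X → ℝ} (hg : Continuous g) : ContDiff ℝ 2 (mol μ n g) :=
  (bump n : ContDiffBump (0 : X)).hasCompactSupport_normed.contDiff_convolution_left (n := 2) _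
    (bump n : ContDiffBump (0 : X)).contDiff_normed hg.locallyIntegrable

lemma mol_fderiv (n : ℕ) {g : X → ℝ} (hg : ContDiff ℝ 1 g) (hc : HasCompactSupport g) (x v : X) :
    fderiv ℝ (mol μ n g) x v = mol μ n (fun y => fderiv ℝ g y v) x := by
  have hl : LocallyIntegrable ((bump n : ContDiffBump (0 : X)).normed μ) μ :=
    (bump n : ContDiffBump (0 : X)).continuous_normed.locallyIntegrable
  unfold mol
  rw [(hc.hasFDerivAt_convolution_right _ hl hg x).fderiv,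
    convolution_precompR_apply _ hl (hc.fderiv ℝ) (hg.continuous_fderiv one_ne_zero)]

lemma mol_dist (n : ℕ) {g : X → ℝ} (hg : Continuous g) {x : X} {r : ℝ}
    (h : ∀ y ∈ ball x 1, dist (g y) (g x) ≤ r) : dist (mol μ n g x) (g x) ≤ r :=
  ContDiffBump.dist_normed_convolution_le hg.aestronglyMeasurable fun y hy => h y
    (ball_subset_ball (show 1 / ((n : ℝ) + 1) ≤ 1 from
      div_le_one_of_le₀ (by linarith [n.cast_nonneg (α := ℝ)]) (by positivity)) hy)

lemma mol_lim {g : X → ℝ} (hg : Continuous g) (x : X) :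
    Tendsto (fun n => mol μ n g x) atTop (𝓝 (g x)) :=
  ContDiffBump.convolution_tendsto_right_of_continuous
    (show Tendsto (fun n : ℕ => 1 / ((n : ℝ) + 1)) atTop (𝓝 0) from
      tendsto_one_div_add_atTop_nhds_zero_nat) hg x

lemma mol_zero (n : ℕ) {g : X → ℝ} (hg : Continuous g) {K : Set X} (h0 : ∀ x ∉ K, g x = 0)
    {x : X} (hx : x ∉ cthickening 1 K) : mol μ n g x = 0 := by
  have h1 : ∀ y ∈ ball x 1, g y = 0 := fun y hy => h0 y fun h =>
    hx (mem_cthickening_of_dist_le x y 1 K h (by rw [dist_comm]; exact (mem_ball.1 hy).le))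
  have := mol_dist μ n hg (x := x) (r := 0) fun y hy => by
    rw [h1 y hy, h1 x (mem_ball_self one_pos), dist_self]
  rwa [h1 x (mem_ball_self one_pos), dist_le_zero] at this

omit [FiniteDimensional ℝ X] [MeasurableSpace X] [BorelSpace X] in
lemma dt_zero {k : ℕ} (w : Fin k → X) {g : Fin k → X → ℝ} {L : Set X} (hL : IsClosed L)
    (i₀ : Fin k) (h0 : ∀ x ∉ L, g i₀ x = 0) {x : X} (hx : x ∉ L) :
    dt (fun i => fderiv ℝ (g i) x) w = 0 := by
  have : g i₀ =ᶠ[𝓝 x] fun _ => 0 := by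
    filter_upwards [hL.isOpen_compl.mem_nhds hx] with y hy using h0 y hy
  exact Matrix.det_eq_zero_of_row_eq_zero i₀ fun j => by simp [this.fderiv_eq]

lemma glob {k : ℕ} (w : Fin k → X) {K : Set X} (hK : IsCompact K) {g : Fin k → X → ℝ}
    (hg : ∀ i, ContDiff ℝ 1 (g i)) (hc : ∀ i, HasCompactSupport (g i)) (i₀ : Fin k)
    (h0 : ∀ x ∉ K, g i₀ x = 0) : ∫ x in K, dt (fun i => fderiv ℝ (g i) x) w ∂μ = 0 := by
  have hL : IsCompact (cthickening 1 K) := hK.cthickening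
  have hd : ∀ i j, Continuous fun y => fderiv ℝ (g i) y (w j) := fun i j =>
    ((hg i).continuous_fderiv one_ne_zero).clm_apply continuous_const
  obtain ⟨B, hB⟩ : ∃ B, ∀ i j y, |fderiv ℝ (g i) y (w j)| ≤ B := by
    choose B hB using fun p : Fin k × Fin k =>
      (hd p.1 p.2).bounded_above_of_compact_support ((hc p.1).fderiv_apply ℝ (w p.2))
    obtain ⟨M, hM⟩ := (Set.finite_range B).bddAbove
    exact ⟨M, fun i j y => (hB (i, j) y).trans (hM ⟨_, rfl⟩)⟩
  have e0 : ∀ n, ∫ x in cthickening 1 K, dt (fun i => fderiv ℝ (mol μ n (g i)) x) w ∂μ = 0 :=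
    fun n => by
      have hz : ∀ x ∉ cthickening 1 K, mol μ n (g i₀) x = 0 := fun x hx =>
        mol_zero μ n (hg i₀).continuous h0 hx
      rw [setIntegral_eq_integral_of_forall_compl_eq_zero fun x hx =>
        dt_zero w (g := fun i => mol μ n (g i)) hL.isClosed i₀ hz hx]
      have := (Wn.integral_det_eq_zero' μ w isOpen_univ (fun i => mol μ n (g i))
        (fun i => (mol_smooth μ n (hg i).continuous).contDiffOn) i₀ hL (Set.subset_univ _)
        fun x hx => hz x hx.2).2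
      rwa [Measure.restrict_univ] at this
  have : IsFiniteMeasure (μ.restrict (cthickening 1 K)) := ⟨by simpa using hL.measure_lt_top⟩
  have e1 := tendsto_integral_of_dominated_convergence (μ := μ.restrict (cthickening 1 K))
    (F := fun n x => dt (fun i => fderiv ℝ (mol μ n (g i)) x) w)
    (f := fun x => dt (fun i => fderiv ℝ (g i) x) w)
    (fun _ => (Fintype.card (Fin k)).factorial • (3 * B) ^ Fintype.card (Fin k))
    (fun n => (Continuous.matrix_det (continuous_matrix fun i j =>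
      ((mol_smooth μ n (hg i).continuous).continuous_fderiv two_ne_zero).clm_apply
        continuous_const)).aestronglyMeasurable) (integrable_const _)
    (fun n => Eventually.of_forall fun x => Matrix.det_le (abv := AbsoluteValue.abs) fun i j => by
      have h1 := mol_dist μ n (hd i j) (x := x) (r := 2 * B) fun y _ => by
        rw [Real.dist_eq]
        linarith [abs_sub (fderiv ℝ (g i) y (w j)) (fderiv ℝ (g i) x (w j)), hB i j x, hB i j y]
      rw [Real.dist_eq] at h1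
      simp only [Matrix.of_apply, AbsoluteValue.abs_apply, mol_fderiv μ n (hg i) (hc i)]
      linarith [abs_sub_abs_le_abs_sub (mol μ n (fun y => fderiv ℝ (g i) y (w j)) x)
        (fderiv ℝ (g i) x (w j)), hB i j x])
    (Eventually.of_forall fun x => by
      refine (continuous_id.matrix_det.tendsto _).comp (tendsto_pi_nhds.2 fun i =>
        tendsto_pi_nhds.2 fun j => ?_)
      simp only [Matrix.of_apply, mol_fderiv μ _ (hg i) (hc i)]
      exact mol_lim μ (hd i j) x)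
  simp only [e0] at e1
  have hz := fun x hx => dt_zero w (g := g) hK.isClosed i₀ h0 (x := x) hx
  rw [setIntegral_eq_integral_of_forall_compl_eq_zero hz,
    ← setIntegral_eq_integral_of_forall_compl_eq_zero (s := cthickening 1 K) fun x hx =>
      hz x fun h => hx (self_subset_cthickening K h)]
  exact (tendsto_const_nhds_iff.1 e1).symm

end XNullX

theorem null_lagr {X : Type} [NormedAddCommGroup X] [NormedSpace ℝ X] [FiniteDimensional ℝ X]
    [MeasurableSpace X] [BorelSpace X] (μ : Measure X) [μ.IsAddHaarMeasure] {k : ℕ}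
    (w : Fin k → X) {U K : Set X} (hU : IsOpen U) (hK : IsCompact K) (hKU : K ⊆ U)
    {φ : Fin k → X → ℝ} (hφ : ∀ i, ContDiffOn ℝ 1 (φ i) U) (i₀ : Fin k)
    (h0 : ∀ x ∈ U, x ∉ K → φ i₀ x = 0) :
    ∫ x in K, dt (fun i => fderiv ℝ (φ i) x) w ∂μ = 0 := by
  obtain ⟨χ, c1, c2, c3, c4, -⟩ := Wn.Stk.exists_cutoff hK hU hKU
  have hz : ∀ x ∉ tsupport χ, χ x = 0 := fun x hx => image_eq_zero_of_notMem_tsupport hx
  rw [← XNullX.glob μ w hK (g := fun i x => χ x * φ i x) (fun i => ?_) (fun i => ?_) i₀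
    fun x hx => ?_]
  · refine setIntegral_congr_fun hK.measurableSet fun x hx => ?_
    have : ∀ i, (fun x => χ x * φ i x) =ᶠ[𝓝 x] φ i := fun i => by
      filter_upwards [eventually_nhdsSet_iff_forall.1 c4 x hx] with y hy
      rw [hy, one_mul]
    exact congrArg (fun ξ => dt ξ w) (funext fun i => ((this i).fderiv_eq).symm)
  · rw [contDiff_iff_contDiffAt]
    intro x
    by_cases hx : x ∈ U
    · exact (c1.of_le (by norm_num)).contDiffAt.mul ((hφ i x hx).contDiffAt (hU.mem_nhds hx))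
    · refine (contDiffAt_const (c := 0)).congr_of_eventuallyEq ?_
      filter_upwards [(isClosed_tsupport χ).isOpen_compl.mem_nhds fun h => hx (c3 h)] with y hy
      rw [hz y hy, zero_mul]
  · exact HasCompactSupport.intro c2 fun x hx => by rw [hz x hx, zero_mul]
  · by_cases hU' : x ∈ U
    · rw [h0 x hU' hx, mul_zero]
    · rw [hz x fun h => hU' (c3 h), zero_mul]

end Pool.Agent.P.MP_5c499f_an
end

-- part Pool.Agent.P.MP_5c499f_an.XOmC
section

/-! Closedness of the limit form. -/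

set_option autoImplicit false

namespace Pool.Agent.P.MP_5c499f_an

open Filter Topology Metric MeasureTheory Matrix

namespace XOmCX

variable {N u : ℕ} {U K : Set (VV N)} {ρ : VV N → ℝ}

lemma cont_cons {ζ : VV N → VV N →L[ℝ] ℝ} {ξ : Fin u → VV N → VV N →L[ℝ] ℝ}
    (h1 : ContinuousOn ζ U) (h2 : ∀ i, ContinuousOn (ξ i) U) (v : Fin (u + 1) → VV N) :
    ContinuousOn (fun z => dt (Fin.cons (ζ z) fun i => ξ i z : Fin (u + 1) → VV N →L[ℝ] ℝ) v) U :=
  continuousOn_dt (w := fun _ => v) (fun i => Fin.cases h1 h2 i) fun _ => continuousOn_const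

/-- Integration by parts through the null Lagrangian. -/
lemma parts (hU : IsOpen U) (hK : IsCompact K) (hKU : K ⊆ U) (hρ : ContDiff ℝ 1 ρ) (p : VV N)
    (h0 : ∀ z ∉ K, ρ (p - z) = 0) {A₀ : VV N → ℝ} {A : Fin u → VV N → ℝ}
    (h1 : ContDiffOn ℝ 1 A₀ U) (h2 : ∀ i, ContDiffOn ℝ 1 (A i) U) (v : Fin (u + 1) → VV N) :
    ∫ z in K, A₀ z * dt (Fin.cons (fderiv ℝ ρ (p - z)) fun i => fderiv ℝ (A i) z :
        Fin (u + 1) → VV N →L[ℝ] ℝ) v =
      ∫ z in K, ρ (p - z) * dt (Fin.cons (fderiv ℝ A₀ z) fun i => fderiv ℝ (A i) z :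
        Fin (u + 1) → VV N →L[ℝ] ℝ) v := by
  have hρ' : ContDiff ℝ 1 fun z => ρ (p - z) := hρ.comp (contDiff_const.sub contDiff_id)
  have hd : ∀ i, ContinuousOn (fderiv ℝ (A i)) U := fun i =>
    (h2 i).continuousOn_fderiv_of_isOpen hU le_rfl
  have i1 := ((h1.continuousOn.mul (cont_cons (ζ := fun z => fderiv ℝ ρ (p - z))
    (((hρ.continuous_fderiv one_ne_zero).comp (continuous_const.sub continuous_id)).continuousOn)
    hd v)).mono hKU).integrableOn_compact (μ := volume) hK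
  have i2 := ((hρ'.continuous.continuousOn.mul (cont_cons
    (h1.continuousOn_fderiv_of_isOpen hU le_rfl) hd v)).mono hKU).integrableOn_compact
    (μ := volume) hK
  have := null_lagr volume v hU hK hKU
    (φ := (Fin.cons (fun z => ρ (p - z) * A₀ z) A : Fin (u + 1) → VV N → ℝ))
    (fun i => Fin.cases (hρ'.contDiffOn.mul h1) h2 i) 0 fun z _ hz => by simp [h0 z hz]
  symm
  refine sub_eq_zero.1 ((integral_sub i2 i1).symm.trans (Eq.trans ?_ this))
  refine setIntegral_congr_fun hK.measurableSet fun z hz => ?_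
  obtain ⟨d, hd⟩ := dt_cons (fun i => fderiv ℝ (A i) z) v
  have e1 : HasFDerivAt (fun z => ρ (p - z)) (-fderiv ℝ ρ (p - z)) z := by
    have := ((hρ.differentiable one_ne_zero (p - z)).hasFDerivAt).comp z
      ((hasFDerivAt_id z).const_sub p)
    exact this.congr_fderiv (by ext; simp)
  have e2 := (e1.mul ((h1.differentiableOn one_ne_zero z (hKU hz)).differentiableAt
    (hU.mem_nhds (hKU hz))).hasFDerivAt).fderiv
  have e3 : (fun i => fderiv ℝ ((Fin.cons (fun z => ρ (p - z) * A₀ z) A :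
      Fin (u + 1) → VV N → ℝ) i) z) = (Fin.cons (ρ (p - z) • fderiv ℝ A₀ z +
        A₀ z • -fderiv ℝ ρ (p - z)) fun i => fderiv ℝ (A i) z : Fin (u + 1) → VV N →L[ℝ] ℝ) :=
    funext fun i => Fin.cases e2 (fun _ => rfl) i
  simp only [Pi.mul_apply, e3, hd, Finset.mul_sum, ← Finset.sum_sub_distrib]
  refine Finset.sum_congr rfl fun j _ => ?_
  simp only [_root_.add_apply, _root_.smul_apply, _root_.neg_apply, smul_eq_mul]
  ring

/-- Localisation of an integral against the kernel. -/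
lemma loc {s R : ℝ} (hs : 0 < s) (hK : IsCompact K) (p : VV N) (hρ : Continuous ρ)
    (h0 : ∀ y, s / 4 ≤ ‖y‖ → ρ y = 0) (h1 : closedBall p (s / 4) ⊆ K)
    (hR : ∀ z ∈ closedBall p (s / 2), |ρ (p - z)| ≤ R) {Q : VV N → ℝ}
    (hQ : ContinuousOn Q (closedBall p (s / 2))) :
    |∫ z in K, ρ (p - z) * Q z| ≤ R * ∫ z in closedBall p (s / 2), |Q z| := by
  have hz : ∀ z ∉ closedBall p (s / 4), ρ (p - z) * Q z = 0 := fun z hz => by
    rw [h0 _ (by rw [← dist_eq_norm, dist_comm]; exact (not_le.1 hz).le), zero_mul]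
  have hB := isCompact_closedBall p (s / 2)
  rw [setIntegral_eq_of_subset_of_forall_sdiff_eq_zero hK.measurableSet h1 fun z h => hz z h.2,
    ← setIntegral_eq_of_subset_of_forall_sdiff_eq_zero hB.measurableSet
      (closedBall_subset_closedBall (by linarith)) fun z h => hz z h.2, ← integral_const_mul]
  refine abs_integral_le_integral_abs.trans (setIntegral_mono_on
    (((hρ.comp (continuous_const.sub continuous_id)).continuousOn.mul hQ).abs.integrableOn_compact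
      hB) ((continuousOn_const.mul hQ.abs).integrableOn_compact hB) hB.measurableSet
    fun z hz => ?_)
  rw [abs_mul]
  exact mul_le_mul_of_nonneg_right (hR z hz) (abs_nonneg _)

end XOmCX

variable {M : Type*} [MetricSpace M] [CompactSpace M] {N u : ℕ} {e : M → VV N} {r : VV N → M}
  {U : Set (VV N)} {g : Equiv.Perm M} {Pr : M → VV N →L[ℝ] XX u} {Io : M → XX u →L[ℝ] VV N}
  {C₀ a : ℝ}
  {H s C : ℝ} {m : ℕ} {c : Fin m → M → ℝ} {f : Fin m → Fin u → M → ℝ} {ρ : VV N → ℝ}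
  {K : Set (VV N)}

open XOmCX in
theorem cf_closed (A : Amb e r U g Pr Io C₀ a) (D : DV e r U g Pr Io C₀ a H s C)
    (hc : ∀ t, ContDiffOn ℝ 1 (c t ∘ r) U) (hf : ∀ t i, ContDiffOn ℝ 1 (f t i ∘ r) U)
    (k : Ker e (s / 4) ρ K) (x : M) (v : Fin (u + 1) → VV N) :
    Tendsto (fun n => ∑ I, ∫ z in K, cf r g H c f n I z *
      dt (Fin.cons (fderiv ℝ ρ (e x - z)) fun i => crd (I i) : Fin (u + 1) → VV N →L[ℝ] ℝ) v)
      atTop (𝓝 0) := by
  have hKU := (cf_bdd A D hc hf k).1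
  have hs := D.s_pos
  have hρ : ContDiff ℝ 1 ρ := k.smooth.of_le (by exact_mod_cast le_top)
  have hζ : Continuous fun z => fderiv ℝ ρ (e x - z) :=
    (hρ.continuous_fderiv one_ne_zero).comp (continuous_const.sub continuous_id)
  have hBK : closedBall (e x) (s / 4) ⊆ K := fun z hz =>
    (k.mem z).2 ⟨x, by rwa [← dist_eq_norm]⟩
  have hBU : closedBall (e x) (s / 2) ⊆ U := fun z hz => D.tan.sub x z (by
    rw [← dist_eq_norm]; nlinarith [mem_closedBall.1 hz, A.one_le])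
  have h0 : ∀ z ∉ K, ρ (e x - z) = 0 := fun z hz => k.zero _ (by
    rw [← dist_eq_norm, dist_comm]; exact (not_le.1 fun h => hz (hBK h)).le)
  have d0 := fun t n => (A.c1_iter (hc t) n).continuousOn_fderiv_of_isOpen A.op le_rfl
  have d1 := fun t n i => (A.c1_iter (hf t i) n).continuousOn_fderiv_of_isOpen A.op le_rfl
  have e1 : ∀ n, ∑ I, ∫ z in K, cf r g H c f n I z *
      dt (Fin.cons (fderiv ℝ ρ (e x - z)) fun i => crd (I i) : Fin (u + 1) → VV N →L[ℝ] ℝ) v =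
      ∑ t, (H ^ n)⁻¹ * u.factorial * ∫ z in K, ρ (e x - z) *
        dt (Fin.cons (fderiv ℝ (c t ∘ g^[n] ∘ r) z) fun i => fderiv ℝ (f t i ∘ g^[n] ∘ r) z :
          Fin (u + 1) → VV N →L[ℝ] ℝ) v := fun n => by
    simp only [fun t => (parts A.op k.cpt hKU hρ (e x) h0 (A.c1_iter (hc t) n)
      (fun i => A.c1_iter (hf t i) n) v).symm, ← integral_const_mul]
    rw [← integral_finsetSum, ← integral_finsetSum]
    rotate_left
    · exact fun t _ => ((continuousOn_const.mul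
        ((A.c1_iter (hc t) n).continuousOn.mul (cont_cons hζ.continuousOn (d1 t n) v))).mono
          hKU).integrableOn_compact k.cpt
    · exact fun I _ => (((cf_cont A hc hf n I).mul (cont_cons hζ.continuousOn
        (fun _ => continuousOn_const) v)).mono hKU).integrableOn_compact k.cpt
    refine integral_congr_ae (Eventually.of_forall fun z => ?_)
    simp only [cf, Finset.mul_sum, Finset.sum_mul]
    rw [Finset.sum_comm]
    refine Finset.sum_congr rfl fun t _ => ?_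
    have := binet_cons (fderiv ℝ ρ (e x - z)) (fun i => fderiv ℝ (f t i ∘ g^[n] ∘ r) z) v
    calc _ = (H ^ n)⁻¹ * c t (g^[n] (r z)) * ∑ I : Fin u → Fin N,
          dt (fun i => fderiv ℝ (f t i ∘ g^[n] ∘ r) z) (fun j => evec (I j)) *
          dt (Fin.cons (fderiv ℝ ρ (e x - z)) fun i => crd (I i) :
            Fin (u + 1) → VV N →L[ℝ] ℝ) v := by
          rw [Finset.mul_sum]; exact Finset.sum_congr rfl fun I _ => by ring
      _ = _ := by rw [this]; simp only [Function.comp_apply]; ring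
  simp only [e1]
  rw [← Finset.sum_const_zero (s := (Finset.univ : Finset (Fin m)))]
  refine tendsto_finsetSum _ fun t _ => ?_
  obtain ⟨R, hR⟩ := (isCompact_closedBall (e x) (s / 2)).exists_bound_of_continuousOn
    (f := fun z => ρ (e x - z))
    (hρ.continuous.comp (continuous_const.sub continuous_id)).continuousOn
  have R0 : 0 ≤ R := (norm_nonneg _).trans (hR (e x) (mem_closedBall_self (by linarith)))
  obtain ⟨C', hC⟩ := D.minor A (φ := (Fin.cons (c t) (f t) : Fin (u + 1) → M → ℝ))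
    (fun i => Fin.cases (hc t) (hf t) i) v
  have ha : a < 1 := by nlinarith [A.a_le, A.one_le, A.a_pos]
  have lim : Tendsto (fun n : ℕ => u.factorial * R * C' * a ^ n) atTop (𝓝 0) := by
    simpa using (tendsto_pow_atTop_nhds_zero_of_lt_one A.a_pos.le ha).const_mul
      (u.factorial * R * C')
  refine squeeze_zero_norm' ?_ lim
  filter_upwards [hC] with n hn
  have e2 : ∀ y, (fun i => fderiv ℝ ((Fin.cons (c t) (f t) : Fin (u + 1) → M → ℝ) i ∘ g^[n] ∘ r) y)
      = (Fin.cons (fderiv ℝ (c t ∘ g^[n] ∘ r) y) fun i => fderiv ℝ (f t i ∘ g^[n] ∘ r) y :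
        Fin (u + 1) → VV N →L[ℝ] ℝ) := fun y => funext fun i => Fin.cases rfl (fun _ => rfl) i
  have g1 := hn x
  simp only [e2, Nat.add_sub_cancel_left, pow_one] at g1
  have g2 := (loc hs k.cpt (e x) hρ.continuous k.zero hBK hR
    ((cont_cons (d0 t n) (d1 t n) v).mono hBU)).trans (mul_le_mul_of_nonneg_left g1 R0)
  have hH : 0 < H ^ n := pow_pos D.H_pos n
  rw [Real.norm_eq_abs, abs_mul, abs_of_nonneg (by positivity)]
  refine (mul_le_mul_of_nonneg_left g2 (by positivity)).trans (le_of_eq ?_)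
  field_simp

end Pool.Agent.P.MP_5c499f_an
end

-- part Pool.Agent.P.MP_5c499f_an.XLim
section

/-! Smooth limits of mollified densities. -/

set_option autoImplicit false

namespace Pool.Agent.P.MP_5c499f_an

open Filter Topology Metric MeasureTheory Matrix

namespace XLimX

/-- The limit functional along an ultrafilter. -/
lemma exists_fun {X : Type} [TopologicalSpace X] [CompactSpace X] [MeasurableSpace X]
    [OpensMeasurableSpace X] (μ : Measure X) [IsFiniteMeasure μ] (c : ℕ → C(X, ℝ)) {C : ℝ}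
    (𝒰 : Ultrafilter ℕ) (hb : ∀ᶠ n in (𝒰 : Filter ℕ), ∫ z, |c n z| ∂μ ≤ C) :
    ∃ Λ : C(X, ℝ) →L[ℝ] ℝ, ∀ f : C(X, ℝ),
      Tendsto (fun n => ∫ z, f z * c n z ∂μ) 𝒰 (𝓝 (Λ f)) := by
  have hi : ∀ g : X → ℝ, Continuous g → Integrable g μ := fun g hg =>
    (BoundedContinuousFunction.mkOfCompact ⟨g, hg⟩).integrable μ
  have h1 : ∀ f : C(X, ℝ), ∀ᶠ n in (𝒰 : Filter ℕ), ‖∫ z, f z * c n z ∂μ‖ ≤ C * ‖f‖ := by
    intro f
    filter_upwards [hb] with n hn
    calc ‖∫ z, f z * c n z ∂μ‖ ≤ ∫ z, ‖f‖ * |c n z| ∂μ := by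
          refine norm_integral_le_of_norm_le (hi _ (by fun_prop)) (Eventually.of_forall fun z => ?_)
          rw [norm_mul, Real.norm_eq_abs (c n z)]
          exact mul_le_mul_of_nonneg_right (f.norm_coe_le_norm z) (abs_nonneg _)
      _ = ‖f‖ * ∫ z, |c n z| ∂μ := integral_const_mul _ _
      _ ≤ ‖f‖ * C := mul_le_mul_of_nonneg_left hn (norm_nonneg _)
      _ = C * ‖f‖ := mul_comm _ _
  have h2 : ∀ f : C(X, ℝ), ∃ l, Tendsto (fun n => ∫ z, f z * c n z ∂μ) 𝒰 (𝓝 l) := by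
    intro f
    obtain ⟨l, -, hl⟩ := (isCompact_closedBall (0 : ℝ) (C * ‖f‖)).ultrafilter_le_nhds
      (𝒰.map fun n => ∫ z, f z * c n z ∂μ) (by
        rw [Ultrafilter.coe_map, le_principal_iff, mem_map]
        filter_upwards [h1 f] with n hn
        exact mem_closedBall_zero_iff.2 hn)
    exact ⟨l, hl⟩
  choose l hl using h2
  refine ⟨LinearMap.mkContinuous ⟨⟨l, fun f g => ?_⟩, fun t f => ?_⟩ C fun f => ?_, hl⟩
  · refine tendsto_nhds_unique (hl (f + g)) (((hl f).add (hl g)).congr fun n => ?_)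
    rw [← integral_add (hi _ (by fun_prop)) (hi _ (by fun_prop))]
    simp only [ContinuousMap.add_apply, add_mul]
  · refine tendsto_nhds_unique (hl (t • f)) (((hl f).const_mul t).congr fun n => ?_)
    rw [← integral_const_mul]
    simp only [ContinuousMap.smul_apply, smul_eq_mul, mul_assoc]
  · exact le_of_tendsto (hl f).norm (h1 f)

end XLimX

open XLimX Pool.Agent.Lib.Flow in
theorem exists_lim {N : ℕ} {ι : Type*} {K : Set (VV N)} (hK : IsCompact K)
    {c : ℕ → ι → VV N → ℝ} (hc : ∀ n i, ContinuousOn (c n i) K) {C : ℝ}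
    (hb : ∀ᶠ n in atTop, ∀ i, ∫ z in K, |c n i z| ≤ C) {ρ : VV N → ℝ}
    (hρ : ContDiff ℝ (⊤ : ℕ∞) ρ) :
    ∃ (w : ι → VV N → ℝ) (𝒰 : Filter ℕ), 𝒰.NeBot ∧ 𝒰 ≤ atTop ∧ ∀ i,
      ContDiff ℝ (⊤ : ℕ∞) (w i) ∧ ∀ y,
        Tendsto (fun n => ∫ z in K, ρ (y - z) * c n i z) 𝒰 (𝓝 (w i y)) ∧ ∀ v,
        Tendsto (fun n => ∫ z in K, fderiv ℝ ρ (y - z) v * c n i z) 𝒰
          (𝓝 (fderiv ℝ (w i) y v)) := by
  haveI : CompactSpace K := isCompact_iff_compactSpace.1 hK
  let μ : Measure K := Measure.comap Subtype.val volume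
  have hm := hK.measurableSet
  haveI : IsFiniteMeasure μ := ⟨by
    rw [(MeasurableEmbedding.subtype_coe hm).comap_apply, Set.image_univ, Subtype.range_coe]
    exact hK.measure_lt_top⟩
  have hμ : ∀ g : VV N → ℝ, ∫ z : K, g z ∂μ = ∫ z in K, g z := fun g =>
    integral_subtype_comap hm g
  let 𝒰 : Ultrafilter ℕ := Ultrafilter.of atTop
  have hU : (𝒰 : Filter ℕ) ≤ atTop := Ultrafilter.of_le _
  let c' : ι → ℕ → C(K, ℝ) := fun i n => ⟨K.restrict (c n i), (hc n i).restrict⟩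
  have := fun i => exists_fun μ (c' i) (C := C) 𝒰 (by
    filter_upwards [hU hb] with n hn
    exact (hμ fun z => |c n i z|).trans_le (hn i))
  choose Λ hΛ using this
  let ρ₀ : C(VV N, ℝ) := ⟨ρ, hρ.continuous⟩
  let ρ₁ : C(VV N, VV N →L[ℝ] ℝ) := ⟨fderiv ℝ ρ, hρ.continuous_fderiv (by simp)⟩
  let T : VV N →L[ℝ] C(K, VV N) := ContinuousLinearMap.const ℝ K
  let ν : C(K, VV N) := ⟨Subtype.val, continuous_subtype_val⟩
  have hT : ∀ y (z : K), (T y - ν) z = y - z := fun _ _ => rfl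
  refine ⟨fun i y => Λ i (ρ₀.comp (T y - ν)), 𝒰, inferInstance, hU, fun i => ⟨?_, fun y => ⟨?_,
    fun v => ?_⟩⟩⟩
  · exact (Λ i).contDiff.comp ((contDiff_postcomp ρ₀ hρ).comp (T.contDiff.sub contDiff_const))
  · exact (hΛ i _).congr fun n => hμ fun z => ρ (y - z) * c n i z
  · have h1 := (Λ i).hasFDerivAt.comp y ((hasFDerivAt_postcomp ρ₀ ρ₁
      (fun x => (hρ.differentiable (by simp) x).hasFDerivAt) (T y - ν)).comp y
        (T.hasFDerivAt.sub_const ν))
    have h2 : fderiv ℝ (fun y => Λ i (ρ₀.comp (T y - ν))) y = _ := h1.fderiv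
    rw [h2]
    exact (hΛ i _).congr fun n => hμ fun z => fderiv ℝ ρ (y - z) v * c n i z

theorem exists_ker {M : Type*} [MetricSpace M] [CompactSpace M] {N : ℕ} {e : M → VV N}
    (he : Continuous e) {s : ℝ} (hs : 0 < s) : ∃ ρ K, Ker e s ρ K := by
  let f : ContDiffBump (0 : VV N) := ⟨s / 2, s, half_pos hs, half_lt_self hs⟩
  refine ⟨f, (fun p : M × VV N => e p.1 + p.2) '' (Set.univ ×ˢ closedBall 0 s), hs, f.contDiff,
    fun y => f.nonneg, fun y hy => f.one_of_mem_closedBall (mem_closedBall_zero_iff.2 hy),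
    fun y hy => f.zero_of_le_dist (by rwa [dist_zero_right]),
    (isCompact_univ.prod (isCompact_closedBall _ _)).image (by fun_prop), fun y => ⟨?_, ?_⟩⟩
  · rintro ⟨⟨x, v⟩, ⟨-, hv⟩, rfl⟩
    exact ⟨x, by simpa using hv⟩
  · rintro ⟨x, hx⟩
    exact ⟨(x, y - e x), ⟨trivial, mem_closedBall_zero_iff.2 hx⟩, by simp⟩

end Pool.Agent.P.MP_5c499f_an
end

-- part Pool.Agent.P.MP_5c499f_an.XSec
section

/-! Secant cones. -/

set_option autoImplicit false

namespace Pool.Agent.P.MP_5c499f_an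

open Filter Topology Metric MeasureTheory Matrix

variable {M : Type*} [MetricSpace M] [CompactSpace M] {N u : ℕ} {e : M → VV N} {r : VV N → M}
  {U : Set (VV N)} {g : Equiv.Perm M} {Pr : M → VV N →L[ℝ] XX u} {Io : M → XX u →L[ℝ] VV N}
  {C₀ a : ℝ}

/-- The vector `v` lies in the unstable cone at `z`. -/
def Cone (Pr : M → VV N →L[ℝ] XX u) (Io : M → XX u →L[ℝ] VV N) (z : M) (v : VV N) : Prop :=
  ‖v - Io z (Pr z v)‖ ≤ ‖Io z (Pr z v)‖

theorem Amb.cone_step (A : Amb e r U g Pr Io C₀ a) : ∃ ε₀, 0 < ε₀ ∧ ∀ z p q, dist p z ≤ ε₀ →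
    dist q z ≤ ε₀ → Cone Pr Io z (e p - e q) → Cone Pr Io (g z) (e (g p) - e (g q)) ∧
      ‖Io z (Pr z (e p - e q))‖ ≤ ‖Io (g z) (Pr (g z) (e (g p) - e (g q)))‖ := by
  have c0 := A.one_le
  have c1 : 1 ≤ C₀ ^ 2 := one_le_pow₀ c0
  have a0 := A.a_pos
  have a1 : a ≤ 1 / 10 := by nlinarith [A.a_le]
  obtain ⟨s, s0, hs⟩ := A.unif A.cg (θ := 1 / (10 * C₀ ^ 2)) (by positivity)
  refine ⟨s, s0, fun z p q hp hq hc => ?_⟩
  have e1 := (hs z (e p) (by rwa [← A.iso])).2.2 (e q) (by rwa [← A.iso])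
  simp only [Function.comp_apply, A.ret] at e1
  change ‖_ - Dm e r (e ∘ g) z _‖ ≤ _ at e1
  unfold Cone at hc ⊢
  generalize e p - e q = v at *
  generalize e (g p) - e (g q) = v' at *
  set w := v' - Dm e r (e ∘ g) z v with hw
  have e2 : ‖v‖ ≤ 2 * ‖Io z (Pr z v)‖ := by linarith [norm_le_norm_sub_add v (Io z (Pr z v))]
  have e3 : C₀ ^ 2 * ‖w‖ ≤ ‖Io z (Pr z v)‖ / 5 := by
    rw [div_mul_eq_mul_div, le_div_iff₀ (by positivity)] at e1
    linarith
  have e4 : ‖Io (g z) (Pr (g z) w)‖ ≤ C₀ ^ 2 * ‖w‖ := by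
    nlinarith [A.n_io (g z) (Pr (g z) w), A.n_pr (g z) w]
  have e5 : Io (g z) (Pr (g z) v') = Dm e r (e ∘ g) z (Io z (Pr z v)) + Io (g z) (Pr (g z) w) := by
    rw [← A.comm, hw, map_sub, map_sub]; abel
  have e6 : v' - Io (g z) (Pr (g z) v') =
      Dm e r (e ∘ g) z (v - Io z (Pr z v)) + (w - Io (g z) (Pr (g z) w)) := by
    rw [e5, map_sub (Dm e r (e ∘ g) z), hw]; abel
  have e7 := A.st z (v - Io z (Pr z v)) (by rw [map_sub, A.pr_io, sub_self])
  have e8 := A.un z (Pr z v)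
  have e9 := norm_le_add_norm_add (Dm e r (e ∘ g) z (Io z (Pr z v))) (Io (g z) (Pr (g z) w))
  rw [← e5] at e9
  have f1 := norm_add_le (Dm e r (e ∘ g) z (v - Io z (Pr z v))) (w - Io (g z) (Pr (g z) w))
  rw [← e6] at f1
  have f2 := norm_sub_le w (Io (g z) (Pr (g z) w))
  have f3 : ‖w‖ ≤ C₀ ^ 2 * ‖w‖ := le_mul_of_one_le_left (norm_nonneg _) c1
  have f4 := mul_le_mul_of_nonneg_right a1 (norm_nonneg (v - Io z (Pr z v)))
  have f5 := mul_le_mul_of_nonneg_right a1 (norm_nonneg (Dm e r (e ∘ g) z (Io z (Pr z v))))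
  constructor <;> linarith [norm_nonneg (Io z (Pr z v))]

theorem Amb.cone_zero (A : Amb e r U g Pr Io C₀ a) : ∃ ε₀, 0 < ε₀ ∧ ∀ x z y₀ b b',
    dist z x ≤ ε₀ → ‖y₀ + Io x b - e x‖ ≤ ε₀ → ‖y₀ + Io x b' - e x‖ ≤ ε₀ →
    Cone Pr Io z (e (r (y₀ + Io x b)) - e (r (y₀ + Io x b'))) ∧
      ‖b - b'‖ ≤ 4 * C₀ * ‖Io z (Pr z (e (r (y₀ + Io x b)) - e (r (y₀ + Io x b'))))‖ := by
  have c0 := A.one_le
  have c1 : 1 ≤ C₀ ^ 2 := one_le_pow₀ c0
  obtain ⟨s, s0, hs⟩ := A.unif A.c1 (θ := 1 / (10 * C₀ ^ 2)) (by positivity)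
  obtain ⟨η, h0, h1⟩ := A.ucQ (κ := 1 / 10) (by norm_num)
  refine ⟨min s η, by positivity, fun x z y₀ b b' hz hb hb' => ?_⟩
  have e1 := (hs x _ (hb.trans (min_le_left _ _))).2.2 _ (hb'.trans (min_le_left _ _))
  rw [add_sub_add_left_eq_sub, ← map_sub] at e1
  change ‖e _ - e _ - Dm e r e x _‖ ≤ _ at e1
  rw [A.tan] at e1
  have e2 := h1 z x (hz.trans (min_le_right _ _)) (Io x (b - b'))
  have e0 := A.n_pr x (Io x (b - b'))
  rw [A.pr_io] at e2 e0
  unfold Cone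
  set v := e (r (y₀ + Io x b)) - e (r (y₀ + Io x b'))
  set w := Io x (b - b')
  have e3 : C₀ ^ 2 * ‖v - w‖ ≤ ‖w‖ / 10 := by
    rw [div_mul_eq_mul_div, le_div_iff₀ (by positivity)] at e1
    linarith
  have e4 : ‖Io z (Pr z (v - w))‖ ≤ C₀ ^ 2 * ‖v - w‖ := by
    nlinarith [A.n_io z (Pr z (v - w)), A.n_pr z (v - w)]
  rw [map_sub, map_sub] at e4
  have f3 : ‖v - w‖ ≤ C₀ ^ 2 * ‖v - w‖ := le_mul_of_one_le_left (norm_nonneg _) c1
  have f1 := norm_sub_le_norm_sub_add_norm_sub (Io z (Pr z v)) (Io z (Pr z w)) w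
  have f2 := norm_sub_le_norm_sub_add_norm_sub v w (Io z (Pr z v))
  have f4 := norm_le_norm_sub_add w (Io z (Pr z v))
  rw [norm_sub_rev w] at f2 f4
  have f5 : ‖w‖ ≤ 4 * ‖Io z (Pr z v)‖ := by linarith [norm_nonneg w]
  exact ⟨by linarith [norm_nonneg w], e0.trans (by nlinarith)⟩

/-- Two points of a disc whose orbits stay near the orbit of `z` are distinguished by the unstable
coordinate. -/
theorem Amb.cone_iter (A : Amb e r U g Pr Io C₀ a) : ∃ ε₀, 0 < ε₀ ∧ ∀ x z y₀ b b' (n : ℕ),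
    dist z x ≤ ε₀ → ‖y₀ + Io x b - e x‖ ≤ ε₀ → ‖y₀ + Io x b' - e x‖ ≤ ε₀ →
    (∀ k < n, dist (g^[k] (r (y₀ + Io x b))) (g^[k] z) ≤ ε₀) →
    (∀ k < n, dist (g^[k] (r (y₀ + Io x b'))) (g^[k] z) ≤ ε₀) →
    Cone Pr Io (g^[n] z) (e (g^[n] (r (y₀ + Io x b))) - e (g^[n] (r (y₀ + Io x b')))) ∧
      ‖b - b'‖ ≤ 4 * C₀ ^ 2 *
        ‖Pr (g^[n] z) (e (g^[n] (r (y₀ + Io x b))) - e (g^[n] (r (y₀ + Io x b'))))‖ := by
  have c0 := A.one_le
  obtain ⟨ε₁, a1, a2⟩ := A.cone_step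
  obtain ⟨ε₂, a3, a4⟩ := A.cone_zero
  refine ⟨min ε₁ ε₂, by positivity, fun x z y₀ b b' n h1 h2 h3 h4 h5 => ?_⟩
  suffices h : Cone Pr Io (g^[n] z) (e (g^[n] (r (y₀ + Io x b))) - e (g^[n] (r (y₀ + Io x b')))) ∧
      ‖b - b'‖ ≤ 4 * C₀ * ‖Io (g^[n] z) (Pr (g^[n] z)
        (e (g^[n] (r (y₀ + Io x b))) - e (g^[n] (r (y₀ + Io x b')))))‖ from
    ⟨h.1, h.2.trans ((mul_le_mul_of_nonneg_left (A.n_io _ _) (by positivity)).trans_eq (by ring))⟩
  induction n with
  | zero =>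
    exact a4 x z y₀ b b' (h1.trans (min_le_right _ _)) (h2.trans (min_le_right _ _))
      (h3.trans (min_le_right _ _))
  | succ n ih =>
    obtain ⟨i1, i2⟩ := ih (fun k hk => h4 k (by omega)) fun k hk => h5 k (by omega)
    obtain ⟨i3, i4⟩ := a2 _ _ _ ((h4 n (by omega)).trans (min_le_left _ _))
      ((h5 n (by omega)).trans (min_le_left _ _)) i1
    simp only [Function.iterate_succ_apply']
    exact ⟨i3, i2.trans (by gcongr)⟩


end Pool.Agent.P.MP_5c499f_an
end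

-- part Pool.Agent.P.MP_5c499f_an.XUp
section

/-! Upper bound for the volume of iterated discs. -/

set_option autoImplicit false

namespace Pool.Agent.P.MP_5c499f_an

open Filter Topology Metric MeasureTheory Matrix

namespace XUpX

lemma lint_cover {X ι : Type*} [MeasurableSpace X] (μ : Measure X) (E : Finset ι) (P : ι → Set X)
    (B : Set X) (f : X → ENNReal) (K : ENNReal) (hB : ∀ b ∈ B, ∃ z ∈ E, b ∈ P z)
    (hK : ∀ z ∈ E, ∫⁻ b in P z, f b ∂μ ≤ K) : ∫⁻ b in B, f b ∂μ ≤ E.card * K := by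
  have h1 : B ⊆ ⋃ z : E, P z := fun b hb => by
    obtain ⟨z, hz, hb'⟩ := hB b hb
    exact Set.mem_iUnion.2 ⟨⟨z, hz⟩, hb'⟩
  refine (lintegral_mono_set h1).trans ((lintegral_iUnion_le _ _).trans ?_)
  rw [tsum_fintype]
  refine (Finset.sum_le_sum fun (z : E) _ => hK z z.2).trans ?_
  simp

lemma det_smul' {u : ℕ} (c : ℝ) (S : XX u →L[ℝ] XX u) : (c • S).det = c ^ u * S.det := by
  have := LinearMap.det_smul c (S : XX u →ₗ[ℝ] XX u)
  rw [Module.finrank_fin_fun] at this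
  exact this

lemma area {u : ℕ} {P : Set (XX u)} (hP : MeasurableSet P) {Θ : XX u → XX u}
    {D : XX u → XX u →L[ℝ] XX u} (hD : ∀ b ∈ P, HasFDerivAt Θ (D b) b) (hi : Set.InjOn Θ P)
    {R c : ℝ} (hR : 0 ≤ R) (hc : 0 ≤ c) (him : ∀ b ∈ P, ‖Θ b‖ ≤ R) {j : XX u → ℝ}
    (hj : ∀ b ∈ P, j b ≤ c * |(D b).det|) :
    ∫⁻ b in P, ENNReal.ofReal (j b) ≤ ENNReal.ofReal (c * (2 * R) ^ u) := by
  have h1 : ∫⁻ b in P, ENNReal.ofReal (j b) ≤
      ∫⁻ b in P, ENNReal.ofReal c * ENNReal.ofReal |(D b).det| := by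
    refine setLIntegral_mono' hP fun b hb => ?_
    rw [← ENNReal.ofReal_mul hc]
    exact ENNReal.ofReal_le_ofReal (hj b hb)
  refine h1.trans ?_
  rw [lintegral_const_mul' _ _ ENNReal.ofReal_ne_top,
    lintegral_abs_det_fderiv_eq_addHaar_image volume hP (fun b hb => (hD b hb).hasFDerivWithinAt) hi,
    ENNReal.ofReal_mul hc]
  have h2 : Θ '' P ⊆ closedBall 0 R := by
    rintro _ ⟨b, hb, rfl⟩
    exact mem_closedBall_zero_iff.2 (him b hb)
  have h3 := measure_mono (μ := volume) h2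
  rw [Real.volume_pi_closedBall _ hR, Fintype.card_fin] at h3
  gcongr

end XUpX

variable {M : Type*} [MetricSpace M] [CompactSpace M] {N u : ℕ} {e : M → VV N} {r : VV N → M}
  {U : Set (VV N)} {g : Equiv.Perm M} {Pr : M → VV N →L[ℝ] XX u} {Io : M → XX u →L[ℝ] VV N}
  {C₀ a : ℝ}

theorem Amb.upE (A : Amb e r U g Pr Io C₀ a) : ∃ ε₀, 0 < ε₀ ∧ ∀ H ε δ, ε ≤ ε₀ → Ent g H ε δ →
    ∃ s₀, 0 < s₀ ∧ ∃ C, 0 < C ∧ ∀ s, 0 < s → s ≤ s₀ → UpE e r g Io H s C := by
  obtain ⟨ε₁, hε₁, hit⟩ := A.cone_iter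
  obtain ⟨η, hη, hQ⟩ := A.ucQ (κ := 1 / 4) (by norm_num)
  obtain ⟨σ, C₁, hσ, -, hT⟩ := A.tanE
  obtain ⟨ε₀, hε₀, e1, e2⟩ : ∃ ε₀ : ℝ, 0 < ε₀ ∧ ε₀ ≤ ε₁ / 2 ∧ ε₀ ≤ η :=
    ⟨min (ε₁ / 2) η, by positivity, min_le_left _ _, min_le_right _ _⟩
  have hC₀ := A.one_le
  have ha0 := A.a_pos
  have ha1 : a ≤ 1 := by
    have h1 := A.a_le
    have h2 : 1 ≤ C₀ ^ 2 := one_le_pow₀ hC₀
    nlinarith
  refine ⟨ε₀, hε₀, fun H ε δ hε hE => ?_⟩
  have hδ := hE.δ_pos
  obtain ⟨s₁, hs₁, hnear⟩ := A.near (η := min δ (ε₁ / 2)) (by positivity)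
  obtain ⟨C₂, hup⟩ := hE.up
  obtain ⟨m, hm, m1, m2, m3⟩ : ∃ m : ℝ, 0 < m ∧ m ≤ s₁ ∧ m ≤ σ ∧ m ≤ ε₁ :=
    ⟨min s₁ (min σ ε₁), by positivity, min_le_left _ _, (min_le_right _ _).trans (min_le_left _ _),
      (min_le_right _ _).trans (min_le_right _ _)⟩
  refine ⟨m / (1 + C₀), by positivity, (|C₂| + 1) * ((4 * C₀) ^ u * (2 * (C₀ * ε₀)) ^ u),
    by positivity, fun s hs hs0 x y₀ n j hy₀ hj => ?_⟩
  have hclose : ∀ b ∈ closedBall (0 : XX u) s, ‖y₀ + Io x b - e x‖ ≤ m := by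
    intro b hb
    have h1 : ‖b‖ ≤ s := mem_closedBall_zero_iff.1 hb
    have h2 : ‖Io x b‖ ≤ C₀ * s := (A.n_io x b).trans (mul_le_mul_of_nonneg_left h1 (by linarith))
    have h3 : y₀ + Io x b - e x = (y₀ - e x) + Io x b := by abel
    have h4 : s * (1 + C₀) ≤ m := (le_div_iff₀ (by positivity)).1 hs0
    rw [h3]
    refine (norm_add_le _ _).trans ?_
    linarith
  obtain ⟨E, hcard, hE'⟩ := hup x n
  have hU : ∀ b ∈ closedBall (0 : XX u) s, y₀ + Io x b ∈ U := fun b hb =>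
    (hnear x _ ((hclose b hb).trans m1)).1
  have hd : ∀ b ∈ closedBall (0 : XX u) s, dist (r (y₀ + Io x b)) x ≤ min δ (ε₁ / 2) := fun b hb =>
    (hnear x _ ((hclose b hb).trans m1)).2
  have hcont : ContinuousOn (fun b : XX u => r (y₀ + Io x b)) (closedBall 0 s) :=
    A.cont_r.comp (continuous_const.add (Io x).continuous).continuousOn hU
  let P : M → Set (XX u) := fun z => closedBall 0 s ∩ (fun b : XX u => r (y₀ + Io x b)) ⁻¹'
    {y | ∀ k ≤ n, dist (g^[k] y) (g^[k] z) ≤ ε₀}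
  have hPc : ∀ z, IsClosed (P z) := by
    intro z
    refine hcont.preimage_isClosed_of_isClosed isClosed_closedBall ?_
    have : {y : M | ∀ k ≤ n, dist (g^[k] y) (g^[k] z) ≤ ε₀} =
        ⋂ k : ℕ, ⋂ _ : k ≤ n, {y : M | dist (g^[k] y) (g^[k] z) ≤ ε₀} := by
      ext y
      simp
    rw [this]
    exact isClosed_iInter fun k => isClosed_iInter fun _ =>
      isClosed_le ((A.cont_g.iterate k).dist continuous_const) continuous_const
  have key : ∀ z ∈ E, ∫⁻ b in P z, ENNReal.ofReal (j b) ≤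
      ENNReal.ofReal ((4 * C₀) ^ u * (2 * (C₀ * ε₀)) ^ u) := by
    intro z _
    refine XUpX.area (hPc z).measurableSet
      (Θ := fun b => Pr (g^[n] z) (e (g^[n] (r (y₀ + Io x b))) - e (g^[n] z)))
      (D := fun b => Pr (g^[n] z) ∘L (Dn e r g n (y₀ + Io x b) ∘L Io x)) (fun b hb => ?_)
      (fun b hb b' hb' hbb => ?_) (by positivity) (by positivity) (fun b hb => ?_) fun b hb => ?_
    · exact (Pr (g^[n] z)).hasFDerivAt.comp b ((A.hasFDerivAt_disc x y₀ n (hU b hb.1)).sub_const _)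
    · have hz : dist z x ≤ ε₁ := by
        have h1 : dist (r (y₀ + Io x b)) z ≤ ε₀ := hb.2 0 (Nat.zero_le _)
        have h2 := (hd b hb.1).trans (min_le_right _ _)
        have h3 := dist_triangle_left z x (r (y₀ + Io x b))
        linarith
      have h4 := (hit x z y₀ b b' n hz ((hclose b hb.1).trans m3) ((hclose b' hb'.1).trans m3)
        (fun k hk => (hb.2 k hk.le).trans (by linarith))
        (fun k hk => (hb'.2 k hk.le).trans (by linarith))).2
      have h5 : Pr (g^[n] z) (e (g^[n] (r (y₀ + Io x b))) - e (g^[n] (r (y₀ + Io x b')))) = 0 := by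
        have h6 : e (g^[n] (r (y₀ + Io x b))) - e (g^[n] (r (y₀ + Io x b'))) =
            (e (g^[n] (r (y₀ + Io x b))) - e (g^[n] z)) -
              (e (g^[n] (r (y₀ + Io x b'))) - e (g^[n] z)) := by abel
        rw [h6, map_sub]
        exact sub_eq_zero.2 hbb
      rw [h5, norm_zero, mul_zero] at h4
      exact sub_eq_zero.1 (norm_le_zero_iff.1 h4)
    · refine (A.n_pr _ _).trans (mul_le_mul_of_nonneg_left ?_ (by linarith))
      rw [← A.iso]
      exact hb.2 n le_rfl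
    · have h1 := hj b hb.1 ((4 * C₀) • (Pr (g^[n] z) ∘L (Dn e r g n (y₀ + Io x b) ∘L Io x)))
        fun v => by
          have h2 := hT.cone x (y₀ + Io x b) n v ((hclose b hb.1).trans m2)
          have h3 := hQ _ _ ((hb.2 n le_rfl).trans e2) (Dn e r g n (y₀ + Io x b) (Io x v))
          have h4 := A.n_io (g^[n] z) (Pr (g^[n] z) (Dn e r g n (y₀ + Io x b) (Io x v)))
          have h5 : a ^ n ≤ 1 := pow_le_one₀ ha0.le ha1
          simp only [_root_.smul_apply, ContinuousLinearMap.comp_apply, norm_smul,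
            Real.norm_eq_abs]
          rw [abs_of_nonneg (by positivity : (0 : ℝ) ≤ 4 * C₀)]
          generalize Dn e r g n (y₀ + Io x b) (Io x v) = w at *
          generalize Io (g^[n] (r (y₀ + Io x b))) (Pr (g^[n] (r (y₀ + Io x b))) w) = q at *
          generalize Io (g^[n] z) (Pr (g^[n] z) w) = q' at *
          have h6 : ‖w‖ ≤ ‖w - q‖ + ‖q‖ := by simpa using norm_add_le (w - q) q
          have h7 : ‖q‖ ≤ ‖q - q'‖ + ‖q'‖ := by simpa using norm_add_le (q - q') q'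
          have h8 : a ^ n * ‖q‖ ≤ 1 * ‖q‖ := mul_le_mul_of_nonneg_right h5 (norm_nonneg _)
          linarith
      rwa [XUpX.det_smul', abs_mul, abs_of_nonneg (by positivity : (0 : ℝ) ≤ (4 * C₀) ^ u)] at h1
  refine (XUpX.lint_cover volume E P _ _ _ (fun b hb => ?_) key).trans ?_
  · obtain ⟨z, hz, hk⟩ := hE' _ ((hd b hb).trans (min_le_left _ _))
    exact ⟨z, hz, hb, fun k hk' => (hk k hk').trans hε⟩
  · rw [← ENNReal.ofReal_natCast, ← ENNReal.ofReal_mul (Nat.cast_nonneg _)]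
    refine ENNReal.ofReal_le_ofReal ?_
    have hH : 0 ≤ H ^ n := pow_nonneg (zero_le_one.trans hE.one_le) n
    have h1 : (E.card : ℝ) ≤ (|C₂| + 1) * H ^ n :=
      hcard.trans (mul_le_mul_of_nonneg_right (by linarith [le_abs_self C₂]) hH)
    calc (E.card : ℝ) * ((4 * C₀) ^ u * (2 * (C₀ * ε₀)) ^ u)
        ≤ (|C₂| + 1) * H ^ n * ((4 * C₀) ^ u * (2 * (C₀ * ε₀)) ^ u) :=
          mul_le_mul_of_nonneg_right h1 (by positivity)
      _ = _ := by ring


end Pool.Agent.P.MP_5c499f_an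
end
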