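import Pool.Agent.K.MP_5c499f_an.C2
import Pool.Agent.K.MP_5c499f_an.C1
import Pool.Agent.K.MP_5c499f_an.C0
import Pool.Agent.Lib.Flow.Nemytskii

-- part Pool.Agent.P.MP_5c499f_an.XCross
section

/-! Iterated discs cross Bowen boxes. -/

set_option autoImplicit false

namespace Pool.Agent.P.MP_5c499f_an

open Filter Topology Metric MeasureTheory Matrix

variable {M : Type*} [MetricSpace M] [CompactSpace M] {N u : ℕ} {e : M → VV N} {r : VV N → M}
  {U : Set (VV N)} {g : Equiv.Perm M} {Pr : M → VV N →L[ℝ] XX u} {Io : M → XX u →L[ℝ] VV N}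
  {C₀ a : ℝ}

namespace XCrossX

/-- A map close to an expanding linear map covers a ball. -/
lemma surj {Φ : XX u → XX u} {S : XX u →L[ℝ] XX u} {m c R : ℝ} (hm : 0 < m) (hc : 0 ≤ c)
    (hR : 0 ≤ R) (hS : ∀ b, ‖b‖ ≤ m * ‖S b‖)
    (hΦ : ∀ b b', ‖b‖ ≤ R → ‖b'‖ ≤ R → ‖Φ b - Φ b' - S (b - b')‖ ≤ c * ‖b - b'‖) {w : XX u}
    (hw : ‖w - Φ 0‖ ≤ (m⁻¹ - c) * R) : ∃ b, ‖b‖ ≤ R ∧ Φ b = w := by
  have hinj : Function.Injective (S : XX u →ₗ[ℝ] XX u) := by
    rw [injective_iff_map_eq_zero]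
    intro b hb
    have h := hS b
    have hb' : S b = 0 := hb
    rw [hb', norm_zero, mul_zero] at h
    exact norm_le_zero_iff.1 h
  have hsurj : Function.Surjective S := LinearMap.injective_iff_surjective.1 hinj
  let T : S.NonlinearRightInverse :=
    { toFun := Function.surjInv hsurj
      nnnorm := ⟨m, hm.le⟩
      bound' := fun y => by
        have h := hS (Function.surjInv hsurj y)
        rw [Function.surjInv_eq hsurj] at h
        exact h
      right_inv' := fun y => Function.surjInv_eq hsurj y }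
  have hA : ApproximatesLinearOn Φ S (closedBall 0 R) ⟨c, hc⟩ := fun b hb b' hb' =>
    hΦ b b' (mem_closedBall_zero_iff.1 hb) (mem_closedBall_zero_iff.1 hb')
  obtain ⟨b, hb, hbw⟩ := hA.surjOn_closedBall_of_nonlinearRightInverse T hR subset_rfl
    (show w ∈ closedBall (Φ 0) _ from mem_closedBall_iff_norm.2 hw)
  exact ⟨b, mem_closedBall_zero_iff.1 hb, hbw⟩

omit [CompactSpace M] in
lemma pr_B (A : Amb e r U g Pr Io C₀ a) (z : M) (v : VV N) :
    Pr (g z) (Dm e r (e ∘ g) z v) = Pr (g z) (Dm e r (e ∘ g) z (Io z (Pr z v))) := by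
  rw [← A.comm, A.pr_io]

omit [CompactSpace M] in
lemma a_le (A : Amb e r U g Pr Io C₀ a) : a ≤ 1 / 10 := by
  have h1 := A.one_le
  have h2 := A.a_pos
  have h3 := A.a_le
  have h4 : 1 ≤ C₀ ^ 2 := one_le_pow₀ h1
  nlinarith

omit [CompactSpace M] in
lemma low_B (A : Amb e r U g Pr Io C₀ a) (z : M) (w : XX u) :
    ‖w‖ ≤ 1 / 10 * ‖Pr (g z) (Dm e r (e ∘ g) z (Io z w))‖ := by
  have hC : 0 ≤ C₀ := zero_le_one.trans A.one_le
  have h1 : ‖w‖ ≤ C₀ * ‖Io z w‖ := by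
    have := A.n_pr z (Io z w)
    rwa [A.pr_io] at this
  have h2 := A.un z w
  have h3 : ‖Dm e r (e ∘ g) z (Io z w)‖ ≤ C₀ * ‖Pr (g z) (Dm e r (e ∘ g) z (Io z w))‖ := by
    have := A.n_io (g z) (Pr (g z) (Dm e r (e ∘ g) z (Io z w)))
    rwa [A.comm, A.pr_io] at this
  have h4 := A.a_le
  have h5 := A.a_pos
  have h6 := norm_nonneg (Pr (g z) (Dm e r (e ∘ g) z (Io z w)))
  calc ‖w‖ ≤ C₀ * (a * (C₀ * ‖Pr (g z) (Dm e r (e ∘ g) z (Io z w))‖)) :=
        h1.trans (mul_le_mul_of_nonneg_left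
          (h2.trans (mul_le_mul_of_nonneg_left h3 h5.le)) hC)
    _ = C₀ ^ 2 * a * ‖Pr (g z) (Dm e r (e ∘ g) z (Io z w))‖ := by ring
    _ ≤ _ := mul_le_mul_of_nonneg_right (by linarith) h6

omit [CompactSpace M] in
lemma n_st (A : Amb e r U g Pr Io C₀ a) (z : M) (v : VV N) :
    ‖v - Io z (Pr z v)‖ ≤ 2 * C₀ ^ 2 * ‖v‖ := by
  have hC : 0 ≤ C₀ := zero_le_one.trans A.one_le
  have h1 := norm_sub_le v (Io z (Pr z v))
  have h2 := (A.n_io z (Pr z v)).trans (mul_le_mul_of_nonneg_left (A.n_pr z v) hC)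
  have h4 : 1 ≤ C₀ ^ 2 := one_le_pow₀ A.one_le
  nlinarith [norm_nonneg v]

omit [CompactSpace M] in
/-- One step of the graph transform. -/
lemma step (A : Amb e r U g Pr Io C₀ a) {τ : ℝ} (hτ : 0 < τ) (z : M) (γ : XX u → M)
    (hB : ∀ p q, ‖e p - e z‖ ≤ 3 * C₀ * τ → ‖e q - e z‖ ≤ 3 * C₀ * τ →
      ‖e (g p) - e (g q) - Dm e r (e ∘ g) z (e p - e q)‖ ≤ (10 * C₀ ^ 2)⁻¹ * ‖e p - e q‖)
    (h1 : ∀ w, ‖w‖ ≤ τ → Pr z (e (γ w) - e z) = w)
    (h2 : ∀ w, ‖w‖ ≤ τ → ‖e (γ w) - e z - Io z (Pr z (e (γ w) - e z))‖ ≤ 2 * C₀ * τ)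
    (h3 : ∀ w w', ‖w‖ ≤ τ → ‖w'‖ ≤ τ → Cone Pr Io z (e (γ w) - e (γ w'))) (w : XX u)
    (hw : ‖w‖ ≤ τ) : ∃ w₀, ‖w₀‖ ≤ τ ∧ Pr (g z) (e (g (γ w₀)) - e (g z)) = w ∧
      ‖e (g (γ w₀)) - e (g z) - Io (g z) (Pr (g z) (e (g (γ w₀)) - e (g z)))‖ ≤ 2 * C₀ * τ := by
  have hC1 := A.one_le
  have hC : 0 < C₀ := zero_lt_one.trans_le hC1
  obtain ⟨θ, hθ⟩ : ∃ θ, θ = (10 * C₀ ^ 2)⁻¹ := ⟨_, rfl⟩
  rw [← hθ] at hB
  have hθ0 : 0 < θ := by rw [hθ]; positivity
  have hθ1 : C₀ ^ 2 * θ = 1 / 10 := by rw [hθ]; field_simp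
  have hv : ∀ w, ‖w‖ ≤ τ → ‖e (γ w) - e z‖ ≤ 3 * C₀ * τ := by
    intro w hw
    have b1 := h2 w hw
    rw [h1 w hw] at b1
    have b2 := (A.n_io z w).trans (mul_le_mul_of_nonneg_left hw hC.le)
    have b3 := norm_add_le (e (γ w) - e z - Io z w) (Io z w)
    rw [sub_add_cancel] at b3
    linarith
  have hz : ‖e z - e z‖ ≤ 3 * C₀ * τ := by rw [sub_self, norm_zero]; positivity
  have herr : ∀ w, ‖w‖ ≤ τ →
      ‖e (g (γ w)) - e (g z) - Dm e r (e ∘ g) z (e (γ w) - e z)‖ ≤ θ * (3 * C₀ * τ) :=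
    fun w hw => (hB _ _ (hv w hw) hz).trans (mul_le_mul_of_nonneg_left (hv w hw) hθ0.le)
  obtain ⟨w₀, hw₀, hw₁⟩ := surj (Φ := fun w => Pr (g z) (e (g (γ w)) - e (g z)))
    (S := Pr (g z) ∘L Dm e r (e ∘ g) z ∘L Io z) (m := 1 / 10) (c := 1 / 5) (R := τ) (w := w)
    (by norm_num) (by norm_num) hτ.le (fun b => low_B A z b) (fun b b' hb hb' => by
      have e1 : Pr z (e (γ b) - e (γ b')) = b - b' := by
        have : e (γ b) - e (γ b') = (e (γ b) - e z) - (e (γ b') - e z) := by abel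
        rw [this, map_sub, h1 b hb, h1 b' hb']
      have c1 := h3 b b' hb hb'
      unfold Cone at c1
      rw [e1] at c1
      have c2 := A.n_io z (b - b')
      have c3 := norm_add_le (e (γ b) - e (γ b') - Io z (b - b')) (Io z (b - b'))
      rw [sub_add_cancel] at c3
      have c4 : ‖e (γ b) - e (γ b')‖ ≤ 2 * C₀ * ‖b - b'‖ := by linarith
      have c5 := (hB _ _ (hv b hb) (hv b' hb')).trans (mul_le_mul_of_nonneg_left c4 hθ0.le)
      have e2 : Pr (g z) (e (g (γ b)) - e (g z)) - Pr (g z) (e (g (γ b')) - e (g z)) -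
          (Pr (g z) ∘L Dm e r (e ∘ g) z ∘L Io z) (b - b') =
          Pr (g z) (e (g (γ b)) - e (g (γ b')) - Dm e r (e ∘ g) z (e (γ b) - e (γ b'))) := by
        have : (Pr (g z) ∘L Dm e r (e ∘ g) z ∘L Io z) (b - b') =
            Pr (g z) (Dm e r (e ∘ g) z (e (γ b) - e (γ b'))) := by
          rw [pr_B A, e1]; rfl
        rw [this, ← map_sub, ← map_sub]
        congr 1
        abel
      rw [e2]
      refine (A.n_pr _ _).trans ((mul_le_mul_of_nonneg_left c5 hC.le).trans (le_of_eq ?_))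
      linear_combination (2 * ‖b - b'‖) * hθ1) (by
      have h0 : ‖(0 : XX u)‖ ≤ τ := by rw [norm_zero]; exact hτ.le
      have e1 : Pr (g z) (e (g (γ 0)) - e (g z)) =
          Pr (g z) (e (g (γ 0)) - e (g z) - Dm e r (e ∘ g) z (e (γ 0) - e z)) := by
        rw [map_sub (Pr (g z)) _ (Dm e r (e ∘ g) z _), pr_B A, h1 0 h0]
        simp
      have c1 := (A.n_pr (g z) _).trans (mul_le_mul_of_nonneg_left (herr 0 h0) hC.le)
      rw [← e1] at c1
      have c2 : C₀ * (θ * (3 * C₀ * τ)) = 3 / 10 * τ := by linear_combination (3 * τ) * hθ1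
      have c3 := norm_sub_le w (Pr (g z) (e (g (γ 0)) - e (g z)))
      rw [show ((1 : ℝ) / 10)⁻¹ - 1 / 5 = 49 / 5 by norm_num]
      linarith)
  refine ⟨w₀, hw₀, hw₁, ?_⟩
  obtain ⟨v, hvv⟩ : ∃ v, v = e (γ w₀) - e z := ⟨_, rfl⟩
  obtain ⟨d, hd⟩ : ∃ d, d = e (g (γ w₀)) - e (g z) - Dm e r (e ∘ g) z (e (γ w₀) - e z) := ⟨_, rfl⟩
  have c1 := herr w₀ hw₀
  have c2 := h2 w₀ hw₀
  rw [← hd] at c1
  rw [← hvv] at c2 hd
  have e1 : e (g (γ w₀)) - e (g z) = Dm e r (e ∘ g) z v + d := by rw [hd]; abel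
  have e2 : e (g (γ w₀)) - e (g z) - Io (g z) (Pr (g z) (e (g (γ w₀)) - e (g z))) =
      Dm e r (e ∘ g) z (v - Io z (Pr z v)) + (d - Io (g z) (Pr (g z) d)) := by
    rw [e1, map_add, map_add, A.comm, map_sub]
    abel
  have c3 := A.st z (v - Io z (Pr z v)) (by rw [map_sub, A.pr_io, sub_self])
  have c4 := (n_st A (g z) d).trans (mul_le_mul_of_nonneg_left c1 (by positivity))
  have c5 : 2 * C₀ ^ 2 * (θ * (3 * C₀ * τ)) = 3 / 5 * (C₀ * τ) := by
    linear_combination (6 * C₀ * τ) * hθ1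
  have c6 : a * ‖v - Io z (Pr z v)‖ ≤ 1 / 10 * (2 * C₀ * τ) :=
    mul_le_mul (a_le A) c2 (norm_nonneg _) (by norm_num)
  have c7 : 0 < C₀ * τ := mul_pos hC hτ
  rw [e2]
  refine (norm_add_le _ _).trans ?_
  linarith

omit [CompactSpace M] in
/-- The initial disc crosses the first box. -/
lemma base (A : Amb e r U g Pr Io C₀ a) {τ s : ℝ} (hτ : 0 < τ) (hs : 8 * C₀ ^ 2 * τ ≤ s) (x z : M)
    (ψ : XX u → VV N) (hQ : ∀ v, ‖Io x (Pr x v) - Io z (Pr z v)‖ ≤ 1 / 2 * ‖v‖)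
    (hψ : ∀ b b', ‖b‖ ≤ s → ‖b'‖ ≤ s →
      ‖ψ b - ψ b' - Io x (b - b')‖ ≤ (4 * C₀ ^ 4)⁻¹ * ‖Io x (b - b')‖)
    (h0 : 3 * C₀ * ‖ψ 0 - e z‖ ≤ τ) (hc : ∀ b, ‖b‖ ≤ s → Cone Pr Io z (ψ b - ψ 0)) (w : XX u)
    (hw : ‖w‖ ≤ τ) : ∃ b, ‖b‖ ≤ s ∧ Pr z (ψ b - e z) = w ∧
      ‖ψ b - e z - Io z (Pr z (ψ b - e z))‖ ≤ 2 * C₀ * τ := by
  have hC1 := A.one_le
  have hC : 0 < C₀ := zero_lt_one.trans_le hC1
  have hs0 : 0 ≤ s := le_trans (by positivity) hs
  have hd0 := norm_nonneg (ψ 0 - e z)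
  have hp0 : ‖Pr z (ψ 0 - e z)‖ ≤ τ / 3 := by
    have := A.n_pr z (ψ 0 - e z)
    linarith
  obtain ⟨b, hb, hbw⟩ := surj (Φ := fun b => Pr z (ψ b - e z)) (S := Pr z ∘L Io x)
    (m := 2 * C₀ ^ 2) (c := (4 * C₀ ^ 2)⁻¹) (R := s) (w := w) (by positivity) (by positivity) hs0
    (fun b => by
      have c1 := hQ (Io x b)
      rw [A.pr_io] at c1
      have c2 := A.n_io z (Pr z (Io x b))
      have c3 := norm_add_le (Io x b - Io z (Pr z (Io x b))) (Io z (Pr z (Io x b)))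
      rw [sub_add_cancel] at c3
      have c4 : ‖Io x b‖ ≤ 2 * C₀ * ‖Pr z (Io x b)‖ := by linarith
      have c5 := A.n_pr x (Io x b)
      rw [A.pr_io] at c5
      calc ‖b‖ ≤ C₀ * (2 * C₀ * ‖Pr z (Io x b)‖) := c5.trans (mul_le_mul_of_nonneg_left c4 hC.le)
        _ = 2 * C₀ ^ 2 * ‖(Pr z ∘L Io x) b‖ := by
          rw [ContinuousLinearMap.comp_apply]; ring)
    (fun b b' hb hb' => by
      have e2 : Pr z (ψ b - e z) - Pr z (ψ b' - e z) - (Pr z ∘L Io x) (b - b') =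
          Pr z (ψ b - ψ b' - Io x (b - b')) := by
        rw [ContinuousLinearMap.comp_apply, ← map_sub, ← map_sub]
        congr 1
        abel
      have c1 := (hψ b b' hb hb').trans
        (mul_le_mul_of_nonneg_left (A.n_io x (b - b')) (by positivity))
      rw [e2]
      refine (A.n_pr _ _).trans ((mul_le_mul_of_nonneg_left c1 hC.le).trans (le_of_eq ?_))
      field_simp)
    (by
      have c3 := norm_sub_le w (Pr z (ψ 0 - e z))
      have e1 : ((2 * C₀ ^ 2)⁻¹ - (4 * C₀ ^ 2)⁻¹) * (8 * C₀ ^ 2 * τ) = 2 * τ := by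
        field_simp; ring
      have e2 : 0 ≤ (2 * C₀ ^ 2)⁻¹ - (4 * C₀ ^ 2)⁻¹ := by
        have : (2 * C₀ ^ 2)⁻¹ - (4 * C₀ ^ 2)⁻¹ = (4 * C₀ ^ 2)⁻¹ := by field_simp; ring
        rw [this]; positivity
      have e3 := mul_le_mul_of_nonneg_left hs e2
      linarith)
  refine ⟨b, hb, hbw, ?_⟩
  have hbw' : Pr z (ψ b - e z) = w := hbw
  have c1 := hc b hb
  unfold Cone at c1
  have e1 : Pr z (ψ b - ψ 0) = w - Pr z (ψ 0 - e z) := by
    rw [← hbw', ← map_sub]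
    congr 1
    abel
  have c2 : ‖Pr z (ψ b - ψ 0)‖ ≤ τ + τ / 3 := by
    rw [e1]
    have := norm_sub_le w (Pr z (ψ 0 - e z))
    linarith
  have c3 := (A.n_io z _).trans (mul_le_mul_of_nonneg_left c2 hC.le)
  have c4 := n_st A z (ψ 0 - e z)
  have c5 : 2 * C₀ ^ 2 * ‖ψ 0 - e z‖ ≤ 2 / 3 * (C₀ * τ) := by
    nlinarith [mul_le_mul_of_nonneg_left h0 hC.le]
  have e2 : ψ b - e z - Io z (Pr z (ψ b - e z)) = (ψ b - ψ 0 - Io z (Pr z (ψ b - ψ 0))) +
      (ψ 0 - e z - Io z (Pr z (ψ 0 - e z))) := by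
    simp only [map_sub]
    abel
  rw [e2]
  refine (norm_add_le _ _).trans ?_
  linarith

end XCrossX

theorem Amb.cross (A : Amb e r U g Pr Io C₀ a) : ∃ s₀, 0 < s₀ ∧ ∀ s' η, 0 < s' → s' ≤ s₀ → 0 < η →
    ∃ τ ρ, 0 < τ ∧ 0 < ρ ∧ ∀ x y₀ z (n : ℕ), ‖y₀ - e x‖ ≤ s₀ → dist z (r y₀) ≤ ρ →
      ∀ w : XX u, ‖w‖ ≤ τ → ∃ b : XX u, ‖b‖ ≤ s' ∧
        (∀ k ≤ n, dist (g^[k] (r (y₀ + Io x b))) (g^[k] z) ≤ η) ∧
        Pr (g^[n] z) (e (g^[n] (r (y₀ + Io x b))) - e (g^[n] z)) = w := by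
  have hC1 := A.one_le
  have hC : 0 < C₀ := zero_lt_one.trans_le hC1
  obtain ⟨ε₀, hε₀, hcone⟩ := A.cone_iter
  obtain ⟨η₁, hη₁, hQ⟩ := A.ucQ (κ := 1 / 2) (by norm_num)
  obtain ⟨s₁, hs₁, hu₁⟩ := A.unif A.c1 (θ := (4 * C₀ ^ 4)⁻¹) (by positivity)
  obtain ⟨s₂, hs₂, hu₂⟩ := A.unif A.cg (θ := (10 * C₀ ^ 2)⁻¹) (by positivity)
  obtain ⟨ε, hε, hε0, hε1, hε2, hε3⟩ : ∃ ε, 0 < ε ∧ ε ≤ ε₀ ∧ ε ≤ η₁ ∧ ε ≤ s₁ ∧ ε ≤ s₂ :=
    ⟨min (min ε₀ η₁) (min s₁ s₂), by positivity, (min_le_left _ _).trans (min_le_left _ _),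
      (min_le_left _ _).trans (min_le_right _ _), (min_le_right _ _).trans (min_le_left _ _),
      (min_le_right _ _).trans (min_le_right _ _)⟩
  obtain ⟨s₃, hs₃, hn⟩ := A.near (η := ε / 2) (by positivity)
  refine ⟨min s₃ (ε / (1 + C₀)), by positivity, fun s' η hs' hs'0 hη => ?_⟩
  obtain ⟨τ, hτ, hτ1, hτ2, hτ3⟩ : ∃ τ, 0 < τ ∧ 8 * C₀ ^ 2 * τ ≤ s' ∧ 3 * C₀ * τ ≤ η ∧
      3 * C₀ * τ ≤ ε := by
    refine ⟨min (s' / (8 * C₀ ^ 2)) (min η ε / (3 * C₀)), by positivity, ?_, ?_, ?_⟩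
    · rw [mul_comm, ← le_div_iff₀ (by positivity)]
      exact min_le_left _ _
    · rw [mul_comm, ← le_div_iff₀ (by positivity)]
      exact (min_le_right _ _).trans (div_le_div_of_nonneg_right (min_le_left _ _) (by positivity))
    · rw [mul_comm, ← le_div_iff₀ (by positivity)]
      exact (min_le_right _ _).trans (div_le_div_of_nonneg_right (min_le_right _ _) (by positivity))
  refine ⟨τ, τ / (3 * C₀), hτ, by positivity, fun x y₀ z n hy hz => ?_⟩
  have hz' : 3 * C₀ * dist z (r y₀) ≤ τ := by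
    rw [mul_comm, ← le_div_iff₀ (by positivity)]; exact hz
  have hzx : dist z x ≤ ε := by
    have c1 := (hn x y₀ (hy.trans (min_le_left _ _))).2
    have c2 := dist_triangle z (r y₀) x
    have c3 : 0 ≤ dist z (r y₀) := dist_nonneg
    nlinarith
  have hball : ∀ b : XX u, ‖b‖ ≤ s' → ‖y₀ + Io x b - e x‖ ≤ ε := by
    intro b hb
    have c0 : min s₃ (ε / (1 + C₀)) * (1 + C₀) ≤ ε := by
      rw [← le_div_iff₀ (by positivity)]; exact min_le_right _ _
    have c1 := (A.n_io x b).trans (mul_le_mul_of_nonneg_left (hb.trans hs'0) hC.le)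
    have c2 := norm_add_le (y₀ - e x) (Io x b)
    rw [show y₀ - e x + Io x b = y₀ + Io x b - e x by abel] at c2
    linarith
  have hv : ∀ (p q : M) (w : XX u), ‖w‖ ≤ τ → Pr q (e p - e q) = w →
      ‖e p - e q - Io q (Pr q (e p - e q))‖ ≤ 2 * C₀ * τ → dist p q ≤ 3 * C₀ * τ := by
    intro p q w hw h1 b1
    rw [h1] at b1
    have b2 := (A.n_io q w).trans (mul_le_mul_of_nonneg_left hw hC.le)
    have b3 := norm_add_le (e p - e q - Io q w) (Io q w)
    rw [sub_add_cancel] at b3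
    rw [A.iso]
    linarith
  have key : ∀ n : ℕ, ∀ w : XX u, ‖w‖ ≤ τ → ∃ b : XX u, ‖b‖ ≤ s' ∧
      (∀ k ≤ n, dist (g^[k] (r (y₀ + Io x b))) (g^[k] z) ≤ 3 * C₀ * τ) ∧
      Pr (g^[n] z) (e (g^[n] (r (y₀ + Io x b))) - e (g^[n] z)) = w ∧
      ‖e (g^[n] (r (y₀ + Io x b))) - e (g^[n] z) - Io (g^[n] z) (Pr (g^[n] z)
        (e (g^[n] (r (y₀ + Io x b))) - e (g^[n] z)))‖ ≤ 2 * C₀ * τ := by
    intro n
    induction n with
    | zero =>
      intro w hw
      have h0 : ‖(0 : XX u)‖ ≤ s' := by rw [norm_zero]; exact hs'.le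
      obtain ⟨b, hb, h1, h2⟩ := XCrossX.base A hτ hτ1 x z (fun b => e (r (y₀ + Io x b)))
        (hQ x z (by rw [dist_comm]; exact hzx.trans hε1)) (fun b b' hb hb' => by
          have c1 := (hu₁ x _ ((hball b hb).trans hε2)).2.2 _ ((hball b' hb').trans hε2)
          have e1 : y₀ + Io x b - (y₀ + Io x b') = Io x (b - b') := by rw [map_sub]; abel
          have e2 : fderiv ℝ (e ∘ r) (e x) (Io x (b - b')) = Io x (b - b') := A.tan x _
          rw [e1, e2] at c1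
          exact c1) (by
          simp only [map_zero, add_zero]
          rw [← A.iso, dist_comm]
          exact hz') (fun b hb => (hcone x z y₀ b 0 0 (hzx.trans hε0) ((hball b hb).trans hε0)
            ((hball 0 h0).trans hε0) (fun k hk => absurd hk (Nat.not_lt_zero k))
            (fun k hk => absurd hk (Nat.not_lt_zero k))).1) w hw
      refine ⟨b, hb, fun k hk => ?_, h1, h2⟩
      obtain rfl : k = 0 := Nat.le_zero.1 hk
      exact hv _ _ w hw h1 h2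
    | succ n ih =>
      intro w hw
      choose! γ g1 g2 g3 g4 using ih
      obtain ⟨w₀, hw₀, h1, h2⟩ := XCrossX.step A hτ (g^[n] z)
        (fun w => g^[n] (r (y₀ + Io x (γ w)))) (fun p q hp hq => by
          have c1 := (hu₂ (g^[n] z) _ (hp.trans (hτ3.trans hε3))).2.2 _ (hq.trans (hτ3.trans hε3))
          simp only [Function.comp_apply, A.ret] at c1
          exact c1) g3 g4 (fun w w' hw hw' => (hcone x z y₀ (γ w) (γ w') n (hzx.trans hε0)
            ((hball _ (g1 w hw)).trans hε0) ((hball _ (g1 w' hw')).trans hε0)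
            (fun k hk => (g2 w hw k hk.le).trans (hτ3.trans hε0))
            (fun k hk => (g2 w' hw' k hk.le).trans (hτ3.trans hε0))).1) w hw
      refine ⟨γ w₀, g1 w₀ hw₀, fun k hk => ?_, ?_, ?_⟩
      · rcases Nat.lt_or_eq_of_le hk with h | rfl
        · exact g2 w₀ hw₀ k (Nat.lt_succ_iff.1 h)
        · simp only [Function.iterate_succ_apply']
          exact hv _ _ w hw h1 h2
      · simp only [Function.iterate_succ_apply']
        exact h1
      · simp only [Function.iterate_succ_apply']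
        exact h2
  intro w hw
  obtain ⟨b, hb, h1, h2, -⟩ := key n w hw
  exact ⟨b, hb, fun k hk => (h1 k hk).trans hτ2, h2⟩


end Pool.Agent.P.MP_5c499f_an
end

-- part Pool.Agent.P.MP_5c499f_an.XLow
section

/-! Lower bound for the volume of iterated discs. -/

set_option autoImplicit false

namespace Pool.Agent.P.MP_5c499f_an

open Filter Topology Metric MeasureTheory Matrix

variable {M : Type*} [MetricSpace M] [CompactSpace M] {N u : ℕ} {e : M → VV N} {r : VV N → M}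
  {U : Set (VV N)} {g : Equiv.Perm M} {Pr : M → VV N →L[ℝ] XX u} {Io : M → XX u →L[ℝ] VV N}
  {C₀ a : ℝ}

namespace XLowX

/-- The parameters of the disc whose orbits follow the orbit of `z`. -/
def box (r : VV N → M) (g : M → M) (Io : M → XX u →L[ℝ] VV N) (x : M) (y₀ : VV N) (s η : ℝ)
    (n : ℕ) (z : M) : Set (XX u) :=
  {b | b ∈ closedBall (0 : XX u) s ∧ ∀ k ≤ n, dist (g^[k] (r (y₀ + Io x b))) (g^[k] z) ≤ η}

omit [CompactSpace M] in
lemma box_closed (A : Amb e r U g Pr Io C₀ a) {x : M} {y₀ : VV N} {s η : ℝ} (n : ℕ) (z : M)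
    (hU : ∀ b ∈ closedBall (0 : XX u) s, y₀ + Io x b ∈ U) :
    IsClosed (box r g Io x y₀ s η n z) := by
  have e1 : box r g Io x y₀ s η n z = ⋂ k ∈ Set.Iic n, (closedBall (0 : XX u) s ∩
      (fun b => g^[k] (r (y₀ + Io x b))) ⁻¹' closedBall (g^[k] z) η) := by
    ext b
    simp only [box, Set.mem_ofPred_eq, Set.mem_iInter, Set.mem_inter_iff, Set.mem_preimage,
      Set.mem_Iic, mem_closedBall]
    exact ⟨fun h k hk => ⟨h.1, h.2 k hk⟩, fun h => ⟨(h 0 (Nat.zero_le n)).1, fun k hk => (h k hk).2⟩⟩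
  rw [e1]
  refine isClosed_biInter fun k _ => ?_
  refine ContinuousOn.preimage_isClosed_of_isClosed ?_ isClosed_closedBall isClosed_closedBall
  refine (A.cont_g.iterate k).comp_continuousOn (A.cont_r.comp ?_ hU)
  exact (continuous_const.add (Io x).continuous).continuousOn

omit [CompactSpace M] in
lemma box_vol (A : Amb e r U g Pr Io C₀ a) {x : M} {y₀ : VV N} {s η τ : ℝ} (n : ℕ) (z : M)
    (hU : ∀ b ∈ closedBall (0 : XX u) s, y₀ + Io x b ∈ U) {j : XX u → ℝ}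
    (hj : ∀ b ∈ closedBall (0 : XX u) s, Above (Dn e r g n (y₀ + Io x b) ∘L Io x) (j b))
    (hc : ∀ w : XX u, ‖w‖ ≤ τ → ∃ b : XX u, ‖b‖ ≤ s ∧
      (∀ k ≤ n, dist (g^[k] (r (y₀ + Io x b))) (g^[k] z) ≤ η) ∧
      Pr (g^[n] z) (e (g^[n] (r (y₀ + Io x b))) - e (g^[n] z)) = w) :
    volume (closedBall (0 : XX u) (τ / C₀)) ≤
      ∫⁻ b in box r g Io x y₀ s η n z, ENNReal.ofReal (j b) := by
  have hC : 0 < C₀ := lt_of_lt_of_le one_pos A.one_le
  have hm : MeasurableSet (box r g Io x y₀ s η n z) := (box_closed A n z hU).measurableSet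
  set Θ : XX u → XX u := fun b =>
    C₀⁻¹ • Pr (g^[n] z) (e (g^[n] (r (y₀ + Io x b))) - e (g^[n] z)) with hΘ
  set Θ' : XX u → XX u →L[ℝ] XX u := fun b =>
    C₀⁻¹ • (Pr (g^[n] z) ∘L (Dn e r g n (y₀ + Io x b) ∘L Io x)) with hΘ'
  have hd : ∀ b ∈ box r g Io x y₀ s η n z, HasFDerivWithinAt Θ (Θ' b) (box r g Io x y₀ s η n z) b :=
    fun b hb => (((Pr (g^[n] z)).hasFDerivAt.comp b
      ((A.hasFDerivAt_disc x y₀ n (hU b hb.1)).sub_const (e (g^[n] z)))).const_smul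
        C₀⁻¹).hasFDerivWithinAt
  have hsub : closedBall (0 : XX u) (τ / C₀) ⊆ Θ '' box r g Io x y₀ s η n z := by
    intro w hw
    rw [mem_closedBall_zero_iff, le_div_iff₀ hC] at hw
    obtain ⟨b, b1, b2, b3⟩ := hc (C₀ • w) (by
      rw [norm_smul, Real.norm_eq_abs, abs_of_pos hC]
      linarith)
    refine ⟨b, ⟨mem_closedBall_zero_iff.2 b1, b2⟩, ?_⟩
    simp only [hΘ]
    rw [b3, smul_smul, inv_mul_cancel₀ hC.ne', one_smul]
  refine (measure_mono hsub).trans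
    ((addHaar_image_le_lintegral_abs_det_fderiv volume hm hd).trans ?_)
  refine setLIntegral_mono' hm fun b hb => ENNReal.ofReal_le_ofReal ?_
  refine hj b hb.1 (Θ' b) fun v => ?_
  simp only [hΘ', _root_.smul_apply, ContinuousLinearMap.comp_apply]
  rw [norm_smul, Real.norm_eq_abs, abs_of_pos (inv_pos.2 hC), inv_mul_le_iff₀ hC]
  exact A.n_pr _ _

end XLowX

theorem Amb.lowE (A : Amb e r U g Pr Io C₀ a) {H ε δ : ℝ} (h : Ent g H ε δ) :
    ∃ s₀, 0 < s₀ ∧ ∀ s, 0 < s → s ≤ s₀ → LowE e r g Io H s := by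
  have hC : 0 < C₀ := lt_of_lt_of_le one_pos A.one_le
  obtain ⟨η, η0, hη⟩ := h.low
  obtain ⟨s₁, s1, hs₁⟩ := A.cross
  obtain ⟨σ, σ0, hσ⟩ := A.near one_pos
  refine ⟨min s₁ (σ / (1 + C₀)), lt_min s1 (by positivity), fun s s0 hs s' s0' hs' => ?_⟩
  have hs1 : s ≤ s₁ := hs.trans (min_le_left _ _)
  have hs2 : s * (1 + C₀) ≤ σ := (le_div_iff₀ (by positivity)).1 (hs.trans (min_le_right _ _))
  obtain ⟨τ, ρ, τ0, ρ0, hcr⟩ := hs₁ s' (η / 2) s0' (hs'.trans hs1) (by positivity)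
  obtain ⟨c, c0, hc⟩ := hη ρ ρ0
  have v0 : 0 < volume (closedBall (0 : XX u) (τ / C₀)) :=
    measure_closedBall_pos _ _ (by positivity)
  have v1 : volume (closedBall (0 : XX u) (τ / C₀)) ≠ ⊤ := measure_closedBall_lt_top.ne
  refine ⟨c * (volume (closedBall (0 : XX u) (τ / C₀))).toReal,
    mul_pos c0 (ENNReal.toReal_pos v0.ne' v1), fun x y₀ n j hy hj => ?_⟩
  obtain ⟨E, E1, E2, E3⟩ := hc (r y₀) n
  have hU : ∀ b ∈ closedBall (0 : XX u) s', y₀ + Io x b ∈ U := by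
    intro b hb
    rw [mem_closedBall_zero_iff] at hb
    refine (hσ x _ ?_).1
    have e1 : y₀ + Io x b - e x = (y₀ - e x) + Io x b := by abel
    rw [e1]
    have := A.n_io x b
    have h2 : C₀ * ‖b‖ ≤ C₀ * s := mul_le_mul_of_nonneg_left (hb.trans hs') hC.le
    linarith [norm_add_le (y₀ - e x) (Io x b)]
  have hdis : (E : Set M).PairwiseDisjoint (XLowX.box r g Io x y₀ s' (η / 2) n) := by
    intro z hz z' hz' hne
    obtain ⟨k, hk, hlt⟩ := E3 hz hz' hne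
    refine Set.disjoint_left.2 fun b hb hb' => ?_
    have d1 := hb.2 k hk
    have d2 := hb'.2 k hk
    linarith [dist_triangle_left (g^[k] z) (g^[k] z') (g^[k] (r (y₀ + Io x b)))]
  have hsub : (⋃ z ∈ E, XLowX.box r g Io x y₀ s' (η / 2) n z) ⊆ closedBall (0 : XX u) s' :=
    Set.iUnion₂_subset fun z _ b hb => hb.1
  refine le_trans ?_ (lintegral_mono_set hsub)
  rw [lintegral_biUnion_finset hdis fun z _ => (XLowX.box_closed A n z hU).measurableSet]
  have h1 : ∑ _z ∈ E, volume (closedBall (0 : XX u) (τ / C₀)) ≤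
      ∑ z ∈ E, ∫⁻ b in XLowX.box r g Io x y₀ s' (η / 2) n z, ENNReal.ofReal (j b) :=
    Finset.sum_le_sum fun z hz =>
      XLowX.box_vol A n z hU hj (hcr x y₀ z n (hy.trans hs1) (E2 z hz))
  refine le_trans ?_ h1
  have hH : 0 ≤ c * H ^ n := mul_nonneg c0.le (pow_nonneg (zero_le_one.trans h.one_le) _)
  rw [Finset.sum_const, nsmul_eq_mul, mul_right_comm, ENNReal.ofReal_mul hH,
    ENNReal.ofReal_toReal v1]
  refine mul_le_mul_left ?_ _
  rw [← ENNReal.ofReal_natCast]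
  exact ENNReal.ofReal_le_ofReal E1

end Pool.Agent.P.MP_5c499f_an
end

-- part Pool.Agent.P.MP_5c499f_an.XOmega
section

/-! A closed form which is positive on the unstable bundle. -/

set_option autoImplicit false

namespace Pool.Agent.P.MP_5c499f_an

open Filter Topology Metric MeasureTheory Matrix

variable {M : Type*} [MetricSpace M] [CompactSpace M] {N u : ℕ} {e : M → VV N} {r : VV N → M}
  {U : Set (VV N)} {g : Equiv.Perm M} {Pr : M → VV N →L[ℝ] XX u} {Io : M → XX u →L[ℝ] VV N}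
  {C₀ a : ℝ}
  {H s C : ℝ} {m : ℕ} {c : Fin m → M → ℝ} {f : Fin m → Fin u → M → ℝ} {ρ : VV N → ℝ}
  {K : Set (VV N)}

theorem Amb.exists_dv (A : Amb e r U g Pr Io C₀ a) : ∃ ε₀, 0 < ε₀ ∧ ∀ H ε δ, ε ≤ ε₀ →
    Ent g H ε δ → ∀ s₁, 0 < s₁ → ∃ s C, s ≤ s₁ ∧ DV e r U g Pr Io C₀ a H s C := by
  obtain ⟨ε₀, e0, e1⟩ := A.upE
  refine ⟨ε₀, e0, fun H ε δ h1 h2 s₁ h3 => ?_⟩
  obtain ⟨s₂, a1, C₁, a2, a3⟩ := e1 H ε δ h1 h2
  obtain ⟨s₃, a4, a5⟩ := A.lowE h2
  obtain ⟨σ, C₂, a6, a7, T⟩ := A.tanE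
  have c0 := A.one_le
  have a0 := A.a_pos
  have H0 : 0 < H := by linarith [h2.one_le]
  obtain ⟨s, s0, s1, s2, s3, s4⟩ : ∃ s, 0 < s ∧ s ≤ s₁ ∧ s ≤ s₂ ∧ s ≤ s₃ ∧ s ≤ σ / (1 + C₀) :=
    ⟨min (min s₁ s₂) (min s₃ (σ / (1 + C₀))), by positivity, by simp, by simp, by simp, by simp⟩
  rw [le_div_iff₀' (by positivity)] at s4
  refine ⟨s, max C₁ C₂, s1, s0, by positivity, H0, ⟨fun x y h => T.sub x y (h.trans s4),
    fun x y n b h => T.cone x y n b (h.trans s4), fun x y n b h =>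
      (T.expd x y n b (h.trans s4)).trans (by gcongr; exact le_max_right _ _), fun x y h => ?_⟩,
    fun x y₀ n j h h' => (a3 s s0 s2 x y₀ n j h h').trans
      (ENNReal.ofReal_le_ofReal (by gcongr; exact le_max_left _ _)), a5 s s0 s3⟩
  obtain ⟨β, b1, b2⟩ := T.dec x y (h.trans s4)
  exact ⟨β, fun w => (b1 w).trans (by gcongr; exact le_max_right _ _),
    fun n w => (b2 n w).trans (by gcongr; exact le_max_right _ _)⟩

theorem exists_omega (A : Amb e r U g Pr Io C₀ a) (D : DV e r U g Pr Io C₀ a H s C)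
    (hc : ∀ t, ContDiffOn ℝ 1 (c t ∘ r) U) (hf : ∀ t i, ContDiffOn ℝ 1 (f t i ∘ r) U)
    (nz : ∀ x, PsiF e r c f x (Io x) ≠ 0) :
    ∃ w : (Fin u → Fin N) → VV N → ℝ, (∀ I, ContDiff ℝ (⊤ : ℕ∞) (w I)) ∧ ClosedW e w ∧
      ∀ x, PsiW e w x (Io x) ≠ 0 := by
  obtain ⟨ρ, K, k⟩ := exists_ker A.cont_e (show 0 < s / 4 by linarith [D.s_pos])
  obtain ⟨k1, C', k2⟩ := cf_bdd A D hc hf k
  obtain ⟨w, 𝒰, u1, u2, u3⟩ := exists_lim k.cpt (c := fun n I => cf r g H c f n I)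
    (fun n I => (cf_cont A hc hf n I).mono k1) k2 k.smooth
  refine ⟨w, fun I => (u3 I).1, fun x v => ?_, fun x => ?_⟩
  · choose γ hγ using fun I : Fin u → Fin N => dt_cons (fun i => crd (I i)) v
    refine tendsto_nhds_unique (l := 𝒰) ?_ ((cf_closed A D hc hf k x v).mono_left u2)
    refine tendsto_finsetSum _ fun I _ => ?_
    simp only [hγ]
    refine (tendsto_finsetSum _ fun j _ =>
      (((u3 I).2 (e x)).2 (v j)).const_mul (γ I j)).congr fun n => ?_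
    simp only [← integral_const_mul]
    rw [← integral_finsetSum]
    · refine integral_congr_ae (Eventually.of_forall fun z => ?_)
      simp only [Finset.mul_sum]
      exact Finset.sum_congr rfl fun j _ => by ring
    · refine fun j _ => ContinuousOn.integrableOn_compact k.cpt (continuousOn_const.mul
        (ContinuousOn.mul (Continuous.continuousOn ?_) ((cf_cont A hc hf n I).mono k1)))
      exact ((k.smooth.continuous_fderiv (by simp)).comp
        (continuous_const.sub continuous_id)).clm_apply continuous_const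
  · obtain ⟨c₀, p0, p1⟩ := cf_pos A D hc hf k nz
    have := ge_of_tendsto (tendsto_finsetSum Finset.univ fun I _ => ((u3 I).2 (e x)).1.mul_const
      (dt (fun i => crd (I i)) fun j => Io x (bas u j))).abs (u2 (p1.mono fun n h => h x))
    exact abs_pos.1 (p0.trans_le this)


end Pool.Agent.P.MP_5c499f_an
end

-- part Pool.Agent.P.MP_5c499f_an.XHom
section

/-! The homotopy estimate for weighted Jacobians. -/

set_option autoImplicit false

namespace Pool.Agent.P.MP_5c499f_an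

open Filter Topology Metric MeasureTheory Matrix

namespace XHomX

/-- Integration over the unit interval. -/
noncomputable def intg : C(Set.Icc (0 : ℝ) 1, ℝ) →L[ℝ] ℝ :=
  LinearMap.mkContinuous
    { toFun := fun f => ∫ t in (0 : ℝ)..1, f (Set.projIcc 0 1 zero_le_one t)
      map_add' := fun f g => by
        simp only [ContinuousMap.add_apply]
        exact intervalIntegral.integral_add
          ((f.continuous.comp continuous_projIcc).intervalIntegrable _ _)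
          ((g.continuous.comp continuous_projIcc).intervalIntegrable _ _)
      map_smul' := fun c f => by
        simp only [ContinuousMap.smul_apply, smul_eq_mul, RingHom.id_apply]
        exact intervalIntegral.integral_const_mul _ _ } 1
    (fun f => by
      have := intervalIntegral.norm_integral_le_of_norm_le_const (a := (0 : ℝ)) (b := 1)
        (f := fun t => f (Set.projIcc 0 1 zero_le_one t)) (C := ‖f‖)
        (fun t _ => f.norm_coe_le_norm _)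
      simpa using this)

lemma intg_apply (f : C(Set.Icc (0 : ℝ) 1, ℝ)) :
    intg f = ∫ t in (0 : ℝ)..1, f (Set.projIcc 0 1 zero_le_one t) := rfl

lemma line {u : ℕ} (y : XX u) (i : Fin u) (s : ℝ) :
    y + s • bas u i = Function.update y i (y i + s) := by
  funext k
  by_cases h : k = i
  · subst h; simp [bas]
  · simp [bas, h]

lemma hasDeriv_line {u : ℕ} {Ψ : XX u → ℝ} (hΨ : ContDiff ℝ 1 Ψ) (y v : XX u) (s : ℝ) :
    HasDerivAt (fun s : ℝ => Ψ (y + s • v)) (fderiv ℝ Ψ (y + s • v) v) s := by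
  have h1 : HasDerivAt (fun s : ℝ => y + s • v) v s := by
    simpa using ((hasDerivAt_id s).smul_const v).const_add y
  exact (hΨ.differentiable one_ne_zero (y + s • v)).hasFDerivAt.comp_hasDerivAt s h1

lemma row_lin {W : Type*} [NormedAddCommGroup W] [NormedSpace ℝ W] {k : ℕ}
    (ξ : Fin k → W →L[ℝ] ℝ) (w : Fin k → W) (i : Fin k) :
    ∃ v : W, (∀ ζ, dt (Function.update ξ i ζ) w = ζ v) ∧ (∀ j, j ≠ i → ξ j v = 0) := by
  set A : Matrix (Fin k) (Fin k) ℝ := Matrix.of fun a j => ξ a (w j) with hA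
  have h1 : ∀ ζ : W →L[ℝ] ℝ, dt (Function.update ξ i ζ) w =
      (A.updateRow i fun j => ζ (w j)).det := by
    intro ζ
    unfold dt
    congr 1
    ext a j
    by_cases h : a = i
    · subst h; simp
    · simp [h, hA]
  have h2 : ∀ ζ : W →L[ℝ] ℝ, dt (Function.update ξ i ζ) w =
      ζ (∑ j, cramer Aᵀ (Pi.single j 1) i • w j) := by
    intro ζ
    rw [h1, ← cramer_transpose_apply, map_sum]
    have h3 : (fun j => ζ (w j)) = ∑ j, ζ (w j) • (Pi.single j 1 : Fin k → ℝ) := by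
      funext a
      simp [Finset.sum_apply, Pi.single_apply]
    rw [h3, map_sum, Finset.sum_apply]
    refine Finset.sum_congr rfl fun j _ => ?_
    rw [map_smul, map_smul]
    simp [mul_comm]
  refine ⟨_, h2, fun j hj => ?_⟩
  rw [← h2, h1]
  exact det_updateRow_eq_zero hj

lemma vol_bound {u : ℕ} {K : Set (XX u)} (hK : IsCompact K) {Nn : XX u → XX u → ℝ} {W : ℝ}
    (hW : 0 ≤ W) (hV : VolLe K Nn W) {η : XX u → Fin u → XX u →L[ℝ] ℝ} {a : Fin u → ℝ}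
    (ha : ∀ k, 0 < a k) (hη : ∀ b ∈ K, ∀ k v, |η b k v| ≤ a k * Nn b v) {f : XX u → ℝ} {R : ℝ}
    (hR : 0 ≤ R) (hf : ∀ b ∈ K, |f b| ≤ R) :
    |∫ b in K, f b * dt (η b) (bas u)| ≤ R * (∏ k, a k) * W := by
  have hp : 0 ≤ ∏ k, a k := Finset.prod_nonneg fun k _ => (ha k).le
  have h1 := hV (fun b k => (a k)⁻¹ • η b k) (fun b hb k v => by
    rw [_root_.smul_apply, smul_eq_mul, abs_mul, abs_of_pos (inv_pos.2 (ha k)),
      inv_mul_le_iff₀ (ha k)]
    exact hη b hb k v)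
  have h2 : ∀ b, dt (η b) (bas u) = (∏ k, a k) * dt (fun k => (a k)⁻¹ • η b k) (bas u) := by
    intro b
    unfold dt
    rw [← det_mul_column]
    congr 1
    ext k j
    simp [(ha k).ne']
  have h3 : ∫⁻ b in K, ENNReal.ofReal ‖f b * dt (η b) (bas u)‖ ≤
      ENNReal.ofReal (R * (∏ k, a k) * W) := by
    calc ∫⁻ b in K, ENNReal.ofReal ‖f b * dt (η b) (bas u)‖
        ≤ ∫⁻ b in K, ENNReal.ofReal (R * ∏ k, a k) *
            ENNReal.ofReal |dt (fun k => (a k)⁻¹ • η b k) (bas u)| := by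
          refine setLIntegral_mono' hK.measurableSet fun b hb => ?_
          rw [← ENNReal.ofReal_mul (mul_nonneg hR hp)]
          refine ENNReal.ofReal_le_ofReal ?_
          rw [h2 b, Real.norm_eq_abs, abs_mul, abs_mul, abs_of_nonneg hp, mul_assoc]
          exact mul_le_mul_of_nonneg_right (hf b hb) (mul_nonneg hp (abs_nonneg _))
      _ = ENNReal.ofReal (R * ∏ k, a k) *
            ∫⁻ b in K, ENNReal.ofReal |dt (fun k => (a k)⁻¹ • η b k) (bas u)| :=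
          lintegral_const_mul' _ _ ENNReal.ofReal_ne_top
      _ ≤ ENNReal.ofReal (R * ∏ k, a k) * ENNReal.ofReal W := by gcongr
      _ = _ := (ENNReal.ofReal_mul (mul_nonneg hR hp)).symm
  rw [← Real.norm_eq_abs]
  exact (norm_integral_le_lintegral_norm _).trans
    (ENNReal.toReal_le_of_le_ofReal (mul_nonneg (mul_nonneg hR hp) hW) h3)

lemma cont_dt {u : ℕ} {B : Set (XX u)} (hB : IsOpen B) {g : Fin u → XX u → ℝ}
    (h : ∀ i, ContDiffOn ℝ 1 (g i) B) :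
    ContinuousOn (fun b => dt (fun i => fderiv ℝ (g i) b) (bas u)) B :=
  continuousOn_dt (fun i => (h i).continuousOn_fderiv_of_isOpen hB le_rfl)
    fun _ => continuousOn_const

lemma fd_update {u : ℕ} (g : Fin u → XX u → ℝ) (i : Fin u) (D : XX u → ℝ) (b : XX u) :
    (fun k => fderiv ℝ (Function.update g i D k) b) =
      Function.update (fun k => fderiv ℝ (g k) b) i (fderiv ℝ D b) := by
  funext k
  by_cases h : k = i
  · subst h; simp
  · simp [h]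

lemma c1_update {u : ℕ} {B : Set (XX u)} {g : Fin u → XX u → ℝ}
    (h : ∀ i, ContDiffOn ℝ 1 (g i) B) (i : Fin u) {D : XX u → ℝ} (hD : ContDiffOn ℝ 1 D B)
    (k : Fin u) : ContDiffOn ℝ 1 (Function.update g i D k) B := by
  by_cases hk : k = i
  · subst hk; simpa using hD
  · simpa [hk] using h k

lemma core {u : ℕ} {B K : Set (XX u)} {χ : XX u → ℝ} (hc : Cut B K χ)
    {Nn : XX u → XX u → ℝ} {W μ : ℝ} (hW : 0 ≤ W) (hV : VolLe K Nn W) (hμ : 0 < μ)
    (hχ : ∀ b ∈ K, ∀ v, |fderiv ℝ χ b v| ≤ μ * Nn b v) {g : Fin u → XX u → ℝ}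
    (h1 : ∀ i, ContDiffOn ℝ 1 (g i) B) {w : Fin u → ℝ} (hw : ∀ i, 0 < w i)
    (h4 : ∀ i, ∀ b ∈ K, ∀ v, |fderiv ℝ (g i) b v| ≤ w i * Nn b v) (i : Fin u) {D : XX u → ℝ}
    (hD : ContDiffOn ℝ 1 D B) {R : ℝ} (hR : 0 ≤ R) (h3 : ∀ b ∈ K, |D b| ≤ R) :
    |∫ b in K, χ b * dt (Function.update (fun k => fderiv ℝ (g k) b) i (fderiv ℝ D b)) (bas u)| ≤
      R * (μ * ∏ k ∈ Finset.univ \ {i}, w k) * W := by
  have hχB : ContDiffOn ℝ 1 χ B := hc.c1.contDiffOn
  have hP : ContDiffOn ℝ 1 (fun b => χ b * D b) B := hχB.mul hD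
  have n0 := null_lagr (volume : Measure (XX u)) (bas u) hc.op hc.cpt hc.sub
    (c1_update h1 i hP) i (fun x _ hx => by simp [hc.zero x hx])
  have c1 := (cont_dt hc.op (c1_update h1 i hP)).mono hc.sub
  have c2 := (hD.continuousOn.fun_mul (cont_dt hc.op (c1_update h1 i hχB))).mono hc.sub
  simp only [fd_update] at n0 c1 c2
  have e1 : ∀ b ∈ K,
      χ b * dt (Function.update (fun k => fderiv ℝ (g k) b) i (fderiv ℝ D b)) (bas u) =
      dt (Function.update (fun k => fderiv ℝ (g k) b) i (fderiv ℝ (fun b => χ b * D b) b)) (bas u) -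
        D b * dt (Function.update (fun k => fderiv ℝ (g k) b) i (fderiv ℝ χ b)) (bas u) := by
    intro b hb
    obtain ⟨v, hv, -⟩ := row_lin (fun k => fderiv ℝ (g k) b) (bas u) i
    have d1 : DifferentiableAt ℝ χ b := hc.c1.differentiable one_ne_zero b
    have d2 : DifferentiableAt ℝ D b :=
      (hD.contDiffAt (hc.op.mem_nhds (hc.sub hb))).differentiableAt one_ne_zero
    rw [hv, hv, hv, fderiv_fun_mul d1 d2]
    simp
  rw [setIntegral_congr_fun hc.cpt.measurableSet e1,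
    integral_sub (c1.integrableOn_compact hc.cpt) (c2.integrableOn_compact hc.cpt), n0,
    zero_sub, abs_neg, ← Finset.prod_update_of_mem (Finset.mem_univ i)]
  refine vol_bound hc.cpt hW hV (fun k => ?_) (fun b hb k v => ?_) hR h3
  · by_cases hk : k = i
    · subst hk; simpa using hμ
    · simpa [hk] using hw k
  · by_cases hk : k = i
    · subst hk; simpa using hχ b hb v
    · simpa [hk] using h4 k b hb v

lemma chain {u : ℕ} {B : Set (XX u)} (hB : IsOpen B) {Ψ φ : XX u → ℝ} (hΨ : ContDiff ℝ 1 Ψ)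
    {i : Fin u} (hp : ∀ y, fderiv ℝ Ψ y (bas u i) = φ y) {g : Fin u → XX u → ℝ}
    (h1 : ∀ i, ContDiffOn ℝ 1 (g i) B) {b : XX u} (hb : b ∈ B) {v : XX u}
    (hv : ∀ j, j ≠ i → fderiv ℝ (g j) b v = 0) :
    fderiv ℝ (fun b => Ψ fun k => g k b) b v = φ (fun k => g k b) * fderiv ℝ (g i) b v := by
  have d1 : HasFDerivAt (fun b => fun k => g k b)
      (ContinuousLinearMap.pi fun k => fderiv ℝ (g k) b) b :=
    hasFDerivAt_pi.2 fun k =>
      (((h1 k).contDiffAt (hB.mem_nhds hb)).differentiableAt one_ne_zero).hasFDerivAt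
  have d2 := (hΨ.differentiable one_ne_zero (fun k => g k b)).hasFDerivAt.comp b d1
  have d3 : fderiv ℝ (fun b => Ψ fun k => g k b) b = _ := d2.fderiv
  have d4 : (ContinuousLinearMap.pi fun k => fderiv ℝ (g k) b) v =
      fderiv ℝ (g i) b v • bas u i := by
    funext k
    by_cases hk : k = i
    · subst hk; simp [bas]
    · simp [bas, hk, hv k hk]
  rw [d3, ContinuousLinearMap.comp_apply, d4, map_smul, hp, smul_eq_mul, mul_comm]

end XHomX

open XHomX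

theorem exists_prim {u : ℕ} {φ : XX u → ℝ} (hφ : ContDiff ℝ 1 φ) (i : Fin u) :
    ∃ Ψ : XX u → ℝ, ContDiff ℝ 1 Ψ ∧ ∀ y, fderiv ℝ Ψ y (bas u i) = φ y := by
  let η : Fin u → C(Set.Icc (0 : ℝ) 1, XX u) := fun j =>
    if j = i then ⟨fun t => (t : ℝ) • bas u j, by fun_prop⟩ else ⟨fun _ => bas u j, by fun_prop⟩
  let A : XX u → C(Set.Icc (0 : ℝ) 1, XX u) := fun y => ∑ j, y j • η j
  have hA : ContDiff ℝ 1 A :=
    ContDiff.sum fun j _ => (contDiff_apply ℝ ℝ j).smul contDiff_const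
  have hA' : ∀ y t, A y t = Function.update y i (t * y i) := by
    intro y t
    have h1 : ∀ j, η j t = (if j = i then (t : ℝ) else 1) • bas u j := by
      intro j
      by_cases h : j = i <;> simp [η, h]
    funext k
    simp only [A, ContinuousMap.coe_sum, Finset.sum_apply, ContinuousMap.smul_apply, h1,
      Pi.smul_apply, smul_eq_mul, bas, Pi.single_apply, mul_ite, mul_one, mul_zero,
      Finset.sum_ite_eq, Finset.mem_univ, if_true]
    by_cases h : k = i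
    · subst h
      simp [mul_comm]
    · simp [h]
  let f : C(XX u, ℝ) := ⟨φ, hφ.continuous⟩
  have hf : ContDiff ℝ ((1 : ℕ∞) : WithTop ℕ∞) f := hφ
  have hΨ : ContDiff ℝ 1 fun y : XX u => y i * intg (f.comp (A y)) :=
    (contDiff_apply ℝ ℝ i).mul
      (intg.contDiff.comp ((Pool.Agent.Lib.Flow.contDiff_postcomp f hf).comp hA))
  refine ⟨_, hΨ, fun y => ?_⟩
  have h1 := hasDeriv_line hΨ y (bas u i) 0
  rw [zero_smul, add_zero] at h1
  have hc : Continuous fun τ : ℝ => φ (Function.update y i τ) :=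
    hφ.continuous.comp (continuous_const.update i continuous_id)
  have h2 : (fun s : ℝ => (y + s • bas u i) i * intg (f.comp (A (y + s • bas u i)))) =
      fun s : ℝ => ∫ τ in (0 : ℝ)..(y i + s), φ (Function.update y i τ) := by
    funext s
    rw [line, intg_apply]
    have h3 := intervalIntegral.smul_integral_comp_mul_right (a := 0) (b := 1)
      (fun τ : ℝ => φ (Function.update y i τ)) (y i + s)
    rw [zero_mul, one_mul, smul_eq_mul] at h3
    rw [← h3, Function.update_self]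
    congr 1
    refine intervalIntegral.integral_congr fun t ht => ?_
    rw [Set.uIcc_of_le zero_le_one] at ht
    simp [hA', f, Set.projIcc_of_mem zero_le_one ht]
  have h4 : HasDerivAt (fun s : ℝ => ∫ τ in (0 : ℝ)..(y i + s), φ (Function.update y i τ))
      (φ y) 0 := by
    have h5 := (hc.integral_hasStrictDerivAt 0 (y i + 0)).hasDerivAt
    have h6 := h5.comp_const_add (y i) 0
    simpa using h6
  rw [h2] at h1
  exact h1.unique h4

namespace XHomX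

lemma swap {u : ℕ} {B K : Set (XX u)} {χ : XX u → ℝ} (hc : Cut B K χ)
    {Nn : XX u → XX u → ℝ} {W μ : ℝ} (hW : 0 ≤ W) (hV : VolLe K Nn W) (hμ : 0 < μ)
    (hχ : ∀ b ∈ K, ∀ v, |fderiv ℝ χ b v| ≤ μ * Nn b v) {φ : XX u → ℝ} (hφ : ContDiff ℝ 1 φ)
    (hφ' : ∀ y, |φ y| ≤ 1) {g g' : Fin u → XX u → ℝ} (h1 : ∀ i, ContDiffOn ℝ 1 (g i) B)
    (h2 : ∀ i, ContDiffOn ℝ 1 (g' i) B) {w : Fin u → ℝ} (hw : ∀ i, 0 < w i) (i : Fin u)
    (he : ∀ k, k ≠ i → g' k = g k) (h3 : ∀ b ∈ K, |g i b - g' i b| ≤ w i)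
    (h4 : ∀ i, ∀ b ∈ K, ∀ v, |fderiv ℝ (g i) b v| ≤ w i * Nn b v) :
    |Jac K χ φ g - Jac K χ φ g'| ≤ μ * (∏ i, w i) * W := by
  obtain ⟨Ψ, hΨ, hp⟩ := exists_prim hφ i
  have c1 : ∀ {g : Fin u → XX u → ℝ}, (∀ i, ContDiffOn ℝ 1 (g i) B) →
      ContDiffOn ℝ 1 (fun b => Ψ fun k => g k b) B := fun h =>
    hΨ.comp_contDiffOn (contDiffOn_pi.2 h)
  have c2 : ∀ {g : Fin u → XX u → ℝ}, (∀ i, ContDiffOn ℝ 1 (g i) B) →
      IntegrableOn (fun b => χ b * φ (fun i => g i b) *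
        dt (fun i => fderiv ℝ (g i) b) (bas u)) K := fun h =>
    (((hc.c1.continuous.continuousOn.mul
      (hφ.comp_contDiffOn (contDiffOn_pi.2 h)).continuousOn).mul
        (cont_dt hc.op h)).mono hc.sub).integrableOn_compact hc.cpt
  have hD := (c1 h1).sub (c1 h2)
  have hb : ∀ b ∈ K, |(Ψ fun k => g k b) - Ψ fun k => g' k b| ≤ w i := by
    intro b hb
    have e1 : (fun k => g k b) = (fun k => g' k b) + (g i b - g' i b) • bas u i := by
      funext k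
      by_cases hk : k = i
      · subst hk; simp [bas]
      · simp [bas, hk, he k hk]
    have e2 := convex_univ.norm_image_sub_le_of_norm_hasDerivWithin_le
      (f := fun s : ℝ => Ψ ((fun k => g' k b) + s • bas u i)) (C := 1)
      (fun s _ => (hasDeriv_line hΨ _ _ s).hasDerivWithinAt)
      (fun s _ => by rw [hp]; exact hφ' _) (Set.mem_univ 0) (Set.mem_univ (g i b - g' i b))
    simp only [zero_smul, add_zero, sub_zero, one_mul, Real.norm_eq_abs] at e2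
    rw [e1]
    exact e2.trans (h3 b hb)
  have k1 := core hc hW hV hμ hχ h1 hw h4 i hD (hw i).le hb
  have e3 : ∀ b ∈ K, χ b * φ (fun i => g i b) * dt (fun i => fderiv ℝ (g i) b) (bas u) -
      χ b * φ (fun i => g' i b) * dt (fun i => fderiv ℝ (g' i) b) (bas u) =
      χ b * dt (Function.update (fun k => fderiv ℝ (g k) b) i
        (fderiv ℝ (fun b => (Ψ fun k => g k b) - Ψ fun k => g' k b) b)) (bas u) := by
    intro b hb
    have hB := hc.sub hb
    obtain ⟨v, hv, hv0⟩ := row_lin (fun k => fderiv ℝ (g k) b) (bas u) i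
    have a1 : dt (fun i => fderiv ℝ (g i) b) (bas u) = fderiv ℝ (g i) b v := by
      rw [← hv, Function.update_eq_self i fun k => fderiv ℝ (g k) b]
    have a2 : dt (fun i => fderiv ℝ (g' i) b) (bas u) = fderiv ℝ (g' i) b v := by
      rw [← hv]
      congr 1
      funext k
      by_cases hk : k = i
      · subst hk; simp
      · simp [hk, he k hk]
    rw [hv, fderiv_fun_sub
      (((c1 h1).contDiffAt (hc.op.mem_nhds hB)).differentiableAt one_ne_zero)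
      (((c1 h2).contDiffAt (hc.op.mem_nhds hB)).differentiableAt one_ne_zero),
      _root_.sub_apply, chain hc.op hΨ hp h1 hB hv0,
      chain hc.op hΨ hp h2 hB (fun j hj => by rw [he j hj]; exact hv0 j hj), a1, a2]
    ring
  unfold Jac
  rw [← integral_sub (c2 h1) (c2 h2), setIntegral_congr_fun hc.cpt.measurableSet e3]
  refine k1.trans (le_of_eq ?_)
  rw [Finset.prod_eq_mul_prod_sdiff_singleton_of_mem (Finset.mem_univ i) w]
  ring

end XHomX

theorem homot {u : ℕ} {B K : Set (XX u)} {χ : XX u → ℝ} (hc : Cut B K χ)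
    {Nn : XX u → XX u → ℝ} {W μ : ℝ} (hW : 0 ≤ W) (hV : VolLe K Nn W) (hμ : 0 < μ)
    (hχ : ∀ b ∈ K, ∀ v, |fderiv ℝ χ b v| ≤ μ * Nn b v) {φ : XX u → ℝ} (hφ : ContDiff ℝ 1 φ)
    (hφ' : ∀ y, |φ y| ≤ 1) {g g' : Fin u → XX u → ℝ} (h1 : ∀ i, ContDiffOn ℝ 1 (g i) B)
    (h2 : ∀ i, ContDiffOn ℝ 1 (g' i) B) {w : Fin u → ℝ} (hw : ∀ i, 0 < w i)
    (h3 : ∀ i, ∀ b ∈ K, |g i b - g' i b| ≤ w i)
    (h4 : ∀ i, ∀ b ∈ K, ∀ v, |fderiv ℝ (g i) b v| ≤ w i * Nn b v)
    (h5 : ∀ i, ∀ b ∈ K, ∀ v, |fderiv ℝ (g' i) b v| ≤ w i * Nn b v) :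
    |Jac K χ φ g - Jac K χ φ g'| ≤ u * μ * (∏ i, w i) * W := by
  let h : ℕ → Fin u → XX u → ℝ := fun m k => if k.val < m then g' k else g k
  have a1 : ∀ m k, ContDiffOn ℝ 1 (h m k) B := by
    intro m k
    simp only [h]
    split_ifs
    exacts [h2 k, h1 k]
  have a2 : ∀ m k, ∀ b ∈ K, ∀ v, |fderiv ℝ (h m k) b v| ≤ w k * Nn b v := by
    intro m k
    simp only [h]
    split_ifs
    exacts [h5 k, h4 k]
  have key : ∀ m : ℕ, m ≤ u → |Jac K χ φ g - Jac K χ φ (h m)| ≤ m * μ * (∏ i, w i) * W := by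
    intro m
    induction m with
    | zero => intro _; simp [h]
    | succ m ih =>
      intro hm
      have b1 := ih (by omega)
      have b2 := XHomX.swap hc hW hV hμ hχ hφ hφ' (a1 m) (a1 (m + 1)) hw ⟨m, by omega⟩
        (fun k hk => by
          have : k.val ≠ m := fun e => hk (Fin.ext e)
          simp only [h]
          by_cases h0 : k.val < m
          · rw [if_pos h0, if_pos (by omega)]
          · rw [if_neg h0, if_neg (by omega)])
        (fun b hb => by simpa [h] using h3 _ b hb) (a2 m)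
      have b3 := abs_sub_le (Jac K χ φ g) (Jac K χ φ (h m)) (Jac K χ φ (h (m + 1)))
      push_cast
      linarith
  have e : h u = g' := by
    funext k
    simp [h]
  simpa [e] using key u le_rfl

/-- The case where one coordinate is bounded. -/
theorem homot_one {u : ℕ} {B K : Set (XX u)} {χ : XX u → ℝ} (hc : Cut B K χ)
    {Nn : XX u → XX u → ℝ} {W μ : ℝ} (hW : 0 ≤ W) (hV : VolLe K Nn W) (hμ : 0 < μ)
    (hχ : ∀ b ∈ K, ∀ v, |fderiv ℝ χ b v| ≤ μ * Nn b v) {g : Fin u → XX u → ℝ}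
    (h1 : ∀ i, ContDiffOn ℝ 1 (g i) B) {c R : ℝ} (hc' : 1 ≤ c) (hR : 0 ≤ R) (i₀ : Fin u)
    (h3 : ∀ b ∈ K, |g i₀ b| ≤ R) (h4 : ∀ i, ∀ b ∈ K, ∀ v, |fderiv ℝ (g i) b v| ≤ c * Nn b v) :
    |Jac K χ (fun _ => 1) g| ≤ R * μ * c ^ u * W := by
  have k1 := core hc hW hV hμ hχ h1 (w := fun _ => c) (fun _ => by linarith) h4 i₀ (h1 i₀) hR h3
  have e1 : ∀ b, Function.update (fun k => fderiv ℝ (g k) b) i₀ (fderiv ℝ (g i₀) b) =
      fun k => fderiv ℝ (g k) b := fun b => Function.update_eq_self i₀ _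
  simp only [e1, Finset.prod_const] at k1
  unfold Jac
  simp only [mul_one]
  refine k1.trans ?_
  have e2 : c ^ (Finset.univ \ {i₀}).card ≤ c ^ u :=
    pow_le_pow_right₀ hc' ((Finset.card_le_univ _).trans (by simp))
  rw [← mul_assoc]
  gcongr


end Pool.Agent.P.MP_5c499f_an
end

-- part Pool.Agent.P.MP_5c499f_an.XRecA
section

/-! One step estimates for the Jacobian integrals. -/

set_option autoImplicit false

namespace Pool.Agent.P.MP_5c499f_an

open Filter Topology Metric MeasureTheory Matrix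

namespace XRecAX

theorem mv_le {d : ℕ} (M : Matrix (Fin d) (Fin d) ℝ) (k : Fin d) {e c : ℝ}
    (hM : ∀ l, |M k l| ≤ e) (x : Fin d → ℝ) (hx : ∀ l, |x l| ≤ c) :
    |(M *ᵥ x) k| ≤ d * e * c := by
  have h1 : (M *ᵥ x) k = ∑ l, M k l * x l := rfl
  rw [h1]
  calc |∑ l, M k l * x l| ≤ ∑ l, |M k l * x l| := Finset.abs_sum_le_sum_abs _ _
    _ ≤ ∑ _l : Fin d, e * c := by
        refine Finset.sum_le_sum fun l _ => ?_
        rw [abs_mul]
        exact mul_le_mul (hM l) (hx l) (abs_nonneg _) ((abs_nonneg _).trans (hM l))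
    _ = d * e * c := by simp [mul_assoc]

theorem mv_le_norm {d : ℕ} (M : Matrix (Fin d) (Fin d) ℝ) (k : Fin d) {e c : ℝ}
    (hM : ∀ l, |M k l| ≤ e) (x : Fin d → ℝ) (hx : ‖x‖ ≤ c) :
    |(M *ᵥ x) k| ≤ d * e * c :=
  mv_le M k hM x fun l => by
    rw [← Real.norm_eq_abs]; exact (norm_le_pi_norm x l).trans hx

theorem mv_c1 {u d : ℕ} (M : Matrix (Fin d) (Fin d) ℝ) (k : Fin d) {B : Set (XX u)}
    {m : XX u → Fin d → ℝ} (hm : ∀ l, ContDiffOn ℝ 1 (fun b => m b l) B) :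
    ContDiffOn ℝ 1 (fun b => (M *ᵥ m b) k) B := by
  have h1 : (fun b => (M *ᵥ m b) k) = fun b => ∑ l, M k l * m b l := rfl
  rw [h1]
  exact ContDiffOn.sum fun l _ => contDiffOn_const.mul (hm l)

theorem mv_der {u d : ℕ} (M : Matrix (Fin d) (Fin d) ℝ) (k : Fin d) {B : Set (XX u)}
    (hB : IsOpen B) {m : XX u → Fin d → ℝ} (hm : ∀ l, ContDiffOn ℝ 1 (fun b => m b l) B)
    {b : XX u} (hb : b ∈ B) (v : XX u) :
    fderiv ℝ (fun b => (M *ᵥ m b) k) b v =
      (M *ᵥ fun l => fderiv ℝ (fun b => m b l) b v) k := by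
  have h1 : (fun b => (M *ᵥ m b) k) = fun b => ∑ l, M k l * m b l := rfl
  have h2 : ∀ l, HasFDerivAt (fun b => m b l) (fderiv ℝ (fun b => m b l) b) b := fun l =>
    (((hm l).contDiffAt (hB.mem_nhds hb)).differentiableAt one_ne_zero).hasFDerivAt
  have h3 : HasFDerivAt (fun b => ∑ l, M k l * m b l)
      (∑ l, M k l • fderiv ℝ (fun b => m b l) b) b :=
    HasFDerivAt.fun_sum fun l _ => (h2 l).const_mul (M k l)
  rw [h1, h3.fderiv]
  simp [Matrix.mulVec, dotProduct]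

variable {u d : ℕ} {B K : Set (XX u)} {χ : XX u → ℝ} {Nn : ℕ → XX u → XX u → ℝ}
  {L : ℤ → Matrix (Fin d) (Fin d) ℝ} {ρ : Fin d → ℝ} {j : ℕ → XX u → Fin d → ℝ}
  {G : XX u → Fin d → ℝ} {H lam C : ℝ}

theorem nn_nonneg (D : DD B K χ Nn L ρ j G H lam C) (n : ℕ) {b : XX u} (hb : b ∈ K) (v : XX u) :
    0 ≤ Nn n b v := by
  have h1 := (norm_nonneg v).trans (D.expd n b hb v)
  have h2 : 0 < C * lam ^ n := mul_pos D.C_pos (pow_pos D.lam_pos n)
  by_contra hneg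
  push Not at hneg
  have := mul_neg_of_pos_of_neg h2 hneg
  linarith

theorem chi_der (D : DD B K χ Nn L ρ j G H lam C) :
    ∃ K₁, 0 < K₁ ∧ ∀ n, ∀ b ∈ K, ∀ v, |fderiv ℝ χ b v| ≤ K₁ * lam ^ n * Nn n b v := by
  have hc : Continuous fun b => fderiv ℝ χ b := D.cut.c1.continuous_fderiv one_ne_zero
  obtain ⟨K₀, hK₀⟩ := D.cut.cpt.exists_bound_of_continuousOn hc.continuousOn
  refine ⟨max K₀ 1 * C, mul_pos (lt_of_lt_of_le one_pos (le_max_right _ _)) D.C_pos, ?_⟩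
  intro n b hb v
  have h1 : |fderiv ℝ χ b v| ≤ max K₀ 1 * ‖v‖ := by
    rw [← Real.norm_eq_abs]
    exact ((fderiv ℝ χ b).le_opNorm v).trans
      (mul_le_mul_of_nonneg_right ((hK₀ b hb).trans (le_max_left _ _)) (norm_nonneg _))
  have h2 := mul_le_mul_of_nonneg_left (D.expd n b hb v)
    (le_trans zero_le_one (le_max_right K₀ 1))
  calc |fderiv ℝ χ b v| ≤ max K₀ 1 * (C * lam ^ n * Nn n b v) := h1.trans h2
    _ = max K₀ 1 * C * lam ^ n * Nn n b v := by ring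

theorem ent_neg (wt : Wt L ρ) {θ : ℝ} (hθ : 0 < θ) :
    ∃ E, 0 < E ∧ ∀ (n : ℕ) k l, |L (-(n : ℤ)) k l| ≤ E * ((1 + θ) / ρ k) ^ n ∧
      |L (-((n + 1 : ℕ) : ℤ)) k l| ≤ E * ((1 + θ) / ρ k) ^ n := by
  obtain ⟨Cb, hCb⟩ := wt.bd θ hθ
  have h0 : ∀ (n : ℕ) k l, |L (-(n : ℤ)) k l| ≤ max Cb 1 * ((1 + θ) / ρ k) ^ n := by
    intro n k l
    have h1 := hCb (-(n : ℤ)) k l
    have h2 : (-(n : ℤ)).natAbs = n := by simp
    rw [h2, _root_.zpow_neg, _root_.zpow_natCast] at h1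
    have hρ := wt.pos k
    calc |L (-(n : ℤ)) k l| ≤ Cb * (ρ k ^ n)⁻¹ * (1 + θ) ^ n := h1
      _ = Cb * ((1 + θ) / ρ k) ^ n := by rw [div_pow]; ring
      _ ≤ max Cb 1 * ((1 + θ) / ρ k) ^ n :=
        mul_le_mul_of_nonneg_right (le_max_left _ _) (by positivity)
  have hS : 0 ≤ ∑ k, (1 + θ) / ρ k :=
    Finset.sum_nonneg fun k _ => by have := wt.pos k; positivity
  have hm : 0 < max Cb 1 := lt_of_lt_of_le one_pos (le_max_right _ _)
  refine ⟨max Cb 1 * (1 + ∑ k, (1 + θ) / ρ k), by positivity, fun n k l => ⟨?_, ?_⟩⟩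
  · refine (h0 n k l).trans (mul_le_mul_of_nonneg_right ?_ ?_)
    · nlinarith
    · have := wt.pos k; positivity
  · refine (h0 (n + 1) k l).trans ?_
    have hρ := wt.pos k
    have h1 : (1 + θ) / ρ k ≤ 1 + ∑ k, (1 + θ) / ρ k := by
      have := Finset.single_le_sum (f := fun k => (1 + θ) / ρ k)
        (fun k _ => by have := wt.pos k; positivity) (Finset.mem_univ k)
      linarith
    calc max Cb 1 * ((1 + θ) / ρ k) ^ (n + 1)
        = max Cb 1 * ((1 + θ) / ρ k) * ((1 + θ) / ρ k) ^ n := by ring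
      _ ≤ max Cb 1 * (1 + ∑ k, (1 + θ) / ρ k) * ((1 + θ) / ρ k) ^ n :=
        mul_le_mul_of_nonneg_right (mul_le_mul_of_nonneg_left h1 hm.le) (by positivity)

theorem geo {θ : ℝ} (hθ : 0 < θ) (n : ℕ) :
    ∑ m ∈ Finset.range n, (1 + θ) ^ m ≤ θ⁻¹ * (1 + θ) ^ n := by
  induction n with
  | zero => simp; positivity
  | succ n ih =>
    rw [Finset.sum_range_succ]
    have h : θ⁻¹ * (1 + θ) ^ (n + 1) = θ⁻¹ * (1 + θ) ^ n + (1 + θ) ^ n := by
      field_simp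
      ring
    rw [h]; linarith

theorem slow_bd (D : DD B K χ Nn L ρ j G H lam C) {θ : ℝ} (hθ : 0 < θ) :
    ∃ R, 0 < R ∧ ∀ (n : ℕ) k, ρ k ≤ 1 → ∀ b ∈ K, |j n b k| ≤ R * (1 + θ) ^ n := by
  obtain ⟨Cb, hCb⟩ := D.wt.bd θ hθ
  have hm : 0 < max Cb 1 := lt_of_lt_of_le one_pos (le_max_right _ _)
  have h0 : ∀ (n : ℕ) k l, ρ k ≤ 1 → |L (n : ℤ) k l| ≤ max Cb 1 * (1 + θ) ^ n := by
    intro n k l hk
    have h1 := hCb (n : ℤ) k l
    have h2 : (n : ℤ).natAbs = n := by simp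
    rw [h2, _root_.zpow_natCast] at h1
    have hρ := D.wt.pos k
    have h3 : ρ k ^ n ≤ 1 := pow_le_one₀ hρ.le hk
    have h4 : Cb * ρ k ^ n ≤ max Cb 1 :=
      calc Cb * ρ k ^ n ≤ max Cb 1 * ρ k ^ n :=
            mul_le_mul_of_nonneg_right (le_max_left _ _) (by positivity)
        _ ≤ max Cb 1 * 1 := mul_le_mul_of_nonneg_left h3 hm.le
        _ = max Cb 1 := mul_one _
    exact h1.trans (mul_le_mul_of_nonneg_right h4 (by positivity))
  have hc : ContinuousOn (fun b => j 0 b) K :=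
    continuousOn_pi.2 fun k => (D.c1 0 k).continuousOn.mono D.cut.sub
  obtain ⟨K₀, hK₀⟩ := D.cut.cpt.exists_bound_of_continuousOn hc
  have hC := D.C_pos
  have hK : 0 < max K₀ 1 := lt_of_lt_of_le one_pos (le_max_right _ _)
  refine ⟨d * max Cb 1 * max K₀ 1 + d * max Cb 1 * C * θ⁻¹ + 1, by positivity, ?_⟩
  intro n k hk b hb
  set s : ℕ → ℝ := fun i => (L ((n : ℤ) - i) *ᵥ j i b) k with hs
  have htel := Finset.sum_range_sub s n
  have hsn : s n = j n b k := by simp [hs, D.wt.zero]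
  have hs0 : |s 0| ≤ d * (max Cb 1 * (1 + θ) ^ n) * max K₀ 1 := by
    have : s 0 = (L (n : ℤ) *ᵥ j 0 b) k := by simp [hs]
    rw [this]
    exact mv_le_norm _ k (fun l => h0 n k l hk) _ ((hK₀ b hb).trans (le_max_left _ _))
  have hstep : ∀ i ∈ Finset.range n,
      |s (i + 1) - s i| ≤ d * max Cb 1 * C * (1 + θ) ^ (n - 1 - i) := by
    intro i hi
    rw [Finset.mem_range] at hi
    have e1 : (n : ℤ) - ((i + 1 : ℕ) : ℤ) = ((n - 1 - i : ℕ) : ℤ) := by omega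
    have e2 : (n : ℤ) - (i : ℤ) = ((n - 1 - i : ℕ) : ℤ) + 1 := by omega
    have e3 : s (i + 1) - s i =
        (L ((n - 1 - i : ℕ) : ℤ) *ᵥ (j (i + 1) b - L 1 *ᵥ j i b)) k := by
      simp only [hs]
      rw [e1, e2, D.wt.add, Matrix.mulVec_sub, Matrix.mulVec_mulVec]
      rfl
    rw [e3]
    calc _ ≤ d * (max Cb 1 * (1 + θ) ^ (n - 1 - i)) * C :=
          mv_le_norm _ k (fun l => h0 _ k l hk) _ (D.step i b hb)
      _ = _ := by ring
  have hsum : |∑ i ∈ Finset.range n, (s (i + 1) - s i)| ≤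
      d * max Cb 1 * C * (θ⁻¹ * (1 + θ) ^ n) :=
    calc _ ≤ ∑ i ∈ Finset.range n, |s (i + 1) - s i| := Finset.abs_sum_le_sum_abs _ _
      _ ≤ ∑ i ∈ Finset.range n, d * max Cb 1 * C * (1 + θ) ^ (n - 1 - i) :=
          Finset.sum_le_sum hstep
      _ = d * max Cb 1 * C * ∑ i ∈ Finset.range n, (1 + θ) ^ i := by
          rw [← Finset.mul_sum, Finset.sum_range_reflect (fun m => (1 + θ) ^ m) n]
      _ ≤ _ := mul_le_mul_of_nonneg_left (geo hθ n) (by positivity)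
  have e4 : j n b k = s 0 + ∑ i ∈ Finset.range n, (s (i + 1) - s i) := by
    rw [htel, hsn]; ring
  have hp : 0 < (1 + θ) ^ n := by positivity
  rw [e4]
  calc _ ≤ |s 0| + |∑ i ∈ Finset.range n, (s (i + 1) - s i)| := abs_add_le _ _
    _ ≤ d * (max Cb 1 * (1 + θ) ^ n) * max K₀ 1 + d * max Cb 1 * C * (θ⁻¹ * (1 + θ) ^ n) :=
        add_le_add hs0 hsum
    _ ≤ _ := by nlinarith

end XRecAX

open XRecAX

variable {u d : ℕ} {B K : Set (XX u)} {χ : XX u → ℝ} {Nn : ℕ → XX u → XX u → ℝ}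
  {L : ℤ → Matrix (Fin d) (Fin d) ℝ} {ρ : Fin d → ℝ} {j : ℕ → XX u → Fin d → ℝ}
  {G : XX u → Fin d → ℝ} {H lam C : ℝ}

theorem DD.inc (D : DD B K χ Nn L ρ j G H lam C) {θ : ℝ} (hθ : 0 < θ) :
    ∃ C', 0 < C' ∧ ∀ (n : ℕ) (I : Fin u → Fin d) (φ : XX u → ℝ), ContDiff ℝ 1 φ →
      (∀ y, |φ y| ≤ 1) →
      |Jac K χ φ (fun i b => (L (-((n + 1 : ℕ) : ℤ)) *ᵥ j (n + 1) b) (I i)) -
        Jac K χ φ fun i b => (L (-(n : ℤ)) *ᵥ j n b) (I i)| ≤
        C' * (lam * H * (1 + θ) ^ u / ∏ i, ρ (I i)) ^ n := by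
  obtain ⟨K₁, hK₁, hχ⟩ := chi_der D
  obtain ⟨E, hE, hL⟩ := ent_neg D.wt hθ
  have hC := D.C_pos
  have hH := D.H_pos
  have hl := D.lam_pos
  refine ⟨u * K₁ * (d * E * C + 1) ^ u * C + 1, by positivity, ?_⟩
  intro n I φ hφ hφ'
  have ht : ∀ k, 0 < ((1 + θ) / ρ k) ^ n := fun k => by have := D.wt.pos k; positivity
  have key := homot D.cut (W := C * H ^ n) (μ := K₁ * lam ^ n) (by positivity) (D.vol n)
    (by positivity) (hχ n) hφ hφ'
    (g := fun i b => (L (-((n + 1 : ℕ) : ℤ)) *ᵥ j (n + 1) b) (I i))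
    (g' := fun i b => (L (-(n : ℤ)) *ᵥ j n b) (I i))
    (fun i => mv_c1 _ _ (D.c1 (n + 1))) (fun i => mv_c1 _ _ (D.c1 n))
    (w := fun i => (d * E * C + 1) * ((1 + θ) / ρ (I i)) ^ n)
    (fun i => mul_pos (by positivity) (ht _)) ?_ ?_ ?_
  · refine key.trans ?_
    have hP : 0 < ∏ i, ρ (I i) := Finset.prod_pos fun i _ => D.wt.pos _
    have e1 : ∏ i, (d * E * C + 1) * ((1 + θ) / ρ (I i)) ^ n =
        (d * E * C + 1) ^ u * ((1 + θ) ^ u / ∏ i, ρ (I i)) ^ n := by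
      rw [Finset.prod_mul_distrib, Finset.prod_pow, Finset.prod_div_distrib]
      simp
    rw [e1]
    have e2 : (lam * H * (1 + θ) ^ u / ∏ i, ρ (I i)) ^ n =
        lam ^ n * H ^ n * ((1 + θ) ^ u / ∏ i, ρ (I i)) ^ n := by
      rw [← mul_pow, ← mul_pow, mul_div_assoc]
    rw [e2]
    have hq : 0 ≤ lam ^ n * H ^ n * ((1 + θ) ^ u / ∏ i, ρ (I i)) ^ n := by positivity
    calc _ = u * K₁ * (d * E * C + 1) ^ u * C *
          (lam ^ n * H ^ n * ((1 + θ) ^ u / ∏ i, ρ (I i)) ^ n) := by ring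
      _ ≤ _ := mul_le_mul_of_nonneg_right (by linarith) hq
  · intro i b hb
    have e2 : (-(n : ℤ)) = -((n + 1 : ℕ) : ℤ) + 1 := by push_cast; ring
    have e3 : (L (-((n + 1 : ℕ) : ℤ)) *ᵥ j (n + 1) b) (I i) - (L (-(n : ℤ)) *ᵥ j n b) (I i) =
        (L (-((n + 1 : ℕ) : ℤ)) *ᵥ (j (n + 1) b - L 1 *ᵥ j n b)) (I i) := by
      rw [e2, D.wt.add, Matrix.mulVec_sub, Matrix.mulVec_mulVec]
      rfl
    have h1 := mv_le_norm _ (I i) (fun l => (hL n (I i) l).2) _ (D.step n b hb)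
    have := ht (I i)
    rw [e3]
    nlinarith
  · intro i b hb v
    have h1 := mv_le _ (I i) (fun l => (hL n (I i) l).2) _ fun l => D.der' n l b hb v
    have h2 := mul_nonneg (ht (I i)).le (nn_nonneg D n hb v)
    rw [mv_der _ _ D.cut.op (D.c1 (n + 1)) (D.cut.sub hb)]
    nlinarith
  · intro i b hb v
    have h1 := mv_le _ (I i) (fun l => (hL n (I i) l).1) _ fun l => D.der n l b hb v
    have h2 := mul_nonneg (ht (I i)).le (nn_nonneg D n hb v)
    rw [mv_der _ _ D.cut.op (D.c1 n) (D.cut.sub hb)]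
    nlinarith

theorem DD.slow (D : DD B K χ Nn L ρ j G H lam C) {θ : ℝ} (hθ : 0 < θ) :
    ∃ C', 0 < C' ∧ ∀ (n : ℕ) (I : Fin u → Fin d) (i₀ : Fin u), ρ (I i₀) ≤ 1 →
      |Jac K χ (fun _ => 1) fun i b => j n b (I i)| ≤ C' * (lam * H * (1 + θ)) ^ n := by
  obtain ⟨K₁, hK₁, hχ⟩ := chi_der D
  obtain ⟨R, hR, hj⟩ := slow_bd D hθ
  have hC := D.C_pos
  have hH := D.H_pos
  have hl := D.lam_pos
  have hm : 0 < max C 1 := lt_of_lt_of_le one_pos (le_max_right _ _)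
  refine ⟨R * K₁ * max C 1 ^ u * C, by positivity, ?_⟩
  intro n I i₀ hi
  have key := homot_one D.cut (W := C * H ^ n) (μ := K₁ * lam ^ n) (by positivity) (D.vol n)
    (by positivity) (hχ n) (g := fun i b => j n b (I i)) (fun i => D.c1 n (I i))
    (c := max C 1) (R := R * (1 + θ) ^ n) (le_max_right _ _) (by positivity) i₀
    (hj n (I i₀) hi) fun i b hb v => (D.der n (I i) b hb v).trans
      (mul_le_mul_of_nonneg_right (le_max_left _ _) (nn_nonneg D n hb v))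
  refine key.trans (le_of_eq ?_)
  rw [mul_pow, mul_pow]
  ring


end Pool.Agent.P.MP_5c499f_an
end
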