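import Pool.Agent.K.MP_5c499f_an.C0
import Pool.Agent.K.MP_5c499f_an.C3

-- part Pool.Agent.P.MP_5c499f_an.XZero
section

/-! Null sets do not carry Jacobian mass. -/

set_option autoImplicit false

namespace Pool.Agent.P.MP_5c499f_an

open Filter Topology Metric MeasureTheory Matrix
open scoped Manifold

namespace XZeroX

variable {u : ℕ}

theorem pre_null {B Z : Set (XX u)} (hB : IsOpen B) {M : XX u → XX u} (hM : ContDiffOn ℝ 1 M B)
    (h0 : volume Z = 0) : volume {b | b ∈ B ∧ (fderiv ℝ M b).det ≠ 0 ∧ M b ∈ Z} = 0 := by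
  refine measure_null_of_locally_null _ ?_
  rintro x ⟨hx, hd, -⟩
  have h1 : ContDiffAt ℝ 1 M x := hM.contDiffAt (hB.mem_nhds hx)
  have h2 : HasFDerivAt M (((fderiv ℝ M x).toContinuousLinearEquivOfDetNeZero hd :
      XX u ≃L[ℝ] XX u) : XX u →L[ℝ] XX u) x := by
    rw [ContinuousLinearMap.coe_toContinuousLinearEquivOfDetNeZero]
    exact (h1.differentiableAt one_ne_zero).hasFDerivAt
  have h3 := (h1.to_localInverse h2 one_ne_zero).eventually (by simp)
  have h4 := (h1.hasStrictFDerivAt' h2 one_ne_zero).eventually_left_inverse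
  set g := h1.localInverse h2 one_ne_zero
  have h5 := h1.continuousAt.eventually h3
  refine ⟨_, inter_mem_nhdsWithin _ (h4.and h5), measure_mono_null (t := g '' (Z ∩
    {y | ContDiffAt ℝ 1 g y})) ?_ ?_⟩
  · rintro b ⟨⟨-, -, hz⟩, e1, e2⟩
    exact ⟨M b, ⟨hz, e2⟩, e1⟩
  · exact addHaar_image_eq_zero_of_differentiableOn_of_addHaar_eq_zero _
      (fun y hy => (ContDiffAt.differentiableAt (n := 1) (show ContDiffAt ℝ 1 g y from hy.2)
        one_ne_zero).differentiableWithinAt)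
      (measure_mono_null Set.inter_subset_left h0)

theorem cont_dt {B : Set (XX u)} (hB : IsOpen B) {m : Fin u → XX u → ℝ}
    (hm : ∀ i, ContDiffOn ℝ 1 (m i) B) :
    ContinuousOn (fun b => dt (fun i => fderiv ℝ (m i) b) (bas u)) B :=
  continuousOn_dt (fun i => (hm i).continuousOn_fderiv_of_isOpen hB le_rfl)
    fun _ => continuousOn_const

theorem exists_bump {Z : Set (XX u)} {δ : ℝ} (hδ : 0 < δ) :
    ∃ φ : XX u → ℝ, ContDiff ℝ 1 φ ∧ (∀ y, |φ y| ≤ 1) ∧ (∀ y ∈ thickening δ Z, φ y = 1) ∧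
      ∀ y, y ∉ thickening (2 * δ) Z → φ y = 0 := by
  obtain ⟨f, f0, f1, f2⟩ := exists_contMDiffMap_zero_one_of_isClosed (n := 1) 𝓘(ℝ, XX u)
    (s := (thickening (2 * δ) Z)ᶜ) (t := cthickening δ Z) isOpen_thickening.isClosed_compl
    isClosed_cthickening (Set.disjoint_compl_left_iff_subset.2
      (cthickening_subset_thickening' (by positivity) (by linarith) Z))
  refine ⟨f, contMDiff_iff_contDiff.1 f.contMDiff, fun y => ?_,
    fun y hy => f1 (thickening_subset_cthickening _ _ hy), fun y hy => f0 hy⟩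
  rw [abs_of_nonneg (f2 y).1]
  exact (f2 y).2

theorem dt_lin {d : ℕ} (l : Fin u → Fin d → ℝ) (ξ : Fin d → XX u →L[ℝ] ℝ) :
    dt (fun i => ∑ k, l i k • ξ k) (bas u) =
      ∑ I : Fin u → Fin d, (∏ i, l i (I i)) * dt (fun i => ξ (I i)) (bas u) := by
  have h := (Matrix.detRowAlternating (n := Fin u) (R := ℝ)).toMultilinearMap.map_sum
    (fun i k => l i k • fun j => ξ k (bas u j))
  have e : (Matrix.of fun i j => (∑ k, l i k • ξ k) (bas u j)) =
      fun i => ∑ k, l i k • fun j => ξ k (bas u j) := by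
    ext i j
    simp [Finset.sum_apply]
  unfold dt
  rw [e]
  refine h.trans (Finset.sum_congr rfl fun I _ => ?_)
  rw [MultilinearMap.map_smul_univ]
  rfl

end XZeroX

open XZeroX

theorem exists_cut_null {u : ℕ} {B K : Set (XX u)} {χ : XX u → ℝ} (hc : Cut B K χ)
    {m : Fin u → XX u → ℝ} (hm : ∀ i, ContDiffOn ℝ 1 (m i) B) {Z : Set (XX u)} (hZ : IsCompact Z)
    (h0 : volume Z = 0) {η : ℝ} (hη : 0 < η) :
    ∃ (φ : XX u → ℝ) (δ : ℝ), ContDiff ℝ 1 φ ∧ (∀ y, |φ y| ≤ 1) ∧ 0 < δ ∧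
      (∀ y ∈ thickening δ Z, φ y = 1) ∧ |Jac K χ φ m| ≤ η := by
  have hp : ∀ n : ℕ, (0 : ℝ) < 1 / (n + 1) := fun n => by positivity
  choose φ p1 p2 p3 p4 using fun n => exists_bump (Z := Z) (hp n)
  have hM : ContDiffOn ℝ 1 (fun b i => m i b) B := contDiffOn_pi.2 hm
  have hK := hc.cpt.measurableSet
  have hD := (cont_dt hc.op hm).mono hc.sub
  have hχ : ContinuousOn χ K := hc.c1.continuous.continuousOn
  have hN := pre_null hc.op hM h0
  have key : Tendsto (fun n => Jac K χ (φ n) m) atTop (𝓝 (∫ _ in K, (0 : ℝ))) := by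
    refine tendsto_integral_of_dominated_convergence
      (fun b => |χ b * dt (fun i => fderiv ℝ (m i) b) (bas u)|) (fun n => ?_) ?_
      (fun n => Eventually.of_forall fun b => ?_) ?_
    · exact ((hχ.mul ((p1 n).continuous.comp_continuousOn (hM.continuousOn.mono hc.sub))).mul
        hD).aestronglyMeasurable hK
    · exact (hχ.mul hD).abs.integrableOn_compact hc.cpt
    · rw [Real.norm_eq_abs, mul_right_comm, abs_mul]
      exact mul_le_of_le_one_right (abs_nonneg _) (p2 _ _)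
    · filter_upwards [ae_restrict_mem hK, ae_restrict_of_ae (measure_eq_zero_iff_ae_notMem.1 hN)]
        with b hb hb'
      by_cases hd : dt (fun i => fderiv ℝ (m i) b) (bas u) = 0
      · simp [hd]
      have hB := hc.op.mem_nhds (hc.sub hb)
      have hz : (fun i => m i b) ∉ Z := fun hz => hb' ⟨hc.sub hb, by
        rw [det_eq_dt, fderiv_pi fun i => ((hm i).contDiffAt hB).differentiableAt one_ne_zero]
        exact hd, hz⟩
      obtain ⟨r, hr, hr'⟩ := Metric.isOpen_iff.1 hZ.isClosed.isOpen_compl _ hz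
      refine tendsto_const_nhds.congr' ?_
      filter_upwards [(tendsto_one_div_add_atTop_nhds_zero_nat (𝕜 := ℝ)).eventually
        (gt_mem_nhds (half_pos hr))] with n hn
      rw [p4 n, mul_zero, zero_mul]
      intro h
      obtain ⟨z, hz1, hz2⟩ := mem_thickening_iff.1 h
      exact hr' (mem_ball'.2 (by linarith)) hz1
  rw [integral_zero] at key
  obtain ⟨n, hn⟩ := (key.abs.eventually (gt_mem_nhds (by simpa using hη))).exists
  exact ⟨φ n, _, p1 n, p2 n, hp n, p3 n, hn.le⟩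

theorem Thin.null {u d : ℕ} {K : Set (XX u)} {L : ℤ → Matrix (Fin d) (Fin d) ℝ} {ρ : Fin d → ℝ}
    {G : XX u → Fin d → ℝ} {H : ℝ} (th : Thin K L G H) (wt : Wt L ρ) (hH : 0 < H) :
    ∃ q, 0 < q ∧ q < 1 ∧ ∀ I : Fin u → Fin d, q * H ≤ ∏ i, ρ (I i) →
      volume ((fun b i => G b (I i)) '' K : Set (XX u)) = 0 := by
  obtain ⟨q, C, l, q0, q1, l0, th⟩ := th
  obtain ⟨θ, θ1, θ0⟩ : ∃ θ : ℝ, q * (1 + θ) ^ u < (q + 1) / 2 ∧ 0 < θ := by
    have h : ContinuousAt (fun θ : ℝ => q * (1 + θ) ^ u) 0 := by fun_prop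
    have h1 := h.eventually (gt_mem_nhds (show q * (1 + 0) ^ u < (q + 1) / 2 by simp; linarith))
    exact ((h1.filter_mono nhdsWithin_le_nhds).and self_mem_nhdsWithin (f := 𝓝[>] 0)).exists
  obtain ⟨D, hD⟩ := wt.bd θ θ0
  refine ⟨(q + 1) / 2, by linarith, by linarith, fun I hI => ?_⟩
  set s := q * (1 + θ) ^ u / ((q + 1) / 2) with hs
  have s0 : 0 ≤ s := by positivity
  have s1 : s < 1 := (div_lt_one (by linarith)).2 θ1
  set A := |C| * (2 * (d * |D| * |C|)) ^ u with hA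
  have lim : Tendsto (fun t : ℕ => ENNReal.ofReal (A * (s ^ l) ^ t)) atTop
      (𝓝 (ENNReal.ofReal (A * 0))) := ENNReal.tendsto_ofReal
    ((tendsto_pow_atTop_nhds_zero_of_lt_one (by positivity)
      (pow_lt_one₀ s0 s1 l0.ne')).const_mul A)
  rw [mul_zero, ENNReal.ofReal_zero] at lim
  refine nonpos_iff_eq_zero.1 (ge_of_tendsto' lim fun t => ?_)
  obtain ⟨E, e1, e2⟩ := th t
  set n := t * l with hn
  have hρ := wt.pos
  let R : Fin u → ℝ := fun i => d * |D| * |C| * ((1 + θ) / ρ (I i)) ^ n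
  have R0 : ∀ i, 0 ≤ R i := fun i => by
    have := hρ (I i)
    positivity
  have cov : ((fun b i => G b (I i)) '' K : Set (XX u)) ⊆
      ⋃ z ∈ E, Set.Icc (fun i => z (I i) - R i) fun i => z (I i) + R i := by
    rintro _ ⟨b, hb, rfl⟩
    obtain ⟨z, hz, w, hw, e⟩ := e2 b hb
    have key : ∀ i, |G b (I i) - z (I i)| ≤ R i := by
      intro i
      have := hρ (I i)
      rw [e, Pi.add_apply, add_sub_cancel_left, mulVec, dotProduct]
      refine (Finset.abs_sum_le_sum_abs _ _).trans ((Finset.sum_le_card_nsmul _ _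
        (|D| * |C| * ((1 + θ) / ρ (I i)) ^ n) fun j _ => ?_).trans_eq (by simp [R, mul_assoc]))
      have h1 := hD (-(n : ℤ)) (I i) j
      rw [Int.natAbs_neg, Int.natAbs_natCast, _root_.zpow_neg, zpow_natCast] at h1
      have h2 : |w j| ≤ |C| := ((norm_le_pi_norm w j).trans hw).trans (le_abs_self C)
      rw [abs_mul, div_pow, mul_right_comm]
      refine mul_le_mul (h1.trans ?_) h2 (abs_nonneg _) (by positivity)
      rw [mul_assoc, inv_mul_eq_div]
      exact mul_le_mul_of_nonneg_right (le_abs_self D) (by positivity)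
    exact Set.mem_biUnion hz ⟨fun i => by linarith [(abs_le.1 (key i)).1],
      fun i => by linarith [(abs_le.1 (key i)).2]⟩
  refine (measure_mono cov).trans ((measure_biUnion_finset_le _ _).trans ?_)
  have e3 : ∀ z ∈ E, volume (Set.Icc (fun i => z (I i) - R i) fun i => z (I i) + R i) =
      ENNReal.ofReal (∏ i, 2 * R i) := by
    intro z _
    rw [Real.volume_Icc_pi, ENNReal.ofReal_prod_of_nonneg fun i _ => by linarith [R0 i]]
    exact Finset.prod_congr rfl fun i _ => congrArg _ (by ring)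
  rw [Finset.sum_congr rfl e3, Finset.sum_const, nsmul_eq_mul, ← ENNReal.ofReal_natCast,
    ← ENNReal.ofReal_mul (Nat.cast_nonneg _)]
  refine ENNReal.ofReal_le_ofReal ?_
  have e4 : ∏ i, 2 * R i =
      (2 * (d * |D| * |C|)) ^ u * ((1 + θ) ^ u / ∏ i, ρ (I i)) ^ n := by
    simp only [R, ← mul_assoc]
    rw [Finset.prod_mul_distrib, Finset.prod_pow, Finset.prod_div_distrib]
    simp
  have e5 : (1 + θ) ^ u / ∏ i, ρ (I i) ≤ (1 + θ) ^ u / ((q + 1) / 2 * H) :=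
    div_le_div_of_nonneg_left (by positivity) (by positivity) hI
  have e6 : q * H * ((1 + θ) ^ u / ((q + 1) / 2 * H)) = s := by
    rw [hs]
    field_simp
  have e7 : 0 < ∏ i, ρ (I i) := Finset.prod_pos fun i _ => hρ _
  rw [e4, ← pow_mul, mul_comm l t, ← hn, ← e6, mul_pow (q * H), hA]
  calc _ ≤ |C| * (q * H) ^ n * ((2 * (d * |D| * |C|)) ^ u *
        ((1 + θ) ^ u / ((q + 1) / 2 * H)) ^ n) := by
        refine mul_le_mul (e1.trans ?_) ?_ (by positivity) (by positivity)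
        · exact mul_le_mul_of_nonneg_right (le_abs_self C) (by positivity)
        · gcongr
    _ = _ := by ring

/-- Multilinearity. -/
theorem jac_lin {u d : ℕ} {B K : Set (XX u)} {χ : XX u → ℝ} (hc : Cut B K χ)
    {m : XX u → Fin d → ℝ}
    (hm : ∀ k, ContDiffOn ℝ 1 (fun b => m b k) B) (l : Fin u → Fin d → ℝ) :
    Jac K χ (fun _ => 1) (fun i b => l i ⬝ᵥ m b) =
      ∑ I : Fin u → Fin d, (∏ i, l i (I i)) * Jac K χ (fun _ => 1) fun i b => m b (I i) := by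
  have hχ : ContinuousOn χ K := hc.c1.continuous.continuousOn
  simp only [Jac, ← integral_const_mul]
  rw [← integral_finsetSum]
  · refine setIntegral_congr_fun hc.cpt.measurableSet fun b hb => ?_
    have hB := hc.op.mem_nhds (hc.sub hb)
    have e : (fun i => fderiv ℝ (fun b => l i ⬝ᵥ m b) b) =
        fun i => ∑ k, l i k • fderiv ℝ (fun b => m b k) b := by
      funext i
      refine HasFDerivAt.fderiv ?_
      simp only [dotProduct]
      exact HasFDerivAt.fun_sum fun k _ =>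
        (((hm k).contDiffAt hB).differentiableAt one_ne_zero).hasFDerivAt.const_mul _
    simp only [e, dt_lin, Finset.mul_sum]
    exact Finset.sum_congr rfl fun I _ => by ring
  · intro I _
    exact (continuousOn_const.mul ((hχ.mul continuousOn_const).mul
      ((cont_dt hc.op fun i => hm (I i)).mono hc.sub))).integrableOn_compact hc.cpt

end Pool.Agent.P.MP_5c499f_an
end

-- part Pool.Agent.P.MP_5c499f_an.XRec
section

/-! Growth of the Jacobian integrals. -/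

set_option autoImplicit false

namespace Pool.Agent.P.MP_5c499f_an

open Filter Topology Metric MeasureTheory Matrix

variable {u d : ℕ} {B K : Set (XX u)} {χ : XX u → ℝ} {Nn : ℕ → XX u → XX u → ℝ}
  {L : ℤ → Matrix (Fin d) (Fin d) ℝ} {ρ : Fin d → ℝ} {j : ℕ → XX u → Fin d → ℝ}
  {G : XX u → Fin d → ℝ} {H lam C : ℝ}

namespace XRecX

theorem exists_theta {μ : ℝ} (h : μ < 1) (m : ℕ) : ∃ θ : ℝ, 0 < θ ∧ μ * (1 + θ) ^ m < 1 := by
  have hc : ContinuousAt (fun θ : ℝ => μ * (1 + θ) ^ m) 0 := by fun_prop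
  have h1 : ∀ᶠ θ in 𝓝 (0 : ℝ), μ * (1 + θ) ^ m < 1 :=
    hc.eventually_lt continuousAt_const (by simpa using h)
  obtain ⟨θ, h2, h3⟩ := ((h1.filter_mono nhdsWithin_le_nhds).and
    (self_mem_nhdsWithin (a := (0 : ℝ)) (s := Set.Ioi 0))).exists
  exact ⟨θ, h3, h2⟩

theorem up {x : ℕ → ℝ} {c R : ℝ} (hc : 0 ≤ c) (hR : 1 < R)
    (h : ∀ n, |x (n + 1) - x n| ≤ c * R ^ n) : ∃ C', 0 ≤ C' ∧ ∀ n, |x n| ≤ C' * R ^ n := by
  have h1 : 0 < R - 1 := sub_pos.2 hR
  refine ⟨|x 0| + c / (R - 1), by positivity, fun n => ?_⟩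
  induction n with
  | zero =>
    have : 0 ≤ c / (R - 1) := by positivity
    simpa using this
  | succ n ih =>
    have h2 : |x (n + 1)| ≤ |x n| + |x (n + 1) - x n| := by
      have := abs_add_le (x n) (x (n + 1) - x n)
      rwa [add_sub_cancel] at this
    have h3 : 0 ≤ R ^ n := by positivity
    have h4 : c / (R - 1) * (R - 1) = c := div_mul_cancel₀ _ h1.ne'
    have h5 : 0 ≤ |x 0| * (R - 1) * R ^ n := by positivity
    calc _ ≤ (|x 0| + c / (R - 1)) * R ^ n + c * R ^ n := h2.trans (add_le_add ih (h n))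
      _ = (|x 0| + c / (R - 1)) * R ^ n + c / (R - 1) * (R - 1) * R ^ n := by rw [h4]
      _ ≤ _ := by rw [pow_succ]; nlinarith

theorem tail {x : ℕ → ℝ} {c r : ℝ} (hc : 0 ≤ c) (h0 : 0 ≤ r) (hr : r < 1)
    (h : ∀ n, |x (n + 1) - x n| ≤ c * r ^ n) {n N : ℕ} (hN : n ≤ N) :
    |x N - x n| ≤ c / (1 - r) * r ^ n := by
  have h1 : 0 < 1 - r := sub_pos.2 hr
  have key : |x N - x n| ≤ c / (1 - r) * r ^ n - c / (1 - r) * r ^ N := by
    induction N, hN using Nat.le_induction with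
    | base => simp
    | succ N _ ih =>
      have h2 := abs_sub_le (x (N + 1)) (x N) (x n)
      have h4 : c / (1 - r) * (1 - r) = c := div_mul_cancel₀ _ h1.ne'
      have h5 : c / (1 - r) * r ^ (N + 1) = c / (1 - r) * r ^ N - c * r ^ N := by
        rw [pow_succ]
        linear_combination (-r ^ N) * h4
      linarith [h N]
  have : 0 ≤ c / (1 - r) * r ^ N := by positivity
  linarith

theorem c1 (D : DD B K χ Nn L ρ j G H lam C) (A : Matrix (Fin d) (Fin d) ℝ) (n : ℕ) (k : Fin d) :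
    ContDiffOn ℝ 1 (fun b => (A *ᵥ j n b) k) B := by
  simp only [mulVec, dotProduct]
  exact ContDiffOn.sum fun l _ => contDiffOn_const.mul (D.c1 n l)

theorem small (D : DD B K χ Nn L ρ j G H lam C) {I : Fin u → Fin d} (hI : ∀ i, 1 < ρ (I i))
    (null : volume ((fun b i => G b (I i)) '' K : Set (XX u)) = 0) (n : ℕ) {t : ℝ}
    (ht : ∀ φ : XX u → ℝ, ContDiff ℝ 1 φ → (∀ y, |φ y| ≤ 1) → ∀ N : ℕ, n ≤ N →
      |Jac K χ φ (fun i b => (L (-(N : ℤ)) *ᵥ j N b) (I i)) -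
        Jac K χ φ fun i b => (L (-(n : ℤ)) *ᵥ j n b) (I i)| ≤ t) :
    |Jac K χ (fun _ => 1) fun i b => (L (-(n : ℤ)) *ᵥ j n b) (I i)| ≤ 2 * t := by
  have hG : ContinuousOn (fun b i => G b (I i)) K :=
    continuousOn_pi.2 fun i => (D.lim _ (hI i)).continuousOn
      (Frequently.of_forall fun N => (c1 D _ N _).continuousOn.mono D.cut.sub)
  have hZ := D.cut.cpt.image_of_continuousOn hG
  refine le_of_forall_pos_le_add fun η hη => ?_
  obtain ⟨φ, δ, hφ, hφ1, hδ, hone, hsm⟩ := exists_cut_null D.cut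
    (m := fun i b => (L (-(n : ℤ)) *ᵥ j n b) (I i)) (fun i => c1 D _ n _) hZ null hη
  have hev : ∀ᶠ N : ℕ in atTop, ∀ i, ∀ b ∈ K,
      dist (G b (I i)) ((L (-(N : ℤ)) *ᵥ j N b) (I i)) < δ :=
    eventually_all.2 fun i => Metric.tendstoUniformlyOn_iff.1 (D.lim _ (hI i)) δ hδ
  obtain ⟨N, hN, hnN⟩ := (hev.and (eventually_ge_atTop n)).exists
  have heq : Jac K χ φ (fun i b => (L (-(N : ℤ)) *ᵥ j N b) (I i)) =
      Jac K χ (fun _ => 1) fun i b => (L (-(N : ℤ)) *ᵥ j N b) (I i) := by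
    refine setIntegral_congr_fun D.cut.cpt.measurableSet fun b hb => ?_
    have : φ (fun i => (L (-(N : ℤ)) *ᵥ j N b) (I i)) = 1 := by
      refine hone _ (mem_thickening_iff.2 ⟨_, ⟨b, hb, rfl⟩, ?_⟩)
      rw [dist_comm]
      exact (dist_pi_lt_iff hδ).2 fun i => hN i b hb
    simp only [this]
  have h1 := ht φ hφ hφ1 N hnN
  have h2 := ht (fun _ => 1) contDiff_const (fun _ => by simp) N hnN
  rw [heq] at h1
  rw [abs_le] at h1 h2 hsm ⊢
  constructor <;> linarith [h1.1, h1.2, h2.1, h2.2, hsm.1, hsm.2]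

theorem claim (D : DD B K χ Nn L ρ j G H lam C) {μ θ : ℝ} (hθ : 0 < θ) (hμ : lam ≤ μ)
    {I : Fin u → Fin d} (hI : ∀ i, 1 < ρ (I i))
    (null : μ * H ≤ ∏ i, ρ (I i) → volume ((fun b i => G b (I i)) '' K : Set (XX u)) = 0) :
    ∃ C', 0 ≤ C' ∧ ∀ n : ℕ, |Jac K χ (fun _ => 1) fun i b => (L (-(n : ℤ)) *ᵥ j n b) (I i)| ≤
      C' * (μ * H * (1 + θ) ^ (u + 1) / ∏ i, ρ (I i)) ^ n := by
  obtain ⟨c, hc, hinc⟩ := D.inc hθ
  have hP : 0 < ∏ i, ρ (I i) := Finset.prod_pos fun i _ => D.wt.pos _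
  have hH := D.H_pos
  have hl := D.lam_pos
  have hμ0 : 0 < μ := hl.trans_le hμ
  set r := μ * H * (1 + θ) ^ u / ∏ i, ρ (I i) with hr
  set R := μ * H * (1 + θ) ^ (u + 1) / ∏ i, ρ (I i) with hR
  have hr0 : 0 < r := by positivity
  have hRr : R = r * (1 + θ) := by rw [hR, hr, pow_succ]; ring
  have hrR : r < R := by rw [hRr]; nlinarith
  have hinc' : ∀ (φ : XX u → ℝ), ContDiff ℝ 1 φ → (∀ y, |φ y| ≤ 1) → ∀ n : ℕ,
      |Jac K χ φ (fun i b => (L (-((n + 1 : ℕ) : ℤ)) *ᵥ j (n + 1) b) (I i)) -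
        Jac K χ φ fun i b => (L (-(n : ℤ)) *ᵥ j n b) (I i)| ≤ c * r ^ n := by
    intro φ h1 h2 n
    refine (hinc n I φ h1 h2).trans ?_
    rw [hr]
    gcongr
  rcases lt_or_ge 1 R with h1 | h1
  · refine up (x := fun n : ℕ => Jac K χ (fun _ => 1) fun i b => (L (-(n : ℤ)) *ᵥ j n b) (I i))
      hc.le h1 fun n => (hinc' _ contDiff_const (fun _ => by simp) n).trans ?_
    gcongr
  · have hr1 : r < 1 := hrR.trans_le h1
    have h2 : μ * H ≤ ∏ i, ρ (I i) := by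
      have h3 : μ * H * (1 + θ) ^ u ≤ ∏ i, ρ (I i) := (div_le_one hP).1 hr1.le
      refine le_trans ?_ h3
      exact le_mul_of_one_le_right (by positivity) (one_le_pow₀ (by linarith))
    have h4 : 0 < 1 - r := sub_pos.2 hr1
    refine ⟨2 * (c / (1 - r)), by positivity, fun n => ?_⟩
    refine (small D hI (null h2) n (t := c / (1 - r) * r ^ n) fun φ hφ hφ1 N hN => ?_).trans ?_
    · exact tail (x := fun n : ℕ => Jac K χ φ fun i b => (L (-(n : ℤ)) *ᵥ j n b) (I i))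
        hc.le hr0.le hr1 (hinc' φ hφ hφ1) hN
    · rw [mul_assoc]
      gcongr

end XRecX

theorem DD.growth (D : DD B K χ Nn L ρ j G H lam C) {q₁ : ℝ} (h1 : 0 < q₁) (h2 : q₁ < 1)
    (null : ∀ I : Fin u → Fin d, q₁ * H ≤ ∏ i, ρ (I i) →
      volume ((fun b i => G b (I i)) '' K : Set (XX u)) = 0) :
    ∃ q C', 0 < q ∧ q < 1 ∧ ∀ (n : ℕ) (I : Fin u → Fin d),
      |Jac K χ (fun _ => 1) fun i b => j n b (I i)| ≤ C' * (q * H) ^ n := by
  have hH := D.H_pos
  have hl := D.lam_pos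
  obtain ⟨μ, hμl, hμq, hμ1⟩ : ∃ μ, lam ≤ μ ∧ q₁ ≤ μ ∧ μ < 1 :=
    ⟨max lam q₁, le_max_left _ _, le_max_right _ _, max_lt D.lam_lt h2⟩
  have hμ0 : 0 < μ := h1.trans_le hμq
  obtain ⟨θ, hθ, hq⟩ := XRecX.exists_theta hμ1 (2 * u + 1)
  have hτ : (1 : ℝ) ≤ 1 + θ := by linarith
  obtain ⟨Cs, hCs, hs⟩ := D.slow hθ
  obtain ⟨C₀, hC₀⟩ := D.wt.bd θ hθ
  have hcl : ∀ I : Fin u → Fin d, ∃ C', 0 ≤ C' ∧ ((∀ i, 1 < ρ (I i)) → ∀ n : ℕ,
      |Jac K χ (fun _ => 1) fun i b => (L (-(n : ℤ)) *ᵥ j n b) (I i)| ≤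
        C' * (μ * H * (1 + θ) ^ (u + 1) / ∏ i, ρ (I i)) ^ n) := by
    intro I
    by_cases hI : ∀ i, 1 < ρ (I i)
    · obtain ⟨C', h3, h4⟩ := XRecX.claim D hθ hμl hI fun h =>
        null I ((mul_le_mul_of_nonneg_right hμq hH.le).trans h)
      exact ⟨C', h3, fun _ => h4⟩
    · exact ⟨0, le_rfl, fun h => absurd h hI⟩
  choose CI hCI0 hCI using hcl
  have hS : 0 ≤ ∑ I, |C₀| ^ u * CI I :=
    Finset.sum_nonneg fun I _ => mul_nonneg (by positivity) (hCI0 I)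
  refine ⟨μ * (1 + θ) ^ (2 * u + 1), Cs + ∑ I, |C₀| ^ u * CI I, by positivity, hq, fun n I => ?_⟩
  have hpow : 0 ≤ (μ * (1 + θ) ^ (2 * u + 1) * H) ^ n := by positivity
  by_cases hI : ∀ i, 1 < ρ (I i)
  · have hj : (fun (i : Fin u) (b : XX u) => j n b (I i)) =
        fun i b => L n (I i) ⬝ᵥ (L (-(n : ℤ)) *ᵥ j n b) := by
      funext i b
      change _ = (L n *ᵥ (L (-(n : ℤ)) *ᵥ j n b)) (I i)
      rw [mulVec_mulVec, ← D.wt.add, add_neg_cancel, D.wt.zero, one_mulVec]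
    rw [hj, jac_lin D.cut (fun k => XRecX.c1 D _ n k)]
    refine (Finset.abs_sum_le_sum_abs _ _).trans ?_
    refine le_trans ?_ (mul_le_mul_of_nonneg_right (le_add_of_nonneg_left hCs.le) hpow)
    rw [Finset.sum_mul]
    refine Finset.sum_le_sum fun I' _ => ?_
    by_cases hw : ∀ i, ρ (I' i) = ρ (I i)
    · have hP : 0 < ∏ i, ρ (I i) := Finset.prod_pos fun i _ => D.wt.pos _
      have h3 := hCI I' (fun i => hw i ▸ hI i) n
      simp only [hw] at h3
      have h4 : |∏ i, L n (I i) (I' i)| ≤ |C₀| ^ u * ((∏ i, ρ (I i)) * (1 + θ) ^ u) ^ n := by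
        rw [Finset.abs_prod]
        calc _ ≤ ∏ i : Fin u, |C₀| * ρ (I i) ^ n * (1 + θ) ^ n := by
              refine Finset.prod_le_prod (fun i _ => abs_nonneg _) fun i _ => ?_
              have h5 := hC₀ n (I i) (I' i)
              rw [zpow_natCast, Int.natAbs_natCast] at h5
              have h6 := D.wt.pos (I i)
              refine h5.trans ?_
              gcongr
              exact le_abs_self _
          _ = _ := by
              rw [Finset.prod_mul_distrib, Finset.prod_mul_distrib, Finset.prod_pow,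
                Finset.prod_const, Finset.prod_const, Finset.card_univ, Fintype.card_fin, mul_pow,
                mul_assoc, ← pow_mul, ← pow_mul, mul_comm n u]
      rw [abs_mul]
      refine (mul_le_mul h4 h3 (abs_nonneg _) (by positivity)).trans_eq ?_
      have h7 : μ * (1 + θ) ^ (2 * u + 1) * H = (∏ i, ρ (I i)) * (1 + θ) ^ u *
          (μ * H * (1 + θ) ^ (u + 1) / ∏ i, ρ (I i)) := by
        field_simp
        ring
      rw [h7, mul_pow ((∏ i, ρ (I i)) * (1 + θ) ^ u)]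
      ring
    · obtain ⟨i, hi⟩ := not_forall.1 hw
      rw [Finset.prod_eq_zero (Finset.mem_univ i) (D.wt.blk n _ _ hi), zero_mul, abs_zero]
      exact mul_nonneg (mul_nonneg (by positivity) (hCI0 I')) hpow
  · obtain ⟨i, hi⟩ := not_forall.1 hI
    refine (hs n I i (not_lt.1 hi)).trans ?_
    have h3 : lam * H * (1 + θ) ≤ μ * (1 + θ) ^ (2 * u + 1) * H := by
      rw [mul_right_comm]
      have h4 : 1 + θ ≤ (1 + θ) ^ (2 * u + 1) := le_self_pow₀ hτ (by omega)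
      gcongr
    exact mul_le_mul (le_add_of_nonneg_right hS) (pow_le_pow_left₀ (by positivity) h3 n)
      (by positivity) (by positivity)


end Pool.Agent.P.MP_5c499f_an
end

-- part Pool.Agent.P.MP_5c499f_an.XFin
section

/-! The contradiction on a disc. -/

set_option autoImplicit false

namespace Pool.Agent.P.MP_5c499f_an

open Filter Topology Metric MeasureTheory Matrix

variable {u d : ℕ} {B K : Set (XX u)} {χ : XX u → ℝ} {Nn : ℕ → XX u → XX u → ℝ}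
  {L : ℤ → Matrix (Fin d) (Fin d) ℝ} {ρ : Fin d → ℝ} {j : ℕ → XX u → Fin d → ℝ}
  {G : XX u → Fin d → ℝ} {H lam C : ℝ}

namespace XFinX

lemma c1_dot {m : XX u → Fin d → ℝ} (hm : ∀ k, ContDiffOn ℝ 1 (fun b => m b k) B)
    (l : Fin d → ℝ) : ContDiffOn ℝ 1 (fun b => l ⬝ᵥ m b) B :=
  ContDiffOn.sum fun k _ => contDiffOn_const.mul (hm k)

lemma der_dot (hB : IsOpen B) {m : XX u → Fin d → ℝ}
    (hm : ∀ k, ContDiffOn ℝ 1 (fun b => m b k) B) (l : Fin d → ℝ) {b : XX u} (hb : b ∈ B)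
    (v : XX u) {R : ℝ} (hR : ∀ k, |fderiv ℝ (fun b => m b k) b v| ≤ R) :
    |fderiv ℝ (fun b => l ⬝ᵥ m b) b v| ≤ (∑ k, |l k|) * R := by
  have h1 : ∀ k, HasFDerivAt (fun b => m b k) (fderiv ℝ (fun b => m b k) b) b := fun k =>
    (((hm k).contDiffAt (hB.mem_nhds hb)).differentiableAt one_ne_zero).hasFDerivAt
  have h2 : HasFDerivAt (fun b => l ⬝ᵥ m b) (∑ k, l k • fderiv ℝ (fun b => m b k) b) b :=
    HasFDerivAt.fun_sum fun k _ => (h1 k).const_mul (l k)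
  rw [h2.fderiv, _root_.sum_apply, Finset.sum_mul]
  refine (Finset.abs_sum_le_sum_abs _ _).trans (Finset.sum_le_sum fun k _ => ?_)
  rw [_root_.smul_apply, smul_eq_mul, abs_mul]
  exact mul_le_mul_of_nonneg_left (hR k) (abs_nonneg _)

lemma cont_dt (hB : IsOpen B) {g : Fin u → XX u → ℝ} (hg : ∀ i, ContDiffOn ℝ 1 (g i) B) :
    ContinuousOn (fun b => dt (fun i => fderiv ℝ (g i) b) (bas u)) B := by
  rw [continuousOn_iff_continuous_domRestrict]
  refine Continuous.matrix_det (continuous_matrix fun i k => ?_)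
  have h := ((hg i).continuousOn_fderiv_of_isOpen hB le_rfl).clm_apply
    (continuousOn_const (c := bas u k))
  exact continuousOn_iff_continuous_domRestrict.1 h

lemma sign {f : XX u → ℝ} (hK : IsPreconnected K) (hf : ContinuousOn f K)
    (h : ∀ b ∈ K, f b ≠ 0) : (∀ b ∈ K, 0 ≤ f b) ∨ ∀ b ∈ K, f b ≤ 0 := by
  by_contra hh
  push Not at hh
  obtain ⟨⟨a, ha, ha'⟩, b, hb, hb'⟩ := hh
  obtain ⟨z, hz, hz'⟩ := hK.intermediate_value ha hb hf ⟨ha'.le, hb'.le⟩
  exact h z hz hz'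

end XFinX

theorem DD.family (D : DD B K χ Nn L ρ j G H lam C) (th : Thin K L G H) :
    ∃ q, 0 < q ∧ q < 1 ∧ ∀ (h : Fin u → ℕ → XX u → ℝ) (l : Fin u → Fin d → ℝ) (C' : ℝ),
      (∀ i n, ContDiffOn ℝ 1 (h i n) B) →
      (∀ i n, ∀ b ∈ K, ∀ v, |fderiv ℝ (h i n) b v| ≤ C' * Nn n b v) →
      (∀ i n, ∀ b ∈ K, |h i n b - l i ⬝ᵥ j n b| ≤ C') →
      ∃ C'', ∀ n, |Jac K χ (fun _ => 1) fun i => h i n| ≤ C'' * (q * H) ^ n := by
  obtain ⟨q₁, a1, a2, a3⟩ := th.null D.wt D.H_pos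
  obtain ⟨q, C₁, b1, b2, b3⟩ := D.growth a1 a2 a3
  have hH := D.H_pos
  have hC := D.C_pos
  have hl := D.lam_pos
  obtain ⟨A₀, hA₀⟩ := D.cut.cpt.exists_bound_of_continuousOn
    (D.cut.c1.continuous_fderiv one_ne_zero).continuousOn
  set A := |A₀| + 1 with hA
  have hA1 : 0 < A := by positivity
  have hN : ∀ n, ∀ b ∈ K, ∀ v, 0 ≤ Nn n b v := fun n b hb v =>
    nonneg_of_mul_nonneg_right ((norm_nonneg v).trans (D.expd n b hb v)) (by positivity)
  refine ⟨max q lam, lt_max_of_lt_left b1, max_lt b2 D.lam_lt, fun h l C' c1 c2 c3 => ?_⟩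
  set S : ℝ := ∑ i, ∑ k, |l i k| with hS
  have hS0 : 0 ≤ S := by positivity
  have hSi : ∀ i, ∑ k, |l i k| ≤ S := fun i =>
    Finset.single_le_sum (f := fun i => ∑ k, |l i k|) (fun i _ => by positivity)
      (Finset.mem_univ i)
  set w : ℝ := |C'| + 1 + S * C with hw
  have hw0 : 0 < w := by positivity
  have hw1 : C' ≤ w := by
    have := le_abs_self C'
    have := mul_nonneg hS0 hC.le
    linarith
  have hw2 : S * C ≤ w := by
    have := abs_nonneg C'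
    linarith
  refine ⟨u * (A * C) * w ^ u * C + (∑ I : Fin u → Fin d, |∏ i, l i (I i)|) * |C₁|, fun n => ?_⟩
  have e1 := homot D.cut (Nn := Nn n) (W := C * H ^ n) (μ := A * C * lam ^ n) (by positivity)
    (D.vol n) (by positivity)
    (fun b hb v => by
      have h1 := (fderiv ℝ χ b).le_opNorm v
      have h2 : ‖fderiv ℝ χ b‖ ≤ A := by
        have := hA₀ b hb
        have := le_abs_self A₀
        linarith
      have h3 := mul_le_mul h2 (D.expd n b hb v) (norm_nonneg v) hA1.le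
      rw [Real.norm_eq_abs] at h1
      calc _ ≤ _ := h1
        _ ≤ _ := h3
        _ = _ := by ring)
    (φ := fun _ => 1) contDiff_const (fun _ => by simp) (g := fun i => h i n)
    (g' := fun i b => l i ⬝ᵥ j n b) (fun i => c1 i n) (fun i => XFinX.c1_dot (D.c1 n) (l i))
    (w := fun _ => w) (fun _ => hw0) (fun i b hb => (c3 i n b hb).trans hw1)
    (fun i b hb v => (c2 i n b hb v).trans (mul_le_mul_of_nonneg_right hw1 (hN n b hb v)))
    (fun i b hb v => by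
      have h0 := hN n b hb v
      refine (XFinX.der_dot D.cut.op (D.c1 n) (l i) (D.cut.sub hb) v
        fun k => D.der n k b hb v).trans ?_
      calc _ ≤ S * (C * Nn n b v) := mul_le_mul_of_nonneg_right (hSi i) (by positivity)
        _ = S * C * Nn n b v := by ring
        _ ≤ _ := mul_le_mul_of_nonneg_right hw2 h0)
  rw [Finset.prod_const, Finset.card_univ, Fintype.card_fin] at e1
  have p1 : (lam * H) ^ n ≤ (max q lam * H) ^ n :=
    pow_le_pow_left₀ (by positivity) (mul_le_mul_of_nonneg_right (le_max_right _ _) hH.le) n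
  have p2 : (q * H) ^ n ≤ (max q lam * H) ^ n :=
    pow_le_pow_left₀ (by positivity) (mul_le_mul_of_nonneg_right (le_max_left _ _) hH.le) n
  have e2 : |Jac K χ (fun _ => 1) fun i b => l i ⬝ᵥ j n b| ≤
      (∑ I : Fin u → Fin d, |∏ i, l i (I i)|) * |C₁| * (max q lam * H) ^ n := by
    rw [jac_lin D.cut (D.c1 n) l, mul_assoc, Finset.sum_mul]
    refine (Finset.abs_sum_le_sum_abs _ _).trans (Finset.sum_le_sum fun I _ => ?_)
    rw [abs_mul]
    refine mul_le_mul_of_nonneg_left ((b3 n I).trans ?_) (abs_nonneg _)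
    exact mul_le_mul (le_abs_self _) p2 (by positivity) (abs_nonneg _)
  have e3 : u * (A * C * lam ^ n) * w ^ u * (C * H ^ n) ≤
      u * (A * C) * w ^ u * C * (max q lam * H) ^ n :=
    calc _ = u * (A * C) * w ^ u * C * (lam * H) ^ n := by rw [mul_pow]; ring
      _ ≤ _ := mul_le_mul_of_nonneg_left p1 (by positivity)
  have e4 := abs_sub_abs_le_abs_sub (Jac K χ (fun _ => 1) fun i => h i n)
    (Jac K χ (fun _ => 1) fun i b => l i ⬝ᵥ j n b)
  rw [add_mul]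
  linarith

theorem no_small (hc : Cut B K χ) (hK : IsPreconnected K) (h0 : ∀ b, 0 ≤ χ b) {K' : Set (XX u)}
    (h1 : MeasurableSet K') (h2 : K' ⊆ K) (h3 : ∀ b ∈ K', χ b = 1) {m : ℕ} {c : Fin m → ℝ}
    {h : Fin m → Fin u → ℕ → XX u → ℝ} (h4 : ∀ t i n, ContDiffOn ℝ 1 (h t i n) B)
    {P : ℕ → XX u → ℝ}
    (h5 : ∀ n, ∀ b ∈ K, P n b = ∑ t, c t * dt (fun i => fderiv ℝ (h t i n) b) (bas u))
    (h6 : ∀ᶠ n in atTop, ∀ b ∈ K, P n b ≠ 0) {c₀ q : ℝ} (hc₀ : 0 < c₀) (hH : 0 < H) (hq : 0 < q)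
    (hq' : q < 1)
    (h7 : ∀ᶠ n in atTop, ENNReal.ofReal (c₀ * H ^ n) ≤ ∫⁻ b in K', ENNReal.ofReal |P n b|)
    (h8 : ∀ t, ∃ C', ∀ n, |Jac K χ (fun _ => 1) fun i => h t i n| ≤ C' * (q * H) ^ n) :
    False := by
  choose C' hC' using h8
  have hKm : MeasurableSet K := hc.cpt.measurableSet
  have hχ : ContinuousOn χ K := hc.c1.continuous.continuousOn
  have hlim : Tendsto (fun n : ℕ => (∑ t, |c t| * C' t) * q ^ n) atTop (𝓝 0) := by
    simpa using (tendsto_pow_atTop_nhds_zero_of_lt_one hq.le hq').const_mul (∑ t, |c t| * C' t)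
  obtain ⟨n, ⟨a6, a7⟩, a8⟩ := ((h6.and h7).and (hlim.eventually (gt_mem_nhds hc₀))).exists
  set T : Fin m → XX u → ℝ := fun t b => dt (fun i => fderiv ℝ (h t i n) b) (bas u) with hT
  have hTc : ∀ t, ContinuousOn (T t) K := fun t =>
    (XFinX.cont_dt hc.op fun i => h4 t i n).mono hc.sub
  have hPc : ContinuousOn (P n) K :=
    (continuousOn_finsetSum Finset.univ fun t _ => (continuousOn_const (c := c t)).mul (hTc t)).congr
      fun b hb => h5 n b hb
  have e1 : ∫ b in K, χ b * P n b = ∑ t, c t * Jac K χ (fun _ => 1) fun i => h t i n := by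
    have : ∀ t, c t * (Jac K χ (fun _ => 1) fun i => h t i n) =
        ∫ b in K, c t * (χ b * 1 * T t b) := fun t => by
      rw [integral_const_mul]
      rfl
    simp only [this]
    rw [← integral_finsetSum]
    · refine setIntegral_congr_fun hKm fun b hb => ?_
      simp only [h5 n b hb, Finset.mul_sum]
      exact Finset.sum_congr rfl fun t _ => by ring
    · intro t _
      exact ContinuousOn.integrableOn_compact hc.cpt
        (continuousOn_const.mul ((hχ.mul continuousOn_const).mul (hTc t)))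
  have e2 : ∫ b in K, χ b * |P n b| ≤ |∫ b in K, χ b * P n b| := by
    rcases XFinX.sign hK hPc a6 with s | s
    · refine le_trans (le_of_eq ?_) (le_abs_self _)
      exact setIntegral_congr_fun hKm fun b hb => by simp only [abs_of_nonneg (s b hb)]
    · refine le_trans (le_of_eq ?_) (neg_le_abs _)
      rw [← integral_neg]
      exact setIntegral_congr_fun hKm fun b hb => by simp only [abs_of_nonpos (s b hb), mul_neg]
  have hint : IntegrableOn (fun b => χ b * |P n b|) K :=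
    ContinuousOn.integrableOn_compact hc.cpt (hχ.mul hPc.abs)
  have e3 : ∫⁻ b in K', ENNReal.ofReal |P n b| ≤ ENNReal.ofReal (∫ b in K, χ b * |P n b|) := by
    rw [ofReal_integral_eq_lintegral_ofReal hint
      (Eventually.of_forall fun b => mul_nonneg (h0 b) (abs_nonneg _))]
    refine le_trans (le_of_eq ?_) (lintegral_mono_set h2)
    exact setLIntegral_congr_fun h1 fun b hb => by simp only [h3 b hb, one_mul]
  have e4 : c₀ * H ^ n ≤ ∫ b in K, χ b * |P n b| :=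
    (ENNReal.ofReal_le_ofReal_iff
      (integral_nonneg fun b => mul_nonneg (h0 b) (abs_nonneg _))).1 (a7.trans e3)
  have e5 : |∫ b in K, χ b * P n b| ≤ (∑ t, |c t| * C' t) * q ^ n * H ^ n := by
    rw [e1, mul_assoc, ← mul_pow, Finset.sum_mul]
    refine (Finset.abs_sum_le_sum_abs _ _).trans (Finset.sum_le_sum fun t _ => ?_)
    rw [abs_mul, mul_assoc]
    exact mul_le_mul_of_nonneg_left (hC' t n) (abs_nonneg _)
  have e6 := mul_lt_mul_of_pos_right a8 (pow_pos hH n)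
  linarith


end Pool.Agent.P.MP_5c499f_an
end

-- part Pool.Agent.P.MP_5c499f_an.XBasY
section

/-! Basic facts on hyperbolic systems. -/

set_option autoImplicit false

namespace Pool.Agent.P.MP_5c499f_an

open Filter Topology Metric MeasureTheory Matrix

lemma exists_max_sep {Y : Type*} {R : Y → Y → Prop} (h1 : ∀ y, R y y) (h2 : ∀ y z, R y z → R z y)
    (Z : Set Y) {n : ℝ}
    (h : ∀ E : Finset Y, ↑E ⊆ Z → (E : Set Y).Pairwise (fun y z => ¬ R y z) → (E.card : ℝ) ≤ n) :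
    ∃ E : Finset Y, ↑E ⊆ Z ∧ (E : Set Y).Pairwise (fun y z => ¬ R y z) ∧
      ∀ y ∈ Z, ∃ z ∈ E, R y z := by
  classical
  let P : ℕ → Prop := fun k => ∃ E : Finset Y, ↑E ⊆ Z ∧
    (E : Set Y).Pairwise (fun y z => ¬ R y z) ∧ E.card = k
  have h0 : P 0 := ⟨∅, by simp, by simp, rfl⟩
  obtain ⟨E, e1, e2, e3⟩ : P (Nat.findGreatest P ⌈n⌉₊) :=
    Nat.findGreatest_spec (Nat.zero_le _) h0
  refine ⟨E, e1, e2, fun y hy => ?_⟩
  by_contra hc
  push Not at hc
  have hyE : y ∉ E := fun hh => hc y hh (h1 y)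
  have s1 : (↑(insert y E) : Set Y) ⊆ Z := by
    rw [Finset.coe_insert]
    exact Set.insert_subset hy e1
  have s2 : (↑(insert y E) : Set Y).Pairwise (fun y z => ¬ R y z) := by
    rw [Finset.coe_insert, Set.pairwise_insert]
    exact ⟨e2, fun z hz _ => ⟨hc z hz, fun hh => hc z hz (h2 _ _ hh)⟩⟩
  have s3 : (insert y E).card ≤ ⌈n⌉₊ := by
    have := (h _ s1 s2).trans (Nat.le_ceil n)
    exact_mod_cast this
  have s4 := Nat.le_findGreatest (P := P) s3 ⟨_, s1, s2, rfl⟩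
  rw [Finset.card_insert_of_notMem hyE] at s4
  omega

lemma card_le_of_cover {Y : Type*} {R : Y → Y → Prop} {E E' : Finset Y} {n : ℝ}
    (h1 : ∀ y ∈ E, ∃ z ∈ E', R y z)
    (h2 : ∀ z ∈ E', ∀ D : Finset Y, D ⊆ E → (∀ y ∈ D, R y z) → (D.card : ℝ) ≤ n) :
    (E.card : ℝ) ≤ E'.card * n := by
  classical
  have s1 : E ⊆ E'.biUnion fun z => E.filter fun y => R y z := fun y hy => by
    obtain ⟨z, z1, z2⟩ := h1 y hy
    exact Finset.mem_biUnion.2 ⟨z, z1, Finset.mem_filter.2 ⟨hy, z2⟩⟩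
  have s2 := (Finset.card_le_card s1).trans Finset.card_biUnion_le
  have s3 : (E.card : ℝ) ≤ ∑ z ∈ E', ((E.filter fun y => R y z).card : ℝ) := by exact_mod_cast s2
  refine s3.trans ?_
  rw [← nsmul_eq_mul]
  exact Finset.sum_le_card_nsmul _ _ _ fun z hz =>
    h2 z hz _ (Finset.filter_subset _ _) fun y hy => (Finset.mem_filter.1 hy).2

variable {Y Γ : Type*} [MetricSpace Y] [Group Γ] [MulAction Γ Y] {F : Equiv.Perm Y}
  {Φ : MulAut Γ} {ε δ C a b : ℝ}

namespace XBasYX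

lemma asym_iff {G : Equiv.Perm Y} {x y : Y} :
    Asym G x y ↔ ∀ η, 0 < η → ∃ T : ℕ, St G T η x y := by
  simp only [Asym, ← Equiv.Perm.coe_pow, Metric.tendsto_atTop, dist_zero_right,
    Real.norm_of_nonneg dist_nonneg]
  refine ⟨fun h η hη => (h η hη).imp fun T hT k hk => ?_, fun h η hη =>
    (h _ (half_pos hη)).imp fun T hT k hk => ?_⟩
  · obtain ⟨k, rfl⟩ := Int.eq_ofNat_of_zero_le (show 0 ≤ k by omega)
    simpa using (hT k (by omega)).le
  · simpa using (hT k (by omega)).trans_lt (half_lt_self hη)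

lemma asym_iff' {G : Equiv.Perm Y} {x y : Y} :
    Asym (G⁻¹ : Equiv.Perm Y) x y ↔ ∀ η, 0 < η → ∃ T : ℕ, Un G (-T) η x y := by
  simp only [asym_iff, St, Un, _root_.inv_zpow']
  refine forall₂_congr fun η _ => exists_congr fun T => ⟨fun h k hk => ?_, fun h k hk =>
    h _ (by omega)⟩
  simpa using h (-k) (by omega)

lemma exists_pow_le {C a η : ℝ} (ha : 0 ≤ a) (ha' : a < 1) (hη : 0 < η) :
    ∃ j : ℕ, C * a ^ j ≤ η := by
  have h2 : Tendsto (fun j : ℕ => C * a ^ j) atTop (𝓝 (C * 0)) :=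
    (tendsto_pow_atTop_nhds_zero_of_lt_one ha ha').const_mul C
  rw [mul_zero] at h2
  exact (h2.eventually (ge_mem_nhds hη)).exists

lemma fin_net {K : Set Y} (hK : IsCompact K) {η : ℝ} (hη : 0 < η) :
    ∃ T : Finset Y, ∀ y ∈ K, ∃ t ∈ T, dist y t < η := by
  obtain ⟨T, -, t1, t2⟩ := finite_cover_balls_of_compact hK hη
  refine ⟨t1.toFinset, fun y hy => ?_⟩
  obtain ⟨c, c1, c2⟩ := Set.mem_iUnion₂.1 (t2 hy)
  exact ⟨c, t1.mem_toFinset.2 c1, mem_ball.1 c2⟩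

end XBasYX

open XBasYX

lemma Asym.refl (G : Y → Y) (x : Y) : Asym G x x := by
  simp [Asym]

lemma Asym.symm {G : Y → Y} {x y : Y} (h : Asym G x y) : Asym G y x := by
  unfold Asym at *
  simpa only [dist_comm] using h

lemma Asym.trans {G : Y → Y} {x y z : Y} (h : Asym G x y) (h' : Asym G y z) : Asym G x z := by
  unfold Asym at *
  have := h.add h'
  rw [add_zero] at this
  exact squeeze_zero (fun _ => dist_nonneg) (fun _ => dist_triangle _ _ _) this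

lemma Sep.mono {n n' : ℤ} {η η' : ℝ} {E E' : Finset Y} (h : Sep F n η E) (hn : n ≤ n')
    (hη : η' ≤ η) (hE : E' ⊆ E) : Sep F n' η' E' :=
  fun _ hy _ hy' hne hu => h (hE hy) (hE hy') hne (hu.mono hn hη)

lemma LH.asym_of_st (h : LH F ε δ C a b) {x y : Y} {l : ℤ} (e : St F l (4 * ε) x y) :
    Asym F x y := by
  refine XBasYX.asym_iff.2 fun η hη => ?_
  obtain ⟨j, hj⟩ := exists_pow_le (C := C) h.a_nonneg h.a_lt hη
  exact ⟨(l + j).toNat, (h.cs' e j).mono (by omega) hj⟩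

lemma LH.asym_of_un (h : LH F ε δ C a b) {x y : Y} {l : ℤ} (e : Un F l (4 * ε) x y) :
    Asym (F⁻¹ : Equiv.Perm Y) x y := by
  refine XBasYX.asym_iff'.2 fun η hη => ?_
  obtain ⟨j, hj⟩ := exists_pow_le (C := C) h.b_nonneg h.b_lt hη
  exact ⟨(j - l).toNat, (h.cu' e j).mono (by omega) hj⟩

lemma LH.asym_st (h : LH F ε δ C a b) {x y : Y} : Asym F x y ↔ ∃ T : ℕ, St F T ε x y :=
  ⟨fun e => XBasYX.asym_iff.1 e ε h.ε_pos, fun ⟨_, e⟩ =>
    h.asym_of_st (e.mono le_rfl (by linarith [h.ε_pos]))⟩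

lemma LH.asym_un (h : LH F ε δ C a b) {x y : Y} :
    Asym (F⁻¹ : Equiv.Perm Y) x y ↔ ∃ T : ℕ, Un F (-T) ε x y :=
  ⟨fun e => XBasYX.asym_iff'.1 e ε h.ε_pos, fun ⟨_, e⟩ =>
    h.asym_of_un (e.mono le_rfl (by linarith [h.ε_pos]))⟩

namespace Hs

variable (S : Hs F Φ ε δ C a b)
include S

lemma eqv_zpow (k : ℤ) (g : Γ) (x : Y) : (F ^ k) (g • x) = (Φ ^ k) g • (F ^ k) x :=
  equiv_zpow (act := fun (g : Γ) (x : Y) => g • x) S.eqv k g x

lemma st_smul (g : Γ) {k : ℤ} {r : ℝ} {x y : Y} : St F k r (g • x) (g • y) ↔ St F k r x y := by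
  simp only [St, S.eqv_zpow, S.iso]

lemma un_smul (g : Γ) {k : ℤ} {r : ℝ} {x y : Y} : Un F k r (g • x) (g • y) ↔ Un F k r x y := by
  simp only [Un, S.eqv_zpow, S.iso]

lemma asym_smul (g : Γ) {x y : Y} : Asym F (g • x) (g • y) ↔ Asym F x y := by
  simp only [XBasYX.asym_iff, S.st_smul]

lemma asym_smul' (g : Γ) {x y : Y} :
    Asym (F⁻¹ : Equiv.Perm Y) (g • x) (g • y) ↔ Asym (F⁻¹ : Equiv.Perm Y) x y := by
  simp only [XBasYX.asym_iff', S.un_smul]

lemma free_st {g : Γ} {y : Y} (h : Asym F (g • y) y) : g = 1 := by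
  obtain ⟨T, hT⟩ := S.lh.asym_st.1 h
  have h1 := hT T le_rfl
  rw [S.eqv_zpow] at h1
  have h2 := S.disc _ _ (h1.trans (by linarith [S.lh.ε_pos]))
  exact (map_eq_one_iff _ (Φ ^ (T : ℤ)).injective).1 h2

lemma free_un {g : Γ} {y : Y} (h : Asym (F⁻¹ : Equiv.Perm Y) (g • y) y) : g = 1 := by
  obtain ⟨T, hT⟩ := S.lh.asym_un.1 h
  have h1 := hT (-T) le_rfl
  rw [S.eqv_zpow] at h1
  have h2 := S.disc _ _ (h1.trans (by linarith [S.lh.ε_pos]))
  exact (map_eq_one_iff _ (Φ ^ (-T : ℤ)).injective).1 h2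

lemma net {η : ℝ} (hη : 0 < η) : ∃ T : Finset Y, ∀ y, ∃ g : Γ, ∃ t ∈ T, dist y (g • t) ≤ η := by
  obtain ⟨K, hK, hc⟩ := S.cpt
  obtain ⟨T, hT⟩ := fin_net hK hη
  refine ⟨T, fun y => ?_⟩
  obtain ⟨g, hg⟩ := hc y
  obtain ⟨t, t1, t2⟩ := hT _ hg
  refine ⟨g, t, t1, ?_⟩
  rw [← S.iso g⁻¹, inv_smul_smul]
  exact t2.le

lemma pair : ∃ K : Set Y, IsCompact K ∧
    ∀ y, ∃ g : Γ, ∀ y', dist y' y ≤ 4 * ε → g⁻¹ • y' ∈ K := by
  have hε := S.lh.ε_pos
  obtain ⟨K, hK, hc⟩ := S.cpt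
  obtain ⟨T, hT⟩ := fin_net hK (half_pos hε)
  have hsub : ∀ t t' : Y, {g : Γ | dist t (g • t') ≤ 5 * ε}.Subsingleton := fun t t' g hg g' hg' => by
    have h1 : dist ((g'⁻¹ * g) • t') t' ≤ 10 * ε := by
      rw [← S.iso g', mul_smul, smul_inv_smul]
      have := dist_triangle_left (g • t') (g' • t') t
      simp only [Set.mem_ofPred_eq] at hg hg'
      linarith
    exact (inv_mul_eq_one.1 (S.disc _ _ h1)).symm
  have hfin : (⋃ t ∈ (T : Set Y), ⋃ t' ∈ (T : Set Y), {g : Γ | dist t (g • t') ≤ 5 * ε}).Finite :=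
    T.finite_toSet.biUnion fun t _ => T.finite_toSet.biUnion fun t' _ => (hsub t t').finite
  have hcont : ∀ g : Γ, Continuous fun y : Y => g • y := fun g =>
    (Isometry.of_dist_eq (S.iso g)).continuous
  refine ⟨_, hfin.isCompact_biUnion fun g _ => hK.image (hcont g), fun y => ?_⟩
  obtain ⟨g, hg⟩ := hc y
  refine ⟨g, fun y' hy' => ?_⟩
  obtain ⟨h, hh⟩ := hc (g⁻¹ • y')
  obtain ⟨t, t1, t2⟩ := hT _ hg
  obtain ⟨t', t1', t2'⟩ := hT _ hh
  refine Set.mem_biUnion (x := h) (Set.mem_biUnion (x := t) t1 (Set.mem_biUnion (x := t') t1' ?_))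
    ⟨_, hh, smul_inv_smul _ _⟩
  have e1 : dist (g⁻¹ • y') (h • t') < ε / 2 := by
    rw [← S.iso h⁻¹, inv_smul_smul]
    exact t2'
  have e2 : dist (g⁻¹ • y) (g⁻¹ • y') ≤ 4 * ε := by rw [S.iso, dist_comm]; exact hy'
  have e3 := dist_triangle4 t (g⁻¹ • y) (g⁻¹ • y') (h • t')
  rw [dist_comm] at t2
  show dist t (h • t') ≤ 5 * ε
  linarith

lemma bdd {W : Type*} [NormedAddCommGroup W] {φ : Y → W} (h1 : Continuous φ)
    (h2 : ∀ (g : Γ) y, φ (g • y) = φ y) : ∃ R, ∀ y, ‖φ y‖ ≤ R := by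
  obtain ⟨K, hK, hc⟩ := S.cpt
  obtain ⟨R, hR⟩ := hK.exists_bound_of_continuousOn h1.continuousOn
  refine ⟨R, fun y => ?_⟩
  obtain ⟨g, hg⟩ := hc y
  rw [← h2 g⁻¹]
  exact hR _ hg

lemma ucd {W : Type*} [NormedAddCommGroup W] {φ : Y → W} (h1 : Continuous φ)
    (h2 : ∀ (g : Γ) y y', φ (g • y) - φ (g • y') = φ y - φ y') :
    UniformContinuous φ ∧ ∃ R, ∀ y y', dist y y' ≤ 4 * ε → ‖φ y - φ y'‖ ≤ R := by
  constructor
  · obtain ⟨K, hK, hc⟩ := S.cpt
    have : IsIsometricSMul Γ Y := ⟨fun g => Isometry.of_dist_eq (S.iso g)⟩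
    exact uc_of_inv (Γ := Γ) hK hc h1 fun g x y => by rw [dist_eq_norm, dist_eq_norm, h2]
  · obtain ⟨K, hK, hc⟩ := S.pair
    obtain ⟨R, hR⟩ := hK.exists_bound_of_continuousOn h1.continuousOn
    refine ⟨R + R, fun y y' e => ?_⟩
    obtain ⟨g, hg⟩ := hc y'
    rw [← h2 g⁻¹]
    exact (norm_sub_le _ _).trans (add_le_add (hR _ (hg y e))
      (hR _ (hg y' (by rw [dist_self]; linarith [S.lh.ε_pos]))))

lemma dbl {η : ℝ} (hη : 0 < η) : ∃ n : ℕ, ∀ x (l : ℤ) (E : Finset Y),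
    (∀ y ∈ E, Un F l (4 * ε) y x) → Sep F l η E → E.card ≤ n := by
  classical
  obtain ⟨j, hj⟩ := exists_pow_le (C := C) S.lh.b_nonneg S.lh.b_lt (half_pos hη)
  obtain ⟨η', e0, e1⟩ : ∃ η', 0 < η' ∧ ∀ i : ℕ, i ≤ j → ∀ u v : Y, dist u v ≤ η' →
      dist ((F ^ (-(i : ℤ))) u) ((F ^ (-(i : ℤ))) v) ≤ η := by
    choose r r0 hr using fun s : Fin (j + 1) =>
      uniformContinuous_iff_le.1 (uc_zpow S.uc S.uc' (-((s : ℕ) : ℤ))) η hη
    obtain ⟨R, hR⟩ := Finite.exists_le fun s => (r s)⁻¹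
    refine ⟨(max R 1)⁻¹, by positivity, fun i hi u v e => ?_⟩
    exact hr ⟨i, by omega⟩ (e.trans (inv_le_of_inv_le₀ (r0 _) ((hR _).trans (le_max_left _ _))))
  obtain ⟨K, hK, hc⟩ := S.pair
  obtain ⟨T, hT⟩ := fin_net hK (half_pos e0)
  refine ⟨T.card, fun x l E hE hs => ?_⟩
  obtain ⟨g, hg⟩ := hc ((F ^ l) x)
  have hm : ∀ y, ∃ t, y ∈ E → t ∈ T ∧ dist (g⁻¹ • (F ^ l) y) t < η' / 2 := fun y => by
    by_cases hy : y ∈ E
    · obtain ⟨t, t1, t2⟩ := hT _ (hg _ (hE y hy l le_rfl))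
      exact ⟨t, fun _ => ⟨t1, t2⟩⟩
    · exact ⟨x, fun h => absurd h hy⟩
  choose τ hτ using hm
  refine Finset.card_le_card_of_injOn τ (fun y hy => (hτ y hy).1) fun y hy y' hy' e => ?_
  by_contra hne
  refine hs hy hy' hne fun k hk => ?_
  have d1 : dist ((F ^ l) y) ((F ^ l) y') ≤ η' := by
    rw [← S.iso g⁻¹]
    have a1 := (hτ y hy).2
    have a2 := (hτ y' hy').2
    rw [← e] at a2
    linarith [dist_triangle_right (g⁻¹ • (F ^ l) y) (g⁻¹ • (F ^ l) y') (τ y)]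
  rcases le_total k (l - j) with hk' | hk'
  · have a1 := S.lh.cu' (hE y hy) j k hk'
    have a2 := S.lh.cu' (hE y' hy') j k hk'
    linarith [dist_triangle_right ((F ^ k) y) ((F ^ k) y') ((F ^ k) x)]
  · obtain ⟨i, rfl⟩ : ∃ i : ℕ, k = -(i : ℤ) + l := ⟨(l - k).toNat, by omega⟩
    have := e1 i (by omega) _ _ d1
    rwa [zpow_apply_zpow, zpow_apply_zpow] at this

end Hs


end Pool.Agent.P.MP_5c499f_an
end

-- part Pool.Agent.P.MP_5c499f_an.XCnt
section

/-! Exact exponential growth of separated sets. -/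

set_option autoImplicit false

namespace Pool.Agent.P.MP_5c499f_an

open Filter Topology Metric MeasureTheory Matrix

variable {Y Γ : Type*} [MetricSpace Y] [Group Γ] [MulAction Γ Y] {F : Equiv.Perm Y}
  {Φ : MulAut Γ} {ε δ C a b : ℝ}

namespace XCntX

/-- A sequence which is sub- and supermultiplicative grows exactly exponentially. -/
lemma fekete {V : ℕ → ℝ} {κ : ℝ} (hκ : 0 < κ) (h1 : ∀ n, 1 ≤ V n)
    (h2 : ∀ n m, V (n + m) ≤ V n * V m) (h3 : ∀ n m, κ * V n * V m ≤ V (n + m)) :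
    ∃ H, 1 ≤ H ∧ (∀ n, H ^ n ≤ V n) ∧ ∀ n, κ * V n ≤ H ^ n := by
  have hp : ∀ n, 0 < V n := fun n => one_pos.trans_le (h1 n)
  have e1 : ∀ n m : ℕ, (κ * V n) ^ m ≤ V (n * m) := by
    intro n m
    induction m with
    | zero => simpa using h1 0
    | succ m ih =>
      have := h3 n (n * m)
      rw [pow_succ', show n * (m + 1) = n + n * m by ring]
      exact (mul_le_mul_of_nonneg_left ih (mul_pos hκ (hp n)).le).trans this
  have e2 : ∀ n m : ℕ, V ((n + 1) * m) ≤ V m ^ (n + 1) := by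
    intro n m
    induction n with
    | zero => simp
    | succ n ih =>
      rw [show (n + 1 + 1) * m = m + (n + 1) * m by ring, pow_succ']
      exact (h2 _ _).trans (mul_le_mul_of_nonneg_left ih (hp m).le)
  have e3 : ∀ n m : ℕ, Real.log (κ * V (n + 1)) / ((n + 1 : ℕ) : ℝ) ≤
      Real.log (V (m + 1)) / ((m + 1 : ℕ) : ℝ) := by
    intro n m
    have := Real.log_le_log (pow_pos (mul_pos hκ (hp _)) _)
      ((e1 (n + 1) (m + 1)).trans (e2 n (m + 1)))
    rw [Real.log_pow, Real.log_pow] at this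
    rw [div_le_div_iff₀ (by positivity) (by positivity)]
    linarith
  obtain ⟨h, hu, hl⟩ := exists_between_of_forall_le
    (s := insert 0 (Set.range fun n : ℕ => Real.log (κ * V (n + 1)) / ((n + 1 : ℕ) : ℝ)))
    (t := Set.range fun m : ℕ => Real.log (V (m + 1)) / ((m + 1 : ℕ) : ℝ))
    (Set.insert_nonempty _ _) (Set.range_nonempty _) (by
      rintro x (rfl | ⟨n, rfl⟩) y ⟨m, rfl⟩
      · exact div_nonneg (Real.log_nonneg (h1 _)) (by positivity)
      · exact e3 n m)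
  refine ⟨Real.exp h, Real.one_le_exp (hu (Set.mem_insert _ _)), fun n => ?_, fun n => ?_⟩
  · rcases n with _ | n
    · simpa using h1 0
    · have := hl ⟨n, rfl⟩
      rw [le_div_iff₀ (by positivity)] at this
      rw [← Real.exp_nat_mul, ← Real.exp_log (hp (n + 1))]
      exact Real.exp_le_exp.2 (by linarith)
  · rcases n with _ | n
    · have := h3 0 0
      rw [pow_zero]
      exact le_of_mul_le_mul_right (by simpa using this) (hp 0)
    · have := hu (Set.mem_insert_of_mem _ ⟨n, rfl⟩)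
      rw [div_le_iff₀ (by positivity)] at this
      rw [← Real.exp_nat_mul, ← Real.exp_log (mul_pos hκ (hp (n + 1)))]
      exact Real.exp_le_exp.2 (by linarith)

/-- A maximal separated subset. -/
lemma split (E : Finset Y) (n : ℤ) {r : ℝ} (hr : 0 ≤ r) :
    ∃ E' : Finset Y, E' ⊆ E ∧ Sep F n r E' ∧ ∀ y ∈ E, ∃ z ∈ E', Un F n r y z := by
  obtain ⟨E', e1, e2, e3⟩ := exists_max_sep (R := Un F n r) (Un.refl n hr) (fun _ _ h => h.symm)
    (E : Set Y) (n := E.card) fun D hD _ => by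
      exact_mod_cast Finset.card_le_card (Finset.coe_subset.1 hD)
  exact ⟨E', Finset.coe_subset.1 e1, e2, e3⟩

lemma sep_map {n l : ℤ} {η : ℝ} {E : Finset Y} (h : Sep F (n + l) η E) :
    Sep F n η (E.map (F ^ l).toEmbedding) := by
  intro y hy y' hy' hne
  obtain ⟨v, hv, rfl⟩ := Finset.mem_map.1 (Finset.mem_coe.1 hy)
  obtain ⟨v', hv', rfl⟩ := Finset.mem_map.1 (Finset.mem_coe.1 hy')
  have : v ≠ v' := fun e => hne (by rw [e])
  exact fun e => h hv hv' this (Un_shift.1 e)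

lemma sep_image {n : ℤ} {η : ℝ} (hη : 0 ≤ η) {D : Finset Y} {φ : Y → Y}
    (h : ∀ y ∈ D, ∀ y' ∈ D, y ≠ y' → ¬ Un F n η (φ y) (φ y')) :
    ∃ B : Finset Y, (∀ v ∈ B, ∃ y ∈ D, φ y = v) ∧ Sep F n η B ∧ B.card = D.card := by
  classical
  refine ⟨D.image φ, fun v hv => Finset.mem_image.1 hv, ?_, Finset.card_image_of_injOn ?_⟩
  · intro v hv v' hv' hne
    obtain ⟨y, hy, rfl⟩ := Finset.mem_image.1 (Finset.mem_coe.1 hv)
    obtain ⟨y', hy', rfl⟩ := Finset.mem_image.1 (Finset.mem_coe.1 hv')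
    exact h y hy y' hy' fun e => hne (by rw [e])
  · intro y hy y' hy' e
    by_contra hne
    exact h y hy y' hy' hne (by rw [e]; exact Un.refl n hη _)

/-- Admissible sets. -/
def Adm (F : Equiv.Perm Y) (ε : ℝ) (n : ℕ) (E : Finset Y) : Prop :=
  (∃ x, ∀ y ∈ E, Un F 0 (4 * ε) y x) ∧ Sep F n ε E

lemma coarse (S : Hs F Φ ε δ C a b) {η : ℝ} (hη : 0 < η) : ∃ N : ℝ, 0 < N ∧
    ∀ (n : ℤ) (r : ℝ) (E : Finset Y), 0 ≤ r → r ≤ 4 * ε → Sep F n η E →
      ∃ E' : Finset Y, E' ⊆ E ∧ Sep F n r E' ∧ (E.card : ℝ) ≤ E'.card * N := by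
  obtain ⟨N, hN⟩ := S.dbl hη
  refine ⟨N + 1, by positivity, fun n r E h0 h1 h => ?_⟩
  obtain ⟨E', e1, e2, e3⟩ := split (F := F) E n h0
  refine ⟨E', e1, e2, card_le_of_cover e3 fun z _ D hD hz => ?_⟩
  have := hN z n D (fun y hy => (hz y hy).mono le_rfl h1) (h.mono le_rfl le_rfl hD)
  exact_mod_cast this.trans (Nat.le_succ N)

lemma submult (hε : 0 < ε) {n m : ℕ} {N M : ℝ} (hM0 : 0 ≤ M)
    (hN : ∀ E, Adm F ε n E → (E.card : ℝ) ≤ N) (hM : ∀ E, Adm F ε m E → (E.card : ℝ) ≤ M)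
    (E : Finset Y) (h : Adm F ε (n + m) E) : (E.card : ℝ) ≤ N * M := by
  obtain ⟨⟨x, hx⟩, hs⟩ := h
  obtain ⟨E', e1, e2, e3⟩ := split (F := F) E n hε.le
  refine (card_le_of_cover e3 fun z _ D hD hz => ?_).trans
    (mul_le_mul_of_nonneg_right (hN E' ⟨⟨x, fun y hy => hx y (e1 hy)⟩, e2⟩) hM0)
  have := hM (D.map (F ^ (n : ℤ)).toEmbedding) ⟨⟨(F ^ (n : ℤ)) z, fun y hy => ?_⟩,
    sep_map (hs.mono (by push_cast; omega) le_rfl hD)⟩
  · rwa [Finset.card_map] at this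
  · obtain ⟨v, hv, rfl⟩ := Finset.mem_map.1 hy
    exact Un_shift.2 ((hz v hv).mono (by omega) (by linarith))

lemma bounded (S : Hs F Φ ε δ C a b) (n : ℕ) :
    ∃ N : ℕ, ∀ E, Adm F ε n E → E.card ≤ N := by
  have hε := S.lh.ε_pos
  obtain ⟨η, hη, hu⟩ := Metric.uniformContinuous_iff_le.1 S.uc ε hε
  obtain ⟨N₁, hN₁⟩ := S.dbl (lt_min hη hε)
  have h1 : ∀ E, Adm F ε 1 E → E.card ≤ N₁ := by
    rintro E ⟨⟨x, hx⟩, hs⟩
    refine hN₁ x 0 E hx fun y hy y' hy' hne e => hs hy hy' hne fun k hk => ?_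
    rcases lt_or_ge k 1 with h | h
    · exact (e k (by omega)).trans (min_le_right _ _)
    · obtain rfl : k = 1 := le_antisymm (by exact_mod_cast hk) h
      have := (e 0 le_rfl).trans (min_le_left _ _)
      simp only [zpow_zero, Equiv.Perm.one_apply] at this
      simpa using hu this
  induction n with
  | zero =>
    obtain ⟨N, hN⟩ := S.dbl hε
    exact ⟨N, fun E ⟨⟨x, hx⟩, hs⟩ => hN x 0 E hx (by simpa using hs)⟩
  | succ n ih =>
    obtain ⟨N, hN⟩ := ih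
    refine ⟨N * N₁, fun E hE => ?_⟩
    have := submult hε (N := N) (M := N₁) (by positivity) (fun E h => by exact_mod_cast hN E h)
      (fun E h => by exact_mod_cast h1 E h) E hE
    exact_mod_cast this

lemma exists_V [Nonempty Y] (S : Hs F Φ ε δ C a b) : ∃ V : ℕ → ℝ, (∀ n, 1 ≤ V n) ∧
    (∀ n E, Adm F ε n E → (E.card : ℝ) ≤ V n) ∧ ∀ n, ∃ E, Adm F ε n E ∧ (E.card : ℝ) = V n := by
  have hε := S.lh.ε_pos
  obtain ⟨x⟩ := ‹Nonempty Y›
  have h0 : ∀ n, Adm F ε n {x} := fun n => ⟨⟨x, fun y hy => by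
    rw [Finset.mem_singleton.1 hy]; exact Un.refl 0 (by positivity) x⟩, by simp [Sep]⟩
  have : ∀ n : ℕ, ∃ E, Adm F ε n E ∧ ∀ E', Adm F ε n E' → E'.card ≤ E.card := by
    intro n
    obtain ⟨N, hN⟩ := bounded S n
    have hb : BddAbove {k | ∃ E, Adm F ε n E ∧ E.card = k} :=
      ⟨N, fun k ⟨E, h, e⟩ => e ▸ hN E h⟩
    obtain ⟨E, h, e⟩ := Nat.sSup_mem (s := {k | ∃ E, Adm F ε n E ∧ E.card = k})
      ⟨_, _, h0 n, rfl⟩ hb
    exact ⟨E, h, fun E' h' => e ▸ le_csSup hb ⟨E', h', rfl⟩⟩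
  choose E h1 h2 using this
  refine ⟨fun n => (E n).card, fun n => ?_, fun n D hD => ?_, fun n => ⟨E n, h1 n, rfl⟩⟩
  · have := h2 n _ (h0 n)
    rw [Finset.card_singleton] at this
    exact Nat.one_le_cast.2 this
  · exact Nat.cast_le.2 (h2 n D hD)

/-- A large, strongly separated set of small diameter. -/
lemma core (S : Hs F Φ ε δ C a b) : ∃ c : ℝ, 0 < c ∧ ∀ (n : ℕ) (E : Finset Y), Adm F ε n E →
    1 ≤ (E.card : ℝ) → ∃ (z : Y) (D : Finset Y), (∀ y ∈ D, Un F 0 δ y z) ∧ Sep F n (3 * ε) D ∧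
      c * E.card ≤ D.card := by
  have hε := S.lh.ε_pos
  obtain ⟨N₁, p1, hN₁⟩ := coarse S hε
  obtain ⟨N₂, hN₂⟩ := S.dbl S.lh.δ_pos
  refine ⟨(2 * N₁ * (N₂ + 1))⁻¹, by positivity, fun n E ⟨⟨x, hx⟩, hs⟩ h1 => ?_⟩
  obtain ⟨E₁, e1, e2, e3⟩ := hN₁ n (3 * ε) E (by positivity) (by linarith) hs
  obtain ⟨E₂, f1, f2, f3⟩ := split (F := F) E₁ 0 S.lh.δ_pos.le
  have g1 : (E₂.card : ℝ) ≤ N₂ + 1 := by
    exact_mod_cast (hN₂ x 0 E₂ (fun y hy => hx y (e1 (f1 hy))) f2).trans (Nat.le_succ _)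
  by_contra hc
  push Not at hc
  have g2 := card_le_of_cover f3 (n := (2 * N₁ * (N₂ + 1))⁻¹ * E.card)
    fun z _ D hD hz => (hc z D hz (e2.mono le_rfl le_rfl hD)).le
  have g3 : (E₁.card : ℝ) ≤ (N₂ + 1) * ((2 * N₁ * (N₂ + 1))⁻¹ * E.card) :=
    g2.trans (mul_le_mul_of_nonneg_right g1 (by positivity))
  have g4 := e3.trans (mul_le_mul_of_nonneg_right g3 p1.le)
  have g5 : ((N₂ : ℝ) + 1) * ((2 * N₁ * (N₂ + 1))⁻¹ * E.card) * N₁ = E.card / 2 := by
    field_simp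
  rw [g5] at g4
  linarith

/-- Transport of a separated set to any small unstable set. -/
lemma transport (S : Hs F Φ ε δ C a b) {ρ : ℝ} (hρ : 0 < ρ) : ∃ L : ℕ, ∀ (n : ℕ) (z : Y)
    (D : Finset Y), (∀ y ∈ D, Un F 0 δ y z) → Sep F n (3 * ε) D → ∀ (x : Y) (l : ℤ),
      ∃ B : Finset Y, (∀ v ∈ B, Un F l ρ v x) ∧ Sep F (n + L + l) ε B ∧ B.card = D.card := by
  have hε := S.lh.ε_pos
  have hδ := S.lh.δ_le
  obtain ⟨L₀, hL₀⟩ := S.mix (ρ / 2) δ (by positivity) S.lh.δ_pos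
  have h2 : Tendsto (fun j : ℕ => C * b ^ j) atTop (𝓝 (C * 0)) :=
    (tendsto_pow_atTop_nhds_zero_of_lt_one S.lh.b_nonneg S.lh.b_lt).const_mul C
  rw [mul_zero] at h2
  obtain ⟨L, hL1, hL2⟩ := ((eventually_ge_atTop L₀).and
    (h2.eventually (ge_mem_nhds (half_pos hρ)))).exists
  refine ⟨L, fun n z D hD hs x l => ?_⟩
  obtain ⟨w, g, w1, w2⟩ := hL₀ L hL1 ((F ^ l) x) z
  have : ∀ y, y ∈ D → ∃ v, St F 0 ε v (g • y) ∧ Un F 0 ε v ((F ^ (L : ℤ)) w) := by
    intro y hy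
    refine S.lh.br _ _ ?_
    have e := hD y hy 0 le_rfl
    simp only [zpow_zero, Equiv.Perm.one_apply] at e
    rw [← S.iso g] at e
    have := dist_triangle_right (g • y) ((F ^ (L : ℤ)) w) (g • z)
    linarith
  choose! φ h3 h4 using this
  obtain ⟨B, b1, b2, b3⟩ := sep_image (F := F) (n := n) hε.le (D := D) (φ := φ)
    fun y hy y' hy' hne e => hs hy hy' hne fun k hk => by
      rcases le_total k 0 with h | h
      · exact (((hD y hy).trans (hD y' hy').symm) k h).trans (by linarith)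
      · have e1 := h3 y hy k h
        have e2 := h3 y' hy' k h
        have e3 := e k hk
        have e4 := dist_triangle4 ((F ^ k) (g • y)) ((F ^ k) (φ y)) ((F ^ k) (φ y'))
          ((F ^ k) (g • y'))
        rw [dist_comm] at e1
        have e5 : dist ((F ^ k) (g • y)) ((F ^ k) (g • y')) = dist ((F ^ k) y) ((F ^ k) y') := by
          rw [S.eqv_zpow, S.eqv_zpow, S.iso]
        linarith
  refine ⟨B.map (F ^ (-(L + l : ℤ))).toEmbedding, fun v hv => ?_,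
    sep_map (b2.mono (by omega) le_rfl subset_rfl), by rw [Finset.card_map, b3]⟩
  obtain ⟨v', hv', rfl⟩ := Finset.mem_map.1 hv
  obtain ⟨y, hy, rfl⟩ := b1 v' hv'
  have e1 : Un F L (4 * ε) ((F ^ (-(L : ℤ))) (φ y)) w := by
    have := (h4 y hy).mono le_rfl (show ε ≤ 4 * ε by linarith)
    have e : φ y = (F ^ (L : ℤ)) ((F ^ (-(L : ℤ))) (φ y)) := by
      rw [zpow_apply_zpow]; simp
    rw [e, Un_shift, zero_add] at this
    exact this
  have e2 := ((S.lh.cu' e1 L).mono (k₁ := 0) (by omega) hL2).trans w1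
  rw [add_halves] at e2
  have e : (F ^ (-(L : ℤ))) (φ y) = (F ^ l) ((F ^ (-(L + l : ℤ))) (φ y)) := by
    rw [zpow_apply_zpow]; congr 2; ring
  rw [e, Un_shift, zero_add] at e2
  exact e2

/-- Gluing of separated sets. -/
lemma glue (S : Hs F Φ ε δ C a b) {n k : ℕ} (hk : n ≤ k) {z : Y} {D : Finset Y} {t : ℕ}
    (hD : ∀ y ∈ D, Un F 0 δ y z) (hs : Sep F n (3 * ε) D)
    (h : ∀ y, ∃ B : Finset Y, (∀ v ∈ B, Un F n ε v y) ∧ Sep F k ε B ∧ B.card = t) :
    ∃ E, Adm F ε k E ∧ E.card = D.card * t := by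
  classical
  have hε := S.lh.ε_pos
  have hδ := S.lh.δ_le
  choose B b1 b2 b3 using h
  have key : ∀ y ∈ D, ∀ y' ∈ D, y ≠ y' → ∀ v ∈ B y, ∀ v' ∈ B y', ¬ Un F k ε v v' :=
    fun y hy y' hy' hne v hv v' hv' e => hs hy hy' hne
      ((((b1 y v hv).symm.trans (e.mono (by exact_mod_cast hk) le_rfl)).trans (b1 y' v' hv')).mono
        le_rfl (by linarith))
  refine ⟨D.biUnion B, ⟨⟨z, fun v hv => ?_⟩, fun v hv v' hv' hne => ?_⟩, ?_⟩
  · obtain ⟨y, hy, hv⟩ := Finset.mem_biUnion.1 hv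
    exact (((b1 y v hv).mono (by omega) le_rfl).trans (hD y hy)).mono le_rfl (by linarith)
  · obtain ⟨y, hy, hv⟩ := Finset.mem_biUnion.1 (Finset.mem_coe.1 hv)
    obtain ⟨y', hy', hv'⟩ := Finset.mem_biUnion.1 (Finset.mem_coe.1 hv')
    by_cases e : y = y'
    · subst e
      exact b2 y hv hv' hne
    · exact key y hy y' hy' e v hv v' hv'
  · rw [Finset.card_biUnion]
    · simp [b3]
    · intro y hy y' hy' hne
      exact Finset.disjoint_left.2 fun v hv hv' =>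
        key y hy y' hy' hne v hv v hv' (Un.refl _ hε.le v)

end XCntX

open XCntX in
theorem Hs.exists_cnt [Nonempty Y] (S : Hs F Φ ε δ C a b) : ∃ H, Cnt F ε H := by
  have hε := S.lh.ε_pos
  obtain ⟨V, v1, v2, v3⟩ := exists_V S
  have vp : ∀ n, 0 < V n := fun n => one_pos.trans_le (v1 n)
  obtain ⟨c, hc, hcore⟩ := core S
  have core' : ∀ n : ℕ, ∃ (z : Y) (D : Finset Y), (∀ y ∈ D, Un F 0 δ y z) ∧ Sep F n (3 * ε) D ∧
      c * V n ≤ D.card := fun n => by
    obtain ⟨E, h, e⟩ := v3 n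
    rw [← e]
    exact hcore n E h (e ▸ v1 n)
  have sub : ∀ n m, V (n + m) ≤ V n * V m := fun n m => by
    obtain ⟨E, h, e⟩ := v3 (n + m)
    rw [← e]
    exact submult hε (vp m).le (v2 n) (v2 m) E h
  obtain ⟨L, hL⟩ := transport S hε
  have sup : ∀ n m, c ^ 2 / V L * V n * V m ≤ V (n + m) := fun n m => by
    obtain ⟨z, D, d1, d2, d3⟩ := core' n
    obtain ⟨z', D', d1', d2', d3'⟩ := core' m
    obtain ⟨E, h, e⟩ := glue S (n := n) (k := n + m + L) (by omega) (t := D'.card) d1 d2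
      fun y => by
        obtain ⟨B, b1, b2, b3⟩ := hL m z' D' d1' d2' y n
        exact ⟨B, b1, b2.mono (by push_cast; omega) le_rfl subset_rfl, b3⟩
    have e1 := (v2 _ E h).trans (sub (n + m) L)
    rw [e, Nat.cast_mul] at e1
    have e2 := (mul_le_mul d3 d3' (mul_pos hc (vp m)).le (Nat.cast_nonneg _)).trans e1
    rw [div_mul_eq_mul_div, div_mul_eq_mul_div, div_le_iff₀ (vp L)]
    linarith
  obtain ⟨H, H1, H2, H3⟩ := fekete (div_pos (pow_pos hc 2) (vp L)) v1 sub sup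
  have Hp : 0 < H := one_pos.trans_le H1
  refine ⟨H, H1, fun η hη => ?_, fun ρ hρ => ?_⟩
  · obtain ⟨N, hN, h⟩ := coarse S hη
    refine ⟨N / (c ^ 2 / V L), fun x n E hx hs => ?_⟩
    obtain ⟨E', e1, e2, e3⟩ := h n ε E hε.le (by linarith) hs
    have e4 := v2 n E' ⟨⟨x, fun y hy => hx y (e1 hy)⟩, e2⟩
    have κp := div_pos (pow_pos hc 2) (vp L)
    have e5 : V n ≤ H ^ n / (c ^ 2 / V L) := by
      rw [le_div_iff₀ κp, mul_comm]; exact H3 n
    refine (e3.trans (mul_le_mul_of_nonneg_right (e4.trans e5) hN.le)).trans (le_of_eq ?_)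
    ring
  · obtain ⟨L', hL'⟩ := transport S hρ
    refine ⟨min c 1 / H ^ L', div_pos (lt_min hc one_pos) (pow_pos Hp _), fun x n => ?_⟩
    rcases le_total n L' with h | h
    · refine ⟨{x}, fun y hy => ?_, by simp [Sep], ?_⟩
      · rw [Finset.mem_singleton.1 hy]; exact Un.refl 0 hρ.le x
      · rw [Finset.card_singleton, Nat.cast_one, div_mul_eq_mul_div, div_le_one (pow_pos Hp _)]
        exact (mul_le_of_le_one_left (pow_pos Hp _).le (min_le_right _ _)).trans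
          (pow_le_pow_right₀ H1 h)
    · obtain ⟨m, rfl⟩ := Nat.exists_eq_add_of_le' h
      obtain ⟨z, D, d1, d2, d3⟩ := core' m
      obtain ⟨B, b1, b2, b3⟩ := hL' m z D d1 d2 x 0
      refine ⟨B, b1, b2.mono (by push_cast; omega) le_rfl subset_rfl, ?_⟩
      rw [b3, pow_add, show min c 1 / H ^ L' * (H ^ m * H ^ L') = min c 1 * H ^ m by field_simp]
      exact (mul_le_mul (min_le_left _ _) (H2 m) (pow_pos Hp _).le hc.le).trans d3

end Pool.Agent.P.MP_5c499f_an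
end

-- part Pool.Agent.P.MP_5c499f_an.XEnt
section

/-! Transfer between the cover and the base. -/

set_option autoImplicit false

namespace Pool.Agent.P.MP_5c499f_an

open Filter Topology Metric MeasureTheory Matrix

variable {Y Γ : Type*} [MetricSpace Y] [Group Γ] [MulAction Γ Y] {F : Equiv.Perm Y}
  {Φ : MulAut Γ} {ε δ C a b : ℝ}
  {M : Type*} [MetricSpace M] {p : Y → M} {ρ₀ : ℝ} {g : Equiv.Perm M}

omit [MetricSpace Y] [MetricSpace M] in
theorem XEntX.iter (hF : ∀ y, p (F y) = g (p y)) (k : ℕ) (y : Y) :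
    g^[k] (p y) = p ((F ^ (k : ℤ)) y) := by
  rw [semiconj_zpow hF, zpow_natCast, Equiv.Perm.coe_pow]

theorem ent_of_cnt (S : Hs F Φ ε δ C a b) (hc : IsCov p ρ₀) (h0 : 10 * ε < ρ₀)
    (hs : Function.Surjective p) (hF : ∀ y, p (F y) = g (p y)) {H : ℝ} (c : Cnt F ε H) :
    Ent g H (2 * ε) δ := by
  classical
  have hε := S.lh.ε_pos
  have hδ := S.lh.δ_pos
  have hδε := S.lh.δ_le
  refine ⟨c.one_le, hδ, ?_, ?_⟩
  · obtain ⟨C', hC'⟩ := c.up ε hε
    refine ⟨C', fun x n => ?_⟩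
    obtain ⟨x, rfl⟩ := hs x
    have hb : ∀ E : Finset Y, ↑E ⊆ {y | Un F 0 ε y x} →
        (E : Set Y).Pairwise (fun y z => ¬ Un F n ε y z) → (E.card : ℝ) ≤ C' * H ^ n :=
      fun E h1 h2 => hC' x n E (fun y hy => Un.mono (h1 hy) le_rfl (by linarith)) h2
    obtain ⟨E, h1, h2, h3⟩ := exists_max_sep (R := fun y z => Un F n ε y z)
      (fun y => Un.refl _ hε.le y) (fun _ _ h => h.symm) _ hb
    refine ⟨E.image p, le_trans (Nat.cast_le.2 Finset.card_image_le) (hb E h1 h2), fun y hy => ?_⟩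
    obtain ⟨y, rfl, h4⟩ := hc.lift x y (by linarith)
    obtain ⟨w, w1, w2⟩ := S.lh.br y x (by linarith)
    obtain ⟨z, hz, w3⟩ := h3 w w2
    refine ⟨p z, Finset.mem_image_of_mem _ hz, fun k hk => ?_⟩
    have h5 : dist ((F ^ (k : ℤ)) y) ((F ^ (k : ℤ)) z) ≤ 2 * ε := by
      linarith [dist_triangle_left ((F ^ (k : ℤ)) y) ((F ^ (k : ℤ)) z) ((F ^ (k : ℤ)) w),
        w1 k (by omega), w3 k (by omega)]
    rw [XEntX.iter hF, XEntX.iter hF, hc.dist_eq _ _ (by linarith)]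
    exact h5
  · obtain ⟨η₁, hη₁, hu⟩ := Metric.uniformContinuous_iff.1 S.uc ρ₀ hc.pos
    obtain ⟨η, hη, e1, e2⟩ : ∃ η, 0 < η ∧ η ≤ ε ∧ η < η₁ :=
      ⟨min ε (η₁ / 2), lt_min hε (by linarith), min_le_left _ _,
        (min_le_right _ _).trans_lt (by linarith)⟩
    refine ⟨η, hη, fun ρ hρ => ?_⟩
    obtain ⟨c₀, hc₀, hl⟩ := c.low (min ρ (η / 2)) (lt_min hρ (by linarith))
    refine ⟨c₀, hc₀, fun x n => ?_⟩
    obtain ⟨x, rfl⟩ := hs x
    obtain ⟨E, h1, h2, h3⟩ := hl x n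
    have key : ∀ y ∈ E, ∀ y' ∈ E, y ≠ y' → ∃ k ≤ n, η < dist (g^[k] (p y)) (g^[k] (p y')) := by
      intro y hy y' hy' hne
      by_contra hcon
      have hcon' : ∀ k ≤ n, dist (g^[k] (p y)) (g^[k] (p y')) ≤ η :=
        fun k hk => not_lt.1 fun h => hcon ⟨k, hk, h⟩
      have h4 : Un F 0 η y y' := ((h1 y hy).trans (h1 y' hy').symm).mono le_rfl
        (by linarith [min_le_right ρ (η / 2)])
      have h5 : ∀ k : ℕ, k ≤ n → dist ((F ^ (k : ℤ)) y) ((F ^ (k : ℤ)) y') ≤ η := by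
        intro k
        induction k with
        | zero => exact fun _ => h4 _ (by simp)
        | succ k ih =>
          intro hk
          have h6 := hu ((ih (by omega)).trans_lt e2)
          rw [← zpow_succ_apply, ← zpow_succ_apply] at h6
          have h7 := hcon' (k + 1) hk
          rw [XEntX.iter hF, XEntX.iter hF] at h7
          push_cast at h7 ⊢
          rwa [hc.dist_eq _ _ h6] at h7
      refine h2 hy hy' hne fun k hk => le_trans ?_ e1
      rcases le_total k 0 with h | h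
      · exact h4 k h
      · obtain ⟨m, rfl⟩ := Int.eq_ofNat_of_zero_le h
        exact h5 m (by omega)
    have hinj : Set.InjOn p E := by
      intro y hy y' hy' h
      by_contra hne
      obtain ⟨k, -, hk⟩ := key y hy y' hy' hne
      rw [h, dist_self] at hk
      exact hk.not_gt hη
    refine ⟨E.image p, by rwa [Finset.card_image_of_injOn hinj], fun z hz => ?_, ?_⟩
    · obtain ⟨y, hy, rfl⟩ := Finset.mem_image.1 hz
      have h4 : dist y x ≤ min ρ (η / 2) := by simpa using h1 y hy 0 le_rfl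
      rw [hc.dist_eq _ _ (by linarith [min_le_right ρ (η / 2)])]
      exact h4.trans (min_le_left _ _)
    · intro z hz z' hz' hne
      obtain ⟨y, hy, rfl⟩ := Finset.mem_image.1 (Finset.mem_coe.1 hz)
      obtain ⟨y', hy', rfl⟩ := Finset.mem_image.1 (Finset.mem_coe.1 hz')
      exact key y hy y' hy' fun h => hne (h ▸ rfl)

theorem mix_lift (hc : IsCov p ρ₀) (hF : ∀ y, p (F y) = g (p y))
    (uc' : UniformContinuous (F⁻¹ : Equiv.Perm Y))
    (htr : ∀ y y' : Y, p y = p y' → ∃ γ : Γ, γ • y = y') (h : MixM g) (ρ η : ℝ) (hρ : 0 < ρ)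
    (hη : 0 < η) : ∃ L₀ : ℕ, ∀ L : ℕ, L₀ ≤ L → ∀ x x', ∃ w, ∃ γ : Γ,
      Un F 0 ρ w x ∧ dist ((F ^ (L : ℤ)) w) (γ • x') ≤ η := by
  have h0 := hc.pos
  obtain ⟨η₁, hη₁, hu⟩ := Metric.uniformContinuous_iff.1 uc' ρ₀ h0
  obtain ⟨ρ', hρ', e1, e2, e3⟩ : ∃ ρ', 0 < ρ' ∧ ρ' ≤ ρ ∧ ρ' < η₁ ∧ ρ' < ρ₀ :=
    ⟨min ρ (min η₁ ρ₀ / 2), lt_min hρ (by positivity), min_le_left _ _,
      (min_le_right _ _).trans_lt (by linarith [min_le_left η₁ ρ₀]),
      (min_le_right _ _).trans_lt (by linarith [min_le_right η₁ ρ₀])⟩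
  obtain ⟨L₀, hL⟩ := h ρ' (min η (ρ₀ / 2)) hρ' (lt_min hη (by linarith))
  refine ⟨L₀, fun L hL' x x' => ?_⟩
  obtain ⟨w, w1, w2⟩ := hL L hL' (p x) (p x')
  have w3 : dist w (p x) ≤ ρ' := by simpa using w1 0 le_rfl
  obtain ⟨w, rfl, w4⟩ := hc.lift x w (by linarith)
  rw [← semiconj_zpow hF, dist_comm] at w2
  obtain ⟨y, y1, y2⟩ := hc.lift ((F ^ (L : ℤ)) w) (p x')
    (by linarith [min_le_right η (ρ₀ / 2)])
  obtain ⟨γ, rfl⟩ := htr x' y y1.symm
  refine ⟨w, γ, Un.mono (r := ρ') (fun k hk => ?_) le_rfl e1, ?_⟩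
  · induction k, hk using Int.leInductionDown with
    | base => simpa [w4]
    | pred k hk ih =>
      have := hu (ih.trans_lt e2)
      rw [← Equiv.Perm.mul_apply, ← Equiv.Perm.mul_apply, ← _root_.zpow_neg_one, ← _root_.zpow_add,
        neg_add_eq_sub] at this
      rw [← hc.dist_eq _ _ this, semiconj_zpow hF, semiconj_zpow hF]
      exact w1 _ (by omega)
  · rw [dist_comm, y2]
    exact w2.trans (min_le_left _ _)

omit [Group Γ] [MulAction Γ Y] in
theorem IsCov.lift_disc (hc : IsCov p ρ₀) {Z : Type*} [TopologicalSpace Z] {B : Set Z} {σ : Z → M}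
    (hσ : ContinuousOn σ B) (o : Y) {η : ℝ} (hη : 2 * η < ρ₀) (h : ∀ b ∈ B, dist (σ b) (p o) ≤ η) :
    ∃ τ : Z → Y, ContinuousOn τ B ∧ ∀ b ∈ B, p (τ b) = σ b ∧ dist (τ b) o ≤ η := by
  have h1 : ∀ b, ∃ y, b ∈ B → p y = σ b ∧ dist y o ≤ η := fun b => by
    by_cases hb : b ∈ B
    · have h2 := h b hb
      obtain ⟨y, y1, y2⟩ := hc.lift o (σ b) (by linarith [dist_nonneg.trans h2])
      exact ⟨y, fun _ => ⟨y1, y2 ▸ h2⟩⟩
    · exact ⟨o, fun h' => absurd h' hb⟩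
  choose τ hτ using h1
  refine ⟨τ, fun b hb => ?_, hτ⟩
  refine tendsto_iff_dist_tendsto_zero.2 ((tendsto_iff_dist_tendsto_zero.1 (hσ b hb)).congr' ?_)
  filter_upwards [self_mem_nhdsWithin] with b' hb'
  rw [← (hτ b hb).1, ← (hτ b' hb').1, hc.dist_eq]
  linarith [dist_triangle_right (τ b') (τ b) o, (hτ b hb).2, (hτ b' hb').2]

omit [Group Γ] [MulAction Γ Y] in
theorem IsCov.locPath [LocallyPathConnectedSpace M] (hc : IsCov p ρ₀) :
    LocallyPathConnectedSpace Y := by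
  refine ⟨fun y => hasBasis_self.2 fun t ht => ?_⟩
  have h0 := hc.pos
  obtain ⟨r₁, hr₁, hsub⟩ := Metric.nhds_basis_closedBall.mem_iff.1 ht
  obtain ⟨r, hr, e1, e2⟩ : ∃ r, 0 < r ∧ r ≤ r₁ ∧ 2 * r < ρ₀ :=
    ⟨min r₁ (ρ₀ / 3), lt_min hr₁ (by linarith), min_le_left _ _,
      by linarith [min_le_right r₁ (ρ₀ / 3)]⟩
  obtain ⟨V, ⟨V1, V2⟩, V3⟩ := (LocallyPathConnectedSpace.path_connected_basis (p y)).mem_iff.1
    (closedBall_mem_nhds (p y) hr)
  obtain ⟨τ, τ1, τ2⟩ := hc.lift_disc (B := V) (σ := id) continuousOn_id y e2 fun b hb => V3 hb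
  refine ⟨τ '' V, ?_, V2.image' τ1, ?_⟩
  · obtain ⟨r', hr', hV⟩ := Metric.mem_nhds_iff.1 V1
    filter_upwards [ball_mem_nhds y hr', ball_mem_nhds y hr] with y' h1 h2
    rw [mem_ball] at h1 h2
    have h3 : p y' ∈ V := hV (by rwa [mem_ball, hc.dist_eq _ _ (by linarith)])
    refine ⟨p y', h3, hc.eq ?_ (τ2 _ h3).1⟩
    linarith [dist_triangle_right (τ (p y')) y' y, (τ2 _ h3).2]
  · rintro _ ⟨b, hb, rfl⟩
    exact hsub ((τ2 b hb).2.trans e1)


end Pool.Agent.P.MP_5c499f_an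
end
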