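import Pool.Agent.K.MP_5c499f_an.C4

-- part Pool.Agent.P.MP_5c499f_an.XPor
section

/-! Twins give a smaller covering rate. -/

set_option autoImplicit false

namespace Pool.Agent.P.MP_5c499f_an

open Filter Topology Metric MeasureTheory Matrix

variable {Y Γ : Type*} [MetricSpace Y] [Group Γ] [MulAction Γ Y] {F : Equiv.Perm Y}
  {Φ : MulAut Γ} {ε δ C a b : ℝ}

namespace XPorX

variable (Γ) in
/-- The point is far from the orbit of `o`. -/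
def far (o : Y) (ρ : ℝ) (y : Y) : Prop := ∀ g : Γ, ρ < dist y (g • o)

variable (Γ) in
/-- Points of the unstable set which avoid the orbit at the times `l, 2l, …, tl`. -/
def AA (F : Equiv.Perm Y) (ε : ℝ) (o : Y) (ρ : ℝ) (l t : ℕ) (x : Y) : Set Y :=
  {y | Un F 0 (2 * ε) y x ∧ ∀ i : ℕ, 1 ≤ i → i ≤ t → far Γ o ρ ((F ^ ((i * l : ℕ) : ℤ)) y)}

variable (Γ) in
/-- `N` bounds the separated subsets at level `t`. -/
def Bd (F : Equiv.Perm Y) (ε : ℝ) (o : Y) (ρ : ℝ) (l t : ℕ) (N : ℝ) : Prop :=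
  ∀ x (E : Finset Y), ↑E ⊆ AA Γ F ε o ρ l t x → Sep F ((t * l : ℕ) : ℤ) (2 * ε) E →
    (E.card : ℝ) ≤ N

omit [MetricSpace Y] in
lemma cancel (k : ℤ) (y : Y) : (F ^ k) ((F ^ (-k)) y) = y := by
  rw [zpow_apply_zpow]; simp

omit [MetricSpace Y] in
lemma cancel' (k : ℤ) (y : Y) : (F ^ (-k)) ((F ^ k) y) = y := by
  rw [zpow_apply_zpow]; simp

lemma cast_le (l : ℕ) {i j : ℕ} (h : i ≤ j) : ((i * l : ℕ) : ℤ) ≤ ((j * l : ℕ) : ℤ) := by
  exact_mod_cast Nat.mul_le_mul_right l h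

lemma repl (h : LH F ε δ C a b) {d : ℕ} {G : Y → Fin d → ℝ}
    (hG : ∀ (n : ℤ) y y', G y = G y' → G ((F ^ n) y) = G ((F ^ n) y')) {o : Y} {ρ : ℝ} {T l : ℕ}
    (hρ : 0 < ρ) (hρε : ρ ≤ ε) (hT : T ≤ l) (hb : C * b ^ (l - T) ≤ ρ)
    (hd : ∀ y, (∃ g : Γ, dist y (g • o) ≤ 2 * ρ) →
      ∃ y', G y' = G y ∧ Un F (-T) ε y' y ∧ ∀ g : Γ, 2 * ρ < dist y' (g • o)) (t : ℕ) :
    ∀ y, ∃ y', G y' = G y ∧ Un F 0 ρ y' y ∧
      ∀ i : ℕ, 1 ≤ i → i ≤ t → far Γ o ρ ((F ^ ((i * l : ℕ) : ℤ)) y') := by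
  induction t with
  | zero => exact fun y => ⟨y, rfl, Un.refl _ hρ.le _, fun i h1 h2 => by omega⟩
  | succ t ih =>
    intro y
    obtain ⟨y1, e1, e2, e3⟩ : ∃ y1, G y1 = G y ∧ Un F (-T + l) ε y1 y ∧
        ∀ g : Γ, 2 * ρ < dist ((F ^ (l : ℤ)) y1) (g • o) := by
      by_cases hy : ∃ g : Γ, dist ((F ^ (l : ℤ)) y) (g • o) ≤ 2 * ρ
      · obtain ⟨w, w1, w2, w3⟩ := hd _ hy
        refine ⟨(F ^ (-(l : ℤ))) w, ?_, ?_, ?_⟩
        · rw [hG _ _ _ w1, cancel']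
        · rw [← Un_shift, cancel]; exact w2
        · rw [cancel]; exact w3
      · push Not at hy
        exact ⟨y, rfl, Un.refl _ h.ε_pos.le _, hy⟩
    obtain ⟨y2, f1, f2, f3⟩ := ih ((F ^ (l : ℤ)) y1)
    refine ⟨(F ^ (-(l : ℤ))) y2, ?_, ?_, fun i h1 h2 => ?_⟩
    · rw [hG _ _ _ f1, cancel', e1]
    · have g1 : Un F (0 + l) ρ ((F ^ (-(l : ℤ))) y2) y1 := by
        rw [← Un_shift, cancel]; exact f2
      have g2 := h.cu' (((g1.mono (k₁ := -T + l) (by omega) le_rfl).trans e2).mono le_rfl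
        (by linarith [h.ε_pos])) (l - T)
      exact g2.mono (by omega) hb
    · rw [zpow_apply_zpow]
      obtain ⟨j, rfl⟩ : ∃ j, i = j + 1 := ⟨i - 1, by omega⟩
      have : (((j + 1) * l : ℕ) : ℤ) + -(l : ℤ) = ((j * l : ℕ) : ℤ) := by push_cast; ring
      rw [this]
      rcases Nat.eq_zero_or_pos j with rfl | hj
      · intro g
        have g1 := f2 0 le_rfl
        have g2 := e3 g
        have g3 := dist_triangle ((F ^ (l : ℤ)) y1) y2 (g • o)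
        simp only [zpow_zero, Equiv.Perm.coe_one, id_eq, zero_mul, Nat.cast_zero] at g1 ⊢
        rw [dist_comm] at g1
        linarith
      · exact f3 j hj (by omega)

lemma split {r : ℝ} (hr : 0 ≤ r) (m : ℤ) (E : Finset Y) :
    ∃ E' : Finset Y, E' ⊆ E ∧ Sep F m r E' ∧ ∀ y ∈ E, ∃ z ∈ E', Un F m r y z := by
  obtain ⟨E', h1, h2, h3⟩ := exists_max_sep (R := Un F m r) (Un.refl m hr) (fun _ _ => Un.symm)
    (E : Set Y) (n := E.card) fun E' h _ => by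
      exact_mod_cast Finset.card_le_card (Finset.coe_subset.1 h)
  exact ⟨E', Finset.coe_subset.1 h1, h2, h3⟩

lemma sep_map {m n : ℤ} {η : ℝ} {D : Finset Y} (h : Sep F (n + m) η D) :
    Sep F n η (D.map (F ^ m).toEmbedding) := by
  intro u hu v hv huv
  obtain ⟨y, hy, rfl⟩ := Finset.mem_map.1 hu
  obtain ⟨y', hy', rfl⟩ := Finset.mem_map.1 hv
  have := h hy hy' fun e => huv (by rw [e])
  simpa [Un_shift] using this

lemma Bd.nonneg {o : Y} {ρ : ℝ} {l t : ℕ} {N : ℝ} (h : Bd Γ F ε o ρ l t N) : 0 ≤ N := by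
  simpa using h o ∅ (by simp) (by simp [Sep])

lemma Bd.mul (hε : 0 < ε) {o : Y} {ρ : ℝ} {l i j : ℕ} {N N' : ℝ} (h : Bd Γ F ε o ρ l i N)
    (h' : Bd Γ F ε o ρ l j N') : Bd Γ F ε o ρ l (i + j) (N * N') := by
  intro x E hE hS
  obtain ⟨E', e1, e2, e3⟩ := split (F := F) (r := 2 * ε) (by linarith) ((i * l : ℕ) : ℤ) E
  have c1 : (E'.card : ℝ) ≤ N := h x E' (fun y hy =>
    ⟨(hE (e1 hy)).1, fun k k1 k2 => (hE (e1 hy)).2 k k1 (by omega)⟩) e2
  have c2 : (E.card : ℝ) ≤ E'.card * N' := card_le_of_cover e3 fun z _ D hD hz => by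
    rw [← Finset.card_map (F ^ ((i * l : ℕ) : ℤ)).toEmbedding]
    refine h' ((F ^ ((i * l : ℕ) : ℤ)) z) _ (fun u hu => ?_)
      (sep_map (hS.mono (le_of_eq (by push_cast; ring)) le_rfl hD))
    obtain ⟨y, hy, rfl⟩ := Finset.mem_map.1 hu
    refine ⟨Un_shift.2 (by simpa using hz y hy), fun k k1 k2 => ?_⟩
    have := (hE (hD hy)).2 (k + i) (by omega) (by omega)
    simp only [Equiv.coe_toEmbedding, zpow_apply_zpow]
    convert this using 3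
    push_cast; ring
  exact c2.trans (mul_le_mul_of_nonneg_right c1 h'.nonneg)

lemma block {H c ρ : ℝ} {o : Y} {l : ℕ}
    (hm : ∀ x, ∃ w, ∃ g : Γ, Un F 0 (ρ / 8) w x ∧ dist ((F ^ (l : ℤ)) w) (g • o) ≤ ρ / 8)
    (hc : ∀ x (n : ℕ), ∃ E : Finset Y, (∀ y ∈ E, Un F 0 (ρ / 8) y x) ∧
      Sep F n ε E ∧ c * H ^ n ≤ E.card) (I i : ℕ) (z : Y) :
    ∃ B : Finset Y, i < I → (∀ v ∈ B, Un F ((i * l : ℕ) : ℤ) (ρ / 4) v z ∧
      ∃ g : Γ, dist ((F ^ (((i + 1) * l : ℕ) : ℤ)) v) (g • o) ≤ ρ / 4) ∧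
      Sep F ((I * l : ℕ) : ℤ) ε B ∧ c * H ^ ((I - i - 1) * l) ≤ B.card := by
  obtain ⟨w, g, w1, w2⟩ := hm ((F ^ ((i * l : ℕ) : ℤ)) z)
  obtain ⟨B, b1, b2, b3⟩ := hc ((F ^ (l : ℤ)) w) ((I - i - 1) * l)
  refine ⟨B.map (F ^ (-(((i + 1) * l : ℕ) : ℤ))).toEmbedding, fun hi => ⟨fun v hv => ?_, ?_, ?_⟩⟩
  · obtain ⟨y, hy, rfl⟩ := Finset.mem_map.1 hv
    simp only [Equiv.coe_toEmbedding]
    refine ⟨?_, g, ?_⟩
    · have g1 : Un F (0 + l) (ρ / 8) ((F ^ (-(l : ℤ))) y) w := by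
        rw [← Un_shift, cancel]; exact b1 y hy
      have g2 := (g1.mono (k₁ := 0) (by omega) le_rfl).trans w1
      have g3 : (F ^ (-(l : ℤ))) y =
          (F ^ ((i * l : ℕ) : ℤ)) ((F ^ (-(((i + 1) * l : ℕ) : ℤ))) y) := by
        rw [zpow_apply_zpow]; congr 2; push_cast; ring
      rw [g3, Un_shift] at g2
      exact g2.mono (by omega) (by linarith)
    · rw [cancel]
      have g1 := b1 y hy 0 le_rfl
      simp only [zpow_zero, Equiv.Perm.coe_one, id_eq] at g1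
      linarith [dist_triangle y ((F ^ (l : ℤ)) w) (g • o)]
  · refine sep_map (b2.mono (le_of_eq ?_) le_rfl subset_rfl)
    obtain ⟨k, rfl⟩ : ∃ k, I = i + 1 + k := ⟨I - i - 1, by omega⟩
    have : i + 1 + k - i - 1 = k := by omega
    rw [this]; push_cast; ring
  · rwa [Finset.card_map]

lemma gain {H c C₁ C₂ ρ : ℝ} {o : Y} {l : ℕ} (hρ : 0 < ρ) (hρε : ρ ≤ ε) (hH : 1 ≤ H)
    (hc0 : 0 < c) (hC : 0 ≤ C₁)
    (hm : ∀ x, ∃ w, ∃ g : Γ, Un F 0 (ρ / 8) w x ∧ dist ((F ^ (l : ℤ)) w) (g • o) ≤ ρ / 8)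
    (hc : ∀ x (n : ℕ), ∃ E : Finset Y, (∀ y ∈ E, Un F 0 (ρ / 8) y x) ∧
      Sep F n ε E ∧ c * H ^ n ≤ E.card)
    (h1 : ∀ x (n : ℕ) (E : Finset Y), (∀ y ∈ E, Un F 0 (4 * ε) y x) →
      Sep F n (2 * ε) E → (E.card : ℝ) ≤ C₁ * H ^ n)
    (h2 : ∀ x (n : ℕ) (E : Finset Y), (∀ y ∈ E, Un F 0 (4 * ε) y x) →
      Sep F n (ρ / 4) E → (E.card : ℝ) ≤ C₂ * H ^ n) (I : ℕ) (x : Y) (E : Finset Y)
    (hE : ↑E ⊆ AA Γ F ε o ρ l I x) (hS : Sep F ((I * l : ℕ) : ℤ) (2 * ε) E) :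
    I * c * E.card ≤ C₁ * H ^ l * (C₂ * H ^ (I * l)) := by
  classical
  choose Es e1 e2 e3 using fun i : ℕ =>
    split (F := F) (r := 2 * ε) (by linarith) ((i * l : ℕ) : ℤ) E
  choose B hB using block (Γ := Γ) hm hc I
  have hcov : ∀ i < I, (E.card : ℝ) ≤ (Es i).card * (C₁ * H ^ ((I - i) * l)) := fun i hi =>
    card_le_of_cover (e3 i) fun z _ D hD hz => by
      rw [← Finset.card_map (F ^ ((i * l : ℕ) : ℤ)).toEmbedding]
      refine h1 ((F ^ ((i * l : ℕ) : ℤ)) z) _ _ (fun u hu => ?_)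
        (sep_map (hS.mono (le_of_eq ?_) le_rfl hD))
      · obtain ⟨y, hy, rfl⟩ := Finset.mem_map.1 hu
        exact Un_shift.2 ((hz y hy).mono (by omega) (by linarith))
      · obtain ⟨k, rfl⟩ : ∃ k, I = i + k := ⟨I - i, by omega⟩
        rw [Nat.add_sub_cancel_left]; push_cast; ring
  set P := (Finset.range I).sigma Es with hP
  have hlt : ∀ p ∈ P, p.1 < I ∧ p.2 ∈ Es p.1 := fun p hp => by
    simpa [hP] using hp
  have key0 : ∀ i i' z z', i < i' → i' < I → z' ∈ E → ∀ v ∈ B i z, ∀ v' ∈ B i' z',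
      ¬ Un F ((I * l : ℕ) : ℤ) (ρ / 4) v v' := by
    intro i i' z z' hi hi' hz' v hv v' hv' hU
    obtain ⟨g, hg⟩ := ((hB i z (by omega)).1 v hv).2
    have g1 := hU _ (cast_le l (by omega : i + 1 ≤ I))
    have g2 := ((hB i' z' hi').1 v' hv').1 _ (cast_le l (by omega : i + 1 ≤ i'))
    have g3 := (hE hz').2 (i + 1) (by omega) (by omega) g
    have g4 := dist_triangle4 ((F ^ (((i + 1) * l : ℕ) : ℤ)) z')
      ((F ^ (((i + 1) * l : ℕ) : ℤ)) v') ((F ^ (((i + 1) * l : ℕ) : ℤ)) v) (g • o)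
    rw [dist_comm] at g1 g2
    linarith
  have key : ∀ p ∈ P, ∀ p' ∈ P, p ≠ p' → ∀ v ∈ B p.1 p.2, ∀ v' ∈ B p'.1 p'.2,
      ¬ Un F ((I * l : ℕ) : ℤ) (ρ / 4) v v' := by
    rintro ⟨i, z⟩ hp ⟨i', z'⟩ hp' hne v hv v' hv' hU
    obtain ⟨hi, hz⟩ := hlt _ hp
    obtain ⟨hi', hz'⟩ := hlt _ hp'
    rcases lt_trichotomy i i' with h | rfl | h
    · exact key0 i i' z z' h hi' (e1 _ hz') v hv v' hv' hU
    · refine e2 i hz hz' (fun e => hne (by simp only at e; rw [e])) ?_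
      exact ((((hB i z hi).1 v hv).1.symm.trans (hU.mono (cast_le l hi.le) le_rfl)).trans
        ((hB i z' hi).1 v' hv').1).mono le_rfl (by linarith)
    · exact key0 i' i z' z h hi (e1 _ hz) v' hv' v hv hU.symm
  have hU := h2 x (I * l) (P.biUnion fun p => B p.1 p.2) (fun v hv => by
    obtain ⟨p, hp, hv⟩ := Finset.mem_biUnion.1 hv
    exact ((((hB _ _ (hlt p hp).1).1 v hv).1.mono (k₁ := 0) (by omega) le_rfl).trans
      (hE (e1 _ (hlt p hp).2)).1).mono le_rfl (by linarith)) (fun v hv v' hv' hne => by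
    obtain ⟨p, hp, hv⟩ := Finset.mem_biUnion.1 hv
    obtain ⟨p', hp', hv'⟩ := Finset.mem_biUnion.1 hv'
    by_cases e : p = p'
    · subst e
      exact fun hU => (hB _ _ (hlt p hp).1).2.1 hv hv' hne (hU.mono le_rfl (by linarith))
    · exact key p hp p' hp' e v hv v' hv')
  rw [Finset.card_biUnion fun p hp p' hp' hne => Finset.disjoint_left.2 fun v hv hv' =>
    key p hp p' hp' hne v hv v hv' (Un.refl _ (by linarith) _), Nat.cast_sum, hP,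
    Finset.sum_sigma] at hU
  have hH0 : 0 ≤ C₁ * H ^ l := by positivity
  refine le_trans ?_ (mul_le_mul_of_nonneg_left hU hH0)
  rw [Finset.mul_sum]
  have : (I : ℝ) * c * E.card = ∑ _i ∈ Finset.range I, c * (E.card : ℝ) := by
    simp [mul_assoc]
  rw [this]
  refine Finset.sum_le_sum fun i hi => ?_
  have hi := Finset.mem_range.1 hi
  have g1 : ((Es i).card : ℝ) * (c * H ^ ((I - i - 1) * l)) ≤ ∑ z ∈ Es i, ((B i z).card : ℝ) := by
    rw [← nsmul_eq_mul]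
    exact Finset.card_nsmul_le_sum _ _ _ fun z _ => (hB i z hi).2.2
  have g2 : H ^ ((I - i) * l) = H ^ l * H ^ ((I - i - 1) * l) := by
    rw [← pow_add]; congr 1
    obtain ⟨k, hk⟩ : ∃ k, I - i = k + 1 := ⟨I - i - 1, by omega⟩
    rw [hk, Nat.add_sub_cancel]; ring
  have g3 := mul_le_mul_of_nonneg_left (hcov i hi) hc0.le
  have g4 := mul_le_mul_of_nonneg_left g1 hH0
  rw [g2] at g3
  refine le_trans (g3.trans (le_of_eq ?_)) g4
  ring

end XPorX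

open XPorX in
theorem Hs.thin (S : Hs F Φ ε δ C a b) {H : ℝ} (c : Cnt F ε H) {d : ℕ} {G : Y → Fin d → ℝ}
    (hG : ∀ (n : ℤ) y y', G y = G y' → G ((F ^ n) y) = G ((F ^ n) y')) (hd : Dup Γ F ε G) :
    ThinY F ε H G := by
  obtain ⟨o, ρ₀, T, hρ₀, hd⟩ := hd
  have hε := S.lh.ε_pos
  obtain ⟨ρ, hρ, hρε, hρ1⟩ : ∃ ρ, 0 < ρ ∧ ρ ≤ ε ∧ ρ ≤ ρ₀ :=
    ⟨min ε ρ₀, lt_min hε hρ₀, min_le_left _ _, min_le_right _ _⟩
  have hd' : ∀ y, (∃ g : Γ, dist y (g • o) ≤ 2 * ρ) →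
      ∃ y', G y' = G y ∧ Un F (-T) ε y' y ∧ ∀ g : Γ, 2 * ρ < dist y' (g • o) := by
    rintro y ⟨g, hg⟩
    obtain ⟨y', h1, h2, h3⟩ := hd y ⟨g, by linarith⟩
    exact ⟨y', h1, h2, fun g => by linarith [h3 g]⟩
  obtain ⟨L₀, hL⟩ := S.mix (ρ / 8) (ρ / 8) (by linarith) (by linarith)
  obtain ⟨j₀, hj⟩ : ∃ j₀ : ℕ, ∀ j ≥ j₀, C * b ^ j ≤ ρ := by
    have h2 : Tendsto (fun j : ℕ => C * b ^ j) atTop (𝓝 (C * 0)) :=
      (tendsto_pow_atTop_nhds_zero_of_lt_one S.lh.b_nonneg S.lh.b_lt).const_mul C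
    rw [mul_zero] at h2
    exact eventually_atTop.1 (h2.eventually (ge_mem_nhds hρ))
  obtain ⟨l, l0, lT, lL, lb⟩ : ∃ l : ℕ, 0 < l ∧ T ≤ l ∧ L₀ ≤ l ∧ C * b ^ (l - T) ≤ ρ :=
    ⟨T + L₀ + j₀ + 1, by omega, by omega, by omega, hj _ (by omega)⟩
  obtain ⟨c₀, hc₀, hlow⟩ := c.low (ρ / 8) (by linarith)
  obtain ⟨C₁, hC₁⟩ := c.up (2 * ε) (by linarith)
  obtain ⟨C₂, hC₂⟩ := c.up (ρ / 4) (by linarith)
  have hH := c.one_le
  have hg := gain (Γ := Γ) (C₁ := max C₁ 0) hρ hρε hH hc₀ (le_max_right _ _)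
    (fun x => hL l lL x o) hlow (fun x n E h1 h2 => (hC₁ x n E h1 h2).trans
      (mul_le_mul_of_nonneg_right (le_max_left _ _) (by positivity))) hC₂
  obtain ⟨I, hI⟩ := exists_nat_gt (max 0 (2 * (max C₁ 0 * H ^ l * C₂) / c₀))
  have I0 : (0 : ℝ) < I := (le_max_left _ _).trans_lt hI
  have I1 : 2 * (max C₁ 0 * H ^ l * C₂) < I * c₀ :=
    (div_lt_iff₀ hc₀).1 ((le_max_right _ _).trans_lt hI)
  have hB1 : Bd Γ F ε o ρ l I (H ^ (I * l) / 2) := fun x E h1 h2 => by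
    have g1 := hg I x E h1 h2
    have g2 : (0 : ℝ) < H ^ (I * l) := by positivity
    have g3 : 0 < I * c₀ := by positivity
    refine le_of_mul_le_mul_left ?_ g3
    nlinarith
  obtain ⟨N₀, hN⟩ := S.dbl (η := 2 * ε) (by linarith)
  have hBt : ∀ t : ℕ, Bd Γ F ε o ρ l (t * I) (N₀ * (H ^ (I * l) / 2) ^ t) := fun t => by
    induction t with
    | zero =>
      intro x E h1 h2
      simpa using hN x 0 E (fun y hy => (h1 hy).1.mono le_rfl (by linarith)) (by simpa using h2)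
    | succ t ih =>
      rw [Nat.succ_mul, pow_succ, ← mul_assoc]
      exact ih.mul hε hB1
  have I2 : 0 < I * l := Nat.mul_pos (by exact_mod_cast I0) l0
  refine ⟨(1 / 2) ^ (((I * l : ℕ) : ℝ))⁻¹, N₀, I * l, by positivity,
    Real.rpow_lt_one (by norm_num) (by norm_num) (by positivity), I2, fun x t => ?_⟩
  obtain ⟨E, h1, h2, h3⟩ := exists_max_sep (R := Un F ((t * I * l : ℕ) : ℤ) (2 * ε))
    (Un.refl _ (by linarith)) (fun _ _ => Un.symm) (AA Γ F ε o ρ l (t * I) x) (hBt t x)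
  refine ⟨E, (hBt t x E h1 h2).trans (le_of_eq ?_), fun y hy => ?_⟩
  · rw [mul_comm t, pow_mul _ (I * l) t, mul_pow,
      Real.rpow_inv_natCast_pow (by norm_num) I2.ne']
    ring
  · obtain ⟨y', g1, g2, g3⟩ := repl S.lh hG hρ hρε lT lb hd' (t * I) y
    obtain ⟨z, hz, g4⟩ := h3 y' ⟨(g2.trans hy).mono le_rfl (by linarith), g3⟩
    refine ⟨y', z, hz, g1, (g4 _ (le_of_eq (by rw [mul_assoc]))).trans (by linarith)⟩

end Pool.Agent.P.MP_5c499f_an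
end

-- part Pool.Agent.P.MP_5c499f_an.XUL
section

/-! Uniform lightness by the pigeonhole principle. -/

set_option autoImplicit false

namespace Pool.Agent.P.MP_5c499f_an

open Filter Topology Metric MeasureTheory Matrix

namespace XULX

lemma ivt {Y : Type*} {r : Y → Y → Prop} {φ : Y → ℝ} {σ : ℝ} {y c : Y} (hσ : 0 ≤ σ) (h0 : φ y = 0)
    (h1 : ∀ p q, r p q → φ q ≤ φ p + σ) (h : Relation.ReflTransGen r y c) :
    ∀ s, 0 ≤ s → s ≤ φ c → ∃ z, Relation.ReflTransGen r y z ∧ s - σ ≤ φ z ∧ φ z ≤ s := by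
  induction h with
  | refl => exact fun s a1 a2 => ⟨y, .refl, by linarith, by linarith⟩
  | @tail p q hp hpq ih =>
    intro s a1 a2
    by_cases a3 : s ≤ φ p
    · exact ih s a1 a3
    · exact ⟨p, hp, by linarith [h1 p q hpq], (not_le.1 a3).le⟩

lemma exists_theta {β : ℝ} (h : β < 1) (D : ℕ) : ∃ θ, 0 < θ ∧ β * (1 + θ) ^ D < 1 := by
  have h1 : Tendsto (fun θ : ℝ => β * (1 + θ) ^ D) (𝓝 0) (𝓝 (β * (1 + 0) ^ D)) :=
    (by fun_prop : Continuous fun θ : ℝ => β * (1 + θ) ^ D).tendsto 0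
  have h2 : ∀ᶠ θ : ℝ in 𝓝[>] 0, β * (1 + θ) ^ D < 1 :=
    (h1.eventually (gt_mem_nhds (by simpa using h))).filter_mono nhdsWithin_le_nhds
  exact (eventually_mem_nhdsWithin.and h2).exists

end XULX

variable {Y Γ : Type*} [MetricSpace Y] [Group Γ] [MulAction Γ Y] {F : Equiv.Perm Y}
  {Φ : MulAut Γ} {ε δ C a b : ℝ}
variable {d : ℕ} {J G : Y → Fin d → ℝ} {A : Γ → Fin d → ℝ} {L : ℤ → Matrix (Fin d) (Fin d) ℝ}
  {ρ : Fin d → ℝ}

namespace XULX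

lemma sub_eq (ab : Ab Φ J A L ρ) (y : Y) (g g' : Γ) : A (g * g'⁻¹) = A g - A g' := by
  have h1 := ab.eqv (g * g'⁻¹) (g' • y)
  rw [smul_smul, inv_mul_cancel_right, ab.eqv, ab.eqv, add_assoc] at h1
  rw [add_left_cancel h1]
  abel

lemma near (S : Hs F Φ ε δ C a b) (ab : Ab Φ J A L ρ) (h : Once F A) {z z' t : Y} {g g' : Γ}
    (h1 : dist z (g • t) ≤ δ) (h2 : dist z' (g' • t) ≤ δ) (h3 : A g = A g')
    (h4 : Asym (F⁻¹ : Equiv.Perm Y) z z') : Un F 0 ε z' z := by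
  have hε := S.lh.ε_pos
  have a1 : dist ((g * g'⁻¹) • z') z ≤ 2 * δ := by
    have a2 : dist ((g * g'⁻¹) • z') (g • t) ≤ δ := by
      rwa [← S.iso (g * g'⁻¹), smul_smul _ g', inv_mul_cancel_right] at h2
    linarith [dist_triangle_right ((g * g'⁻¹) • z') z (g • t)]
  obtain ⟨v, v1, v2⟩ := S.lh.br _ _ a1
  have a3 : v = z' := by
    refine h z' v (g * g'⁻¹)⁻¹ ?_ ((S.lh.asym_of_un (v2.mono le_rfl (by linarith))).trans h4) ?_
    · rw [_root_.mul_inv_rev, inv_inv, sub_eq ab z, h3, sub_self]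
    · rw [← S.asym_smul (g * g'⁻¹), smul_inv_smul]
      exact S.lh.asym_of_st (v1.mono le_rfl (by linarith))
  exact a3 ▸ v2

lemma labels (S : Hs F Φ ε δ C a b) (ab : Ab Φ J A L ρ) : ∃ (T : Finset Y) (R : ℝ), 0 ≤ R ∧
    ∀ z, ∃ g : Γ, ∃ t ∈ T, dist z (g • t) ≤ δ ∧ ‖J z - A g‖ ≤ R := by
  obtain ⟨T, hT⟩ := S.net S.lh.δ_pos
  obtain ⟨-, R0, h0⟩ := S.ucd ab.cont fun g y y' => by rw [ab.eqv, ab.eqv]; abel
  obtain ⟨R1, h1⟩ := (T.finite_toSet.image fun t => ‖J t‖).bddAbove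
  have hε := S.lh.ε_pos
  have hδ := S.lh.δ_le
  refine ⟨T, |R0| + |R1|, by positivity, fun z => ?_⟩
  obtain ⟨g, t, ht, h2⟩ := hT z
  refine ⟨g, t, ht, h2, ?_⟩
  have h3 := h0 z (g • t) (by linarith)
  have h4 : ‖J t‖ ≤ R1 := h1 ⟨t, ht, rfl⟩
  have h5 : J z - A g = (J z - J (g • t)) + J t := by rw [ab.eqv]; abel
  rw [h5]
  exact (norm_add_le _ _).trans (add_le_add (h3.trans (le_abs_self _)) (h4.trans (le_abs_self _)))

end XULX

theorem Hs.ulight (S : Hs F Φ ε δ C a b) (ab : Ab Φ J A L ρ) (gg : GG F ε J A L ρ G)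
    (h : Once F A) : ULight F ε G := by
  classical
  intro R
  have hε := S.lh.ε_pos
  have hC := S.lh.C_nonneg
  have hb0 := S.lh.b_nonneg
  have hb1 := S.lh.b_lt
  obtain ⟨β, hβ⟩ : ∃ β : ℝ, β = (b + 1) / 2 := ⟨_, rfl⟩
  have hβ0 : 0 < β := by linarith
  obtain ⟨C1, D, hcnt⟩ := ab.cnt
  have hC1 : 0 ≤ C1 := by simpa using hcnt 0 le_rfl ∅ (by simp)
  obtain ⟨θ, hθ, hq⟩ := XULX.exists_theta (show β < 1 by linarith) D
  obtain ⟨C2, hctl⟩ := gg.ctl θ hθ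
  obtain ⟨T, R2, hR2, hT⟩ := XULX.labels S ab
  obtain ⟨K, hK⟩ : ∃ K : ℝ, K = 1 + 2 * |R| + 2 * |C2| + 2 * R2 := ⟨_, rfl⟩
  have hlim : Tendsto (fun k : ℕ => 3 * (C + 1) * T.card * C1 * K ^ D * (β * (1 + θ) ^ D) ^ k)
      atTop (𝓝 (3 * (C + 1) * T.card * C1 * K ^ D * 0)) :=
    (tendsto_pow_atTop_nhds_zero_of_lt_one (by positivity) hq).const_mul _
  obtain ⟨N, hN⟩ := eventually_atTop.1 (hlim.eventually (gt_mem_nhds (by simpa using hε)))
  refine ⟨N, fun Z y hZ c hc k' hk' => ?_⟩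
  obtain ⟨k, rfl⟩ : ∃ k : ℕ, k' = -(k : ℤ) := ⟨(-k').toNat, by omega⟩
  by_contra hne
  rw [not_le] at hne
  obtain ⟨σ, hσ⟩ : ∃ σ : ℝ, σ = (C + 1) * β ^ k := ⟨_, rfl⟩
  have hσ0 : 0 < σ := by rw [hσ]; positivity
  obtain ⟨φ, hφ⟩ : ∃ φ : Y → ℝ, ∀ z, φ z = dist ((F ^ (-(k : ℤ))) z) ((F ^ (-(k : ℤ))) y) :=
    ⟨_, fun _ => rfl⟩
  have hstep : ∀ p q, Un F 0 ε q p → φ q ≤ φ p + σ := by
    intro p q hpq
    have a1 := S.lh.cu q p (hpq.mono le_rfl (by linarith)) k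
    have a2 : C * b ^ k ≤ σ := by
      rw [hσ]; gcongr <;> linarith
    rw [hφ, hφ]
    linarith [dist_triangle ((F ^ (-(k : ℤ))) q) ((F ^ (-(k : ℤ))) p) ((F ^ (-(k : ℤ))) y)]
  have hch : ∀ z, Relation.ReflTransGen (fun p q => q ∈ Z ∧ Un F 0 ε q p) y z →
      Asym (F⁻¹ : Equiv.Perm Y) z y ∧ ‖G z - G y‖ ≤ |R| := by
    intro z hz
    induction hz with
    | refl => exact ⟨Asym.refl _ _, by simp⟩
    | tail _ hpq ih => exact ⟨(S.lh.asym_of_un (hpq.2.mono le_rfl (by linarith))).trans ih.1,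
        (hZ _ hpq.1).trans (le_abs_self _)⟩
  have hivt := XULX.ivt (φ := φ) hσ0.le (by rw [hφ, dist_self]) (fun p q e => hstep p q e.2) hc
  obtain ⟨m, hm⟩ : ∃ m : ℕ, m = ⌊ε / (3 * σ)⌋₊ + 1 := ⟨_, rfl⟩
  have hm1 : ε < m * (3 * σ) := by
    rw [← div_lt_iff₀ (by positivity), hm]
    push_cast
    exact Nat.lt_floor_add_one _
  have hm2 : ∀ j < m, (j : ℝ) * (3 * σ) ≤ ε := by
    intro j hj
    rw [← le_div_iff₀ (by positivity), ← Nat.le_floor_iff (by positivity)]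
    omega
  have hz : ∀ j : ℕ, ∃ z, j < m → (Asym (F⁻¹ : Equiv.Perm Y) z y ∧ ‖G z - G y‖ ≤ |R|) ∧
      j * (3 * σ) - σ ≤ φ z ∧ φ z ≤ j * (3 * σ) := by
    intro j
    by_cases hj : j < m
    · obtain ⟨z, a1, a2⟩ := hivt (j * (3 * σ)) (by positivity)
        ((hm2 j hj).trans (by rw [hφ]; exact hne.le))
      exact ⟨z, fun _ => ⟨hch z a1, a2⟩⟩
    · exact ⟨y, fun e => (hj e).elim⟩
  choose z hz using hz
  choose g t ht hd hJ using fun j => hT (z j)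
  have hθk : 1 ≤ (1 + θ) ^ k := one_le_pow₀ (by linarith)
  have hJy : ∀ j < m, ‖J (z j) - J y‖ ≤ |R| + |C2| * (1 + θ) ^ k := by
    intro j hj
    obtain ⟨⟨-, a1⟩, -, a2⟩ := hz j hj
    have a3 := hctl k (z j) y (by rw [← hφ]; linarith [hm2 j hj])
    have a4 : C2 * (1 + θ) ^ k ≤ |C2| * (1 + θ) ^ k := by gcongr; exact le_abs_self _
    linarith
  obtain ⟨s, hs⟩ : ∃ s, s = (Finset.range m).image fun j => A (g j) - A (g 0) := ⟨_, rfl⟩
  obtain ⟨Rk, hRk⟩ : ∃ Rk : ℝ, Rk = 2 * (|R| + |C2| * (1 + θ) ^ k) + 2 * R2 := ⟨_, rfl⟩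
  have hRk0 : 0 ≤ Rk := by rw [hRk]; positivity
  have c1 : (s.card : ℝ) ≤ C1 * (1 + Rk) ^ D := by
    refine hcnt Rk hRk0 s fun w hw => ?_
    rw [hs] at hw
    obtain ⟨j, hj, rfl⟩ := Finset.mem_image.1 hw
    refine ⟨⟨_, XULX.sub_eq ab y _ _⟩, ?_⟩
    have a1 := hJy j (Finset.mem_range.1 hj)
    have a2 := hJy 0 (by omega)
    have a3 : A (g j) - A (g 0) = ((J (z j) - J y) - (J (z 0) - J y)) -
        ((J (z j) - A (g j)) - (J (z 0) - A (g 0))) := by abel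
    rw [a3]
    refine (norm_sub_le _ _).trans ((add_le_add (norm_sub_le _ _) (norm_sub_le _ _)).trans ?_)
    linarith [hJ j, hJ 0]
  have key : ∀ j < m, ∀ j' < m, t j = t j' → A (g j) = A (g j') → j' ≤ j := by
    intro j hj j' hj' e1 e2
    have a1 := hstep _ _ (XULX.near S ab h (hd j) (e1 ▸ hd j') e2
      ((hz j hj).1.1.trans (hz j' hj').1.1.symm))
    by_contra a2
    have a3 : (j : ℝ) + 1 ≤ j' := by exact_mod_cast not_le.1 a2
    nlinarith [(hz j hj).2.2, (hz j' hj').2.1]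
  have c2 : (Finset.range m).card ≤ (T ×ˢ s).card := by
    refine Finset.card_le_card_of_injOn (fun j => (t j, A (g j) - A (g 0)))
      (fun j hj => Finset.mem_coe.2 (Finset.mem_product.2 ⟨ht j, hs ▸ Finset.mem_image_of_mem _
        (Finset.mem_coe.1 hj)⟩)) fun j hj j' hj' e => ?_
    have a1 := Finset.mem_range.1 (Finset.mem_coe.1 hj)
    have a2 := Finset.mem_range.1 (Finset.mem_coe.1 hj')
    have e1 : t j = t j' := congrArg Prod.fst e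
    have e2 : A (g j) = A (g j') := sub_left_injective (congrArg Prod.snd e)
    exact le_antisymm (key j' a2 j a1 e1.symm e2.symm) (key j a1 j' a2 e1 e2)
  rw [Finset.card_range, Finset.card_product] at c2
  have c3 : (m : ℝ) ≤ T.card * s.card := by exact_mod_cast c2
  have c4 : 1 + Rk ≤ K * (1 + θ) ^ k := by
    rw [hRk, hK]
    nlinarith [abs_nonneg R, abs_nonneg C2]
  have c5 : (m : ℝ) ≤ T.card * (C1 * (K * (1 + θ) ^ k) ^ D) :=
    c3.trans (by gcongr; exact c1.trans (by gcongr))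
  have c6 := hN k (by omega)
  have c7 : 3 * (C + 1) * T.card * C1 * K ^ D * (β * (1 + θ) ^ D) ^ k =
      T.card * (C1 * (K * (1 + θ) ^ k) ^ D) * (3 * σ) := by
    rw [hσ, mul_pow, mul_pow, ← pow_mul, ← pow_mul, mul_comm D k]
    ring
  have c8 := mul_le_mul_of_nonneg_right c5 (by positivity : 0 ≤ 3 * σ)
  linarith


end Pool.Agent.P.MP_5c499f_an
end

-- part Pool.Agent.P.MP_5c499f_an.XDup
section

/-! Persistence of intersections of leaves, and twins. -/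

set_option autoImplicit false

namespace Pool.Agent.P.MP_5c499f_an

open Filter Topology Metric MeasureTheory Matrix

variable {Y Γ : Type*} [MetricSpace Y] [Group Γ] [MulAction Γ Y] {F : Equiv.Perm Y}
  {Φ : MulAut Γ} {ε δ C a b : ℝ}

namespace XDupX

lemma level {G : Equiv.Perm Y} {w x : Y} (h : Asym G w x) {C b δ η : ℝ} (hb : 0 ≤ b) (hb' : b < 1)
    (hδ : 0 < δ) (hη : 0 < η) :
    ∃ l : ℕ, dist ((G ^ (l : ℤ)) w) ((G ^ (l : ℤ)) x) ≤ δ ∧ C * b ^ l ≤ η := by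
  have h2 : Tendsto (fun j : ℕ => C * b ^ j) atTop (𝓝 (C * 0)) :=
    (tendsto_pow_atTop_nhds_zero_of_lt_one hb hb').const_mul C
  obtain ⟨l, h3, h4⟩ := ((h.eventually (ge_mem_nhds hδ)).and
    (h2.eventually (ge_mem_nhds (by simpa using hη)))).exists
  exact ⟨l, by simpa [Equiv.Perm.iterate_eq_pow] using h3, h4⟩

lemma cont (S : Hs F Φ ε δ C a b) (l : ℤ) {η : ℝ} (hη : 0 < η) :
    ∃ η', 0 < η' ∧ ∀ x x', dist x' x ≤ η' → dist ((F ^ l) x') ((F ^ l) x) ≤ η := by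
  obtain ⟨η', h1, h2⟩ := Metric.uniformContinuous_iff_le.1 (uc_zpow S.uc S.uc' l) η hη
  exact ⟨η', h1, fun _ _ h3 => h2 h3⟩

end XDupX

theorem Hs.persist1 (S : Hs F Φ ε δ C a b) {w x : Y} (h : Asym F w x) {η : ℝ} (hη : 0 < η) :
    ∃ η', 0 < η' ∧ ∀ x', dist x' x ≤ η' → ∃ w', Asym F w' x' ∧ Un F 0 η w' w := by
  have hε := S.lh.ε_pos
  obtain ⟨l, h1, h2⟩ := XDupX.level (C := C) h S.lh.b_nonneg S.lh.b_lt S.lh.δ_pos hη
  obtain ⟨η', h3, h4⟩ := XDupX.cont S l S.lh.δ_pos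
  refine ⟨η', h3, fun x' hx' => ?_⟩
  obtain ⟨z, z1, z2⟩ := S.lh.br' l (x := x') (y := w) (by
    linarith [dist_triangle_right ((F ^ (l : ℤ)) x') ((F ^ (l : ℤ)) w) ((F ^ (l : ℤ)) x),
      h4 x x' hx'])
  exact ⟨z, S.lh.asym_of_st (z1.mono le_rfl (by linarith)),
    (S.lh.cu' (z2.mono le_rfl (by linarith)) l).mono (by omega) h2⟩

theorem Hs.persist (S : Hs F Φ ε δ C a b) {w x y : Y} (h : Asym F w x)
    (h' : Asym (F⁻¹ : Equiv.Perm Y) w y) {η : ℝ} (hη : 0 < η) :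
    ∃ (η' : ℝ) (T : ℕ), 0 < η' ∧ ∀ x' y', dist x' x ≤ η' → dist y' y ≤ η' →
      ∃ w', Asym F w' x' ∧ Un F (-T) ε w' y' ∧ dist w' w ≤ η := by
  have hε := S.lh.ε_pos
  have hδ := S.lh.δ_pos
  obtain ⟨η1, a1, a2⟩ := S.persist1 h (η := min δ η / 2) (by positivity)
  obtain ⟨l, h1, h2⟩ := XDupX.level (C := C) h' S.lh.a_nonneg S.lh.a_lt (half_pos hδ) (half_pos hη)
  rw [_root_.inv_zpow'] at h1
  obtain ⟨η2, h3, h4⟩ := XDupX.cont S (-l) hδ
  refine ⟨min η1 η2, l, lt_min a1 h3, fun x' y' hx' hy' => ?_⟩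
  obtain ⟨w1, b1, b2⟩ := a2 x' (hx'.trans (min_le_left _ _))
  have b3 := h4 y y' (hy'.trans (min_le_right _ _))
  have b4 := b2 (-l) (by omega)
  have b5 : dist w1 w ≤ min δ η / 2 := by simpa using b2 0 le_rfl
  have m1 := min_le_left δ η
  have m2 := min_le_right δ η
  obtain ⟨z, z1, z2⟩ := S.lh.br' (-l) (x := w1) (y := y') (by
    linarith [dist_triangle4_right ((F ^ (-l : ℤ)) w1) ((F ^ (-l : ℤ)) y') ((F ^ (-l : ℤ)) w)
      ((F ^ (-l : ℤ)) y)])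
  have z3 := z1.mono le_rfl (show ε ≤ 4 * ε by linarith)
  have z4 : dist z w1 ≤ C * a ^ l := by simpa using S.lh.cs' z3 l 0 (by omega)
  exact ⟨z, (S.lh.asym_of_st z3).trans b1, z2, by linarith [dist_triangle z w1 w]⟩

variable {d : ℕ} {J G : Y → Fin d → ℝ} {A : Γ → Fin d → ℝ} {L : ℤ → Matrix (Fin d) (Fin d) ℝ}
  {ρ : Fin d → ℝ}

theorem Hs.dup (S : Hs F Φ ε δ C a b) (gg : GG F ε J A L ρ G) (h : ¬ Once F A) :
    Dup Γ F ε G := by
  have hε := S.lh.ε_pos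
  obtain ⟨y0, y1, γ, h1, h2, h3, h4⟩ : ∃ y y', ∃ g : Γ, A g = 0 ∧
      Asym (F⁻¹ : Equiv.Perm Y) y' y ∧ Asym F (g • y') y ∧ y' ≠ y := by
    by_contra hn
    exact h fun y y' g a1 a2 a3 => by_contra fun a4 => hn ⟨y, y', g, a1, a2, a3, a4⟩
  obtain ⟨κ, hκ, hfar⟩ : ∃ κ, 0 < κ ∧ ∀ g : Γ, κ ≤ dist y1 (g • y0) := by
    by_cases hg : ∃ g : Γ, dist y1 (g • y0) ≤ 5 * ε
    · obtain ⟨g0, hg0⟩ := hg
      refine ⟨dist y1 (g0 • y0), dist_pos.2 fun e => ?_, fun g => ?_⟩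
      · rw [e] at h2
        rw [S.free_un h2, one_smul] at e
        exact h4 e
      · by_contra a1
        rw [not_le] at a1
        have a2 : g0⁻¹ * g = 1 := S.disc _ y0 (by
          rw [← S.iso g0, smul_smul, mul_inv_cancel_left]
          linarith [dist_triangle_left (g • y0) (g0 • y0) y1])
        rw [← inv_mul_eq_one.1 a2] at a1
        exact lt_irrefl _ a1
    · exact ⟨5 * ε, by linarith, fun g => (not_le.1 fun e => hg ⟨g, e⟩).le⟩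
  have h5 : Asym F y1 (γ⁻¹ • y0) := by rwa [← S.asym_smul γ, smul_inv_smul]
  obtain ⟨η', T, b1, b2⟩ := S.persist h5 h2 (half_pos hκ)
  have m1 := min_le_left (η' / 2) (κ / 8)
  have m2 := min_le_right (η' / 2) (κ / 8)
  refine ⟨y0, min (η' / 2) (κ / 8), T, by positivity, ?_⟩
  rintro y ⟨g, hg⟩
  have c1 : dist (g⁻¹ • y) y0 ≤ η' := by
    rw [← S.iso g, smul_inv_smul]; linarith
  obtain ⟨w', c2, c3, c4⟩ := b2 (γ⁻¹ • g⁻¹ • y) (g⁻¹ • y) (by rwa [S.iso]) c1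
  refine ⟨g • w', ?_, ?_, fun g' => ?_⟩
  · have d1 := gg.tr g w' (g⁻¹ • y)
    have d2 := gg.ker γ (γ⁻¹ • g⁻¹ • y) h1
    rw [smul_inv_smul] at d1 d2
    rw [gg.st _ _ c2, ← d2, sub_self] at d1
    exact sub_eq_zero.1 d1
  · rwa [← S.un_smul g, smul_inv_smul] at c3
  · have d1 := hfar (g⁻¹ * g')
    rw [← S.iso g⁻¹, inv_smul_smul, smul_smul]
    linarith [dist_triangle_left y1 ((g⁻¹ * g') • y0) w']


end Pool.Agent.P.MP_5c499f_an
end

-- part Pool.Agent.P.MP_5c499f_an.XGps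
section

/-! Sliding unstable paths along stable leaves. -/

set_option autoImplicit false

namespace Pool.Agent.P.MP_5c499f_an

open Filter Topology Metric MeasureTheory Matrix

variable {Y Γ : Type*} [MetricSpace Y] [Group Γ] [MulAction Γ Y] {F : Equiv.Perm Y}
  {Φ : MulAut Γ} {ε δ C a b : ℝ}
variable {d : ℕ} {J G : Y → Fin d → ℝ} {A : Γ → Fin d → ℝ} {L : ℤ → Matrix (Fin d) (Fin d) ℝ}
  {ρ : Fin d → ℝ}

namespace XGpsX

lemma uniq (h : Once F A) (h1 : A 1 = 0) {x y w w' : Y} (a1 : Asym F w x)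
    (a2 : Asym (F⁻¹ : Equiv.Perm Y) w y) (b1 : Asym F w' x)
    (b2 : Asym (F⁻¹ : Equiv.Perm Y) w' y) : w' = w :=
  h w w' 1 h1 (b2.trans a2.symm) (by rw [one_smul]; exact b1.trans a1.symm)

/-- Along a slid path the intersection points stay on a bounded piece of the unstable leaf. -/
lemma slide (S : Hs F Φ ε δ C a b) (gg : GG F ε J A L ρ G) (h : Once F A) (h1 : A 1 = 0)
    {c : ℝ → Y} (hc : Continuous c) {R : ℝ} {T : ℕ}
    (hR : ∀ s ∈ Set.Icc (0 : ℝ) 1, ∀ t ∈ Set.Icc (0 : ℝ) 1, ‖G (c s) - G (c t)‖ ≤ R)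
    (hT : ∀ (Z : Set Y) (y : Y), (∀ z ∈ Z, ‖G z - G y‖ ≤ R) →
      ∀ z, Relation.ReflTransGen (fun p q => q ∈ Z ∧ Un F 0 ε q p) y z → Un F (-T) ε z y)
    {t : ℝ} (ht : t ∈ Set.Icc (0 : ℝ) 1) {w : ℝ → Y}
    (hw : ∀ s ∈ Set.Icc t 1, Asym F (w s) (c s) ∧ Asym (F⁻¹ : Equiv.Perm Y) (w s) (c t))
    {s : ℝ} (hs : s ∈ Set.Icc t 1) : Un F (-T) ε (w s) (c t) := by
  have htt : t ∈ Set.Icc t 1 := ⟨le_rfl, ht.2⟩
  have e0 : w t = c t :=
    uniq h h1 (Asym.refl _ _) (Asym.refl _ _) (hw t htt).1 (hw t htt).2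
  refine hT (w '' Set.Icc t 1) (c t) ?_ _ ?_
  · rintro _ ⟨s', hs', rfl⟩
    rw [gg.st _ _ (hw s' hs').1]
    exact hR s' ⟨ht.1.trans hs'.1, hs'.2⟩ t ht
  · rw [← e0]
    have key := (isPreconnected_Icc (a := t) (b := 1)).induction₂'
      (fun s₁ s₂ => s₁ ∈ Set.Icc t 1 → s₂ ∈ Set.Icc t 1 →
        Relation.ReflTransGen (fun p q => q ∈ w '' Set.Icc t 1 ∧ Un F 0 ε q p) (w s₁) (w s₂))
      (fun s₁ hs₁ => ?_) (fun x y z hx hy hz p q _ _ => (p hx hy).trans (q hy hz)) htt hs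
    · exact key htt hs
    obtain ⟨η, η0, hη⟩ := S.persist1 (hw s₁ hs₁).1 S.lh.ε_pos
    have hn : ∀ᶠ s₂ in 𝓝 s₁, dist (c s₂) (c s₁) ≤ η :=
      (hc.tendsto s₁).eventually (closedBall_mem_nhds _ η0)
    filter_upwards [nhdsWithin_le_nhds hn, self_mem_nhdsWithin] with s₂ d₂ hs₂
    obtain ⟨w', b1, b2⟩ := hη _ d₂
    have b3 : Asym (F⁻¹ : Equiv.Perm Y) w' (c t) :=
      (S.lh.asym_of_un (b2.mono le_rfl (by linarith [S.lh.ε_pos]))).trans (hw s₁ hs₁).2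
    have e : w' = w s₂ := uniq h h1 (hw s₂ hs₂).1 (hw s₂ hs₂).2 b1 b3
    rw [e] at b2
    exact ⟨fun _ _ => Relation.ReflTransGen.single ⟨⟨s₂, hs₂, rfl⟩, b2⟩,
      fun _ _ => Relation.ReflTransGen.single ⟨⟨s₁, hs₁, rfl⟩, b2.symm⟩⟩

lemma exist (S : Hs F Φ ε δ C a b) (gg : GG F ε J A L ρ G) (h : Once F A) (h1 : A 1 = 0)
    (ul : ULight F ε G) {c : ℝ → Y} (hc : Continuous c) :
    ∃ w, Asym F w (c 1) ∧ Asym (F⁻¹ : Equiv.Perm Y) w (c 0) := by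
  have hε := S.lh.ε_pos
  have hδ := S.lh.δ_pos
  have : Nonempty Y := ⟨c 0⟩
  obtain ⟨R₀, hR₀⟩ := (isCompact_Icc (a := (0 : ℝ)) (b := 1)).exists_bound_of_continuousOn
    (gg.cont.comp hc).continuousOn
  have hR : ∀ s ∈ Set.Icc (0 : ℝ) 1, ∀ t ∈ Set.Icc (0 : ℝ) 1, ‖G (c s) - G (c t)‖ ≤ R₀ + R₀ :=
    fun s hs t ht => (norm_sub_le _ _).trans (add_le_add (hR₀ s hs) (hR₀ t ht))
  obtain ⟨T, hT⟩ := ul (R₀ + R₀)
  obtain ⟨j, hj⟩ : ∃ j : ℕ, C * b ^ j ≤ δ := by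
    have h2 : Tendsto (fun j : ℕ => C * b ^ j) atTop (𝓝 (C * 0)) :=
      (tendsto_pow_atTop_nhds_zero_of_lt_one S.lh.b_nonneg S.lh.b_lt).const_mul C
    rw [mul_zero] at h2
    exact (h2.eventually (ge_mem_nhds hδ)).exists
  set l : ℤ := -(T : ℤ) - j with hl
  have hcl : Continuous fun t => (F ^ l) (c t) := (uc_zpow S.uc S.uc' l).continuous.comp hc
  obtain ⟨δ₀, δ0, hδ₀⟩ := Metric.uniformContinuousOn_iff_le.1
    ((isCompact_Icc (a := (0 : ℝ)) (b := 1)).uniformContinuousOn_of_continuous hcl.continuousOn)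
    δ hδ
  have near : ∀ s ∈ Set.Icc (0 : ℝ) 1, ∀ t ∈ Set.Icc (0 : ℝ) 1, t ≤ s → s ≤ t + δ₀ →
      dist ((F ^ l) (c s)) ((F ^ l) (c t)) ≤ δ := fun s hs t ht e1 e2 =>
    hδ₀ s hs t ht (by rw [Real.dist_eq, abs_le]; constructor <;> linarith)
  have brk : ∀ x y : Y, dist ((F ^ l) x) ((F ^ l) y) ≤ 2 * δ →
      ∃ z, Asym F z x ∧ Asym (F⁻¹ : Equiv.Perm Y) z y := fun x y hxy => by
    obtain ⟨z, z1, z2⟩ := S.lh.br' l hxy
    exact ⟨z, S.lh.asym_of_st (z1.mono le_rfl (by linarith)),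
      S.lh.asym_of_un (z2.mono le_rfl (by linarith))⟩
  have main : ∀ n : ℕ, ∀ t ∈ Set.Icc (0 : ℝ) 1, 1 - n * δ₀ ≤ t → ∀ s ∈ Set.Icc t 1,
      ∃ w, Asym F w (c s) ∧ Asym (F⁻¹ : Equiv.Perm Y) w (c t) := by
    intro n
    induction n with
    | zero =>
      intro t ht e s hs
      have e1 : s = t := by
        have := hs.1
        have := hs.2
        simp only [Nat.cast_zero, zero_mul, sub_zero] at e
        linarith
      rw [e1]
      exact ⟨c t, Asym.refl _ _, Asym.refl _ _⟩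
    | succ n ih =>
      intro t' ht' e s hs
      have hs01 : s ∈ Set.Icc (0 : ℝ) 1 := ⟨ht'.1.trans hs.1, hs.2⟩
      by_cases hst : s ≤ t' + δ₀
      · exact brk _ _ ((near s hs01 t' ht' hs.1 hst).trans (by linarith))
      have hst' : t' + δ₀ ≤ s := (not_le.1 hst).le
      have ht : t' + δ₀ ∈ Set.Icc (0 : ℝ) 1 := ⟨by linarith [ht'.1], hst'.trans hs.2⟩
      have ih' := ih (t' + δ₀) ht (by push_cast at e; linarith)
      choose! w hw using ih'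
      have u1 := slide S gg h h1 hc hR hT ht hw (s := s) ⟨hst', hs.2⟩
      have u2 := S.lh.cu' (u1.mono le_rfl (by linarith)) j l le_rfl
      have u3 := near _ ht t' ht' (by linarith) le_rfl
      obtain ⟨z, z1, z2⟩ := brk (w s) (c t') ((dist_triangle _ _ _).trans
        ((add_le_add (u2.trans hj) u3).trans (by linarith)))
      exact ⟨z, z1.trans (hw s ⟨hst', hs.2⟩).1, z2⟩
  obtain ⟨n, hn⟩ := exists_nat_ge (1 / δ₀)
  rw [div_le_iff₀ δ0] at hn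
  exact main n 0 ⟨le_rfl, zero_le_one⟩ (by linarith) 1 ⟨zero_le_one, le_rfl⟩

end XGpsX

theorem Hs.gps [PathConnectedSpace Y] (S : Hs F Φ ε δ C a b) (gg : GG F ε J A L ρ G)
    (h : Once F A) (h1 : A 1 = 0) (ul : ULight F ε G) :
    (∀ x y, ∃! w, Asym F w x ∧ Asym (F⁻¹ : Equiv.Perm Y) w y) ∧ ∀ g : Γ, A g = 0 → g = 1 := by
  have ex : ∀ x y : Y, ∃ w, Asym F w x ∧ Asym (F⁻¹ : Equiv.Perm Y) w y := by
    intro x y
    obtain ⟨γ⟩ := PathConnectedSpace.joined y x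
    have := XGpsX.exist S gg h h1 ul γ.continuous_extend
    rwa [γ.extend_one, γ.extend_zero] at this
  refine ⟨fun x y => ?_, fun g hg => ?_⟩
  · obtain ⟨w, w1, w2⟩ := ex x y
    exact ⟨w, ⟨w1, w2⟩, fun w' hw' => XGpsX.uniq h h1 w1 w2 hw'.1 hw'.2⟩
  · obtain ⟨y⟩ : Nonempty Y := PathConnectedSpace.nonempty
    obtain ⟨w, w1, w2⟩ := ex (g⁻¹ • y) y
    have w3 : Asym F (g • w) y := by
      have := (S.asym_smul g).2 w1
      rwa [smul_inv_smul] at this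
    have e := h y w g hg w2 w3
    rw [e] at w3
    exact S.free_st w3

end Pool.Agent.P.MP_5c499f_an
end

-- part Pool.Agent.P.MP_5c499f_an.XG
section

/-! The expanding part of an equivariant map. -/

set_option autoImplicit false

namespace Pool.Agent.P.MP_5c499f_an

open Filter Topology Metric MeasureTheory Matrix

namespace XGX

variable {d : ℕ} {L : ℤ → Matrix (Fin d) (Fin d) ℝ} {ρ : Fin d → ℝ}

lemma row_bd (w : Wt L ρ) {θ : ℝ} (hθ : 0 < θ) :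
    ∃ C, 0 ≤ C ∧ ∀ (n : ℤ) (v : Fin d → ℝ) (k : Fin d) (R : ℝ), ‖v‖ ≤ R →
      |(L n *ᵥ v) k| ≤ C * R * (ρ k ^ n * (1 + θ) ^ n.natAbs) := by
  obtain ⟨C, hC⟩ := w.bd θ hθ
  refine ⟨d * max C 0, by positivity, fun n v k R hR => ?_⟩
  have hp : 0 ≤ ρ k ^ n * (1 + θ) ^ n.natAbs := by
    have := w.pos k
    positivity
  have h1 : ∀ j, |L n k j * v j| ≤ max C 0 * R * (ρ k ^ n * (1 + θ) ^ n.natAbs) := by
    intro j
    have h2 : |v j| ≤ R := (norm_le_pi_norm v j).trans hR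
    have h3 : |L n k j| ≤ max C 0 * (ρ k ^ n * (1 + θ) ^ n.natAbs) := by
      refine (hC n k j).trans ?_
      rw [mul_assoc]
      exact mul_le_mul_of_nonneg_right (le_max_left _ _) hp
    rw [abs_mul]
    calc |L n k j| * |v j| ≤ (max C 0 * (ρ k ^ n * (1 + θ) ^ n.natAbs)) * R :=
          mul_le_mul h3 h2 (abs_nonneg _) (by positivity)
      _ = _ := by ring
  calc |(L n *ᵥ v) k| = |∑ j, L n k j * v j| := rfl
    _ ≤ ∑ j, |L n k j * v j| := Finset.abs_sum_le_sum_abs _ _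
    _ ≤ ∑ _j : Fin d, max C 0 * R * (ρ k ^ n * (1 + θ) ^ n.natAbs) :=
        Finset.sum_le_sum fun j _ => h1 j
    _ = _ := by
        rw [Finset.sum_const, Finset.card_univ, Fintype.card_fin, nsmul_eq_mul]
        ring

lemma neg_bd (w : Wt L ρ) {k : Fin d} (hk : 1 < ρ k) :
    ∃ C q : ℝ, 0 ≤ C ∧ 0 ≤ q ∧ q < 1 ∧ ∀ (n : ℕ) (v : Fin d → ℝ) (R : ℝ), ‖v‖ ≤ R →
      |(L (-(n : ℤ)) *ᵥ v) k| ≤ C * R * q ^ n := by
  have hθ : 0 < (ρ k - 1) / 2 := by linarith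
  obtain ⟨C, h0, hC⟩ := row_bd w hθ
  have hp := w.pos k
  refine ⟨C, (1 + (ρ k - 1) / 2) / ρ k, h0, by positivity, ?_, fun n v R hR => ?_⟩
  · rw [div_lt_one hp]
    linarith
  · refine (hC _ v k R hR).trans (le_of_eq ?_)
    rw [Int.natAbs_neg, Int.natAbs_natCast, _root_.zpow_neg, zpow_natCast, div_pow]
    congr 1
    exact (mul_comm _ _).trans (div_eq_mul_inv _ _).symm

lemma pos_bd (w : Wt L ρ) {θ : ℝ} (hθ : 0 < θ) :
    ∃ C, 0 ≤ C ∧ ∀ k, ρ k ≤ 1 → ∀ (n : ℕ) (v : Fin d → ℝ) (R : ℝ), ‖v‖ ≤ R →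
      |(L (n : ℤ) *ᵥ v) k| ≤ C * R * (1 + θ) ^ n := by
  obtain ⟨C, h0, hC⟩ := row_bd w hθ
  refine ⟨C, h0, fun k hk n v R hR => (hC _ v k R hR).trans ?_⟩
  have hR0 : 0 ≤ R := (norm_nonneg _).trans hR
  rw [Int.natAbs_natCast, zpow_natCast]
  refine mul_le_mul_of_nonneg_left ?_ (by positivity)
  exact mul_le_of_le_one_left (by positivity) (pow_le_one₀ (w.pos k).le hk)

variable {Y : Type*}

/-- The renormalised iterates. -/
noncomputable def mm (F : Equiv.Perm Y) (J : Y → Fin d → ℝ) (L : ℤ → Matrix (Fin d) (Fin d) ℝ)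
    (z : ℤ) (y : Y) : Fin d → ℝ := L (-z) *ᵥ J ((F ^ z) y)

/-- The defect. -/
noncomputable def bb (F : Equiv.Perm Y) (J : Y → Fin d → ℝ) (L : ℤ → Matrix (Fin d) (Fin d) ℝ)
    (y : Y) : Fin d → ℝ := J (F y) - L 1 *ᵥ J y

variable {F : Equiv.Perm Y} {J : Y → Fin d → ℝ}

lemma mm_zero (w : Wt L ρ) (y : Y) : mm F J L 0 y = J y := by
  simp [mm, w.zero]

lemma mm_succ (w : Wt L ρ) (z : ℤ) (y : Y) :
    mm F J L (z + 1) y = mm F J L z y + L (-(z + 1)) *ᵥ bb F J L ((F ^ z) y) := by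
  have h1 : (F ^ (z + 1)) y = F ((F ^ z) y) := by
    rw [add_comm, _root_.zpow_one_add, Equiv.Perm.mul_apply]
  have h2 : L (-(z + 1)) * L 1 = L (-z) := by
    rw [← w.add]
    congr 1
    ring
  unfold mm bb
  rw [h1, mulVec_sub, mulVec_mulVec, h2]
  abel

lemma mm_sum (w : Wt L ρ) (n : ℕ) (y : Y) (k : Fin d) :
    mm F J L n y k = J y k + ∑ i ∈ Finset.range n,
      (L (-((i + 1 : ℕ) : ℤ)) *ᵥ bb F J L ((F ^ (i : ℤ)) y)) k := by
  induction n with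
  | zero => simp [mm_zero w]
  | succ n ih =>
    rw [Finset.sum_range_succ, ← add_assoc, ← ih, Nat.cast_succ, mm_succ w]
    rfl

lemma mm_shift (w : Wt L ρ) (n z : ℤ) (y : Y) :
    mm F J L z ((F ^ n) y) = L n *ᵥ mm F J L (z + n) y := by
  have h2 : L n * L (-(z + n)) = L (-z) := by
    rw [← w.add]
    congr 1
    ring
  unfold mm
  rw [mulVec_mulVec, h2, zpow_apply_zpow]

/-- The limit map. -/
noncomputable def gg (F : Equiv.Perm Y) (J : Y → Fin d → ℝ) (L : ℤ → Matrix (Fin d) (Fin d) ℝ)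
    (ρ : Fin d → ℝ) (y : Y) (k : Fin d) : ℝ :=
  if 1 < ρ k then
    J y k + ∑' i : ℕ, (L (-((i + 1 : ℕ) : ℤ)) *ᵥ bb F J L ((F ^ (i : ℤ)) y)) k
  else 0

variable {R : ℝ}

lemma gg_unif (w : Wt L ρ) (hR : ∀ y, ‖bb F J L y‖ ≤ R) {k : Fin d} (hk : 1 < ρ k) :
    TendstoUniformly (fun (n : ℕ) y => mm F J L n y k) (fun y => gg F J L ρ y k) atTop := by
  obtain ⟨C, q, h0, hq0, hq1, h⟩ := neg_bd w hk
  have hs : Summable fun i : ℕ => C * R * q ^ (i + 1) :=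
    ((summable_nat_add_iff 1).2 (summable_geometric_of_lt_one hq0 hq1)).mul_left _
  have h1 := tendstoUniformly_tsum_nat (f := fun (i : ℕ) (y : Y) =>
    (L (-((i + 1 : ℕ) : ℤ)) *ᵥ bb F J L ((F ^ (i : ℤ)) y)) k) hs
    fun i y => h (i + 1) _ R (hR _)
  rw [Metric.tendstoUniformly_iff] at h1 ⊢
  intro e he
  filter_upwards [h1 e he] with n hn y
  rw [mm_sum w, gg, if_pos hk, dist_add_left]
  exact hn y

lemma gg_lim (w : Wt L ρ) (hR : ∀ y, ‖bb F J L y‖ ≤ R) {k : Fin d} (hk : 1 < ρ k) (y : Y) :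
    Tendsto (fun z : ℤ => mm F J L z y k) atTop (𝓝 (gg F J L ρ y k)) := by
  rw [← Nat.map_cast_int_atTop, tendsto_map'_iff]
  exact (gg_unif w hR hk).tendsto_at y

lemma gg_near (w : Wt L ρ) (hR : ∀ y, ‖bb F J L y‖ ≤ R) {k : Fin d} (hk : 1 < ρ k) :
    ∃ B, 0 ≤ B ∧ ∀ y, |J y k - gg F J L ρ y k| ≤ B := by
  obtain ⟨C, q, h0, hq0, hq1, h⟩ := neg_bd w hk
  have hs : Summable fun i : ℕ => C * R * q ^ (i + 1) :=
    ((summable_nat_add_iff 1).2 (summable_geometric_of_lt_one hq0 hq1)).mul_left _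
  refine ⟨max (∑' i : ℕ, C * R * q ^ (i + 1)) 0, le_max_right _ _, fun y => ?_⟩
  rw [gg, if_pos hk, sub_add_cancel_left, abs_neg]
  refine le_trans ?_ (le_max_left _ _)
  exact tsum_of_norm_bounded (f := fun i : ℕ =>
    (L (-((i + 1 : ℕ) : ℤ)) *ᵥ bb F J L ((F ^ (i : ℤ)) y)) k) hs.hasSum
    fun i => h (i + 1) _ R (hR _)

lemma gg_step (w : Wt L ρ) (hR : ∀ y, ‖bb F J L y‖ ≤ R) (n : ℤ) (y : Y) :
    gg F J L ρ ((F ^ n) y) = L n *ᵥ gg F J L ρ y := by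
  funext k
  by_cases hk : 1 < ρ k
  · have h1 := gg_lim w hR hk ((F ^ n) y)
    have h2 : Tendsto (fun z : ℤ => ∑ j, L n k j * mm F J L (z + n) y j) atTop
        (𝓝 (∑ j, L n k j * gg F J L ρ y j)) := by
      refine tendsto_finsetSum _ fun j _ => ?_
      by_cases hj : ρ j = ρ k
      · exact ((gg_lim w hR (hj ▸ hk) y).comp
          (tendsto_atTop_add_const_right _ n tendsto_id)).const_mul _
      · simp only [w.blk n k j hj, zero_mul]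
        exact tendsto_const_nhds
    simp only [mm_shift w] at h1
    exact tendsto_nhds_unique h1 h2
  · have h2 : ∑ j, L n k j * gg F J L ρ y j = 0 := by
      refine Finset.sum_eq_zero fun j _ => ?_
      by_cases hj : ρ j = ρ k
      · rw [gg, if_neg (hj ▸ hk), mul_zero]
      · rw [w.blk n k j hj, zero_mul]
    rw [gg, if_neg hk]
    exact h2.symm

lemma gg_eq (w : Wt L ρ) (hR : ∀ y, ‖bb F J L y‖ ≤ R) {y y' : Y} {R' : ℝ}
    (h : ∀ᶠ n : ℕ in atTop, ‖J ((F ^ (n : ℤ)) y) - J ((F ^ (n : ℤ)) y')‖ ≤ R') :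
    gg F J L ρ y = gg F J L ρ y' := by
  funext k
  by_cases hk : 1 < ρ k
  · obtain ⟨C, q, h0, hq0, hq1, hb⟩ := neg_bd w hk
    have h1 := ((gg_unif w hR hk).tendsto_at y).sub ((gg_unif w hR hk).tendsto_at y')
    have h2 : Tendsto (fun n : ℕ => C * R' * q ^ n) atTop (𝓝 0) := by
      simpa using (tendsto_pow_atTop_nhds_zero_of_lt_one hq0 hq1).const_mul (C * R')
    have h3 : Tendsto (fun n : ℕ => mm F J L n y k - mm F J L n y' k) atTop (𝓝 0) := by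
      refine squeeze_zero_norm' ?_ h2
      filter_upwards [h] with n hn
      have h4 := hb n _ R' hn
      rw [mulVec_sub] at h4
      exact h4
    exact sub_eq_zero.1 (tendsto_nhds_unique h1 h3)
  · rw [gg, gg, if_neg hk, if_neg hk]

lemma back (w : Wt L ρ) (hR : ∀ y, ‖bb F J L y‖ ≤ R) {θ C : ℝ} (hθ : 0 < θ) (h0 : 0 ≤ C)
    {k : Fin d} (hC : ∀ (n : ℕ) (v : Fin d → ℝ) (R : ℝ), ‖v‖ ≤ R →
      |(L (n : ℤ) *ᵥ v) k| ≤ C * R * (1 + θ) ^ n) (y : Y) (n : ℕ) :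
    |J y k - mm F J L (-(n : ℤ)) y k| ≤ C * R / θ * (1 + θ) ^ n := by
  have hR0 : 0 ≤ R := (norm_nonneg _).trans (hR y)
  induction n with
  | zero =>
    simp only [Nat.cast_zero, neg_zero, mm_zero w, sub_self, abs_zero]
    positivity
  | succ n ih =>
    have h1 := mm_succ (F := F) (J := J) w (-((n + 1 : ℕ) : ℤ)) y
    have h2 : -((n + 1 : ℕ) : ℤ) + 1 = -(n : ℤ) := by
      push_cast
      ring
    rw [h2, neg_neg] at h1
    have h3 := hC n _ R (hR ((F ^ (-((n + 1 : ℕ) : ℤ))) y))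
    have h4 : J y k - mm F J L (-((n + 1 : ℕ) : ℤ)) y k = (J y k - mm F J L (-(n : ℤ)) y k) +
        (L (n : ℤ) *ᵥ bb F J L ((F ^ (-((n + 1 : ℕ) : ℤ))) y)) k := by
      rw [h1, Pi.add_apply]
      ring
    rw [h4]
    refine (abs_add_le _ _).trans ((add_le_add ih h3).trans (le_of_eq ?_))
    field_simp
    ring

end XGX

open XGX

variable {Y Γ : Type*} [MetricSpace Y] [Group Γ] [MulAction Γ Y] {F : Equiv.Perm Y}
  {Φ : MulAut Γ} {ε δ C a b : ℝ}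

theorem Hs.exists_gg (S : Hs F Φ ε δ C a b) {d : ℕ} {J : Y → Fin d → ℝ} {A : Γ → Fin d → ℝ}
    {L : ℤ → Matrix (Fin d) (Fin d) ℝ} {ρ : Fin d → ℝ} (ab : Ab Φ J A L ρ) :
    ∃ G, GG F ε J A L ρ G := by
  have w := ab.wt
  have hε : 0 < ε := S.lh.δ_pos.trans_le S.lh.δ_le
  have hlin : ∀ n : ℤ, Continuous fun v : Fin d → ℝ => L n *ᵥ v := fun n =>
    continuous_const.matrix_mulVec continuous_id
  obtain ⟨R, hR⟩ : ∃ R, ∀ y, ‖bb F J L y‖ ≤ R := by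
    refine S.bdd (φ := bb F J L) ?_ fun g y => ?_
    · exact (ab.cont.comp S.uc.continuous).sub ((hlin 1).comp ab.cont)
    · unfold bb
      rw [S.eqv, ab.eqv, ab.eqv, ab.phi, mulVec_add]
      abel
  obtain ⟨-, R', hR'⟩ := S.ucd (φ := J) ab.cont fun g y y' => by
    rw [ab.eqv, ab.eqv]
    abel
  have hcont : Continuous (gg F J L ρ) := by
    refine continuous_pi fun k => ?_
    by_cases hk : 1 < ρ k
    · refine (gg_unif w hR hk).continuous (Eventually.frequently (Eventually.of_forall fun n => ?_))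
      exact (continuous_apply k).comp ((hlin _).comp
        (ab.cont.comp (uc_zpow S.uc S.uc' (n : ℤ)).continuous))
    · simp only [gg, if_neg hk]
      exact continuous_const
  have htr : ∀ (g : Γ) y y', gg F J L ρ (g • y) - gg F J L ρ (g • y') =
      gg F J L ρ y - gg F J L ρ y' := by
    intro g y y'
    funext k
    by_cases hk : 1 < ρ k
    · have h1 := (gg_lim w hR hk (g • y)).sub (gg_lim w hR hk (g • y'))
      have h2 := (gg_lim w hR hk y).sub (gg_lim w hR hk y')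
      refine tendsto_nhds_unique h1 (h2.congr fun z => ?_)
      simp only [mm, S.eqv_zpow, ab.eqv, mulVec_add, Pi.add_apply]
      ring
    · simp only [Pi.sub_apply, gg, if_neg hk]
  refine ⟨gg F J L ρ, hcont, ⟨R, hR⟩, fun k hk => gg_unif w hR hk, gg_step w hR, htr,
    fun g y hg => ?_, fun y y' h => ?_, (S.ucd hcont htr).2, fun θ hθ => ?_⟩
  · have h1 : ∀ n : ℕ, A ((Φ ^ (n : ℤ)) g) = 0 := by
      intro n
      induction n with
      | zero => simpa using hg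
      | succ n ih =>
        rw [Nat.cast_succ, add_comm, _root_.zpow_one_add, MulAut.mul_apply, ab.phi, ih, mulVec_zero]
    refine gg_eq (R' := 0) w hR (Eventually.of_forall fun n => ?_)
    rw [S.eqv_zpow, ab.eqv, h1, add_zero, sub_self, norm_zero]
  · refine gg_eq (R' := R') w hR ?_
    have h1 : ∀ᶠ n : ℕ in atTop, dist (F^[n] y) (F^[n] y') < 4 * ε :=
      (tendsto_order.1 h).2 _ (by linarith)
    filter_upwards [h1] with n hn
    refine hR' _ _ ?_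
    rw [zpow_natCast, Equiv.Perm.coe_pow]
    exact hn.le
  · obtain ⟨C₁, h0, hC⟩ := pos_bd w hθ
    have key : ∀ k, ∃ B, 0 ≤ B ∧ ∀ (n : ℕ) y y',
        dist ((F ^ (-(n : ℤ))) y) ((F ^ (-(n : ℤ))) y') ≤ 4 * ε →
        |J y k - J y' k| ≤ ‖gg F J L ρ y - gg F J L ρ y'‖ + B * (1 + θ) ^ n := by
      intro k
      by_cases hk : 1 < ρ k
      · obtain ⟨B, hB0, hB⟩ := gg_near w hR hk
        refine ⟨2 * B, by positivity, fun n y y' _ => ?_⟩
        have h1 : |gg F J L ρ y k - gg F J L ρ y' k| ≤ ‖gg F J L ρ y - gg F J L ρ y'‖ :=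
          norm_le_pi_norm (gg F J L ρ y - gg F J L ρ y') k
        have h2 : 2 * B ≤ 2 * B * (1 + θ) ^ n :=
          le_mul_of_one_le_right (by positivity) (one_le_pow₀ (by linarith))
        have h3 := abs_le.1 (hB y)
        have h4 := abs_le.1 (hB y')
        have h5 := abs_le.1 h1
        rw [abs_le]
        constructor <;> linarith [h3.1, h3.2, h4.1, h4.2, h5.1, h5.2]
      · refine ⟨max (2 * (C₁ * R / θ) + C₁ * R') 0, le_max_right _ _, fun n y y' h => ?_⟩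
        have hk' := hC k (not_lt.1 hk)
        have h1 := abs_le.1 (back w hR hθ h0 hk' y n)
        have h2 := abs_le.1 (back w hR hθ h0 hk' y' n)
        have h3 := hk' n _ R' (hR' _ _ h)
        rw [mulVec_sub, Pi.sub_apply] at h3
        have h4 := abs_le.1 h3
        have h5 : (2 * (C₁ * R / θ) + C₁ * R') * (1 + θ) ^ n ≤
            max (2 * (C₁ * R / θ) + C₁ * R') 0 * (1 + θ) ^ n :=
          mul_le_mul_of_nonneg_right (le_max_left _ _) (by positivity)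
        have h6 := norm_nonneg (gg F J L ρ y - gg F J L ρ y')
        simp only [mm, neg_neg] at h1 h2
        rw [abs_le]
        constructor <;> linarith [h1.1, h1.2, h2.1, h2.2, h4.1, h4.2]
    choose B hB0 hB using key
    refine ⟨∑ k, B k, fun n y y' h => ?_⟩
    have hs : 0 ≤ ∑ k, B k := Finset.sum_nonneg fun k _ => hB0 k
    refine (pi_norm_le_iff_of_nonneg (by positivity)).2 fun k => ?_
    refine (hB k n y y' h).trans (add_le_add le_rfl ?_)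
    exact mul_le_mul_of_nonneg_right
      (Finset.single_le_sum (fun j _ => hB0 j) (Finset.mem_univ k)) (by positivity)


end Pool.Agent.P.MP_5c499f_an
end
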