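import Pool.Agent.K.MP_5c499f_an.C0
import Pool.Agent.K.MP_5c499f_an.C3
import Pool.Agent.K.MP_5c499f_an.C4
import Pool.Agent.K.MP_5c499f_an.C5
import Pool.Agent.P.MP_5c499f_an.GCore

-- part Pool.Agent.P.MP_5c499f_an.XSpec
section

/-! Weights of a linear automorphism. -/

set_option autoImplicit false

namespace Pool.Agent.P.MP_5c499f_an

open Filter Topology Metric MeasureTheory Matrix

namespace XSpecX

lemma seq_bd {U : Type*} [NormedAddCommGroup U] {a : ℤ → U} {θ C : ℝ} (hθ : 0 < θ) (hC : 0 ≤ C)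
    (h : ∀ n : ℤ, ‖a (n + 1) - a n‖ ≤ C * (1 + θ) ^ n.natAbs) :
    ∃ D : ℝ, 0 ≤ D ∧ ∀ n : ℤ, ‖a n‖ ≤ D * (1 + θ) ^ n.natAbs := by
  obtain ⟨D, hD0, hD1, hD2⟩ : ∃ D : ℝ, 0 ≤ D ∧ ‖a 0‖ ≤ D ∧ C * (1 + θ) ≤ D * θ := by
    have h1 : 0 ≤ C * (1 + θ) / θ := by positivity
    refine ⟨‖a 0‖ + C * (1 + θ) / θ, by positivity, by linarith, ?_⟩
    rw [add_mul, div_mul_cancel₀ _ hθ.ne']
    have := mul_nonneg (norm_nonneg (a 0)) hθ.le
    linarith
  refine ⟨D, hD0, fun n => ?_⟩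
  induction n using Int.induction_on with
  | zero => simpa using hD1
  | succ n ih =>
    have h1 := h n
    have e : ((n : ℤ) + 1).natAbs = n + 1 := by omega
    rw [Int.natAbs_natCast] at ih h1
    rw [e, pow_succ]
    have h2 := norm_le_norm_add_norm_sub' (a (n + 1)) (a n)
    have h3 : 0 ≤ (1 + θ) ^ n := by positivity
    have h4 : C ≤ D * θ := by nlinarith
    have h5 := mul_le_mul_of_nonneg_right h4 h3
    nlinarith
  | pred n ih =>
    have h1 := h (-(n : ℤ) - 1)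
    have e : (-(n : ℤ) - 1).natAbs = n + 1 := by omega
    have e' : (-(n : ℤ)).natAbs = n := by omega
    rw [e, sub_add_cancel, pow_succ, norm_sub_rev] at h1
    rw [e'] at ih
    rw [e, pow_succ]
    have h2 := norm_le_norm_add_norm_sub' (a (-(n : ℤ) - 1)) (a (-(n : ℤ)))
    have h3 : 0 ≤ (1 + θ) ^ n := by positivity
    have h5 := mul_le_mul_of_nonneg_right hD2 h3
    nlinarith

variable {U : Type*} [NormedAddCommGroup U] [NormedSpace ℂ U]

lemma growth (S : U ≃ₗ[ℂ] U) {μ : ℂ} (hμ : μ ≠ 0) {θ : ℝ} (hθ : 0 < θ) (k : ℕ) :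
    ∀ v : U, (((S : U →ₗ[ℂ] U) - μ • (1 : Module.End ℂ U)) ^ k) v = 0 →
      ∃ D : ℝ, 0 ≤ D ∧ ∀ n : ℤ, ‖(μ ^ n)⁻¹ • (S ^ n) v‖ ≤ D * (1 + θ) ^ n.natAbs := by
  induction k with
  | zero =>
    intro v hv
    have : v = 0 := by simpa using hv
    subst this
    exact ⟨0, le_rfl, fun n => by simp⟩
  | succ k ih =>
    intro v hv
    rw [pow_succ, Module.End.mul_apply] at hv
    obtain ⟨C, hC, H⟩ := ih _ hv
    refine seq_bd (C := ‖μ⁻¹‖ * C) hθ (by positivity) fun n => ?_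
    have e : (μ ^ (n + 1))⁻¹ • (S ^ (n + 1)) v - (μ ^ n)⁻¹ • (S ^ n) v =
        μ⁻¹ • (μ ^ n)⁻¹ • (S ^ n) (((S : U →ₗ[ℂ] U) - μ • (1 : Module.End ℂ U)) v) := by
      have hn : μ ^ n ≠ 0 := zpow_ne_zero n hμ
      rw [zpow_add_one S, LinearEquiv.mul_apply, zpow_add_one₀ hμ]
      simp only [LinearMap.sub_apply, LinearMap.smul_apply, Module.End.one_apply,
        LinearEquiv.coe_coe, map_sub, map_smul, smul_sub, smul_smul]
      have e1 : (μ ^ n * μ)⁻¹ = μ⁻¹ * (μ ^ n)⁻¹ := by field_simp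
      have e2 : μ⁻¹ * ((μ ^ n)⁻¹ * μ) = (μ ^ n)⁻¹ := by field_simp
      rw [e1, e2]
    rw [e, norm_smul, mul_assoc]
    exact mul_le_mul_of_nonneg_left (H n) (norm_nonneg _)

lemma growth' (S : U ≃ₗ[ℂ] U) {μ : ℂ} (hμ : μ ≠ 0) {θ : ℝ} (hθ : 0 < θ) {v : U}
    (hv : v ∈ Module.End.maxGenEigenspace (S : U →ₗ[ℂ] U) μ) :
    ∃ D : ℝ, 0 ≤ D ∧ ∀ n : ℤ, ‖(S ^ n) v‖ ≤ D * ‖μ‖ ^ n * (1 + θ) ^ n.natAbs := by
  obtain ⟨k, hk⟩ := (Module.End.mem_maxGenEigenspace _ _ _).1 hv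
  obtain ⟨D, hD, H⟩ := growth S hμ hθ k v hk
  refine ⟨D, hD, fun n => ?_⟩
  have h := H n
  have hp : 0 < ‖μ‖ ^ n := zpow_pos (norm_pos_iff.2 hμ) n
  rw [norm_smul, norm_inv, norm_zpow, inv_mul_le_iff₀ hp] at h
  linarith

lemma inv_zpow (S : U ≃ₗ[ℂ] U) (μ : ℂ) (n : ℤ) {v : U}
    (hv : v ∈ Module.End.maxGenEigenspace (S : U →ₗ[ℂ] U) μ) :
    (S ^ n) v ∈ Module.End.maxGenEigenspace (S : U →ₗ[ℂ] U) μ := by
  have hc : Commute (S : Module.End ℂ U) ((S ^ n : U ≃ₗ[ℂ] U) : Module.End ℂ U) := by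
    have h := (Commute.refl S).zpow_right n
    ext x
    have := congrArg (fun T : U ≃ₗ[ℂ] U => T x) h.eq
    simpa using this
  exact Module.End.mapsTo_maxGenEigenspace_of_comm hc μ hv

/-- the block statement over an arbitrary finite index type -/
lemma blocks {V : Type*} [NormedAddCommGroup V] [NormedSpace ℝ V] [FiniteDimensional ℝ V]
    {ι : Type*} [Fintype ι] (R : ℤ → V →ₗ[ℝ] V) (h0 : ∀ x, R 0 x = x)
    (hadd : ∀ m n x, R (m + n) x = R n (R m x)) (P : ι → Submodule ℝ V) (r : ι → ℝ)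
    (hr : ∀ i, 0 < r i) (hinv : ∀ i n, ∀ x ∈ P i, R n x ∈ P i)
    (hbd : ∀ i, ∀ x ∈ P i, ∀ θ : ℝ, 0 < θ →
      ∃ D : ℝ, 0 ≤ D ∧ ∀ n : ℤ, ‖R n x‖ ≤ D * r i ^ n * (1 + θ) ^ n.natAbs) :
    ∃ (d : ℕ) (β : Fin d → V) (L : ℤ → Matrix (Fin d) (Fin d) ℝ) (ρ : Fin d → ℝ), Wt L ρ ∧
      (∀ i, P i ≤ Submodule.span ℝ (Set.range β)) ∧ ∀ k, R 1 (β k) = ∑ j, L 1 k j • β j := by
  classical
  let κ : Type _ := Σ i : ι, Fin (Module.finrank ℝ (P i))
  let b := fun i => Module.finBasis ℝ (P i)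
  let B : ℤ → ∀ i, Matrix (Fin (Module.finrank ℝ (P i))) (Fin (Module.finrank ℝ (P i))) ℝ :=
    fun n i => (LinearMap.toMatrix (b i) (b i) ((R n).restrict (hinv i n)))ᵀ
  let e : κ ≃ Fin (Fintype.card κ) := Fintype.equivFin κ
  let β : κ → V := fun k => (b k.1 k.2 : V)
  have hB : ∀ n i a c, B n i a c = (b i).repr ((R n).restrict (hinv i n) (b i a)) c := by
    intro n i a c
    simp only [B, transpose_apply, LinearMap.toMatrix_apply]
  refine ⟨Fintype.card κ, fun k => β (e.symm k),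
    fun n => (blockDiagonal' (B n)).submatrix e.symm e.symm, fun k => r (e.symm k).1,
    ⟨fun k => hr _, ?_, fun m n => ?_, fun n k j hne => ?_, fun θ hθ => ?_⟩, fun i => ?_,
    fun k => ?_⟩
  · have : B 0 = 1 := by
      funext i
      have : (R 0).restrict (hinv i 0) = LinearMap.id := by
        ext x
        simp [LinearMap.restrict_apply, h0]
      simp only [B, this, LinearMap.toMatrix_id, transpose_one, Pi.one_apply]
    rw [this, blockDiagonal'_one, submatrix_one_equiv]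
  · have : B (m + n) = fun i => B m i * B n i := by
      funext i
      have : (R (m + n)).restrict (hinv i (m + n)) =
          ((R n).restrict (hinv i n)).comp ((R m).restrict (hinv i m)) := by
        ext x
        simp [LinearMap.restrict_apply, hadd]
      simp only [B, this, LinearMap.toMatrix_comp _ (b i), transpose_mul]
    rw [this, blockDiagonal'_mul, submatrix_mul_equiv]
  · have : (e.symm k).1 ≠ (e.symm j).1 := fun h => hne (by simp only [h])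
    exact blockDiagonal'_apply_ne (B n) (e.symm k).2 (e.symm j).2 this
  · have key : ∀ k j : κ, ∃ D : ℝ, 0 ≤ D ∧ ∀ n : ℤ,
        |blockDiagonal' (B n) k j| ≤ D * r k.1 ^ n * (1 + θ) ^ n.natAbs := by
      rintro ⟨i, a⟩ ⟨i', c⟩
      by_cases h : i = i'
      · subst h
        obtain ⟨D, hD, H⟩ := hbd i _ (b i a).2 θ hθ
        let φ := LinearMap.toContinuousLinearMap ((b i).coord c)
        refine ⟨‖φ‖ * D, by positivity, fun n => ?_⟩
        rw [blockDiagonal'_apply_eq, hB]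
        have h1 := φ.le_opNorm ((R n).restrict (hinv i n) (b i a))
        have h2 := mul_le_mul_of_nonneg_left (H n) (norm_nonneg φ)
        have h3 : ‖(R n).restrict (hinv i n) (b i a)‖ = ‖R n (b i a)‖ := rfl
        have h4 : φ ((R n).restrict (hinv i n) (b i a)) =
          (b i).repr ((R n).restrict (hinv i n) (b i a)) c := rfl
        rw [h3, h4, Real.norm_eq_abs] at h1
        linarith
      · exact ⟨0, le_rfl, fun n => by rw [blockDiagonal'_apply_ne _ _ _ h]; simp⟩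
    choose D hD H using key
    refine ⟨∑ p : κ × κ, D p.1 p.2, fun n k j => (H _ _ n).trans ?_⟩
    have h1 : D (e.symm k) (e.symm j) ≤ ∑ p : κ × κ, D p.1 p.2 :=
      Finset.single_le_sum (f := fun p : κ × κ => D p.1 p.2) (fun p _ => hD _ _)
        (Finset.mem_univ (e.symm k, e.symm j))
    have h2 := zpow_pos (hr (e.symm k).1) n
    exact mul_le_mul_of_nonneg_right (mul_le_mul_of_nonneg_right h1 h2.le) (by positivity)
  · intro x hx
    have h1 := congrArg (P i).subtype ((b i).sum_repr ⟨x, hx⟩)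
    rw [map_sum] at h1
    change _ = x at h1
    rw [← h1]
    refine Submodule.sum_mem _ fun a _ => ?_
    rw [map_smul]
    exact Submodule.smul_mem _ _ (Submodule.subset_span ⟨e ⟨i, a⟩, by simp [β]⟩)
  · simp only [submatrix_apply]
    rw [Equiv.sum_comp e.symm (fun j => blockDiagonal' (B 1) (e.symm k) j • β j)]
    generalize e.symm k = k'
    obtain ⟨i, a⟩ := k'
    rw [Fintype.sum_sigma, Fintype.sum_eq_single i]
    · have h1 := congrArg (P i).subtype ((b i).sum_repr ((R 1).restrict (hinv i 1) (b i a)))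
      rw [map_sum] at h1
      change _ = R 1 (b i a) at h1
      change R 1 (b i a) = _
      rw [← h1]
      refine Finset.sum_congr rfl fun c _ => ?_
      rw [blockDiagonal'_apply_eq, hB, map_smul]
      rfl
    · intro i' hi'
      refine Finset.sum_eq_zero fun c _ => ?_
      rw [blockDiagonal'_apply_ne _ _ _ (Ne.symm hi'), zero_smul]

lemma cplx {m : ℕ} (S : (Fin m → ℂ) ≃ₗ[ℂ] (Fin m → ℂ)) :
    ∃ (d : ℕ) (β : Fin d → Fin m → ℂ) (L : ℤ → Matrix (Fin d) (Fin d) ℝ) (ρ : Fin d → ℝ),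
      Wt L ρ ∧ Submodule.span ℝ (Set.range β) = ⊤ ∧ ∀ k, S (β k) = ∑ j, L 1 k j • β j := by
  have hne : ∀ μ : Module.End.Eigenvalues (S : Module.End ℂ (Fin m → ℂ)), μ.1 ≠ 0 := by
    rintro ⟨μ, hμ⟩ (rfl : μ = 0)
    obtain ⟨v, hv⟩ := Module.End.HasEigenvalue.exists_hasEigenvector hμ
    have h1 := hv.apply_eq_smul
    rw [zero_smul, LinearEquiv.coe_coe, LinearEquiv.map_eq_zero_iff] at h1
    exact hv.2 h1
  obtain ⟨d, β, L, ρ, hW, hP, hS⟩ := blocks
    (ι := Module.End.Eigenvalues (S : Module.End ℂ (Fin m → ℂ)))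
    (fun n => ((S ^ n : (Fin m → ℂ) ≃ₗ[ℂ] (Fin m → ℂ)) :
      (Fin m → ℂ) →ₗ[ℂ] (Fin m → ℂ)).restrictScalars ℝ) (fun x => by simp)
    (fun a n x => by simp [add_comm a n, _root_.zpow_add])
    (fun μ => (Module.End.maxGenEigenspace (S : Module.End ℂ (Fin m → ℂ)) μ.1).restrictScalars ℝ)
    (fun μ => ‖μ.1‖) (fun μ => norm_pos_iff.2 (hne μ))
    (fun μ n x hx => inv_zpow S μ.1 n hx) (fun μ x hx θ hθ => growth' S (hne μ) hθ hx)
  refine ⟨d, β, L, ρ, hW, ?_, fun k => by simpa using hS k⟩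
  rw [eq_top_iff]
  intro x _
  have hx : x ∈ ⨆ μ, Module.End.maxGenEigenspace (S : Module.End ℂ (Fin m → ℂ)) μ := by
    rw [Module.End.iSup_maxGenEigenspace_eq_top]
    trivial
  refine Submodule.iSup_induction _ (motive := fun x => x ∈ Submodule.span ℝ (Set.range β)) hx
    (fun μ y hy => ?_) (Submodule.zero_mem _) fun y z => Submodule.add_mem _
  by_cases h : Module.End.maxGenEigenspace (S : Module.End ℂ (Fin m → ℂ)) μ = ⊥
  · rw [h, Submodule.mem_bot] at hy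
    rw [hy]
    exact Submodule.zero_mem _
  · exact hP ⟨μ, Module.End.HasUnifEigenvalue.lt zero_lt_one h⟩ hy

end XSpecX

theorem exists_wt {W : Type*} [AddCommGroup W] [Module ℝ W] [FiniteDimensional ℝ W]
    (T : W ≃ₗ[ℝ] W) : ∃ (d : ℕ) (β : Fin d → W) (L : ℤ → Matrix (Fin d) (Fin d) ℝ)
      (ρ : Fin d → ℝ), Wt L ρ ∧ Submodule.span ℝ (Set.range β) = ⊤ ∧
      ∀ k, T (β k) = ∑ j, L 1 k j • β j := by
  let b := Module.finBasis ℝ W
  let M := LinearMap.toMatrix b b (T : W →ₗ[ℝ] W)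
  let M' := LinearMap.toMatrix b b (T.symm : W →ₗ[ℝ] W)
  have h1 : M * M' = 1 := by
    simp only [M, M']
    rw [← LinearMap.toMatrix_comp, LinearEquiv.comp_symm, LinearMap.toMatrix_id]
  have h2 : M' * M = 1 := mul_eq_one_comm.1 h1
  have h3 : M.map Complex.ofRealHom * M'.map Complex.ofRealHom = 1 := by
    rw [← Matrix.map_mul, h1, Matrix.map_one _ (map_zero _) (map_one _)]
  have h4 : M'.map Complex.ofRealHom * M.map Complex.ofRealHom = 1 := mul_eq_one_comm.1 h3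
  obtain ⟨d, β, L, ρ, hW, hP, hS⟩ := XSpecX.cplx (Matrix.toLin'OfInv h4 h3)
  let π : (Fin (Module.finrank ℝ W) → ℂ) →ₗ[ℝ] W :=
    b.equivFun.symm.toLinearMap ∘ₗ Complex.reLm.compLeft _
  have hπ : ∀ v i, b.repr (π v) i = (v i).re := by
    intro v i
    have : b.equivFun (π v) = fun i => (v i).re := by
      simp only [π, LinearMap.comp_apply, LinearEquiv.coe_coe, LinearEquiv.apply_symm_apply]
      rfl
    exact congrFun this i
  have hT : ∀ v, π (M.map Complex.ofRealHom *ᵥ v) = T (π v) := by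
    intro v
    refine b.ext_elem fun i => ?_
    have h5 := congrFun (LinearMap.toMatrix_mulVec_repr b b (T : W →ₗ[ℝ] W) (π v)) i
    rw [LinearEquiv.coe_coe] at h5
    rw [hπ, ← h5]
    simp [mulVec, dotProduct, hπ, M]
  have hsurj : LinearMap.range π = ⊤ := by
    rw [LinearMap.range_eq_top]
    intro w
    exact ⟨fun i => (b.repr w i : ℂ), b.ext_elem fun i => by simp [hπ]⟩
  refine ⟨d, fun k => π (β k), L, ρ, hW, ?_, fun k => ?_⟩
  · rw [show (Set.range fun k => π (β k)) = π '' Set.range β from Set.range_comp π β,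
      ← Submodule.map_span, hP, Submodule.map_top, hsurj]
  · rw [← hT]
    have h5 : M.map Complex.ofRealHom *ᵥ β k = ∑ j, L 1 k j • β j := hS k
    rw [h5, map_sum]
    simp only [map_smul]


end Pool.Agent.P.MP_5c499f_an
end

-- part Pool.Agent.P.MP_5c499f_an.XChar
section

/-! The equivariant map generated by finitely many integral characters. -/

set_option autoImplicit false

namespace Pool.Agent.P.MP_5c499f_an

open Filter Topology Metric MeasureTheory Matrix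

namespace XCharX

/-- Functions on the group which have a primitive in `𝒞`. -/
def prim (Γ : Type*) {Y : Type*} [Group Γ] [MulAction Γ Y] (𝒞 : Submodule ℝ (Y → ℝ)) :
    Submodule ℝ (Γ → ℝ) where
  carrier := {a | ∃ h ∈ 𝒞, ∀ (g : Γ) y, h (g • y) = h y + a g}
  zero_mem' := ⟨0, 𝒞.zero_mem, by simp⟩
  add_mem' := fun ⟨h, h1, h2⟩ ⟨k, k1, k2⟩ => ⟨h + k, 𝒞.add_mem h1 k1, fun g y => by
    simp only [Pi.add_apply, h2, k2]; ring⟩
  smul_mem' := fun c _ ⟨h, h1, h2⟩ => ⟨c • h, 𝒞.smul_mem c h1, fun g y => by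
    simp only [Pi.smul_apply, h2, smul_eq_mul]; ring⟩

theorem vanish {Γ Y : Type*} [Nonempty Y] [Group Γ] [MulAction Γ Y] {𝒞 : Submodule ℝ (Y → ℝ)}
    {S : Set Γ} (hgen : Subgroup.closure S = ⊤) {a : Γ → ℝ} (ha : a ∈ prim Γ 𝒞)
    (h : ∀ g ∈ S, a g = 0) : a = 0 := by
  obtain ⟨f, -, hf⟩ := ha
  obtain ⟨y⟩ := ‹Nonempty Y›
  have e : ∀ g g', a (g * g') = a g + a g' := fun g g' => by
    have := hf (g * g') y
    rw [mul_smul, hf, hf] at this
    linarith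
  have e1 : a 1 = 0 := by simpa using e 1 1
  funext g
  have hg : g ∈ Subgroup.closure S := hgen ▸ Subgroup.mem_top g
  induction hg using Subgroup.closure_induction with
  | mem x hx => exact h x hx
  | one => exact e1
  | mul x z _ _ hx hz => rw [e, hx, hz]; simp
  | inv x _ hx =>
    have := e x x⁻¹
    rw [mul_inv_cancel, e1, hx] at this
    simpa using this.symm

theorem count {Γ : Type*} {d : ℕ} {A : Γ → Fin d → ℝ} (t : Finset (Γ → ℝ))
    (h1 : ∀ a ∈ t, ∀ g, ∃ m : ℤ, a g = m) (h2 : ∀ a ∈ t, ∃ l : Fin d → ℝ, ∀ g, a g = l ⬝ᵥ A g)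
    (h3 : ∀ g g', (∀ a ∈ t, a g = a g') → A g = A g') :
    ∃ (C : ℝ) (D : ℕ), ∀ R, 0 ≤ R → ∀ s : Finset (Fin d → ℝ),
      (∀ z ∈ s, z ∈ Set.range A ∧ ‖z‖ ≤ R) → (s.card : ℝ) ≤ C * (1 + R) ^ D := by
  classical
  choose! l hl using h2
  choose! m hm using h1
  set K := ∑ a ∈ t, ∑ k, |l a k|
  have K0 : 0 ≤ K := Finset.sum_nonneg fun _ _ => Finset.sum_nonneg fun _ _ => abs_nonneg _
  refine ⟨(2 * K + 3) ^ t.card, t.card, fun R hR s hs => ?_⟩
  rcases s.eq_empty_or_nonempty with rfl | ⟨z₀, hz₀⟩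
  · simp only [Finset.card_empty, Nat.cast_zero]
    positivity
  have : Nonempty Γ := ⟨(hs z₀ hz₀).1.choose⟩
  choose! γ hγ using fun z hz => (hs z hz).1
  set n := ⌈K * R⌉₊
  have hn : (n : ℝ) ≤ K * R + 1 := (Nat.ceil_lt_add_one (by positivity)).le
  have hc : s.card ≤ (Fintype.piFinset fun _ : t => Finset.Icc (-n : ℤ) n).card := by
    refine Finset.card_le_card_of_injOn (fun z a => m a (γ z)) (fun z hz => ?_)
      fun z hz z' hz' e => ?_
    · refine Finset.mem_coe.2 (Fintype.mem_piFinset.2 fun a => Finset.mem_Icc.2 (abs_le.1 ?_))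
      have : |((m a (γ z) : ℤ) : ℝ)| ≤ n := by
        rw [← hm a a.2, hl a a.2, hγ z hz]
        refine ((Finset.abs_sum_le_sum_abs _ _).trans ?_).trans (Nat.le_ceil _)
        refine le_trans ?_ (mul_le_mul_of_nonneg_right (Finset.single_le_sum
          (f := fun a => ∑ k, |l a k|)
          (fun _ _ => Finset.sum_nonneg fun _ _ => abs_nonneg _) a.2) hR)
        rw [Finset.sum_mul]
        refine Finset.sum_le_sum fun k _ => ?_
        rw [abs_mul]
        exact mul_le_mul_of_nonneg_left ((norm_le_pi_norm z k).trans (hs z hz).2) (abs_nonneg _)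
      exact_mod_cast this
    · rw [← hγ z hz, ← hγ z' hz']
      refine h3 _ _ fun a ha => ?_
      rw [hm a ha, hm a ha]
      exact congrArg _ (congrFun e ⟨a, ha⟩)
  rw [Fintype.card_piFinset, Finset.prod_const, Finset.card_univ, Fintype.card_coe, Int.card_Icc,
    show ((n : ℤ) + 1 - -n).toNat = 2 * n + 1 by omega] at hc
  rw [← mul_pow]
  refine (Nat.cast_le.2 hc).trans ?_
  push_cast
  exact pow_le_pow_left₀ (by positivity) (by nlinarith) _

end XCharX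

open XCharX in
theorem exists_ab {Y Γ : Type*} [MetricSpace Y] [Nonempty Y] [Group Γ] [MulAction Γ Y]
    {F : Equiv.Perm Y} {Φ : MulAut Γ} (eqv : ∀ (g : Γ) x, F (g • x) = Φ g • F x)
    {S : Set Γ} (hS : S.Finite) (hgen : Subgroup.closure S = ⊤) (𝒞 : Submodule ℝ (Y → ℝ))
    (h0 : ∀ h ∈ 𝒞, Continuous h) (h1 : ∀ h ∈ 𝒞, h ∘ F ∈ 𝒞)
    (h2 : ∀ h ∈ 𝒞, h ∘ (F⁻¹ : Equiv.Perm Y) ∈ 𝒞) {ι : Type*} [Finite ι] {h : ι → Y → ℝ}
    {α : ι → Γ → ℤ} (h3 : ∀ i, h i ∈ 𝒞) (h4 : ∀ i (g : Γ) y, h i (g • y) = h i y + α i g) :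
    ∃ (d : ℕ) (J : Y → Fin d → ℝ) (A : Γ → Fin d → ℝ) (L : ℤ → Matrix (Fin d) (Fin d) ℝ)
      (ρ : Fin d → ℝ), Ab Φ J A L ρ ∧ (∀ k, (fun y => J y k) ∈ 𝒞) ∧
      ∀ i, ∃ l : Fin d → ℝ, ∀ g, (α i g : ℝ) = l ⬝ᵥ A g := by
  set Gs : Set (Γ → ℝ) := {a | a ∈ prim Γ 𝒞 ∧ ∀ g, ∃ m : ℤ, a g = m}
  set W := Submodule.span ℝ Gs with hW
  have le : W ≤ prim Γ 𝒞 := Submodule.span_le.2 fun _ ha => ha.1
  have := hS.to_subtype
  have : FiniteDimensional ℝ W := by
    refine FiniteDimensional.of_injective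
      ((LinearMap.funLeft ℝ ℝ (Subtype.val : S → Γ)).comp W.subtype)
      ((injective_iff_map_eq_zero _).2 fun a ha => Subtype.ext ?_)
    exact vanish hgen (le a.2) fun g hg => congrFun ha ⟨g, hg⟩
  have inv : ∀ a ∈ W, LinearMap.funLeft ℝ ℝ Φ a ∈ W := by
    refine fun a ha => Submodule.map_le_iff_le_comap.2 (Submodule.span_le.2 ?_)
      (Submodule.mem_map_of_mem ha)
    rintro a ⟨⟨f, f1, f2⟩, f3⟩
    exact Submodule.subset_span ⟨⟨f ∘ F, h1 f f1, fun g y => by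
      simp [eqv, f2, LinearMap.funLeft_apply]⟩, fun g => f3 _⟩
  obtain ⟨d, β, L, ρ, w1, w2, w3⟩ := exists_wt (LinearEquiv.ofInjectiveEndo
    ((LinearMap.funLeft ℝ ℝ Φ).restrict inv) fun a b e => Subtype.ext
      (LinearMap.funLeft_injective_of_surjective ℝ ℝ _ Φ.surjective (congrArg Subtype.val e)))
  choose J j1 j2 using fun k => le (β k).2
  have rep : ∀ a ∈ W, ∃ l : Fin d → ℝ, ∀ g, a g = l ⬝ᵥ fun k => (β k).1 g := fun a ha => by
    obtain ⟨l, hl⟩ := (Submodule.mem_span_range_iff_exists_fun ℝ).1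
      (w2 ▸ Submodule.mem_top : (⟨a, ha⟩ : W) ∈ Submodule.span ℝ (Set.range β))
    refine ⟨l, fun g => ?_⟩
    have := congrFun (congrArg Subtype.val hl) g
    simpa [dotProduct] using this.symm
  obtain ⟨t, t1, t2⟩ := (Submodule.fg_span_iff_fg_span_finset_subset Gs).1
    ((Submodule.fg_iff_finiteDimensional W).2 ‹_›)
  refine ⟨d, fun y k => J k y, fun g k => (β k).1 g, L, ρ, ⟨w1, continuous_pi fun k => h0 _ (j1 k),
    fun g y => funext fun k => j2 k g y, fun g => funext fun k => ?_, XCharX.count t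
      (fun a ha => (t1 ha).2) (fun a ha => rep a (Submodule.subset_span (t1 ha)))
      fun g g' e => funext fun k => ?_⟩, j1,
    fun i => rep _ (Submodule.subset_span ⟨⟨h i, h3 i, h4 i⟩, fun g => ⟨_, rfl⟩⟩)⟩
  · refine (congrFun (congrArg Subtype.val (w3 k)) g).trans ?_
    simp [mulVec, dotProduct]
  · have : ∀ a ∈ Submodule.span ℝ (t : Set (Γ → ℝ)), a g = a g' := fun a ha => by
      induction ha using Submodule.span_induction with
      | mem x hx => exact e x hx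
      | zero => rfl
      | add x z _ _ hx hz => simp [hx, hz]
      | smul c x _ hx => simp [hx]
    exact this _ (t2 ▸ (β k).2)

end Pool.Agent.P.MP_5c499f_an
end

-- part Pool.Agent.P.MP_5c499f_an.XCtl
section

/-! Controlled functions on the cover. -/

set_option autoImplicit false

namespace Pool.Agent.P.MP_5c499f_an

open Filter Topology Metric MeasureTheory Matrix

namespace XCtlX

lemma diffAt {X W : Type*} [NormedAddCommGroup X] [NormedSpace ℝ X] [NormedAddCommGroup W]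
    [NormedSpace ℝ W] {φ : X → W} {B : Set X} (hB : IsOpen B) (h : ContDiffOn ℝ 1 φ B) {b : X}
    (hb : b ∈ B) : DifferentiableAt ℝ φ b :=
  (h.contDiffAt (hB.mem_nhds hb)).differentiableAt (by simp)

/-- A continuous logarithm of a `C¹` function is `C¹`. -/
lemma log_c1 {X : Type*} [NormedAddCommGroup X] [NormedSpace ℝ X] {l φ : X → ℂ} {B : Set X}
    (hB : IsOpen B) (hl : ContinuousOn l B) (hφ : ContDiffOn ℝ 1 φ B)
    (he : ∀ b ∈ B, Complex.exp (l b) = φ b) {b : X} (hb : b ∈ B) : ContDiffAt ℝ 1 l b := by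
  have hn := hB.mem_nhds hb
  have hc : ContinuousAt l b := hl.continuousAt hn
  have hne : φ b ≠ 0 := by rw [← he b hb]; exact Complex.exp_ne_zero _
  have h1 : ContinuousAt (fun z => (l z - l b).im) b :=
    Complex.continuous_im.continuousAt.comp (hc.sub continuousAt_const)
  have h0 : (l b - l b).im = 0 := by simp
  have h2 : ∀ᶠ z in 𝓝 b, -Real.pi < (l z - l b).im :=
    continuousAt_const.eventually_lt h1 (by simpa using Real.pi_pos)
  have h3 : ∀ᶠ z in 𝓝 b, (l z - l b).im < Real.pi :=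
    h1.eventually_lt continuousAt_const (by simpa using Real.pi_pos)
  have h4 : l =ᶠ[𝓝 b] fun z => l b + Complex.log (φ z / φ b) := by
    filter_upwards [h2, h3, hn] with z a2 a3 a4
    rw [← he z a4, ← he b hb, ← Complex.exp_sub, Complex.log_exp a2 a3.le]
    ring
  refine ContDiffAt.congr_of_eventuallyEq ?_ h4
  have h5 : ContDiffAt ℝ 1 (fun z => φ z / φ b) b := (hφ.contDiffAt hn).div_const _
  have h6 : ContDiffAt ℝ 1 Complex.log (φ b / φ b) := by
    rw [div_self hne]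
    exact (Complex.contDiffAt_log Complex.one_mem_slitPlane).restrict_scalars ℝ
  exact contDiffAt_const.add (ContDiffAt.comp b (g := Complex.log) h6 h5)

lemma log_fderiv {X : Type*} [NormedAddCommGroup X] [NormedSpace ℝ X] {l φ : X → ℂ} {B : Set X}
    (hB : IsOpen B) (hl : ContinuousOn l B) (hφ : ContDiffOn ℝ 1 φ B)
    (he : ∀ b ∈ B, Complex.exp (l b) = φ b) {b : X} (hb : b ∈ B) (v : X) :
    fderiv ℝ l b v = fderiv ℝ φ b v / φ b := by
  have hn := hB.mem_nhds hb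
  have hne : φ b ≠ 0 := by rw [← he b hb]; exact Complex.exp_ne_zero _
  have h1 : HasFDerivAt l (fderiv ℝ l b) b :=
    ((log_c1 hB hl hφ he hb).differentiableAt (by simp)).hasFDerivAt
  have h2 := h1.cexp
  have h3 : φ =ᶠ[𝓝 b] fun z => Complex.exp (l z) := by
    filter_upwards [hn] with z a using (he z a).symm
  rw [h3.fderiv_eq, h2.fderiv, he b hb]
  simp only [_root_.smul_apply, smul_eq_mul]
  field_simp

end XCtlX

variable {M : Type*} [MetricSpace M] [CompactSpace M] {N u : ℕ} {e : M → VV N} {r : VV N → M}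
  {U : Set (VV N)} {g : Equiv.Perm M} {Pr : M → VV N →L[ℝ] XX u} {Io : M → XX u →L[ℝ] VV N}
  {C₀ a : ℝ}
  {Y : Type*} [TopologicalSpace Y]

lemma Ctl.zero (ep : Y → VV N) : Ctl ep u 0 := by
  refine ⟨continuous_const, 0, fun τ B _ _ _ => ⟨contDiffOn_const (c := (0 : ℝ)), fun b _ v => ?_⟩⟩
  have : ((0 : Y → ℝ) ∘ τ) = fun _ => (0 : ℝ) := rfl
  rw [this]
  simp

lemma Ctl.add {ep : Y → VV N} {h h' : Y → ℝ} (h1 : Ctl ep u h) (h2 : Ctl ep u h') :
    Ctl ep u (h + h') := by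
  obtain ⟨c1, K, hK⟩ := h1
  obtain ⟨c2, K', hK'⟩ := h2
  refine ⟨c1.add c2, K + K', fun τ B hB hτ hc => ?_⟩
  obtain ⟨a1, a2⟩ := hK τ B hB hτ hc
  obtain ⟨b1, b2⟩ := hK' τ B hB hτ hc
  have e0 : (h + h') ∘ τ = h ∘ τ + h' ∘ τ := rfl
  rw [e0]
  refine ⟨a1.add b1, fun b hb v => ?_⟩
  rw [fderiv_add (XCtlX.diffAt hB a1 hb) (XCtlX.diffAt hB b1 hb), _root_.add_apply,
    add_mul]
  exact (abs_add_le _ _).trans (add_le_add (a2 b hb v) (b2 b hb v))

lemma Ctl.smul {ep : Y → VV N} {h : Y → ℝ} (c : ℝ) (h1 : Ctl ep u h) : Ctl ep u (c • h) := by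
  obtain ⟨c1, K, hK⟩ := h1
  refine ⟨c1.const_smul c, |c| * K, fun τ B hB hτ hc => ?_⟩
  obtain ⟨a1, a2⟩ := hK τ B hB hτ hc
  have e0 : (c • h) ∘ τ = c • (h ∘ τ) := rfl
  rw [e0]
  refine ⟨a1.const_smul c, fun b hb v => ?_⟩
  rw [fderiv_const_smul (XCtlX.diffAt hB a1 hb), _root_.smul_apply, smul_eq_mul,
    abs_mul, mul_assoc]
  exact mul_le_mul_of_nonneg_left (a2 b hb v) (abs_nonneg c)

omit [CompactSpace M] [TopologicalSpace Y] in
/-- The chain rule along a disc. -/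
lemma XCtlX.chain (A : Amb e r U g Pr Io C₀ a) {W : Type*} [NormedAddCommGroup W]
    [NormedSpace ℝ W] {φ : M → W} (hφ : ContDiffOn ℝ 1 (φ ∘ r) U) {p : Y → M} {τ : XX u → Y}
    {B : Set (XX u)} (hB : IsOpen B) (hc : ContDiffOn ℝ 1 ((e ∘ p) ∘ τ) B) :
    ContDiffOn ℝ 1 ((φ ∘ p) ∘ τ) B ∧ ∀ b ∈ B, ∀ v, fderiv ℝ ((φ ∘ p) ∘ τ) b v =
      Dm e r φ (p (τ b)) (fderiv ℝ ((e ∘ p) ∘ τ) b v) := by
  have e0 : (φ ∘ p) ∘ τ = (φ ∘ r) ∘ ((e ∘ p) ∘ τ) := by
    funext b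
    simp only [Function.comp_apply, A.ret]
  rw [e0]
  refine ⟨hφ.comp hc fun b _ => A.sub _, fun b hb v => ?_⟩
  rw [fderiv_comp b (XCtlX.diffAt A.op hφ (A.sub _)) (XCtlX.diffAt hB hc hb)]
  rfl

/-- Composition with a lift of a map that is `C¹` along `M`. -/
lemma Ctl.comp (A : Amb e r U g Pr Io C₀ a) {p : Y → M} {f : M → M}
    (hf : ContDiffOn ℝ 1 (e ∘ f ∘ r) U) {F : Y → Y} (hF : Continuous F)
    (hp : ∀ y, p (F y) = f (p y)) {h : Y → ℝ} (h1 : Ctl (e ∘ p) u h) :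
    Ctl (e ∘ p) u (h ∘ F) := by
  obtain ⟨c1, K, hK⟩ := h1
  have hf' : ContDiffOn ℝ 1 ((e ∘ f) ∘ r) U := hf
  obtain ⟨K', -, hK'⟩ := A.bdd hf'
  refine ⟨c1.comp hF, max K 0 * K', fun τ B hB hτ hc => ?_⟩
  obtain ⟨d1, d2⟩ := XCtlX.chain A hf' hB hc
  have e0 : (e ∘ p) ∘ (F ∘ τ) = ((e ∘ f) ∘ p) ∘ τ := by
    funext b
    simp only [Function.comp_apply, hp]
  obtain ⟨a1, a2⟩ := hK (F ∘ τ) B hB (hF.comp_continuousOn hτ) (by rw [e0]; exact d1)
  refine ⟨a1, fun b hb v => ?_⟩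
  have h3 := a2 b hb v
  rw [e0, d2 b hb v] at h3
  calc |fderiv ℝ ((h ∘ F) ∘ τ) b v| = |fderiv ℝ (h ∘ (F ∘ τ)) b v| := rfl
    _ ≤ _ := h3
    _ ≤ max K 0 * ‖Dm e r (e ∘ f) (p (τ b)) (fderiv ℝ ((e ∘ p) ∘ τ) b v)‖ :=
      mul_le_mul_of_nonneg_right (le_max_left _ _) (norm_nonneg _)
    _ ≤ max K 0 * (K' * ‖fderiv ℝ ((e ∘ p) ∘ τ) b v‖) :=
      mul_le_mul_of_nonneg_left ((hK' _).2 _) (le_max_right _ _)
    _ = _ := by ring

/-- Lifting the argument of a map to the punctured plane. -/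
theorem exists_arg [SimplyConnectedSpace Y] [LocallyPathConnectedSpace Y]
    (A : Amb e r U g Pr Io C₀ a) {p : Y → M} (hp : Continuous p) {Γ : Type*} [Group Γ]
    [MulAction Γ Y] (h1 : ∀ γ : Γ, Continuous fun y : Y => γ • y) (h2 : ∀ (γ : Γ) y, p (γ • y) = p y)
    {θ : M → ℂ} (h3 : ContDiffOn ℝ 1 (θ ∘ r) U) (h4 : ∀ x, θ x ≠ 0) :
    ∃ (h : Y → ℝ) (α : Γ → ℤ), Ctl (e ∘ p) u h ∧ (∀ (γ : Γ) y, h (γ • y) = h y + α γ) ∧
      ∀ (τ : XX u → Y) (B : Set (XX u)), IsOpen B → ContinuousOn τ B →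
        ContDiffOn ℝ 1 ((e ∘ p) ∘ τ) B → ∀ b ∈ B, ∀ v, 2 * Real.pi * fderiv ℝ (h ∘ τ) b v =
          (Dm e r θ (p (τ b)) (fderiv ℝ ((e ∘ p) ∘ τ) b v) / θ (p (τ b))).im := by
  have hθ : Continuous θ := A.cont_φ h3
  obtain ⟨y₀⟩ : Nonempty Y := inferInstance
  obtain ⟨l, ⟨-, hl⟩, -⟩ := Complex.isCoveringMapOn_exp.existsUnique_continuousMap_lifts
    (⟨θ ∘ p, hθ.comp hp⟩ : C(Y, ℂ)) (a₀ := y₀) (Complex.exp_log (h4 (p y₀))) (fun y => h4 (p y))
  have hl' : ∀ y, Complex.exp (l y) = θ (p y) := fun y => congr_fun hl y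
  have hlc : Continuous l := l.continuous
  have hpi : (0 : ℝ) < 2 * Real.pi := by positivity
  -- the derivative along discs
  have key : ∀ (τ : XX u → Y) (B : Set (XX u)), IsOpen B → ContinuousOn τ B →
      ContDiffOn ℝ 1 ((e ∘ p) ∘ τ) B →
      ContDiffOn ℝ 1 ((fun y => (l y).im / (2 * Real.pi)) ∘ τ) B ∧ ∀ b ∈ B, ∀ v,
        2 * Real.pi * fderiv ℝ ((fun y => (l y).im / (2 * Real.pi)) ∘ τ) b v =
          (Dm e r θ (p (τ b)) (fderiv ℝ ((e ∘ p) ∘ τ) b v) / θ (p (τ b))).im := by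
    intro τ B hB hτ hc
    obtain ⟨d1, d2⟩ := XCtlX.chain A h3 hB hc
    have c1 : ContinuousOn (l ∘ τ) B := hlc.comp_continuousOn hτ
    have c2 : ∀ b ∈ B, Complex.exp ((l ∘ τ) b) = ((θ ∘ p) ∘ τ) b := fun b _ => hl' _
    have e0 : (fun y => (l y).im / (2 * Real.pi)) ∘ τ =
        ((2 * Real.pi)⁻¹ • Complex.imCLM : ℂ →L[ℝ] ℝ) ∘ (l ∘ τ) := by
      funext b
      simp only [Function.comp_apply, _root_.smul_apply, Complex.imCLM_apply,
        smul_eq_mul]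
      ring
    rw [e0]
    refine ⟨fun b hb => ((ContinuousLinearMap.contDiff _).contDiffAt.comp b
      (XCtlX.log_c1 hB c1 d1 c2 hb)).contDiffWithinAt, fun b hb v => ?_⟩
    rw [fderiv_comp b (ContinuousLinearMap.differentiableAt _)
      ((XCtlX.log_c1 hB c1 d1 c2 hb).differentiableAt (by simp)), ContinuousLinearMap.fderiv,
      ContinuousLinearMap.comp_apply, XCtlX.log_fderiv hB c1 d1 c2 hb, d2 b hb v]
    simp only [Function.comp_apply, _root_.smul_apply, Complex.imCLM_apply,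
      smul_eq_mul]
    field_simp
  -- integrality
  have hint : ∀ (γ : Γ) y, ∃ n : ℤ, l (γ • y) = l y + n * (2 * Real.pi * Complex.I) := by
    intro γ y
    rw [← Complex.exp_eq_exp_iff_exists_int, hl', hl', h2]
  choose n hn using hint
  have hn' : ∀ (γ : Γ) y, (l (γ • y)).im / (2 * Real.pi) = (l y).im / (2 * Real.pi) + n γ y := by
    intro γ y
    rw [hn γ y]
    simp
    field_simp
  have hnc : ∀ γ : Γ, Continuous (n γ) := by
    intro γ
    rw [Int.isClosedEmbedding_coe_real.isEmbedding.continuous_iff]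
    have : ((↑) : ℤ → ℝ) ∘ n γ =
        fun y => (l (γ • y)).im / (2 * Real.pi) - (l y).im / (2 * Real.pi) := by
      funext y
      rw [hn' γ y]
      simp
    rw [this]
    exact ((Complex.continuous_im.comp (hlc.comp (h1 γ))).div_const _).sub
      ((Complex.continuous_im.comp hlc).div_const _)
  have hconst : ∀ (γ : Γ) y, n γ y = n γ y₀ := fun γ y =>
    PreconnectedSpace.constant inferInstance (hnc γ)
  -- bounds
  obtain ⟨K, hK0, hK⟩ := A.bdd h3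
  obtain ⟨x₀, -, hx₀⟩ := isCompact_univ.exists_isMinOn ⟨p y₀, Set.mem_univ _⟩
    hθ.norm.continuousOn
  have hm : 0 < ‖θ x₀‖ := norm_pos_iff.mpr (h4 x₀)
  refine ⟨fun y => (l y).im / (2 * Real.pi), fun γ => n γ y₀,
    ⟨(Complex.continuous_im.comp hlc).div_const _, K / ‖θ x₀‖ / (2 * Real.pi),
      fun τ B hB hτ hc => ⟨(key τ B hB hτ hc).1, fun b hb v => ?_⟩⟩, fun γ y => ?_,
    fun τ B hB hτ hc => (key τ B hB hτ hc).2⟩
  · have k1 := (key τ B hB hτ hc).2 b hb v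
    have k2 : ‖θ x₀‖ ≤ ‖θ (p (τ b))‖ := hx₀ (Set.mem_univ _)
    have k3 : |(Dm e r θ (p (τ b)) (fderiv ℝ ((e ∘ p) ∘ τ) b v) / θ (p (τ b))).im| ≤
        K * ‖fderiv ℝ ((e ∘ p) ∘ τ) b v‖ / ‖θ x₀‖ := by
      refine (Complex.abs_im_le_norm _).trans ?_
      rw [norm_div]
      exact div_le_div₀ (by positivity) ((hK _).2 _) hm k2
    rw [← k1, abs_mul, abs_of_pos hpi] at k3
    rw [div_mul_eq_mul_div, le_div_iff₀ hpi, mul_comm, div_mul_eq_mul_div]
    exact k3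
  · have := hn' γ y
    rw [hconst γ y] at this
    exact this


end Pool.Agent.P.MP_5c499f_an
end

-- part Pool.Agent.P.MP_5c499f_an.XTop
section

/-! The dichotomy. -/

set_option autoImplicit false

namespace Pool.Agent.P.MP_5c499f_an

open Filter Topology Metric MeasureTheory Matrix

variable {M : Type*} [MetricSpace M] [CompactSpace M] {N u : ℕ} {e : M → VV N} {r : VV N → M}
  {U : Set (VV N)} {g : Equiv.Perm M} {Pr : M → VV N →L[ℝ] XX u} {Io : M → XX u →L[ℝ] VV N}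
  {C₀ a : ℝ} {Y Γ : Type*} [MetricSpace Y] [Group Γ] [MulAction Γ Y] {F : Equiv.Perm Y}
  {Φ : MulAut Γ} {ε δ C a' b' : ℝ} {p : Y → M}

omit [CompactSpace M] in
lemma UpE.volLe {H s C : ℝ} (h : UpE e r g Io H s C) (x : M) (hs : 0 ≤ s) (n : ℕ)
    {K : Set (XX u)} (hK : MeasurableSet K) (hK' : K ⊆ closedBall 0 s) :
    VolLe K (fun b v => ‖Dn e r g n (e x + Io x b) (Io x v)‖) (u.factorial * C * H ^ n) := by
  intro ξ hξ
  have f0 : (0 : ℝ) < u.factorial := by exact_mod_cast u.factorial_pos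
  have key := h x (e x) n (K.indicator fun b => |dt (ξ b) (bas u)| / u.factorial) (by simpa)
    fun b _ S hS => by
      by_cases hb : b ∈ K
      · rw [Set.indicator_of_mem hb, div_le_iff₀ f0]
        have := dt_le (S := S) zero_le_one fun i v => (hξ b hb i v).trans (by simpa using hS v)
        simpa [mul_comm] using this
      · rw [Set.indicator_of_notMem hb]; exact abs_nonneg _
  have e1 : ∫⁻ b in K, ENNReal.ofReal |dt (ξ b) (bas u)| = ENNReal.ofReal u.factorial *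
      ∫⁻ b in K, ENNReal.ofReal (K.indicator (fun b => |dt (ξ b) (bas u)| / u.factorial) b) := by
    rw [← lintegral_const_mul' _ _ ENNReal.ofReal_ne_top]
    refine setLIntegral_congr_fun hK fun b hb => ?_
    rw [Set.indicator_of_mem hb, ← ENNReal.ofReal_mul f0.le, mul_div_cancel₀ _ f0.ne']
  rw [e1, mul_assoc, ENNReal.ofReal_mul f0.le]
  exact mul_le_mul_right ((lintegral_mono_set hK').trans key) _

/-- The controlled functions form a subspace. -/
def ctl {Y : Type*} [TopologicalSpace Y] (ep : Y → VV N) (u : ℕ) : Submodule ℝ (Y → ℝ) where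
  carrier := {h | Ctl ep u h}
  add_mem' := Ctl.add
  zero_mem' := Ctl.zero ep
  smul_mem' c _ h := Ctl.smul c h

theorem not_thin (A : Amb e r U g Pr Io C₀ a) (S : Hs F Φ ε δ C a' b') {ρ₀ : ℝ} (hc : IsCov p ρ₀)
    (hF : ∀ y, p (F y) = g (p y)) {H s C₁ : ℝ} (D : DV e r U g Pr Io C₀ a H s C₁) (o : Y) {η : ℝ}
    (e1 : 2 * η < ρ₀) (e2 : η ≤ δ) (e3 : ∀ y, ‖y - e (p o)‖ ≤ (1 + C₀) * s → dist (r y) (p o) ≤ η)
    {d : ℕ} {J G : Y → Fin d → ℝ} {A' : Γ → Fin d → ℝ} {L : ℤ → Matrix (Fin d) (Fin d) ℝ}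
    {ρ : Fin d → ℝ} (ab : Ab Φ J A' L ρ) (gg : GG F ε J A' L ρ G)
    (hJ : ∀ k, Ctl (e ∘ p) u fun y => J y k) {Ψ : M → (XX u →L[ℝ] VV N) → ℝ} (hΨ : Pos Pr Io Ψ)
    {m : ℕ} {c : Fin m → ℝ} {h : Fin m → Fin u → Y → ℝ} (h1 : ∀ t i, Ctl (e ∘ p) u (h t i))
    {l : Fin m → Fin u → Fin d → ℝ} (h2 : ∀ t i (γ : Γ) y, h t i (γ • y) = h t i y + l t i ⬝ᵥ A' γ)
    (h3 : ∀ (τ : XX u → Y) (B : Set (XX u)), IsOpen B → ContinuousOn τ B →
      ContDiffOn ℝ 1 ((e ∘ p) ∘ τ) B → ∀ b ∈ B, Ψ (p (τ b)) (fderiv ℝ ((e ∘ p) ∘ τ) b) =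
        ∑ t, c t * dt (fun i => fderiv ℝ (h t i ∘ τ) b) (bas u)) : ¬ ThinY F ε H G := by
  rintro ⟨q, C₂, l₀, q0, q1, l0, th⟩
  have s0 := D.s_pos
  have c0 := A.one_le
  have a1 : a < 1 := by nlinarith [A.a_le, A.a_pos, one_le_pow₀ (n := 2) c0]
  set x := p o with hx
  have n1 : ∀ b ∈ ball (0 : XX u) s, ‖e x + Io x b - e x‖ ≤ (1 + C₀) * s := fun b hb => by
    rw [add_sub_cancel_left]
    nlinarith [A.n_io x b, mem_ball_zero_iff.1 hb, norm_nonneg b]
  have n2 : ∀ b ∈ ball (0 : XX u) s, e x + Io x b ∈ U := fun b hb => D.tan.sub x _ (n1 b hb)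
  have n3 : ContDiff ℝ 1 fun b => e x + Io x b := contDiff_const.add (Io x).contDiff
  obtain ⟨τ, t1, t2⟩ := hc.lift_disc (σ := fun b => r (e x + Io x b))
    (A.cont_r.comp n3.continuous.continuousOn n2) o e1 fun b hb => e3 _ (n1 b hb)
  set τn : ℕ → XX u → Y := fun n b => (F ^ (n : ℤ)) (τ b) with hτ
  have t3 : ∀ n, ContinuousOn (τn n) (ball 0 s) := fun n =>
    (uc_zpow S.uc S.uc' n).continuous.comp_continuousOn t1
  have t4 : ∀ n, ∀ b ∈ ball (0 : XX u) s, p (τn n b) = g^[n] (r (e x + Io x b)) := fun n b hb => by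
    simp only [hτ]
    rw [semiconj_zpow hF, (t2 b hb).1, zpow_natCast, Equiv.Perm.coe_pow]
  have t5 : ∀ n, ContDiffOn ℝ 1 ((e ∘ p) ∘ τn n) (ball 0 s) := fun n =>
    ((A.c1_iter A.c1 n).comp n3.contDiffOn n2).congr fun b hb => congrArg e (t4 n b hb)
  have t6 : ∀ n, ∀ b ∈ ball (0 : XX u) s, fderiv ℝ ((e ∘ p) ∘ τn n) b =
      Dn e r g n (e x + Io x b) ∘L Io x := fun n b hb => by
    refine ((A.hasFDerivAt_disc x (e x) n (n2 b hb)).congr_of_eventuallyEq ?_).fderiv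
    filter_upwards [isOpen_ball.mem_nhds hb] with b hb using congrArg e (t4 n b hb)
  set Nn : ℕ → XX u → XX u → ℝ := fun n b v => ‖Dn e r g n (e x + Io x b) (Io x v)‖ with hN
  have ctl' : ∀ {φ : Y → ℝ}, Ctl (e ∘ p) u φ → ∃ K, ∀ n, ContDiffOn ℝ 1 (φ ∘ τn n) (ball 0 s) ∧
      ∀ b ∈ ball (0 : XX u) s, ∀ v, |fderiv ℝ (φ ∘ τn n) b v| ≤ K * Nn n b v := fun hφ => by
    obtain ⟨K, hK⟩ := hφ.2
    refine ⟨K, fun n => ⟨(hK _ _ isOpen_ball (t3 n) (t5 n)).1, fun b hb v => ?_⟩⟩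
    have := (hK _ _ isOpen_ball (t3 n) (t5 n)).2 b hb v
    rwa [t6 n b hb] at this
  choose K₁ k1 using fun k => ctl' (hJ k)
  choose K₂ k2 using fun k => ctl' ((hJ k).comp A A.cg S.uc.continuous hF)
  obtain ⟨K₃, k3⟩ := gg.bd
  obtain ⟨K₄, k4⟩ := Finite.exists_le K₁
  obtain ⟨K₅, k5⟩ := Finite.exists_le K₂
  let χ : ContDiffBump (0 : XX u) := ⟨s / 4, s / 2, by linarith, by linarith⟩
  have sub : closedBall (0 : XX u) (s / 2) ⊆ ball 0 s := closedBall_subset_ball (by linarith)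
  have cut : Cut (ball 0 s) (closedBall 0 (s / 2)) χ := ⟨isOpen_ball, isCompact_closedBall _ _, sub,
    χ.contDiff, fun b hb => χ.zero_of_le_dist (not_lt.1 fun h => hb (mem_closedBall.2 h.le))⟩
  have f0 : (0 : ℝ) < u.factorial := by exact_mod_cast u.factorial_pos
  have c1 := D.C_pos
  have H0 := D.H_pos
  obtain ⟨C₃, d0, d1, d2, d3, d4⟩ : ∃ C₃, u.factorial * C₁ ≤ C₃ ∧ C₁ ≤ C₃ ∧ K₃ ≤ C₃ ∧ K₄ ≤ C₃ ∧
      K₅ ≤ C₃ := ⟨max (max (u.factorial * C₁) C₁) (max K₃ (max K₄ K₅)), by simp, by simp, by simp,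
        by simp, by simp⟩
  have st : ∀ n b, τn (n + 1) b = F (τn n b) := fun n b => by
    simp only [hτ]; push_cast; exact zpow_succ_apply _ _ _
  have dd : DD (ball 0 s) (closedBall 0 (s / 2)) χ Nn L ρ (fun n b => J (τn n b))
      (fun b => G (τ b)) H a C₃ := by
    refine ⟨cut, ab.wt, H0, A.a_pos, a1, by linarith, fun n ξ hξ => ?_, fun n b hb v => ?_,
      fun n k => (k1 k n).1, fun n k b hb v => ?_, fun n k b hb v => ?_, fun n b _ => ?_,
      fun k hk => ?_⟩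
    · exact (D.up.volLe x s0.le n measurableSet_closedBall (closedBall_subset_closedBall
        (by linarith)) ξ hξ).trans (ENNReal.ofReal_le_ofReal (by gcongr))
    · refine (D.tan.expd x _ n v (n1 b (sub hb))).trans ?_
      have := A.a_pos
      simp only [hN]
      gcongr
    · exact ((k1 k n).2 b (sub hb) v).trans (mul_le_mul_of_nonneg_right ((k4 k).trans d3)
        (norm_nonneg _))
    · simp only [st]
      exact ((k2 k n).2 b (sub hb) v).trans (mul_le_mul_of_nonneg_right ((k5 k).trans d4)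
        (norm_nonneg _))
    · rw [st]; exact (k3 _).trans d2
    · exact ((gg.lim k hk).comp τ).tendstoUniformlyOn
  have thin : Thin (closedBall 0 (s / 2)) L (fun b => G (τ b)) H := by
    classical
    obtain ⟨R, hR⟩ := gg.osc
    refine ⟨q, max C₂ R, l₀, q0, q1, l0, fun t => ?_⟩
    obtain ⟨E, E1, E2⟩ := th o t
    refine ⟨E.image G, (Nat.cast_le.2 Finset.card_image_le).trans (E1.trans
      (mul_le_mul_of_nonneg_right (le_max_left _ _) (by positivity))), fun b hb => ?_⟩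
    obtain ⟨z, z1, z2⟩ := S.lh.br (τ b) o (by linarith [(t2 b (sub hb)).2, S.lh.δ_pos])
    obtain ⟨y', z', y1, y2, y3⟩ := E2 z z2
    refine ⟨G z', Finset.mem_image_of_mem _ y1, _, (hR _ _ y3).trans (le_max_right _ _), ?_⟩
    rw [gg.step, gg.step, ← Matrix.mulVec_sub, Matrix.mulVec_mulVec, ← ab.wt.add, neg_add_cancel,
      ab.wt.zero, Matrix.one_mulVec, y2, add_sub_cancel]
    exact (gg.st _ _ (S.lh.asym_of_st (z1.mono le_rfl (by linarith [S.lh.ε_pos])))).symm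
  obtain ⟨q', p0, p1, fam⟩ := dd.family thin
  obtain ⟨c₁, p2, p3⟩ := D.tan.dom c1 A.a_pos a1 hΨ
  obtain ⟨c₂, p4, p5⟩ := D.low (s / 4) (by linarith) (by linarith)
  choose K₆ k6 using fun t i => ctl' (h1 t i)
  refine no_small (H := H) (c := c) (h := fun t i n => h t i ∘ τn n) cut
    (convex_closedBall _ _).isPreconnected (fun b => χ.nonneg) measurableSet_closedBall
    (closedBall_subset_closedBall (show s / 4 ≤ s / 2 by linarith))
    (fun b hb => χ.one_of_mem_closedBall hb) (fun t i n => (k6 t i n).1)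
    (P := fun n b => Ψ (g^[n] (r (e x + Io x b))) (Dn e r g n (e x + Io x b) ∘L Io x))
    (fun n b hb => ?_) (p3.mono fun n hn b hb => (hn x _ (n1 b (sub hb))).1) (c₀ := c₂ / c₁)
    (by positivity) H0 p0 p1 (p3.mono fun n hn => ?_) fun t => ?_
  · rw [← t4 n b (sub hb), ← t6 n b (sub hb)]
    exact h3 _ _ isOpen_ball (t3 n) (t5 n) b (sub hb)
  · have := p5 x (e x) n _ (by simpa using s0.le) fun b hb =>
      (hn x _ (n1 b (closedBall_subset_ball (by linarith) hb))).2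
    simp only [ENNReal.ofReal_mul p2.le] at this
    rw [lintegral_const_mul' _ _ ENNReal.ofReal_ne_top] at this
    rw [div_mul_eq_mul_div, ENNReal.ofReal_div_of_pos p2]
    exact ENNReal.div_le_of_le_mul' this
  · choose R hR using fun i => S.bdd (φ := fun y => h t i y - l t i ⬝ᵥ J y)
      ((h1 t i).1.sub (continuous_const.dotProduct ab.cont)) fun γ y => by
        simp only [h2, ab.eqv, dotProduct_add]; ring
    obtain ⟨R₁, r1⟩ := Finite.exists_le R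
    obtain ⟨R₂, r2⟩ := Finite.exists_le (K₆ t)
    exact fam (fun i n => h t i ∘ τn n) (l t) (max R₁ R₂) (fun i n => (k6 t i n).1)
      (fun i n b hb v => ((k6 t i n).2 b (sub hb) v).trans (mul_le_mul_of_nonneg_right
        ((r2 i).trans (le_max_right _ _)) (norm_nonneg _)))
      fun i n b _ => (hR i _).trans ((r1 i).trans (le_max_left _ _))

theorem top [SimplyConnectedSpace Y] [LocallyPathConnectedSpace Y] (A : Amb e r U g Pr Io C₀ a)
    {ρ₀ : ℝ} (hc : IsCov p ρ₀) (iso : ∀ (γ : Γ) (y y' : Y), dist (γ • y) (γ • y') = dist y y')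
    (hp : ∀ (γ : Γ) y, p (γ • y) = p y) (free : ∀ (γ : Γ) (y : Y), γ • y = y → γ = 1)
    (htr : ∀ y y' : Y, p y = p y' → ∃ γ : Γ, γ • y = y') (surj : Function.Surjective p)
    (hF : ∀ y, p (F y) = g (p y)) (uc : UniformContinuous F)
    (uc' : UniformContinuous (F⁻¹ : Equiv.Perm Y)) (eqv : ∀ (γ : Γ) y, F (γ • y) = Φ γ • F y)
    {Λ Λ' : ℝ} (hy : Hyp g a' b' Λ Λ') (mix : MixM g) {T : Set Γ} (hT : T.Finite)
    (hgen : Subgroup.closure T = ⊤) {m : ℕ} {c : Fin m → M → ℝ} {f : Fin m → Fin u → M → ℝ}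
    (h1 : ∀ t, ContDiffOn ℝ 1 (c t ∘ r) U) (h2 : ∀ t i, ContDiffOn ℝ 1 (f t i ∘ r) U)
    (nz : ∀ x, PsiF e r c f x (Io x) ≠ 0) (cup : CupAmb e r U u) :
    (∀ x y, ∃! w, Asym F w x ∧ Asym (F⁻¹ : Equiv.Perm Y) w y) ∧ ∃ (d : ℕ) (A : Γ → Fin d → ℝ),
      (∀ γ γ', A (γ * γ') = A γ + A γ') ∧ ∀ γ, A γ = 0 → γ = 1 := by
  obtain ⟨o⟩ : Nonempty Y := inferInstance
  have : Nonempty Y := ⟨o⟩
  have r0 := hc.pos
  have c0 := A.one_le
  obtain ⟨ε₀, a1, a2⟩ := A.exists_dv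
  obtain ⟨ρ₁, a3, a4⟩ := uniformContinuous_iff_le.1 uc _ (half_pos r0)
  obtain ⟨ρ₂, a5, a6⟩ := uniformContinuous_iff_le.1 uc' _ (half_pos r0)
  obtain ⟨ε, δ, C, a7, lh⟩ := hy.lh (min (min (ε₀ / 2) (ρ₀ / 11)) (min ρ₁ ρ₂)) (by positivity)
  simp only [le_min_iff] at a7
  obtain ⟨⟨b1, b2⟩, b3, b4⟩ := a7
  obtain ⟨K, -, k1, k2, -⟩ := exists_cpt (hc.quot iso hp free htr surj)
  have S : Hs F Φ ε δ C a' b' := ⟨hc.lh (ρ₁ := ε) hF
    (fun _ _ h => (a4 (h.trans b3)).trans_lt (half_lt_self r0))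
    (fun _ _ h => (a6 (h.trans b4)).trans_lt (half_lt_self r0)) lh le_rfl (by linarith), uc, uc',
    iso, eqv, fun γ y h => free γ y (hc.eq (by linarith) (hp γ y)), ⟨K, k1, k2⟩,
    mix_lift hc hF uc' htr mix⟩
  obtain ⟨H, cnt⟩ := S.exists_cnt
  obtain ⟨s₁, s0, s1⟩ := A.near lh.δ_pos
  obtain ⟨s, C₁, s2, D⟩ := a2 H _ _ (by linarith) (ent_of_cnt S hc (by linarith) surj hF cnt)
    (s₁ / (1 + C₀)) (by positivity)
  rw [le_div_iff₀' (by positivity)] at s2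
  obtain ⟨w, w1, w2, w3⟩ := exists_omega A D h1 h2 nz
  obtain ⟨m', c', θ, t1, t2⟩ := cup w w1 w2
  choose h α g1 g2 g3 using fun t i => exists_arg A hc.continuous
    (fun γ : Γ => (Isometry.of_dist_eq (iso γ)).continuous) hp (t1 t i).1 (t1 t i).2
  have hF' : ∀ y, p (F⁻¹ y) = g⁻¹ (p y) := fun y => by simpa using semiconj_zpow hF (-1) y
  obtain ⟨d, J, A', L, ρ, ab, j1, j2⟩ := exists_ab eqv hT hgen (ctl (e ∘ p) u) (fun _ h => h.1)
    (fun _ h => Ctl.comp A A.cg uc.continuous hF h)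
    (fun _ h => Ctl.comp A A.cg' uc'.continuous hF' h) (ι := Fin m' × Fin u)
    (h := fun i => h i.1 i.2) (α := fun i => α i.1 i.2) (fun i => g1 i.1 i.2) fun i => g2 i.1 i.2
  obtain ⟨G, gg⟩ := S.exists_gg ab
  have add : ∀ γ γ', A' (γ * γ') = A' γ + A' γ' := fun γ γ' => by
    have := ab.eqv (γ * γ') o
    rw [mul_smul, ab.eqv, ab.eqv, add_assoc, add_right_inj, add_comm] at this
    exact this.symm
  by_cases once : Once F A'
  · obtain ⟨e1, e2⟩ := S.gps gg once (by simpa using add 1 1) (S.ulight ab gg once)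
    exact ⟨e1, d, A', add, e2⟩
  choose l hl using j2
  refine absurd (S.thin cnt (fun n y y' h => by rw [gg.step, gg.step, h]) (S.dup gg once))
    (not_thin A S hc hF D o (η := δ) (by linarith [lh.δ_le]) le_rfl
      (fun y hy => (s1 _ y (hy.trans s2)).2) ab gg j1
      (pos_of_ne A (uf_psiW A fun I => (w1 I).continuous) w3)
      (c := fun t => c' t * (2 * Real.pi) ^ u) g1 (l := fun t i => l (t, i))
      (fun t i γ y => by rw [g2, hl (t, i)]) fun τ B b1 b2 b3 b hb => ?_)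
  have e1 : ∀ v, Dm e r e (p (τ b)) (fderiv ℝ ((e ∘ p) ∘ τ) b v) = fderiv ℝ ((e ∘ p) ∘ τ) b v := by
    intro v
    have d1 := (b3.contDiffAt (b1.mem_nhds hb)).differentiableAt one_ne_zero
    have d2 := (A.c1.contDiffAt (A.op.mem_nhds (A.sub (p (τ b))))).differentiableAt one_ne_zero
    have := fderiv_comp b (g := e ∘ r) (f := (e ∘ p) ∘ τ) d2 d1
    rw [show (e ∘ r) ∘ (e ∘ p) ∘ τ = (e ∘ p) ∘ τ from funext fun b => congrArg e (A.ret _)] at this
    exact (congrArg (fun T => T v) this).symm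
  rw [t2 _ _ e1]
  refine Finset.sum_congr rfl fun t _ => ?_
  have := Matrix.det_smul (Matrix.of fun i j => fderiv ℝ (h t i ∘ τ) b (bas u j)) (2 * Real.pi)
  rw [Fintype.card_fin] at this
  rw [mul_assoc, dt, ← this]
  congr 2
  ext i j
  exact (g3 t i τ B b1 b2 b3 b hb _).symm

end Pool.Agent.P.MP_5c499f_an
end

-- part Pool.Agent.P.MP_5c499f_an.XCore
section

/-! The local hyperbolic structure with shadowing, and the universal cover. -/

set_option autoImplicit false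

namespace Pool.Agent.P.MP_5c499f_an

open Bundle Filter Topology
open scoped Manifold ContDiff

section

variable {E : Type*} [NormedAddCommGroup E] [NormedSpace ℝ E] {M : Type*}

theorem core'' [FiniteDimensional ℝ E] {V : Type*} [NormedAddCommGroup V] [NormedSpace ℝ V]
    [MetricSpace M] [ChartedSpace E M] [IsManifold 𝓘(ℝ, E) 1 M] [CompactSpace M]
    [RiemannianBundle fun x : M => TangentSpace 𝓘(ℝ, E) x]
    [IsContinuousRiemannianBundle E fun x : M => TangentSpace 𝓘(ℝ, E) x]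
    {e : M → V} (he : ∀ x y, dist x y = ‖e x - e y‖) (h1 : ContMDiff 𝓘(ℝ, E) 𝓘(ℝ, V) 1 e)
    (h2 : ∀ x, Function.Injective (mfderiv 𝓘(ℝ, E) 𝓘(ℝ, V) e x))
    (f : Diffeomorph 𝓘(ℝ, E) 𝓘(ℝ, E) M M 1) (hf : IsAnosov E f) :
    (∃ σ C₁, Loc M σ C₁) ∧ ∀ᶠ K : ℕ in atTop, ∃ a b Λ Λ' : ℝ,
      Hyp ((f.toEquiv : Equiv.Perm M) ^ K) a b Λ Λ' ∧ Shad ((f.toEquiv : Equiv.Perm M) ^ K) := by
  obtain ⟨P, D, q, hD, q0, q1, hP, p1, p2, p3⟩ := hf
  obtain ⟨t, A, r, C, S, a1, a2⟩ := exists_CS he h1 h2 (Q := Qd E P)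
    fun c => Qd_continuousAt hP (mem_chart_source E c)
  have hC := S.one_le
  refine ⟨⟨_, _, S.loc⟩, ?_⟩
  filter_upwards [((tendsto_pow_atTop_nhds_zero_of_lt_one q0.le q1).const_mul
    (20 * C ^ 2 * (C ^ 2 * D))).eventually_lt_const (show _ < (1 : ℝ) by simp)] with K k1
  have c1 : ⇑((f.toEquiv : Equiv.Perm M) ^ K) = f^[K] := Equiv.Perm.coe_pow _ _
  have c2 : ⇑((f.toEquiv : Equiv.Perm M) ^ K)⁻¹ = f.symm^[K] := by
    rw [← inv_pow]; exact Equiv.Perm.coe_pow _ _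
  have c3 : ∀ n x v, mfderiv 𝓘(ℝ, E) 𝓘(ℝ, E) f^[n] x (P x v) =
      P (f^[n] x) (mfderiv 𝓘(ℝ, E) 𝓘(ℝ, E) f^[n] x v) := fun n => by
    induction n with
    | zero => intro x v; simp only [Function.iterate_zero, mfderiv_id]; rfl
    | succ n ih =>
      intro x v
      have d1 := (f.contMDiff.iterate n).mdifferentiable one_ne_zero
      have d2 := f.contMDiff.mdifferentiable one_ne_zero
      rw [Function.iterate_succ, mfderiv_comp_apply x (d1 _) (d2 _),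
        mfderiv_comp_apply x (d1 _) (d2 _), p2, ih]
      rfl
  obtain ⟨Λ, l1, l2⟩ := exists_deriv_bound (f.contMDiff.iterate K)
  obtain ⟨Λ', l3, l4⟩ := exists_deriv_bound (f.symm.contMDiff.iterate K)
  have l5 : ∀ x v, ‖v‖ ≤ Λ' * ‖mfderiv 𝓘(ℝ, E) 𝓘(ℝ, E) f^[K] x v‖ := fun x v => by
    have d1 := (f.contMDiff.iterate K).mdifferentiable one_ne_zero
    have d2 := (f.symm.contMDiff.iterate K).mdifferentiable one_ne_zero
    have e1 := l4 _ (mfderiv 𝓘(ℝ, E) 𝓘(ℝ, E) f^[K] x v)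
    rw [← mfderiv_comp_apply x (d2 _) (d1 _)] at e1
    have e2 : ∀ g : M → M, g = id → ‖mfderiv 𝓘(ℝ, E) 𝓘(ℝ, E) g x v‖ = ‖v‖ := by
      rintro _ rfl
      rw [mfderiv_id]; rfl
    rwa [e2 (f.symm^[K] ∘ f^[K])
      (funext (Function.LeftInverse.iterate f.symm_apply_apply K))] at e1
  have H := hy_chart hC a1 hP a2 (F := (f.toEquiv : Equiv.Perm M) ^ K)
    (c1 ▸ f.contMDiff.iterate K) (c2 ▸ f.symm.contMDiff.iterate K) p1 (c1 ▸ c3 K)
    (a := D * q ^ K) (b := D * q ^ K) (by positivity) (by positivity) l1 l3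
    (by linarith) (by linarith) (c1 ▸ fun x v e => ⟨(p3 x K v).1 e, l5 x v⟩)
    (c1 ▸ fun x v e => ⟨(p3 x K v).2 e, l2 x v⟩)
  exact ⟨_, _, _, _, H.hyp S, fun _ => H.shadow S⟩

end

variable {M : Type*} [MetricSpace M] {σ C₁ : ℝ} {h : Loc M σ C₁} {x₀ : M}

lemma Cov.pathConn : PathConnectedSpace (Cov h x₀) := by
  have key : ∀ a : Cov h x₀, Joined (⟨x₀, .refl _⟩ : Cov h x₀) a := by
    rintro ⟨y, γ⟩
    obtain ⟨⟨f, rfl, rfl⟩, rfl⟩ := Path.Homotopic.Quotient.mk_surjective γ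
    set p : Path (f 0) (f 1) := ⟨f, rfl, rfl⟩
    have e' : p.subpath 0 1 = p := by rw [Path.subpath_zero_one]; rfl
    refine ⟨⟨⟨_, Cov.continuous_lift (h := h) p (.refl _)⟩, ?_, ?_⟩⟩
    · simp only [Path.subpath_self]
      exact congrArg _ (Path.Homotopic.Quotient.trans_refl _)
    · simp only [e']
      exact congrArg _ (Path.Homotopic.Quotient.refl_trans _)
  exact ⟨⟨⟨x₀, .refl _⟩⟩, fun a b => (key a).symm.trans (key b)⟩

lemma Cov.simplyConn [PathConnectedSpace M] : SimplyConnectedSpace (Cov h x₀) :=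
  simply_connected_iff_paths_homotopic'.2 ⟨Cov.pathConn, fun p q => Cov.homotopic _ _ p q⟩

theorem Loc.lift [CompactSpace M] [PathConnectedSpace M] (h : Loc M σ C₁) (g : M ≃ₜ M) (x₀ : M) :
    ∃ (G : Equiv.Perm (Cov h x₀)) (Φ : MulAut (FundamentalGroup M x₀)), (∀ p, (G p).pt = g p.pt) ∧
      UniformContinuous G ∧ UniformContinuous (G⁻¹ : Equiv.Perm _) ∧
      ∀ γ a, G (γ • a) = Φ γ • G a := by
  set τ : Path.Homotopic.Quotient x₀ (g x₀) := .mk (PathConnectedSpace.somePath _ _)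
  obtain ⟨ρ₁, e1, e2, e3⟩ := Cov.lift_near (h := h) g τ
  set G : Equiv.Perm (Cov h x₀) := Equiv.ofBijective _ (Cov.liftFun_bijective g τ)
  have hG : ∀ p, (G p).pt = g p.pt := fun p => rfl
  have hG' : ∀ p, (G⁻¹ p).pt = g.symm p.pt := fun p => by
    rw [Homeomorph.eq_symm_apply, ← hG]; simp
  have u1 : UniformContinuous G := Cov.isCov.uc hG
    (CompactSpace.uniformContinuous_of_continuous g.continuous) e1 e2
  have u2 : UniformContinuous (G⁻¹ : Equiv.Perm _) := Cov.isCov.uc hG'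
    (CompactSpace.uniformContinuous_of_continuous g.symm.continuous) e1 fun p q hpq => e3 _ _ (by
      have : ∀ p, Cov.liftFun g τ (G⁻¹ p) = p := G.apply_symm_apply
      rwa [this, this])
  have u3 := fun γ : FundamentalGroup M x₀ =>
    (Isometry.of_dist_eq (Cov.dist_smul (h := h) γ)).uniformContinuous
  have key : ∀ γ γ' : FundamentalGroup M x₀, G (γ • ⟨x₀, .refl _⟩) = γ' • G ⟨x₀, .refl _⟩ →
      ∀ a, G (γ • a) = γ' • G a := fun γ γ' e =>
    preconnected_of_reach (fun _ => Cov.reach') Cov.isCov (u1.comp (u3 γ)) ((u3 γ').comp u1)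
      (fun _ => rfl) e
  obtain ⟨Φ, hΦ⟩ := exists_aut (G := G) Cov.free ⟨x₀, .refl _⟩
    (fun γ => (Cov.transitive (G ⟨x₀, .refl _⟩) (G (γ • ⟨x₀, .refl _⟩)) rfl).imp
      fun γ' e => key _ _ e.symm) fun γ' => by
    obtain ⟨γ, e⟩ := Cov.transitive (h := h) ⟨x₀, .refl _⟩ (G⁻¹ (γ' • G ⟨x₀, .refl _⟩)) (by
      rw [hG', Cov.smul_pt, hG]; simp)
    exact ⟨γ, key _ _ (by simp [e])⟩
  exact ⟨G, Φ, hG, u1, u2, hΦ⟩

lemma Asym.of_pow {Y : Type*} [MetricSpace Y] {G : Y → Y} (hG : UniformContinuous G) {K : ℕ}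
    (hK : 0 < K) {x y : Y} : Asym G^[K] x y ↔ Asym G x y := by
  refine ⟨fun h => Metric.tendsto_atTop.2 fun ε hε => ?_, fun h => ?_⟩
  · have u : ∀ s : Fin K, UniformContinuous G^[s] := fun s => UniformContinuous.iterate G s hG
    choose η e1 e2 using fun s : Fin K => Metric.uniformContinuous_iff.1 (u s) ε hε
    obtain ⟨T, hT⟩ := eventually_atTop.1
      (eventually_all.2 fun s : Fin K => h.eventually_lt_const (e1 s))
    refine ⟨K * T, fun n hn => ?_⟩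
    have := e2 ⟨n % K, Nat.mod_lt _ hK⟩ (hT (n / K)
      ((Nat.le_div_iff_mul_le hK).2 (by rwa [mul_comm])) _)
    simp only [← Function.iterate_mul, ← Function.iterate_add_apply, Nat.mod_add_div] at this
    simpa
  · simp only [Asym, ← Function.iterate_mul]
    exact h.comp (tendsto_id.const_mul_atTop' hK)

end Pool.Agent.P.MP_5c499f_an
end
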