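import Pool.Agent.K.MP_5c499f_an.C7
import Pool.Agent.P.MP_5c499f_an.GCore
import Pool.Agent.K.MP_5c499f_an.C0

-- part Pool.Agent.P.MP_5c499f_an.XEmb
section

/-! Existence of the retraction. -/

set_option autoImplicit false

namespace Pool.Agent.P.MP_5c499f_an

open Bundle Filter Topology
open scoped Manifold ContDiff

variable {E : Type*} [NormedAddCommGroup E] [NormedSpace ℝ E] [FiniteDimensional ℝ E]
  {M : Type*} [MetricSpace M] [CompactSpace M] [ChartedSpace E M] [IsManifold 𝓘(ℝ, E) ∞ M]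
  {N : ℕ} {e : M → VV N} {r : VV N → M} {U : Set (VV N)}

namespace XEmbX

omit [FiniteDimensional ℝ E] in
/-- Straightening of an immersion of an open set. -/
lemma flat {φ : E → VV N} {O : Set E} (hO : IsOpen O) (hφ : ContDiffOn ℝ ∞ φ O) {u₀ : E}
    (hu : u₀ ∈ O) (hD : Function.Injective (fderiv ℝ φ u₀)) :
    ∃ (k : ℕ) (F : VV N → EuclideanSpace ℝ (Fin k)) (G : VV N → E) (W : Set (VV N)) (O' : Set E),
      IsOpen W ∧ IsOpen O' ∧ u₀ ∈ O' ∧ ContDiffOn ℝ ∞ F W ∧ ContDiffOn ℝ ∞ G W ∧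
      (∀ y ∈ W, Function.Surjective (fderiv ℝ F y)) ∧
      (∀ y ∈ W, F y = 0 → y = φ (G y)) ∧
      ∀ u ∈ O', φ u ∈ W ∧ F (φ u) = 0 ∧ G (φ u) = u := by
  set D := fderiv ℝ φ u₀ with hDd
  obtain ⟨L₀, hL₀⟩ := LinearMap.exists_leftInverse_of_injective (D : E →ₗ[ℝ] VV N)
    (LinearMap.ker_eq_bot.2 hD)
  let L : VV N →L[ℝ] E := LinearMap.toContinuousLinearMap L₀
  have hL : ∀ u, L (D u) = u := fun u => LinearMap.congr_fun hL₀ u
  let K : Submodule ℝ (VV N) := LinearMap.range (D : E →ₗ[ℝ] VV N)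
  let k := Module.finrank ℝ (VV N ⧸ K)
  let q : (VV N ⧸ K) ≃ₗ[ℝ] EuclideanSpace ℝ (Fin k) := LinearEquiv.ofFinrankEq _ _ (by simp [k])
  let κ : VV N →L[ℝ] EuclideanSpace ℝ (Fin k) :=
    LinearMap.toContinuousLinearMap ((q : (VV N ⧸ K) →ₗ[ℝ] EuclideanSpace ℝ (Fin k)).comp K.mkQ)
  have hκs : Function.Surjective κ := q.surjective.comp K.mkQ_surjective
  have hκ0 : ∀ w, κ w = 0 ↔ w ∈ K := fun w => by
    change q (K.mkQ w) = 0 ↔ _
    rw [q.map_eq_zero_iff, Submodule.mkQ_apply, Submodule.Quotient.mk_eq_zero]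
  let f : VV N → VV N := fun v => φ (L v) + (v - D (L v))
  have hOo : IsOpen (L ⁻¹' O) := hO.preimage L.continuous
  have hf : ContDiffOn ℝ ∞ f (L ⁻¹' O) := by
    refine ContDiffOn.add (hφ.comp L.contDiff.contDiffOn fun v hv => hv) ?_
    exact (contDiff_id.sub (D.contDiff.comp L.contDiff)).contDiffOn
  have hfD : ∀ u, f (D u) = φ u := fun u => by simp [f, hL]
  have hφd : HasFDerivAt φ D (L (D u₀)) := by
    rw [hL]
    exact ((hφ.contDiffAt (hO.mem_nhds hu)).differentiableAt (by simp)).hasFDerivAt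
  have hfd : HasFDerivAt f (D.comp L + (ContinuousLinearMap.id ℝ _ - D.comp L)) (D u₀) :=
    (hφd.comp (D u₀) L.hasFDerivAt).add ((hasFDerivAt_id _).sub (D.comp L).hasFDerivAt)
  obtain ⟨W, g, hW, hKW, hWO, -, hfW, hg, hgf⟩ := Wn.inverse_compact f (L ⁻¹' O) hOo hf {D u₀}
    isCompact_singleton (by rintro _ rfl; simpa [hL] using hu) (Set.injOn_singleton _ _)
    (by
      rintro _ rfl
      rw [hfd.fderiv, add_sub_cancel]
      exact fun a b h => h)
  refine ⟨k, κ ∘ g, L ∘ g, f '' W, D ⁻¹' W, hfW, hW.preimage D.continuous, hKW rfl,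
    κ.contDiff.comp_contDiffOn hg, L.contDiff.comp_contDiffOn hg, ?_, ?_, ?_⟩
  · rintro _ ⟨w, hw, rfl⟩
    have a1 : HasFDerivAt g (fderiv ℝ g (f w)) (f w) :=
      ((hg.contDiffAt (hfW.mem_nhds ⟨w, hw, rfl⟩)).differentiableAt (by simp)).hasFDerivAt
    have a2 : HasFDerivAt f (fderiv ℝ f w) w :=
      ((hf.contDiffAt (hOo.mem_nhds (hWO hw))).differentiableAt (by simp)).hasFDerivAt
    have a3 : HasFDerivAt (g ∘ f) (ContinuousLinearMap.id ℝ _) w := by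
      refine (hasFDerivAt_id w).congr_of_eventuallyEq ?_
      filter_upwards [hW.mem_nhds hw] with v hv
      exact hgf v hv
    have a4 := (a1.comp w a2).unique a3
    rw [(κ.hasFDerivAt.comp (f w) a1).fderiv]
    intro t
    obtain ⟨v, rfl⟩ := hκs t
    refine ⟨fderiv ℝ f w v, ?_⟩
    have := congrArg (fun A : VV N →L[ℝ] VV N => κ (A v)) a4
    exact this
  · rintro _ ⟨w, hw, rfl⟩ h
    rw [Function.comp_apply, hgf w hw, hκ0] at h
    obtain ⟨u, rfl⟩ := h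
    change f (D u) = φ (L (g (f (D u))))
    rw [hgf (D u) hw, hL, hfD]
  · intro u hu'
    have b1 := hgf (D u) hu'
    rw [hfD] at b1
    refine ⟨⟨D u, hu', hfD u⟩, ?_, ?_⟩
    · rw [Function.comp_apply, b1, hκ0]
      exact ⟨u, rfl⟩
    · rw [Function.comp_apply, b1, hL]

omit [CompactSpace M] [FiniteDimensional ℝ E] in
/-- Local structure of the image of the embedding. -/
lemma loc (h1 : ∀ x y, dist x y = ‖e x - e y‖) (h2 : ContMDiff 𝓘(ℝ, E) 𝓘(ℝ, VV N) ∞ e)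
    (h3 : ∀ x, Function.Injective (mfderiv 𝓘(ℝ, E) 𝓘(ℝ, VV N) e x)) (x : M) :
    ∃ (k : ℕ) (F : VV N → EuclideanSpace ℝ (Fin k)) (G : VV N → E) (W : Set (VV N)),
      IsOpen W ∧ e x ∈ W ∧ ContDiffOn ℝ ∞ F W ∧ ContDiffOn ℝ ∞ G W ∧
      (∀ y ∈ W, Function.Surjective (fderiv ℝ F y)) ∧
      (∀ y ∈ W, (y ∈ Set.range e ↔ F y = 0)) ∧
      ∀ z, e z ∈ W → z ∈ (extChartAt 𝓘(ℝ, E) x).source ∧ G (e z) = extChartAt 𝓘(ℝ, E) x z := by
  set c := extChartAt 𝓘(ℝ, E) x with hc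
  have hO : IsOpen c.target := isOpen_extChartAt_target x
  have hφ : ContDiffOn ℝ ∞ (e ∘ c.symm) c.target :=
    contMDiffOn_iff_contDiffOn.1 (h2.comp_contMDiffOn (contMDiffOn_extChartAt_symm x))
  have hD : Function.Injective (fderiv ℝ (e ∘ c.symm) (c x)) := by
    have a := h3 x
    rw [((h2 x).mdifferentiableAt (by simp)).mfderiv] at a
    rw [modelWithCornersSelf_coe, Set.range_id, fderivWithin_univ] at a
    exact a
  obtain ⟨k, F, G, W, O', hW, hO', hu, hF, hG, hs, hz, hn⟩ :=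
    flat hO hφ (mem_extChartAt_target x) hD
  have hx : x ∈ c.source := mem_extChartAt_source x
  have hnb : ∀ᶠ z in 𝓝 x, z ∈ c.source ∧ c z ∈ O' :=
    (show ∀ᶠ z in 𝓝 x, z ∈ c.source from extChartAt_source_mem_nhds x).and
      ((continuousAt_extChartAt x).eventually (hO'.mem_nhds hu))
  obtain ⟨ε, hε, hb⟩ := Metric.eventually_nhds_iff.1 hnb
  have key : ∀ z, e z ∈ W ∩ Metric.ball (e x) ε →
      z ∈ c.source ∧ F (e z) = 0 ∧ G (e z) = c z := fun z hz' => by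
    have b1 : dist z x < ε := by
      rw [h1, ← dist_eq_norm]
      exact hz'.2
    obtain ⟨b2, b3⟩ := hb b1
    have b4 := hn _ b3
    rw [Function.comp_apply, c.left_inv b2] at b4
    exact ⟨b2, b4.2⟩
  have hxW : e x ∈ W := by
    have b4 := (hn _ hu).1
    rwa [Function.comp_apply, c.left_inv hx] at b4
  refine ⟨k, F, G, W ∩ Metric.ball (e x) ε, hW.inter Metric.isOpen_ball,
    ⟨hxW, Metric.mem_ball_self hε⟩, hF.mono Set.inter_subset_left,
    hG.mono Set.inter_subset_left, fun y hy => hs y hy.1, fun y hy => ⟨?_, fun h => ?_⟩,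
    fun z hz' => ⟨(key z hz').1, (key z hz').2.2⟩⟩
  · rintro ⟨z, rfl⟩
    exact (key z hy).2.1
  · exact ⟨_, (hz y hy.1 h).symm⟩

end XEmbX

theorem exists_emb [Nonempty M] (h1 : ∀ x y, dist x y = ‖e x - e y‖)
    (h2 : ContMDiff 𝓘(ℝ, E) 𝓘(ℝ, VV N) ∞ e)
    (h3 : ∀ x, Function.Injective (mfderiv 𝓘(ℝ, E) 𝓘(ℝ, VV N) e x)) : ∃ r U, Emb E e r U := by
  have hinj : Function.Injective e := fun x y h => by
    have := h1 x y
    rw [h, sub_self, norm_zero] at this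
    exact dist_eq_zero.1 this
  have hsub : Wn.IsSubmanifold (Set.range e) := by
    rintro _ ⟨x, rfl⟩
    obtain ⟨k, F, G, W, a1, a2, a3, -, a5, a6, -⟩ := XEmbX.loc h1 h2 h3 x
    exact ⟨k, F, W, a1, a2, a3, a5, a6⟩
  obtain ⟨R, hR⟩ := Wn.exists_ret (Set.range e) hsub (isCompact_range h2.continuous)
  have hmem : ∀ x, e x ∈ R.S := fun x => hR ▸ Set.mem_range_self x
  have her : ∀ y ∈ R.W, e (Function.invFun e (R.r y)) = R.r y := fun y hy =>
    Function.invFun_eq (show R.r y ∈ Set.range e from hR ▸ R.maps hy)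
  refine ⟨Function.invFun e ∘ R.r, R.W, h1, h2, h3, R.isOpen, fun x => R.sub (hmem x),
    fun x => ?_, fun y hy => ?_⟩
  · rw [Function.comp_apply, R.fix _ (hmem x)]
    exact Function.leftInverse_invFun hinj x
  · apply ContMDiffAt.contMDiffWithinAt
    set x := Function.invFun e (R.r y) with hx
    have hex : e x = R.r y := her y hy
    obtain ⟨k, F, G, W, a1, a2, -, a4, -, -, a7⟩ := XEmbX.loc h1 h2 h3 x
    have b1 : ContDiffAt ℝ ∞ (G ∘ R.r) y :=
      ContDiffAt.comp y (a4.contDiffAt (a1.mem_nhds (hex ▸ a2))) R.smooth.contDiffAt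
    have b2 : (G ∘ R.r) y = extChartAt 𝓘(ℝ, E) x x := by
      rw [Function.comp_apply, ← hex]
      exact (a7 x a2).2
    have b3 : ContMDiffAt 𝓘(ℝ, E) 𝓘(ℝ, E) ∞ (extChartAt 𝓘(ℝ, E) x).symm ((G ∘ R.r) y) := by
      rw [b2]
      exact (contMDiffOn_extChartAt_symm x).contMDiffAt
        ((isOpen_extChartAt_target x).mem_nhds (mem_extChartAt_target x))
    have b4 := (b3.comp y b1.contMDiffAt).of_le (show (1 : WithTop ℕ∞) ≤ ∞ by simp)
    refine b4.congr_of_eventuallyEq ?_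
    have b5 : ∀ᶠ y' in 𝓝 y, R.r y' ∈ W :=
      R.smooth.continuous.continuousAt.eventually (a1.mem_nhds (hex ▸ a2))
    filter_upwards [b5, R.isOpen.mem_nhds hy] with y' c1 c2
    have c3 := her y' c2
    obtain ⟨c4, c5⟩ := a7 _ (c3.symm ▸ c1)
    rw [c3] at c5
    simp only [Function.comp_apply]
    rw [c5, (extChartAt 𝓘(ℝ, E) x).left_inv c4]


end Pool.Agent.P.MP_5c499f_an
end

-- part Pool.Agent.P.MP_5c499f_an.XBrA
section

/-! The differential of the retraction and the unstable bundle. -/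

set_option autoImplicit false

namespace Pool.Agent.P.MP_5c499f_an

open Bundle Filter Topology
open scoped Manifold ContDiff

variable {E : Type*} [NormedAddCommGroup E] [NormedSpace ℝ E] [FiniteDimensional ℝ E]
  {M : Type*} [MetricSpace M] [CompactSpace M] [ChartedSpace E M] [IsManifold 𝓘(ℝ, E) ∞ M]
  {N : ℕ} {e : M → VV N} {r : VV N → M} {U : Set (VV N)}
  [RiemannianBundle fun x : M => TangentSpace 𝓘(ℝ, E) x]
  [IsContinuousRiemannianBundle E fun x : M => TangentSpace 𝓘(ℝ, E) x]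

namespace XBrAX

/-- the differential of the retraction -/
noncomputable def DR (E : Type*) [NormedAddCommGroup E] [NormedSpace ℝ E] [ChartedSpace E M]
    (e : M → VV N) (r : VV N → M) (x : M) : VV N →L[ℝ] TangentSpace 𝓘(ℝ, E) x :=
  mfderiv 𝓘(ℝ, VV N) 𝓘(ℝ, E) r (e x)

omit [FiniteDimensional ℝ E] [CompactSpace M] [IsManifold 𝓘(ℝ, E) ∞ M]
  [RiemannianBundle fun x : M => TangentSpace 𝓘(ℝ, E) x]
  [IsContinuousRiemannianBundle E fun x : M => TangentSpace 𝓘(ℝ, E) x] in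
lemma mdiff_r (h : Emb E e r U) (x : M) : MDifferentiableAt 𝓘(ℝ, VV N) 𝓘(ℝ, E) r (e x) :=
  (h.c1.contMDiffAt (h.op.mem_nhds (h.sub x))).mdifferentiableAt one_ne_zero

omit [FiniteDimensional ℝ E] [CompactSpace M] [IsManifold 𝓘(ℝ, E) ∞ M]
  [RiemannianBundle fun x : M => TangentSpace 𝓘(ℝ, E) x]
  [IsContinuousRiemannianBundle E fun x : M => TangentSpace 𝓘(ℝ, E) x] in
lemma mdiff_e (h : Emb E e r U) (x : M) : MDifferentiableAt 𝓘(ℝ, E) 𝓘(ℝ, VV N) e x :=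
  (h.smooth x).mdifferentiableAt (by simp)

omit [FiniteDimensional ℝ E] [CompactSpace M] [IsManifold 𝓘(ℝ, E) ∞ M]
  [RiemannianBundle fun x : M => TangentSpace 𝓘(ℝ, E) x]
  [IsContinuousRiemannianBundle E fun x : M => TangentSpace 𝓘(ℝ, E) x] in
lemma DR_De (h : Emb E e r U) (x : M) (w : TangentSpace 𝓘(ℝ, E) x) :
    DR E e r x (mvfderiv 𝓘(ℝ, E) e x w) = w := by
  have h1 := mfderiv_comp_apply x (mdiff_r h x) (mdiff_e h x) w
  have h2 : ∀ g : M → M, g = id → (mfderiv 𝓘(ℝ, E) 𝓘(ℝ, E) g x w : E) = w := by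
    rintro _ rfl
    rw [mfderiv_id]; rfl
  exact h1.symm.trans (h2 (r ∘ e) (funext h.ret))

omit [FiniteDimensional ℝ E] [CompactSpace M] [IsManifold 𝓘(ℝ, E) ∞ M]
  [RiemannianBundle fun x : M => TangentSpace 𝓘(ℝ, E) x]
  [IsContinuousRiemannianBundle E fun x : M => TangentSpace 𝓘(ℝ, E) x] in
lemma De_DR (h : Emb E e r U) (x : M) (v : VV N) :
    mvfderiv 𝓘(ℝ, E) e x (DR E e r x v) = Dm e r e x v := by
  have h1 := mfderiv_comp_apply_of_eq (e x) (mdiff_e h x) (mdiff_r h x) (h.ret x) v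
  rw [mfderiv_eq_fderiv] at h1
  exact h1.symm

omit [FiniteDimensional ℝ E] [CompactSpace M]
  [RiemannianBundle fun x : M => TangentSpace 𝓘(ℝ, E) x]
  [IsContinuousRiemannianBundle E fun x : M => TangentSpace 𝓘(ℝ, E) x] in
lemma cont_DR (h : Emb E e r U) :
    Continuous fun p : M × VV N => (⟨p.1, DR E e r p.1 p.2⟩ : TangentBundle 𝓘(ℝ, E) M) := by
  have h1 := h.c1.continuousOn_tangentMapWithin le_rfl h.op.uniqueMDiffOn
  have h2 : Continuous fun p : M × VV N =>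
      (tangentBundleModelSpaceHomeomorph 𝓘(ℝ, VV N)).symm ((e p.1, p.2) : VV N × VV N) :=
    (tangentBundleModelSpaceHomeomorph 𝓘(ℝ, VV N)).symm.continuous.comp
      ((h.smooth.continuous.comp continuous_fst).prodMk continuous_snd)
  have h3 := h1.comp_continuous h2 fun p => h.sub p.1
  refine h3.congr fun p => ?_
  have h4 : ∀ (y x : M) (w : E), y = x →
      (⟨y, w⟩ : TangentBundle 𝓘(ℝ, E) M) = ⟨x, w⟩ := by
    rintro y _ w rfl
    rfl
  have h5 : mfderivWithin 𝓘(ℝ, VV N) 𝓘(ℝ, E) r U (e p.1) = mfderiv 𝓘(ℝ, VV N) 𝓘(ℝ, E) r (e p.1) :=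
    mfderivWithin_of_mem_nhds (h.op.mem_nhds (h.sub p.1))
  have h6 : (mfderivWithin 𝓘(ℝ, VV N) 𝓘(ℝ, E) r U (e p.1) p.2 : E) = DR E e r p.1 p.2 := by
    rw [h5]; rfl
  refine Eq.trans ?_ (h4 _ _ _ (h.ret p.1))
  rw [← h6]
  rfl

omit [FiniteDimensional ℝ E] [CompactSpace M] in
lemma cont_norm (h : Emb E e r U) : Continuous fun p : M × VV N => ‖DR E e r p.1 p.2‖ := by
  have h1 := Continuous.inner_bundle (F := E) (E := fun x : M => TangentSpace 𝓘(ℝ, E) x)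
    (b := fun p : M × VV N => p.1) (v := fun p => DR E e r p.1 p.2) (w := fun p => DR E e r p.1 p.2)
    (cont_DR h) (cont_DR h)
  refine (Real.continuous_sqrt.comp h1).congr fun p => ?_
  exact (norm_eq_sqrt_real_inner _).symm

end XBrAX

open XBrAX in
theorem Emb.exists_DR (h : Emb E e r U) :
    ∃ (R : ∀ x : M, VV N →L[ℝ] TangentSpace 𝓘(ℝ, E) x) (K : ℝ), 0 < K ∧
      (∀ v, Continuous fun x => (⟨x, R x v⟩ : TangentBundle 𝓘(ℝ, E) M)) ∧
      (∀ x w, R x (mvfderiv 𝓘(ℝ, E) e x w) = w) ∧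
      (∀ x v, mvfderiv 𝓘(ℝ, E) e x (R x v) = Dm e r e x v) ∧
      (∀ x v, ‖R x v‖ ≤ K * ‖v‖) ∧ ∀ x w, ‖mvfderiv 𝓘(ℝ, E) e x w‖ ≤ K * ‖w‖ := by
  have hn := cont_norm h
  have hc : IsCompact ((Set.univ : Set M) ×ˢ Metric.sphere (0 : VV N) 1) :=
    isCompact_univ.prod (isCompact_sphere _ _)
  obtain ⟨K₁, hK₁⟩ := hc.exists_bound_of_continuousOn hn.continuousOn
  have hD : Continuous fun x => Dm e r e x :=
    ((h.contDiffOn (h.smooth.of_le (by simp))).continuousOn_fderiv_of_isOpen h.op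
      le_rfl).comp_continuous h.smooth.continuous h.sub
  have hcl : IsClosed {p : M × VV N | Dm e r e p.1 p.2 = p.2} :=
    isClosed_eq ((hD.comp continuous_fst).clm_apply continuous_snd) continuous_snd
  obtain ⟨c, hc0, hc1⟩ := (hc.inter_right hcl).exists_forall_le' hn.continuousOn (a := 0)
    fun p hp => by
      refine norm_pos_iff.2 fun h0 => ?_
      have h1 := De_DR h p.1 p.2
      have h2 : Dm e r e p.1 p.2 = p.2 := hp.2
      have h3 : ‖p.2‖ = 1 := mem_sphere_zero_iff_norm.1 hp.1.2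
      rw [h0, map_zero, h2] at h1
      rw [← h1, norm_zero] at h3
      exact zero_ne_one h3
  have hsc : ∀ v : VV N, v ≠ 0 → ‖v‖⁻¹ • v ∈ Metric.sphere (0 : VV N) 1 := fun v hv =>
    mem_sphere_zero_iff_norm.2 (norm_smul_inv_norm hv)
  have hsm : ∀ x (v : VV N), ‖DR E e r x (‖v‖⁻¹ • v)‖ = ‖v‖⁻¹ * ‖DR E e r x v‖ := fun x v => by
    rw [map_smul, norm_smul, norm_inv, norm_norm]
  refine ⟨DR E e r, max K₁ c⁻¹, lt_max_of_lt_right (inv_pos.2 hc0), fun v =>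
    (cont_DR h).comp (continuous_id.prodMk continuous_const), DR_De h, De_DR h,
    fun x v => ?_, fun x w => ?_⟩
  · by_cases hv : v = 0
    · simp [hv]
    have h1 := hK₁ (x, ‖v‖⁻¹ • v) ⟨trivial, hsc v hv⟩
    have h2 : 0 < ‖v‖ := norm_pos_iff.2 hv
    rw [norm_norm, hsm, inv_mul_le_iff₀ h2, mul_comm] at h1
    exact h1.trans (mul_le_mul_of_nonneg_right (le_max_left _ _) h2.le)
  · generalize hv' : mvfderiv 𝓘(ℝ, E) e x w = v
    have h0 : DR E e r x v = w := hv' ▸ DR_De h x w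
    by_cases hv : v = 0
    · rw [hv, norm_zero]
      exact mul_nonneg (le_max_of_le_right (inv_pos.2 hc0).le) (norm_nonneg _)
    have h3 : Dm e r e x v = v := by rw [← De_DR h, h0, hv']
    have h1 := hc1 (x, ‖v‖⁻¹ • v) ⟨⟨trivial, hsc v hv⟩, by
      show Dm e r e x (‖v‖⁻¹ • v) = ‖v‖⁻¹ • v
      rw [map_smul, h3]⟩
    have h2 : 0 < ‖v‖ := norm_pos_iff.2 hv
    rw [hsm, le_inv_mul_iff₀ h2, h0, ← le_div_iff₀ hc0, div_eq_inv_mul] at h1
    exact h1.trans (mul_le_mul_of_nonneg_right (le_max_right _ _) (norm_nonneg _))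

omit [RiemannianBundle fun x : M => TangentSpace 𝓘(ℝ, E) x]
  [IsContinuousRiemannianBundle E fun x : M => TangentSpace 𝓘(ℝ, E) x] in
theorem Emb.cont_De (h : Emb E e r U) :
    Continuous fun p : TangentBundle 𝓘(ℝ, E) M => mvfderiv 𝓘(ℝ, E) e p.1 p.2 := by
  have h1 := h.smooth.continuous_tangentMap (by simp)
  have h2 : Continuous fun q : ModelProd (VV N) (VV N) => q.2 := continuous_snd
  exact h2.comp ((tangentBundleModelSpaceHomeomorph 𝓘(ℝ, VV N)).continuous.comp h1)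

theorem decays_iff (f : Diffeomorph 𝓘(ℝ, E) 𝓘(ℝ, E) M M 1)
    {P : ∀ x : M, TangentSpace 𝓘(ℝ, E) x →L[ℝ] TangentSpace 𝓘(ℝ, E) x} {C lam : ℝ}
    (h0 : 0 < lam) (h1 : lam < 1) (p1 : ∀ x v, P x (P x v) = P x v)
    (p2 : ∀ x v, mfderiv 𝓘(ℝ, E) 𝓘(ℝ, E) f x (P x v) = P (f x) (mfderiv 𝓘(ℝ, E) 𝓘(ℝ, E) f x v))
    (p3 : ∀ (x : M) (n : ℕ) (v : TangentSpace 𝓘(ℝ, E) x),
      (P x v = 0 → ‖mfderiv 𝓘(ℝ, E) 𝓘(ℝ, E) f^[n] x v‖ ≤ C * lam ^ n * ‖v‖) ∧
      (P x v = v → ‖v‖ ≤ C * lam ^ n * ‖mfderiv 𝓘(ℝ, E) 𝓘(ℝ, E) f^[n] x v‖))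
    (x : M) (w : TangentSpace 𝓘(ℝ, E) x) : Decays E f.symm x w ↔ P x w = w := by
  have d1 := fun n => (f.contMDiff.iterate n).mdifferentiable one_ne_zero
  have d2 := fun n => (f.symm.contMDiff.iterate n).mdifferentiable one_ne_zero
  have c3 : ∀ n x v, mfderiv 𝓘(ℝ, E) 𝓘(ℝ, E) f^[n] x (P x v) =
      P (f^[n] x) (mfderiv 𝓘(ℝ, E) 𝓘(ℝ, E) f^[n] x v) := fun n => by
    induction n with
    | zero => intro x v; simp only [Function.iterate_zero, mfderiv_id]; rfl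
    | succ n ih =>
      intro x v
      have d3 := f.contMDiff.mdifferentiable one_ne_zero
      rw [Function.iterate_succ, mfderiv_comp_apply x (d1 n _) (d3 _),
        mfderiv_comp_apply x (d1 n _) (d3 _), p2, ih]
      rfl
  have e2 : ∀ (g : M → M) (y : M) (v : TangentSpace 𝓘(ℝ, E) y), g = id →
      (mfderiv 𝓘(ℝ, E) 𝓘(ℝ, E) g y v : E) = v := by
    rintro _ y v rfl
    rw [mfderiv_id]; rfl
  have inj : ∀ n y, Function.Injective (mfderiv 𝓘(ℝ, E) 𝓘(ℝ, E) f^[n] y) := by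
    intro n y v v' hv
    have a1 := mfderiv_comp_apply y (d2 n _) (d1 n _) v
    have a2 := mfderiv_comp_apply y (d2 n _) (d1 n _) v'
    rw [hv, ← a2] at a1
    have a3 := e2 _ y v (funext (Function.LeftInverse.iterate f.symm_apply_apply n))
    have a4 := e2 _ y v' (funext (Function.LeftInverse.iterate f.symm_apply_apply n))
    exact a3.symm.trans (a1.trans a4)
  have hx : ∀ n, f^[n] (f.symm^[n] x) = x := fun n =>
    Function.LeftInverse.iterate f.apply_symm_apply n x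
  have inv : ∀ n (v : TangentSpace 𝓘(ℝ, E) x), (mfderiv 𝓘(ℝ, E) 𝓘(ℝ, E) f^[n] (f.symm^[n] x)
      (mfderiv 𝓘(ℝ, E) 𝓘(ℝ, E) f.symm^[n] x v) : E) = v := fun n v =>
    (mfderiv_comp_apply x (d1 n _) (d2 n _) v).symm.trans
      (e2 _ x v (funext (Function.LeftInverse.iterate f.apply_symm_apply n)))
  have tn : ∀ (y : M) (a : TangentSpace 𝓘(ℝ, E) y) (b : TangentSpace 𝓘(ℝ, E) x), y = x →
      (a : E) = b → ‖a‖ = ‖b‖ ∧ (P y a : E) = P x b := by
    rintro _ a b rfl hab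
    obtain rfl : a = b := hab
    exact ⟨rfl, rfl⟩
  have hlim : Tendsto (fun n : ℕ => C * lam ^ n) atTop (𝓝 0) := by
    simpa using (tendsto_pow_atTop_nhds_zero_of_lt_one h0.le h1).const_mul C
  have un : ∀ v : TangentSpace 𝓘(ℝ, E) x, P x v = v → Decays E f.symm x v := by
    intro v hv
    refine squeeze_zero (g := fun n => C * lam ^ n * ‖v‖) (fun n => norm_nonneg _) (fun n => ?_)
      (by simpa using hlim.mul_const ‖v‖)
    obtain ⟨t1, t2⟩ := tn _ _ v (hx n) (inv n v)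
    rw [← t1]
    refine (p3 _ n _).2 (inj n _ ?_)
    rw [c3]
    exact t2.trans (hv.trans (inv n v).symm)
  refine ⟨fun hw => ?_, un w⟩
  have hp : P x (w - P x w) = 0 := by rw [map_sub, p1, sub_self]
  have hle : ∀ n, ‖w - P x w‖ ≤ C * lam ^ n * ‖mfderiv 𝓘(ℝ, E) 𝓘(ℝ, E) f.symm^[n] x (w - P x w)‖ := by
    intro n
    obtain ⟨t1, t2⟩ := tn _ _ _ (hx n) (inv n (w - P x w))
    rw [← t1]
    refine (p3 _ n _).1 (inj n _ ?_)
    rw [c3, map_zero]
    exact t2.trans hp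
  have hdec : Tendsto (fun n : ℕ => ‖mfderiv 𝓘(ℝ, E) 𝓘(ℝ, E) f.symm^[n] x (w - P x w)‖) atTop
      (𝓝 0) := by
    have a1 := Tendsto.add hw (un _ (p1 x w))
    rw [add_zero] at a1
    refine squeeze_zero (fun n => norm_nonneg _) (fun n => ?_) a1
    rw [map_sub]
    exact norm_sub_le _ _
  have a2 := hlim.mul hdec
  rw [mul_zero] at a2
  have a3 : ‖w - P x w‖ ≤ 0 := ge_of_tendsto' a2 hle
  exact (sub_eq_zero.1 (norm_le_zero_iff.1 a3)).symm

end Pool.Agent.P.MP_5c499f_an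
end

-- part Pool.Agent.P.MP_5c499f_an.XBridge
section

/-! The ambient package of an Anosov diffeomorphism. -/

set_option autoImplicit false

namespace Pool.Agent.P.MP_5c499f_an

open Bundle Filter Topology
open scoped Manifold ContDiff

namespace XBridgeX

/-- Orthonormal coordinates on a subspace of the ambient space. -/
theorem exists_frame {N u : ℕ} (S : Submodule ℝ (VV N)) (hS : Module.finrank ℝ S = u) :
    ∃ (p : VV N →L[ℝ] XX u) (Io : XX u →L[ℝ] VV N), (∀ b, p (Io b) = b) ∧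
      (∀ y ∈ S, Io (p y) = y) ∧ (∀ b, Io b ∈ S) ∧ (∀ y, ‖p y‖ ≤ ‖y‖) ∧
      ∀ b, ‖Io b‖ ≤ u * ‖b‖ := by
  let B : OrthonormalBasis (Fin u) ℝ S := (stdOrthonormalBasis ℝ S).reindex (finCongr hS)
  have hB : Orthonormal ℝ fun j => (B j : VV N) := B.orthonormal.comp_linearIsometry S.subtypeₗᵢ
  let p : VV N →L[ℝ] XX u := ContinuousLinearMap.pi fun j => innerSL ℝ (B j : VV N)
  let Io : XX u →L[ℝ] VV N :=
    ∑ j, (ContinuousLinearMap.proj j : XX u →L[ℝ] ℝ).smulRight (B j : VV N)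
  have hp : ∀ y j, p y j = inner ℝ (B j : VV N) y := fun _ _ => rfl
  have hI : ∀ b, Io b = ∑ j, b j • (B j : VV N) := fun b => by
    simp [Io]
  refine ⟨p, Io, fun b => ?_, fun y hy => ?_, fun b => ?_, fun y => ?_, fun b => ?_⟩
  · ext j
    rw [hp, hI, hB.inner_right_fintype]
  · have := congrArg Subtype.val (B.sum_repr' ⟨y, hy⟩)
    rw [hI]
    simpa [hp] using this
  · rw [hI]
    exact S.sum_mem fun j _ => S.smul_mem _ (B j).2
  · refine (pi_norm_le_iff_of_nonneg (norm_nonneg _)).2 fun j => ?_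
    rw [hp]
    simpa [hB.1 j] using norm_inner_le_norm (𝕜 := ℝ) (B j : VV N) y
  · rw [hI]
    refine (norm_sum_le _ _).trans ?_
    have : ∀ j ∈ (Finset.univ : Finset (Fin u)), ‖b j • (B j : VV N)‖ ≤ ‖b‖ := fun j _ => by
      rw [norm_smul, hB.1 j, mul_one]
      exact norm_le_pi_norm b j
    simpa using Finset.sum_le_sum this

end XBridgeX

variable {E : Type*} [NormedAddCommGroup E] [NormedSpace ℝ E] [FiniteDimensional ℝ E]
  {M : Type*} [MetricSpace M] [CompactSpace M] [ChartedSpace E M] [IsManifold 𝓘(ℝ, E) ∞ M]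
  {N : ℕ} {e : M → VV N} {r : VV N → M} {U : Set (VV N)}
  [RiemannianBundle fun x : M => TangentSpace 𝓘(ℝ, E) x]
  [IsContinuousRiemannianBundle E fun x : M => TangentSpace 𝓘(ℝ, E) x]

namespace XBridgeX

omit [RiemannianBundle fun x : M => TangentSpace 𝓘(ℝ, E) x]
  [IsContinuousRiemannianBundle E fun x : M => TangentSpace 𝓘(ℝ, E) x] in
/-- The ambient differential only sees the tangential part of a vector. -/
theorem Dm_Dm (h : Emb E e r U) {φ : M → VV N} (hφ : ContMDiff 𝓘(ℝ, E) 𝓘(ℝ, VV N) 1 φ) (x : M)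
    (v : VV N) : Dm e r φ x (Dm e r e x v) = Dm e r φ x v := by
  have hU := h.op.mem_nhds (h.sub x)
  have d1 : DifferentiableAt ℝ (φ ∘ r) (e x) :=
    ((h.contDiffOn hφ).contDiffAt hU).differentiableAt one_ne_zero
  have d2 : DifferentiableAt ℝ (e ∘ r) (e x) :=
    ((h.contDiffOn (h.smooth.of_le (by exact_mod_cast le_top))).contDiffAt hU).differentiableAt
      one_ne_zero
  have e1 : (e ∘ r) (e x) = e x := by simp [h.ret]
  have e2 : (φ ∘ r) ∘ (e ∘ r) = φ ∘ r := by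
    ext1 y
    simp [h.ret]
  have := fderiv_comp (e x) (e1.symm ▸ d1) d2
  rw [e1, e2] at this
  unfold Dm
  conv_rhs => rw [this]
  rfl

end XBridgeX

open XBridgeX

theorem exists_amb (h : Emb E e r U) (f : Diffeomorph 𝓘(ℝ, E) 𝓘(ℝ, E) M M 1) (hf : IsAnosov E f)
    {u : ℕ} (hu : ∀ x, ∃ v : Fin u → TangentSpace 𝓘(ℝ, E) x, LinearIndependent ℝ v ∧
      ∀ w, Decays E f.symm x w ↔ w ∈ Submodule.span ℝ (Set.range v)) :
    ∃ (Pr : M → VV N →L[ℝ] XX u) (Io : M → XX u →L[ℝ] VV N) (C₀ : ℝ),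
      (∀ x w, Decays E f.symm x w ↔ mvfderiv 𝓘(ℝ, E) e x w ∈ Set.range (Io x)) ∧
      ∀ᶠ K : ℕ in atTop, ∃ a, Amb e r U ((f.toEquiv : Equiv.Perm M) ^ K) Pr Io C₀ a := by
  obtain ⟨P, D, q, hD, q0, q1, hP, p1, p2, p3⟩ := hf
  obtain ⟨R, K, hK, r1, r2, r3, r4, r5⟩ := h.exists_DR
  have hdec := decays_iff f q0 q1 p1 p2 p3
  have he1 : ContMDiff 𝓘(ℝ, E) 𝓘(ℝ, VV N) 1 e := h.smooth.of_le (by exact_mod_cast le_top)
  have hinj : ∀ x, Function.Injective (mvfderiv 𝓘(ℝ, E) e x) := fun x =>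
    Function.LeftInverse.injective (r2 x)
  have key : ∀ x, ∃ (p : VV N →L[ℝ] XX u) (Io : XX u →L[ℝ] VV N), (∀ b, p (Io b) = b) ∧
      (∀ w, P x w = w → Io (p (mvfderiv 𝓘(ℝ, E) e x w)) = mvfderiv 𝓘(ℝ, E) e x w) ∧
      (∀ b, ∃ w, P x w = w ∧ mvfderiv 𝓘(ℝ, E) e x w = Io b) ∧ (∀ y, ‖p y‖ ≤ ‖y‖) ∧
      ∀ b, ‖Io b‖ ≤ u * ‖b‖ := by
    intro x
    obtain ⟨v, hv, hw⟩ := hu x
    have hfin : Module.finrank ℝ
        ((Submodule.span ℝ (Set.range v)).map (mvfderiv 𝓘(ℝ, E) e x).toLinearMap) = u := by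
      rw [← (Submodule.equivMapOfInjective _ (hinj x) _).finrank_eq, finrank_span_eq_card hv,
        Fintype.card_fin]
    obtain ⟨p, Io, a1, a2, a3, a4, a5⟩ := exists_frame _ hfin
    refine ⟨p, Io, a1, fun w hw' => a2 _ ⟨w, (hw w).1 ((hdec x w).2 hw'), rfl⟩, fun b => ?_, a4, a5⟩
    obtain ⟨w, h1, h2⟩ := a3 b
    exact ⟨w, (hdec x w).1 ((hw w).2 h1), h2⟩
  choose p Io a1 a2 a3 a4 a5 using key
  let Q : M → VV N →L[ℝ] VV N := fun x => mvfderiv 𝓘(ℝ, E) e x ∘L P x ∘L R x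
  have hQ : ∀ x v, Q x v = mvfderiv 𝓘(ℝ, E) e x (P x (R x v)) := fun _ _ => rfl
  have cQ : Continuous Q := continuous_clm_apply.2 fun v => h.cont_De.comp (hP.comp (r1 v))
  obtain ⟨B, hB⟩ := (isCompact_range cQ.norm).bddAbove
  have hB' : ∀ x, ‖Q x‖ ≤ max B 0 := fun x => (hB ⟨x, rfl⟩).trans (le_max_left _ _)
  have hB0 : 0 ≤ max B 0 := le_max_right _ _
  have hu0 : (0 : ℝ) ≤ u := Nat.cast_nonneg u
  let Pr : M → VV N →L[ℝ] XX u := fun x => p x ∘L Q x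
  have hPr : ∀ x v, Pr x v = p x (Q x v) := fun _ _ => rfl
  have hIP : ∀ x v, Io x (Pr x v) = Q x v := fun x v => by
    rw [hPr, hQ]; exact a2 x _ (p1 x _)
  refine ⟨Pr, Io, 1 + max B 0 + u, fun x w => ?_, ?_⟩
  · rw [hdec]
    refine ⟨fun hw => ⟨_, a2 x w hw⟩, fun ⟨b, hb⟩ => ?_⟩
    obtain ⟨w', h1, h2⟩ := a3 x b
    rwa [← hinj x (h2.trans hb)]
  have hev := ((tendsto_pow_atTop_nhds_zero_of_lt_one q0.le q1).const_mul
    (10 * (1 + max B 0 + u) ^ 2 * (K ^ 2 * D))).eventually_lt_const (show _ < (1 : ℝ) by simp)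
  have c3 : ∀ n x v, mfderiv 𝓘(ℝ, E) 𝓘(ℝ, E) f^[n] x (P x v) =
      P (f^[n] x) (mfderiv 𝓘(ℝ, E) 𝓘(ℝ, E) f^[n] x v) := fun n => by
    induction n with
    | zero => intro x v; simp only [Function.iterate_zero, mfderiv_id]; rfl
    | succ n ih =>
      intro x v
      have d1 := (f.contMDiff.iterate n).mdifferentiable one_ne_zero
      have d2 := f.contMDiff.mdifferentiable one_ne_zero
      rw [Function.iterate_succ, mfderiv_comp_apply x (d1 _) (d2 _),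
        mfderiv_comp_apply x (d1 _) (d2 _), p2, ih]
      rfl
  filter_upwards [hev] with n hn
  have c1 : ⇑((f.toEquiv : Equiv.Perm M) ^ n) = f^[n] := Equiv.Perm.coe_pow _ _
  have c2 : ⇑((f.toEquiv : Equiv.Perm M) ^ n)⁻¹ = f.symm^[n] := by
    rw [← inv_pow]; exact Equiv.Perm.coe_pow _ _
  have g1 := he1.comp (f.contMDiff.iterate n)
  have g2 := he1.comp (f.symm.contMDiff.iterate n)
  have hDw : ∀ x w, Dm e r (e ∘ f^[n]) x (mvfderiv 𝓘(ℝ, E) e x w) =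
      mvfderiv 𝓘(ℝ, E) e (f^[n] x) (mfderiv 𝓘(ℝ, E) 𝓘(ℝ, E) f^[n] x w) := fun x w => by
    rw [h.Dm_De g1]
    exact mfderiv_comp_apply x (he1.mdifferentiable one_ne_zero _)
      ((f.contMDiff.iterate n).mdifferentiable one_ne_zero _) w
  have hDv : ∀ x v, Dm e r (e ∘ f^[n]) x v =
      mvfderiv 𝓘(ℝ, E) e (f^[n] x) (mfderiv 𝓘(ℝ, E) 𝓘(ℝ, E) f^[n] x (R x v)) := fun x v => by
    rw [← hDw, r3, Dm_Dm h g1]
  have hqn : 0 < q ^ n := pow_pos q0 n
  refine ⟨K ^ 2 * D * q ^ n, h.iso, h.op, h.sub, h.ret, h.contDiffOn he1, ?_, ?_, by linarith,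
    by positivity, by linarith, ?_, fun x b => ?_, fun x v => ?_, fun x b => ?_, fun x b => ?_,
    fun x v => ?_, fun x v hv => ?_, fun x b => ?_⟩
  · rw [c1]; exact h.contDiffOn g1
  · rw [c2]; exact h.contDiffOn g2
  · have : (fun x => Io x ∘L Pr x) = Q := funext fun x => ContinuousLinearMap.ext (hIP x)
    rwa [this]
  · obtain ⟨w, h1, h2⟩ := a3 x b
    rw [hPr, hQ, ← h2, r2, h1, h2, a1]
  · rw [hPr]
    refine (a4 x _).trans (((Q x).le_opNorm v).trans ?_)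
    have := hB' x
    gcongr
    linarith
  · refine (a5 x b).trans ?_
    gcongr
    linarith
  · obtain ⟨w, -, h2⟩ := a3 x b
    rw [← h2, h.Dm_De he1]
  · rw [c1, hIP, hIP, hQ, hQ, hDw, hDv, r2, c3]
  · rw [c1, hDv]
    have h1 : P x (R x v) = 0 := by
      have := hIP x v
      rw [hv, map_zero, hQ] at this
      exact hinj x (by rw [← this, map_zero])
    calc _ ≤ K * (D * q ^ n * ‖R x v‖) :=
          (r5 _ _).trans (mul_le_mul_of_nonneg_left ((p3 x n _).1 h1) hK.le)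
      _ ≤ K * (D * q ^ n * (K * ‖v‖)) := by have := r4 x v; gcongr
      _ = _ := by ring
  · obtain ⟨w, h1, h2⟩ := a3 x b
    rw [c1, ← h2, hDw]
    have h3 := r4 (f^[n] x) (mvfderiv 𝓘(ℝ, E) e (f^[n] x) (mfderiv 𝓘(ℝ, E) 𝓘(ℝ, E) f^[n] x w))
    rw [r2] at h3
    calc _ ≤ K * (D * q ^ n * ‖mfderiv 𝓘(ℝ, E) 𝓘(ℝ, E) f^[n] x w‖) :=
          (r5 _ _).trans (mul_le_mul_of_nonneg_left ((p3 x n _).2 h1) hK.le)
      _ ≤ K * (D * q ^ n * (K * ‖mvfderiv 𝓘(ℝ, E) e (f^[n] x)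
          (mfderiv 𝓘(ℝ, E) 𝓘(ℝ, E) f^[n] x w)‖)) := by gcongr
      _ = _ := by ring

end Pool.Agent.P.MP_5c499f_an
end

-- part Pool.Agent.P.MP_5c499f_an.XForm
section

/-! Translation of the hypotheses on forms. -/

set_option autoImplicit false

namespace Pool.Agent.P.MP_5c499f_an

open Bundle Filter Topology
open scoped Manifold ContDiff

variable {E : Type*} [NormedAddCommGroup E] [NormedSpace ℝ E] [FiniteDimensional ℝ E]
  {M : Type*} [MetricSpace M] [CompactSpace M] [ChartedSpace E M] [IsManifold 𝓘(ℝ, E) ∞ M]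
  {N : ℕ} {e : M → VV N} {r : VV N → M} {U : Set (VV N)}

theorem Form.indep {k : ℕ} {α : Form M k} {x : M} {v : Fin k → TangentSpace 𝓘(ℝ, E) x}
    (h : α.ev E x v ≠ 0) : LinearIndependent ℝ v := by
  by_contra hv
  obtain ⟨c, c1, j, c2⟩ := Fintype.not_linearIndependent_iff.1 hv
  refine h (Finset.sum_eq_zero fun t _ => mul_eq_zero_of_right _ ?_)
  refine Matrix.exists_mulVec_eq_zero_iff.1 ⟨c, fun e => c2 (congrFun e j), funext fun i => ?_⟩
  have := congrArg (mvfderiv 𝓘(ℝ, E) (α.a t i) x) c1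
  simpa [Matrix.mulVec, dotProduct, mul_comm] using this

namespace XFormX

lemma comp_De (h : Emb E e r U) {φ : VV N → ℝ} (hφ : ContDiff ℝ ∞ φ) (x : M)
    (w : TangentSpace 𝓘(ℝ, E) x) :
    mvfderiv 𝓘(ℝ, E) (φ ∘ e) x w = fderiv ℝ φ (e x) (mvfderiv 𝓘(ℝ, E) e x w) := by
  have := mfderiv_comp_apply x (hφ.differentiable (by simp) (e x)).mdifferentiableAt
    (h.smooth.mdifferentiable (by simp) x) w
  rw [mfderiv_eq_fderiv] at this
  exact this

end XFormX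

theorem Emb.cup (h : Emb E e r U) {u : ℕ} (hc : CupGen E M u) : CupAmb e r U u := by
  intro w w1 w2
  set q := (Fintype.equivFin (Fin u → Fin N)).symm
  have cr : ∀ (p : Fin N) x v, mvfderiv 𝓘(ℝ, E) (crd p ∘ e) x v =
      crd p (mvfderiv 𝓘(ℝ, E) e x v) := fun p x v => by
    rw [XFormX.comp_De h (crd p).contDiff, ContinuousLinearMap.fderiv]
  obtain ⟨m, c, θ, t1, t2⟩ := hc ⟨_, fun t => w (q t) ∘ e, fun t i => crd (q t i) ∘ e⟩
    (fun t => ⟨(w1 _).contMDiff.comp h.smooth, fun i => (crd _).contDiff.contMDiff.comp h.smooth⟩)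
    fun x v => by
      rw [← w2 x fun j => mvfderiv 𝓘(ℝ, E) e x (v j), ← q.sum_comp]
      refine Finset.sum_congr rfl fun t _ => (one_mul _).trans (congrArg Matrix.det ?_)
      ext i j
      refine Fin.cases ?_ (fun i => ?_) i
      · exact XFormX.comp_De h (w1 _) x _
      · exact cr _ x _
  refine ⟨m, c, θ, fun t i => ⟨h.contDiffOn ((t1 t i).1.of_le (by simp)), (t1 t i).2⟩,
    fun x T hT => ?_⟩
  obtain ⟨R, -, r2⟩ := h.exists_Dr x
  have e1 := fun j => (r2 (T (bas u j))).trans (hT _)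
  refine Eq.trans ?_ ((t2 x fun j => R (T (bas u j))).trans ?_)
  · rw [PsiW, ← q.sum_comp]
    refine Finset.sum_congr rfl fun t _ => congrArg _ (congrArg Matrix.det ?_)
    ext i j
    exact ((cr _ x _).trans (congrArg _ (e1 j))).symm
  · refine Finset.sum_congr rfl fun t _ => congrArg _ (congrArg Matrix.det ?_)
    ext i j
    simp only [Matrix.of_apply, ang]
    rw [← h.Dm_De ((t1 t i).1.of_le (by simp)), e1]

theorem Emb.ori (h : Emb E e r U) {u : ℕ} {α : Form M u} (h1 : α.Smooth E) {x : M}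
    {v : Fin u → TangentSpace 𝓘(ℝ, E) x} (h2 : α.ev E x v ≠ 0) {T : XX u →L[ℝ] VV N}
    (h4 : ∀ j, mvfderiv 𝓘(ℝ, E) e x (v j) ∈ Set.range T) : PsiF e r α.c α.a x T ≠ 0 := by
  choose b hb using h4
  set S : XX u →L[ℝ] XX u := ∑ j, (ContinuousLinearMap.proj j).smulRight (b j) with hS
  have e1 : ∀ j, S (bas u j) = b j := fun j => by
    simp [hS, bas, Pi.single_apply]
  intro e0
  refine h2 (Eq.trans ?_ ((congrArg (S.det * ·) e0).trans (mul_zero _)))
  rw [PsiF, Finset.mul_sum]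
  refine Finset.sum_congr rfl fun t _ => ?_
  have := dt_comp (fun i => Dm e r (α.a t i) x ∘L T) S
  rw [mul_left_comm]
  refine congrArg _ (Eq.trans (congrArg Matrix.det ?_) this)
  ext i j
  simp only [Matrix.of_apply, e1, ContinuousLinearMap.comp_apply, hb]
  exact (h.Dm_De (((h1 t).2 i).of_le (by simp)) x _).symm


end Pool.Agent.P.MP_5c499f_an
end
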