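import Pool.Agent.K.MP_5c499f_an.C0
import Pool.Agent.K.MP_5c499f_an.C6
import Pool.Agent.K.MP_5c499f_an.C8
import Pool.Agent.P.MP_5c499f_an.HMain

-- part Pool.Agent.P.MP_5c499f_an.XMix
section

/-! A hyperbolic map without wandering points is mixing. -/

set_option autoImplicit false

namespace Pool.Agent.P.MP_5c499f_an

open Filter Topology Metric MeasureTheory Matrix

namespace XMixX

variable {M : Type*} [MetricSpace M]

lemma pseudo {f : Equiv.Perm M} (h : UniformContinuous f) (K : ℕ) : ∀ η, 0 < η → ∃ η', 0 < η' ∧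
    ∀ q : ℤ → M, (∀ m, dist (f (q m)) (q (m + 1)) ≤ η') →
      ∀ m, dist ((f ^ K) (q m)) (q (m + K)) ≤ η := by
  induction K with
  | zero => exact fun η hη => ⟨1, one_pos, fun q _ m => by simpa using hη.le⟩
  | succ K ih =>
    intro η hη
    obtain ⟨θ, hθ, h1⟩ := Metric.uniformContinuous_iff_le.1 h (η / 2) (by positivity)
    obtain ⟨η', hη', h2⟩ := ih θ hθ
    refine ⟨min η' (η / 2), by positivity, fun q hq m => ?_⟩
    have h3 := h1 (h2 q (fun m => (hq m).trans (min_le_left _ _)) m)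
    have h4 := (hq (m + K)).trans (min_le_right _ _)
    rw [pow_succ', Equiv.Perm.mul_apply, Nat.cast_succ, ← add_assoc]
    linarith [dist_triangle (f ((f ^ K) (q m))) (f (q (m + K))) (q (m + K + 1))]

/-- periodic points -/
def Per (g : Equiv.Perm M) : Set M := {z | ∃ n : ℕ, 0 < n ∧ (g ^ (n : ℤ)) z = z}

omit [MetricSpace M] in
lemma per_mul {g : Equiv.Perm M} {z : M} {n : ℤ} (h : (g ^ n) z = z) (t : ℤ) :
    (g ^ (n * t)) z = z := by
  rw [_root_.zpow_mul]
  exact Equiv.Perm.zpow_apply_eq_self_of_apply_eq_self h t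

lemma dense_per {f : Equiv.Perm M} (h : UniformContinuous f) {K : ℕ} {ε δ C a b : ℝ}
    (lh : LH (f ^ K) ε δ C a b) (sh : Shad (f ^ K))
    (nw : ∀ U : Set M, IsOpen U → U.Nonempty → ∃ n, 0 < n ∧ (f^[n] '' U ∩ U).Nonempty) :
    Dense (Per (f ^ K)) := by
  rw [Metric.dense_iff]
  intro x r hr
  have hε := lh.ε_pos
  obtain ⟨η, hη, h1⟩ := sh (min (r / 2) (2 * ε)) (by positivity)
  obtain ⟨η', hη', h2⟩ := pseudo h K η hη
  obtain ⟨n, hn, _, ⟨y, hy, rfl⟩, hy'⟩ := nw (ball x (min (r / 2) (η' / 2))) isOpen_ball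
    (nonempty_ball.2 (by positivity))
  rw [mem_ball, lt_min_iff] at hy hy'
  have hn' : (0 : ℤ) < n := by exact_mod_cast hn
  let q : ℤ → M := fun m => (f ^ (m % n)) y
  have hq : ∀ m, dist (f (q m)) (q (m + 1)) ≤ η' := by
    intro m
    have e1 := Int.emod_nonneg m hn'.ne'
    have e2 := Int.emod_lt_of_pos m hn'
    have e3 : (m + 1) % n = (m % n + 1) % n := (Int.emod_add_emod m n 1).symm
    simp only [q, ← zpow_succ_apply, e3]
    rcases (Int.add_one_le_of_lt e2).eq_or_lt with e | e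
    · rw [e, Int.emod_self, zpow_zero, zpow_natCast, Equiv.Perm.coe_pow]
      simp only [Equiv.Perm.coe_one, id]
      linarith [dist_triangle_right (f^[n] y) y x, hy.2, hy'.2]
    · rw [Int.emod_eq_of_lt (by omega) e, dist_self]
      exact hη'.le
  obtain ⟨z, hz⟩ := h1 (fun k => q (k * K)) fun k => by
    rw [add_mul, one_mul]; exact h2 q hq _
  refine ⟨z, ?_, n, hn, lh.expansive fun k => ?_⟩
  · have := (hz 0).trans (min_le_left _ _)
    simp only [zpow_zero, Equiv.Perm.coe_one, id, zero_mul, q, Int.zero_emod] at this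
    rw [mem_ball]
    linarith [dist_triangle z y x, hy.1]
  · have e : q ((k + n) * K) = q (k * K) := by
      simp only [q, add_mul, Int.add_mul_emod_self_left]
    have t1 := (hz (k + n)).trans (min_le_right _ _)
    have t2 := (hz k).trans (min_le_right _ _)
    rw [zpow_apply_zpow]
    simp only [e] at t1
    linarith [dist_triangle_right (((f ^ K) ^ (k + n)) z) (((f ^ K) ^ k) z) (q (k * K))]

/-- the unstable set -/
def WU (g : Equiv.Perm M) (p : M) : Set M := {w | ∀ r, 0 < r → ∃ T : ℕ, Un g (-T) r w p}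

lemma small {C a : ℝ} (h0 : 0 ≤ a) (h1 : a < 1) {r : ℝ} (hr : 0 < r) :
    ∀ᶠ j : ℕ in atTop, C * a ^ j < r := by
  have : Tendsto (fun j : ℕ => C * a ^ j) atTop (𝓝 (C * 0)) :=
    (tendsto_pow_atTop_nhds_zero_of_lt_one h0 h1).const_mul C
  exact this.eventually_lt_const (by simpa using hr)

lemma dense_WU [ConnectedSpace M] {g : Equiv.Perm M} {ε δ C a b : ℝ} (lh : LH g ε δ C a b)
    (hd : Dense (Per g)) {p : M} (hp : p ∈ Per g) : Dense (WU g p) := by
  obtain ⟨n, hn, hp⟩ := hp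
  have hε := lh.ε_pos
  have key : ∀ x ∈ closure (WU g p), ball x δ ⊆ closure (WU g p) := by
    intro x hx
    refine (hd.open_subset_closure_inter isOpen_ball).trans (closure_minimal ?_ isClosed_closure)
    rintro q ⟨hq, m, hm, hq'⟩
    obtain ⟨w, hw, hw'⟩ := Metric.mem_closure_iff.1 hx δ lh.δ_pos
    obtain ⟨z, h1, h2⟩ := lh.br q w (by linarith [dist_triangle q x w, mem_ball.1 hq])
    rw [Metric.mem_closure_iff]
    intro s hs
    obtain ⟨t, ht⟩ := (small (C := C) lh.a_nonneg lh.a_lt hs).exists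
    refine ⟨(g ^ ((m : ℤ) * (n * t))) z, fun r hr => ?_, ?_⟩
    · obtain ⟨T, hT⟩ := hw (r / 2) (by positivity)
      obtain ⟨j, hj⟩ := (small (C := C) lh.b_nonneg lh.b_lt (half_pos hr)).exists
      have e1 := (lh.cu' (h2.mono le_rfl (by linarith)) j).mono
        (k₁ := -((T + j : ℕ) : ℤ)) (by push_cast; omega) hj.le
      have e2 := e1.trans (hT.mono (k₁ := -((T + j : ℕ) : ℤ)) (by push_cast; omega) le_rfl)
      refine ⟨T + j + m * (n * t), ?_⟩
      have e3 : (g ^ ((m : ℤ) * (n * t))) p = p := by rw [mul_left_comm]; exact per_mul hp _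
      rw [← e3, Un_shift]
      exact e2.mono (by push_cast; omega) (by linarith)
    · have e1 := lh.cs' (h1.mono le_rfl (by linarith)) t ((m : ℤ) * (n * t)) (by
        have : t ≤ m * (n * t) := Nat.le_mul_of_pos_left _ hn |>.trans (Nat.le_mul_of_pos_left _ hm)
        rw [zero_add]
        exact_mod_cast this)
      rw [per_mul hq'] at e1
      rw [dist_comm]
      exact e1.trans_lt ht
  have hop : IsOpen (closure (WU g p)) := Metric.isOpen_iff.2 fun x hx => ⟨δ, lh.δ_pos, key x hx⟩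
  exact dense_iff_closure_eq.2 (IsClopen.eq_univ ⟨isClosed_closure, hop⟩
    ⟨p, subset_closure fun r hr => ⟨0, Un.refl _ hr.le p⟩⟩)

lemma net [CompactSpace M] {D : Set M} (hd : Dense D) {r : ℝ} (hr : 0 < r) :
    ∃ P : Finset D, ∀ x : M, ∃ q ∈ P, dist x (q : M) < r := by
  obtain ⟨P, hP⟩ := isCompact_univ.elim_finite_subcover (fun q : D => ball (q : M) r)
    (fun _ => isOpen_ball) fun x _ => by
      obtain ⟨q, h1, h2⟩ := hd.exists_dist_lt x hr
      exact Set.mem_iUnion.2 ⟨⟨q, h1⟩, h2⟩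
  refine ⟨P, fun x => ?_⟩
  simpa using hP (Set.mem_univ x)

end XMixX

open XMixX in
theorem mix_of_nw {M : Type*} [MetricSpace M] [CompactSpace M] [ConnectedSpace M]
    {f : Equiv.Perm M} (h1 : Continuous f) (h2 : Continuous (f⁻¹ : Equiv.Perm M)) {K : ℕ}
    (hK : 0 < K) {a b Λ Λ' : ℝ} (hy : Hyp (f ^ K) a b Λ Λ') (sh : Shad (f ^ K))
    (nw : ∀ U : Set M, IsOpen U → U.Nonempty → ∃ n, 0 < n ∧ (f^[n] '' U ∩ U).Nonempty) :
    MixM (f ^ K) := by
  have _ := h2
  have _ := hK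
  intro ρ η hρ hη
  obtain ⟨ε, δ, C, hε, lh⟩ := hy.lh (min ρ (η / 2)) (by positivity)
  rw [le_min_iff] at hε
  have hd := dense_per (CompactSpace.uniformContinuous_of_continuous h1) lh sh nw
  set g := f ^ K
  obtain ⟨P, hP⟩ := net hd lh.δ_pos
  obtain ⟨N, hN⟩ := net (dense_univ (X := M)) (show 0 < η / 4 by positivity)
  have key : ∀ q ∈ Per g, ∀ᶠ L : ℕ in atTop, ∀ x', ∃ v, Un g 0 δ v q ∧
      dist ((g ^ (L : ℤ)) v) x' ≤ η / 2 := by
    rintro q ⟨n, hn, hq⟩
    have h3 : ∀ (i : ℕ) (y : M), ∀ᶠ L : ℕ in atTop, ∃ w, Un g (-L) δ w ((g ^ (i : ℤ)) q) ∧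
        dist y w < η / 4 := by
      intro i y
      obtain ⟨w, h4, h5⟩ := (dense_WU lh hd (p := (g ^ (i : ℤ)) q) ⟨n, hn, by
        rw [zpow_apply_zpow, add_comm, ← zpow_apply_zpow, hq]⟩).exists_dist_lt y
        (show 0 < η / 4 by positivity)
      obtain ⟨T, hT⟩ := h4 δ lh.δ_pos
      filter_upwards [eventually_ge_atTop T] with L hL
      exact ⟨w, hT.mono (by omega) le_rfl, h5⟩
    filter_upwards [(eventually_all_finset (Finset.range n)).2 fun i _ =>
      (eventually_all_finset N).2 fun y _ => h3 i y] with L hL x'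
    obtain ⟨y, hy1, hy2⟩ := hN x'
    obtain ⟨w, h4, h5⟩ := hL (L % n) (Finset.mem_range.2 (Nat.mod_lt _ hn)) y hy1
    have e1 : (g ^ (L : ℤ)) ((g ^ (-L : ℤ)) w) = w := by rw [zpow_apply_zpow]; simp
    have e2 : (g ^ ((L % n : ℕ) : ℤ)) q = (g ^ (L : ℤ)) q := by
      conv_rhs => rw [← Nat.mod_add_div L n, Nat.cast_add, ← zpow_apply_zpow, Nat.cast_mul,
        per_mul hq]
    refine ⟨(g ^ (-L : ℤ)) w, ?_, ?_⟩
    · rw [e2, ← e1, Un_shift, neg_add_cancel] at h4
      exact h4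
    · rw [e1]
      linarith [dist_triangle x' y w, dist_comm w x']
  obtain ⟨L₀, hL⟩ := eventually_atTop.1 ((eventually_all_finset P).2 fun q _ => key q q.2)
  refine ⟨L₀, fun L h x x' => ?_⟩
  obtain ⟨q, h3, h4⟩ := hP x
  obtain ⟨v, h5, h6⟩ := hL L h q h3 x'
  have h7 : dist v q ≤ δ := by simpa using h5 0 le_rfl
  obtain ⟨w, h8, h9⟩ := lh.br v x (by linarith [dist_triangle_right v x q])
  refine ⟨w, h9.mono le_rfl hε.1, ?_⟩
  linarith [dist_triangle ((g ^ (L : ℤ)) w) ((g ^ (L : ℤ)) v) x', h8 L (by omega), hε.2]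


end Pool.Agent.P.MP_5c499f_an
end

-- part Pool.Agent.P.MP_5c499f_an.XMain
section

/-! Assembly. -/

set_option autoImplicit false

namespace Pool.Agent.P.MP_5c499f_an

open Bundle Filter Topology
open scoped Manifold ContDiff

lemma exists_rep {Γ : Type*} [Group Γ] {d : ℕ} {A : Γ → Fin d → ℝ}
    (h1 : ∀ γ γ', A (γ * γ') = A γ + A γ') (h2 : ∀ γ, A γ = 0 → γ = 1) :
    ∃ ρ : Γ →* GL (Fin d) ℂ, Function.Injective ρ := by
  have h0 : A 1 = 0 := by simpa using h1 1 1
  let φ : Γ →* Matrix (Fin d) (Fin d) ℂ :=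
    { toFun := fun γ => Matrix.diagonal fun k => (Real.exp (A γ k) : ℂ)
      map_one' := by simp [h0]
      map_mul' := fun γ γ' => by
        simp only [h1, Matrix.diagonal_mul_diagonal, Pi.add_apply, Real.exp_add, Complex.ofReal_mul] }
  refine ⟨φ.toHomUnits, (injective_iff_map_eq_one _).2 fun γ e => h2 γ (funext fun k => ?_)⟩
  have e1 : (Matrix.diagonal fun k => (Real.exp (A γ k) : ℂ)) = 1 := congrArg Units.val e
  have e2 := congrFun (congrFun e1 k) k
  rw [Matrix.diagonal_apply_eq, Matrix.one_apply_eq, Complex.ofReal_eq_one, Real.exp_eq_one_iff] at e2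
  exact e2

theorem cup_infranil {E : Type*} [NormedAddCommGroup E] [NormedSpace ℝ E] [FiniteDimensional ℝ E]
    {M : Type*} [TopologicalSpace M] [T2Space M] [CompactSpace M] [ConnectedSpace M]
    [ChartedSpace E M] [IsManifold 𝓘(ℝ, E) ∞ M]
    [RiemannianBundle fun x : M => TangentSpace 𝓘(ℝ, E) x]
    [IsContinuousRiemannianBundle E fun x : M => TangentSpace 𝓘(ℝ, E) x]
    (f : Diffeomorph 𝓘(ℝ, E) 𝓘(ℝ, E) M M 1) (hf : IsAnosov E f)
    (nw : ∀ U : Set M, IsOpen U → U.Nonempty → ∃ n, 0 < n ∧ (f^[n] '' U ∩ U).Nonempty)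
    {k : ℕ} (ho : Oriented E f.symm k) (hc : CupGen E M k) : InfranilConj f := by
  obtain ⟨n, e, e1, e2, e3⟩ := exists_embedding_euclidean_of_compact (I := 𝓘(ℝ, E)) (M := M)
  let _ := e2.isEmbedding.comapMetricSpace e
  have he : ∀ x y : M, dist x y = ‖e x - e y‖ := fun x y => dist_eq_norm (e x) (e y)
  obtain ⟨r, U, em⟩ := exists_emb he e1 e3
  obtain ⟨α, a1, a2⟩ := ho
  choose v v1 v2 using a2
  obtain ⟨Pr, Io, C₀, b1, b2⟩ := exists_amb em f hf fun x => ⟨v x, Form.indep (v1 x), v2 x⟩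
  obtain ⟨⟨σ, C₁, loc⟩, b3⟩ := core'' he (e1.of_le (by simp)) e3 f hf
  obtain ⟨K, k0, ⟨a, A⟩, a', b', Λ, Λ', hy, sh⟩ := ((eventually_gt_atTop 0).and (b2.and b3)).exists
  have := ChartedSpace.locallyPathConnectedSpace E M
  have : PathConnectedSpace M := pathConnectedSpace_iff_connectedSpace.2 inferInstance
  obtain ⟨x₀⟩ : Nonempty M := inferInstance
  obtain ⟨G, Φ, g1, g2, g3, g4⟩ := loc.lift f.toHomeomorph x₀
  have := Cov.simplyConn (h := loc) (x₀ := x₀)
  have := (Cov.isCov (h := loc) (x₀ := x₀)).locPath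
  have surj : Function.Surjective (Cov.pt : Cov loc x₀ → M) := Cov.quot.surjective
  obtain ⟨T, t1, t2⟩ := Cov.isCov.fg Cov.dist_smul Cov.smul_pt Cov.free Cov.transitive surj _
    fun _ => Cov.reach'
  obtain ⟨gps, d, A', c1, c2⟩ := top (F := G ^ K) (Φ := Φ ^ K) A Cov.isCov Cov.dist_smul Cov.smul_pt
    Cov.free Cov.transitive surj
    (fun y => by simpa using semiconj_zpow (F := f.toEquiv) g1 K y)
    (by simpa using uc_zpow g2 g3 K) (by simpa using uc_zpow g2 g3 (-K))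
    (fun γ y => by simpa using equiv_zpow (act := fun γ y => γ • y) g4 K γ y) hy
    (mix_of_nw f.continuous f.symm.continuous k0 hy sh nw) t1 t2
    (fun t => em.contDiffOn ((a1 t).1.of_le (by simp)))
    (fun t i => em.contDiffOn (((a1 t).2 i).of_le (by simp)))
    (fun x => em.ori a1 (v1 x) fun j => (b1 x _).1 ((v2 x _).2 (Submodule.subset_span ⟨j, rfl⟩)))
    (em.cup hc)
  obtain ⟨ρ, hρ⟩ := exists_rep c1 c2
  have : IsIsometricSMul (FundamentalGroup M x₀) (Cov loc x₀) :=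
    ⟨fun γ => Isometry.of_dist_eq (Cov.dist_smul γ)⟩
  refine gps_linear_deck f hf Cov.quot ⟨G, g2.continuous, g3.continuous⟩ g1 (fun x y => ?_) ρ hρ
  have := gps x y
  simp only [← inv_pow, Equiv.Perm.coe_pow, Asym.of_pow g2 k0, Asym.of_pow g3 k0] at this
  exact this

end Pool.Agent.P.MP_5c499f_an
end
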